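import Pool.Agent.HD.Defs

set_option autoImplicit false

/-!
HD-Alg. Algebra of `2 × 2` matrices (as pairs of rows) with the norm of the largest entry: norms of
products, adjugate, determinants, and the distance of unit vectors in terms of their determinant.
-/

namespace Pool.Agent.HD

private theorem c1 (v : E2) : |v.1| ≤ ‖v‖ := norm_fst_le v

private theorem c2 (v : E2) : |v.2| ≤ ‖v‖ := norm_snd_le v

private theorem v_le {v : E2} {r : ℝ} (h1 : |v.1| ≤ r) (h2 : |v.2| ≤ r) : ‖v‖ ≤ r := by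
  rw [Prod.norm_def]
  exact max_le h1 h2

private theorem m1 (M : M2) : |M.1.1| ≤ ‖M‖ := (c1 M.1).trans (norm_fst_le M)

private theorem m2 (M : M2) : |M.1.2| ≤ ‖M‖ := (c2 M.1).trans (norm_fst_le M)

private theorem m3 (M : M2) : |M.2.1| ≤ ‖M‖ := (c1 M.2).trans (norm_snd_le M)

private theorem m4 (M : M2) : |M.2.2| ≤ ‖M‖ := (c2 M.2).trans (norm_snd_le M)

private theorem m_le {M : M2} {r : ℝ} (h1 : |M.1.1| ≤ r) (h2 : |M.1.2| ≤ r)
    (h3 : |M.2.1| ≤ r) (h4 : |M.2.2| ≤ r) : ‖M‖ ≤ r := by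
  rw [Prod.norm_def]
  exact max_le (v_le h1 h2) (v_le h3 h4)

private theorem two_terms {a b x y A X : ℝ} (ha : |a| ≤ A) (hb : |b| ≤ A) (hx : |x| ≤ X)
    (hy : |y| ≤ X) : |a * x + b * y| ≤ 2 * A * X := by
  have hA : 0 ≤ A := (abs_nonneg a).trans ha
  have h1 : |a * x| ≤ A * X := by
    rw [abs_mul]
    exact mul_le_mul ha hx (abs_nonneg _) hA
  have h2 : |b * y| ≤ A * X := by
    rw [abs_mul]
    exact mul_le_mul hb hy (abs_nonneg _) hA
  have h3 := abs_add_le (a * x) (b * y)
  linarith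

theorem norm_act_le (M : M2) (v : E2) : ‖act M v‖ ≤ 2 * ‖M‖ * ‖v‖ := by
  exact v_le (two_terms (m1 M) (m2 M) (c1 v) (c2 v)) (two_terms (m3 M) (m4 M) (c1 v) (c2 v))

theorem norm_mm_le (M N : M2) : ‖mm M N‖ ≤ 2 * ‖M‖ * ‖N‖ := by
  exact m_le (two_terms (m1 M) (m2 M) (m1 N) (m3 N)) (two_terms (m1 M) (m2 M) (m2 N) (m4 N))
    (two_terms (m3 M) (m4 M) (m1 N) (m3 N)) (two_terms (m3 M) (m4 M) (m2 N) (m4 N))

theorem norm_adj (M : M2) : ‖adj M‖ = ‖M‖ := by
  apply le_antisymm
  · refine m_le (m4 M) ?_ ?_ (m1 M)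
    · simp only [adj, abs_neg]
      exact m2 M
    · simp only [adj, abs_neg]
      exact m3 M
  · refine m_le (m4 (adj M)) ?_ ?_ (m1 (adj M))
    · have := m2 (adj M)
      simpa only [adj, abs_neg] using this
    · have := m3 (adj M)
      simpa only [adj, abs_neg] using this

theorem act_mm (M N : M2) (v : E2) : act (mm M N) v = act M (act N v) := by
  refine Prod.ext ?_ ?_ <;> simp only [act, mm] <;> ring

theorem mm_assoc (M N P : M2) : mm (mm M N) P = mm M (mm N P) := by
  refine Prod.ext (Prod.ext ?_ ?_) (Prod.ext ?_ ?_) <;> simp only [mm] <;> ring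

theorem mm_one (M : M2) : mm M ((1, 0), (0, 1)) = M := by
  refine Prod.ext (Prod.ext ?_ ?_) (Prod.ext ?_ ?_) <;> simp only [mm] <;> ring

theorem one_mm (M : M2) : mm ((1, 0), (0, 1)) M = M := by
  refine Prod.ext (Prod.ext ?_ ?_) (Prod.ext ?_ ?_) <;> simp only [mm] <;> ring

theorem act_one (v : E2) : act ((1, 0), (0, 1)) v = v := by
  refine Prod.ext ?_ ?_ <;> simp only [act] <;> ring

theorem dt_mm (M N : M2) : dt (mm M N) = dt M * dt N := by
  simp only [dt, mm]
  ring

theorem act_adj_act (M : M2) (v : E2) : act (adj M) (act M v) = dt M • v := by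
  refine Prod.ext ?_ ?_ <;> simp only [act, adj, dt, Prod.smul_fst, Prod.smul_snd, smul_eq_mul] <;>
    ring

theorem act_act_adj (M : M2) (v : E2) : act M (act (adj M) v) = dt M • v := by
  refine Prod.ext ?_ ?_ <;> simp only [act, adj, dt, Prod.smul_fst, Prod.smul_snd, smul_eq_mul] <;>
    ring

theorem act_add (M : M2) (u v : E2) : act M (u + v) = act M u + act M v := by
  refine Prod.ext ?_ ?_ <;> simp only [act, Prod.fst_add, Prod.snd_add] <;> ring

theorem act_sub (M : M2) (u v : E2) : act M (u - v) = act M u - act M v := by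
  refine Prod.ext ?_ ?_ <;> simp only [act, Prod.fst_sub, Prod.snd_sub] <;> ring

theorem act_neg (M : M2) (v : E2) : act M (-v) = -act M v := by
  refine Prod.ext ?_ ?_ <;> simp only [act, Prod.fst_neg, Prod.snd_neg] <;> ring

theorem act_smul (M : M2) (t : ℝ) (v : E2) : act M (t • v) = t • act M v := by
  refine Prod.ext ?_ ?_ <;> simp only [act, Prod.smul_fst, Prod.smul_snd, smul_eq_mul] <;> ring

theorem act_zero (M : M2) : act M 0 = 0 := by
  refine Prod.ext ?_ ?_ <;> simp only [act, Prod.fst_zero, Prod.snd_zero] <;> ring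

theorem wd_act (M : M2) (u v : E2) : wd (act M u) (act M v) = dt M * wd u v := by
  simp only [wd, act, dt]
  ring

theorem abs_wd_le (u v : E2) : |wd u v| ≤ 2 * ‖u‖ * ‖v‖ := by
  have h := two_terms (a := u.1) (b := -u.2) (x := v.2) (y := v.1) (c1 u)
    (by rw [abs_neg]; exact c2 u) (c2 v) (c1 v)
  have e : u.1 * v.2 + -u.2 * v.1 = wd u v := by
    simp only [wd]
    ring
  rwa [e] at h

theorem abs_dt_le (M : M2) : |dt M| ≤ 2 * ‖M‖ ^ 2 := by
  have h := two_terms (a := M.1.1) (b := -M.1.2) (x := M.2.2) (y := M.2.1) (m1 M)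
    (by rw [abs_neg]; exact m2 M) (m4 M) (m3 M)
  have e : M.1.1 * M.2.2 + -M.1.2 * M.2.1 = dt M := by
    simp only [dt]
    ring
  rw [e] at h
  rw [sq, ← mul_assoc]
  exact h

theorem norm_le_of_act (M : M2) (v : E2) (h : dt M ≠ 0) :
    ‖v‖ ≤ 2 * (‖M‖ / |dt M|) * ‖act M v‖ := by
  have h1 := norm_act_le (adj M) (act M v)
  rw [act_adj_act, norm_smul, norm_adj, Real.norm_eq_abs] at h1
  have h2 : 0 < |dt M| := abs_pos.mpr h
  have e : 2 * (‖M‖ / |dt M|) * ‖act M v‖ = (2 * ‖M‖ * ‖act M v‖) / |dt M| := by ring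
  rw [e, le_div_iff₀ h2, mul_comm]
  exact h1

/-- two unit vectors with a small determinant are close up to the sign -/
theorem unit_dist (u v : E2) (hu : ‖u‖ = 1) (hv : ‖v‖ = 1) :
    ‖u - v‖ ≤ 2 * |wd u v| ∨ ‖u + v‖ ≤ 2 * |wd u v| := by
  have key : ∀ u v : E2, ‖u‖ = 1 → ‖v‖ = 1 → |u.1| = 1 →
      ‖u - v‖ ≤ 2 * |wd u v| ∨ ‖u + v‖ ≤ 2 * |wd u v| := by
    intro u v hu hv h1
    have a1 := abs_le.mp ((c2 u).trans hu.le)
    have a2 := abs_le.mp ((c1 v).trans hv.le)
    have a3 := abs_le.mp ((c2 v).trans hv.le)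
    have w1 : u.1 * v.2 - u.2 * v.1 ≤ |wd u v| := le_abs_self _
    have w2 : -(u.1 * v.2 - u.2 * v.1) ≤ |wd u v| := neg_le_abs _
    have w0 : 0 ≤ |wd u v| := abs_nonneg _
    have hv' : |v.1| = 1 ∨ |v.2| = 1 := by
      rw [Prod.norm_def, Real.norm_eq_abs, Real.norm_eq_abs] at hv
      rcases max_choice |v.1| |v.2| with h | h
      · exact Or.inl (h ▸ hv)
      · exact Or.inr (h ▸ hv)
    generalize |wd u v| = w at *
    obtain ⟨x, y⟩ := u
    obtain ⟨z, t⟩ := v
    simp only at a1 a2 a3 w1 w2 h1 hv'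
    have mk1 : |x - z| ≤ 2 * w → |y - t| ≤ 2 * w → ‖((x, y) : E2) - (z, t)‖ ≤ 2 * w :=
      fun p q => v_le p q
    have mk2 : |x + z| ≤ 2 * w → |y + t| ≤ 2 * w → ‖((x, y) : E2) + (z, t)‖ ≤ 2 * w :=
      fun p q => v_le p q
    have hx : x = 1 ∨ x = -1 := eq_or_eq_neg_of_abs_eq h1
    rcases hv' with h2 | h2
    · have hz : z = 1 ∨ z = -1 := eq_or_eq_neg_of_abs_eq h2
      rcases hx with rfl | rfl <;> rcases hz with rfl | rfl
      · left; apply mk1 <;> rw [abs_le] <;> constructor <;> linarith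
      · right; apply mk2 <;> rw [abs_le] <;> constructor <;> linarith
      · right; apply mk2 <;> rw [abs_le] <;> constructor <;> linarith
      · left; apply mk1 <;> rw [abs_le] <;> constructor <;> linarith
    · have ht : t = 1 ∨ t = -1 := eq_or_eq_neg_of_abs_eq h2
      rcases hx with rfl | rfl <;> rcases ht with rfl | rfl <;>
        rcases le_total 0 y with hy | hy <;> rcases le_total 0 z with hz | hz
      all_goals first
        | (left; apply mk1 <;> rw [abs_le] <;> constructor <;> nlinarith)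
        | (right; apply mk2 <;> rw [abs_le] <;> constructor <;> nlinarith)
  have hu' : |u.1| = 1 ∨ |u.2| = 1 := by
    rw [Prod.norm_def, Real.norm_eq_abs, Real.norm_eq_abs] at hu
    rcases max_choice |u.1| |u.2| with h | h
    · exact Or.inl (h ▸ hu)
    · exact Or.inr (h ▸ hu)
  rcases hu' with h1 | h1
  · exact key u v hu hv h1
  · -- exchange the two coordinates
    have hs : ∀ p : E2, ‖p.swap‖ = ‖p‖ := fun p => by
      rw [Prod.norm_def, Prod.norm_def, max_comm]
      rfl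
    have h := key u.swap v.swap (by rw [hs, hu]) (by rw [hs, hv]) h1
    have e1 : |wd u.swap v.swap| = |wd u v| := by
      rw [← abs_neg]
      congr 1
      simp only [wd, Prod.fst_swap, Prod.snd_swap]
      ring
    rw [e1] at h
    rcases h with h | h
    · left
      rwa [← Prod.swap_sub, hs] at h
    · right
      rwa [← Prod.swap_add, hs] at h

theorem unit_par (u v : E2) (hu : ‖u‖ = 1) (hv : ‖v‖ = 1) (h : wd u v = 0) :
    v = u ∨ v = -u := by
  rcases unit_dist u v hu hv with h1 | h1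
  · rw [h, abs_zero, mul_zero] at h1
    left
    exact (sub_eq_zero.mp (norm_le_zero_iff.mp h1)).symm
  · rw [h, abs_zero, mul_zero] at h1
    right
    exact (neg_eq_of_add_eq_zero_right (norm_le_zero_iff.mp h1)).symm

theorem continuous_act : Continuous fun x : M2 × E2 => act x.1 x.2 := by
  unfold act
  fun_prop

theorem continuous_wd : Continuous fun x : E2 × E2 => wd x.1 x.2 := by
  unfold wd
  fun_prop

theorem continuous_mm : Continuous fun x : M2 × M2 => mm x.1 x.2 := by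
  unfold mm
  fun_prop

end Pool.Agent.HD
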