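import Pool.Agent.HD.Filt

set_option autoImplicit false

/-!
HD-Supp. An invariant probability measure of the Henon map lives on the bounded orbits; the inverse is ergodic, too.

`Gi` is the inverse homeomorphism of `G`, so it preserves `μ` and has the same invariant sets. By Poincare recurrence, almost
every point of a ball returns to it infinitely often under `G` and under `Gi`; `filt` bounds the orbits of such points.
-/

namespace Pool.Agent.HD

open MeasureTheory

theorem mp_Gi {b c : ℝ} (hb : b ≠ 0) {μ : Measure E2} (hμ : MeasurePreserving (G 1 b c) μ μ) :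
    MeasurePreserving (Gi 1 b c) μ μ := by
  have hme : Measurable (Gi 1 b c) := (continuous_Gi 1 b c).measurable
  refine ⟨hme, ?_⟩
  have h1 : Measure.map (Gi 1 b c) (Measure.map (G 1 b c) μ) = μ := by
    rw [Measure.map_map hme hμ.measurable]
    have h2 : Gi 1 b c ∘ G 1 b c = id := by
      funext p
      exact Gi_G hb p
    rw [h2, Measure.map_id]
  rw [hμ.map_eq] at h1
  exact h1

theorem ergodic_Gi {b c : ℝ} (hb : b ≠ 0) {μ : Measure E2} (hμ : Ergodic (G 1 b c) μ) :
    Ergodic (Gi 1 b c) μ := by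
  refine ⟨mp_Gi hb hμ.toMeasurePreserving, ⟨?_⟩⟩
  intro s hs hinv
  refine hμ.toPreErgodic.aeconst_set hs ?_
  ext p
  have h1 : G 1 b c p ∈ s ↔ Gi 1 b c (G 1 b c p) ∈ s := by
    conv_lhs => rw [← hinv]
    rfl
  rw [Set.mem_preimage, h1, Gi_G hb]

theorem supp {b c : ℝ} (hb0 : b ≠ 0) (hb1 : |b| < 1) {μ : Measure E2} [IsProbabilityMeasure μ]
    (hμ : MeasurePreserving (G 1 b c) μ μ) :
    ∀ᵐ p ∂μ, (∀ n : ℕ, ‖(G 1 b c)^[n] p‖ ≤ |c| + 4) ∧
      ∀ n : ℕ, ‖(Gi 1 b c)^[n] p‖ ≤ |c| + 4 := by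
  have hc1 := hμ.conservative
  have hc2 := (mp_Gi hb0 hμ).conservative
  have hball : ∀ M : ℕ, NullMeasurableSet {p : E2 | ‖p‖ ≤ (M : ℝ)} μ := fun M =>
    (measurableSet_le measurable_norm measurable_const).nullMeasurableSet
  have h1 := ae_all_iff.2 fun M : ℕ => hc1.ae_mem_imp_frequently_image_mem (hball M)
  have h2 := ae_all_iff.2 fun M : ℕ => hc2.ae_mem_imp_frequently_image_mem (hball M)
  filter_upwards [h1, h2] with p hp1 hp2
  obtain ⟨M, hM⟩ := exists_nat_ge ‖p‖
  exact filt hb0 hb1 (hp1 M hM) (hp2 M hM)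

end Pool.Agent.HD
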