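import Pool.Agent.HD.Uq
import Pool.Agent.HD.Supp

set_option autoImplicit false

/-!
HD-Angle. The contracted and the expanded direction are different almost everywhere.

The compact sets of the regular points where the two directions agree do not contain recurrent points
(`angle_no_return`), so they are null sets by Poincare recurrence.
-/

namespace Pool.Agent.HD

open MeasureTheory

private theorem angle_swap (v : E2) : ‖v.swap‖ = ‖v‖ := by
  rw [Prod.norm_def, Prod.norm_def, max_comm]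
  rfl

/-- if the two directions agree at the image `G^[n] p` of a regular point then `n` is bounded -/
private theorem angle_no_return {b c χ δ R C : ℝ} (hb0 : b ≠ 0) (hb1 : |b| < 1) (hδ : 0 < δ)
    (hχ : 100 * δ ≤ χ) {p V V' U' : E2} (n : ℕ)
    (h : Reg 1 b c (χ - Real.log |b|) δ R C p V)
    (h1 : Reg 1 b c (χ - Real.log |b|) δ R C ((G 1 b c)^[n] p) V')
    (h2 : Reg (1 / b) (1 / b) (c / b) χ δ R C ((G 1 b c)^[n] p).swap U'.swap)
    (hw : wd V' U' = 0) : 1 ≤ C ^ 2 * Real.exp (-(χ - 3 * δ) * n) := by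
  have hlog : Real.log |b| < 0 := Real.log_neg (abs_pos.2 hb0) hb1
  have hC : 1 ≤ C := h.one_le
  obtain ⟨ρ, hρ⟩ : ∃ ρ, ρ = χ - Real.log |b| := ⟨_, rfl⟩
  rw [← hρ] at h h1
  obtain ⟨Vn, hVn⟩ : ∃ Vn, Vn = act (co 1 b c p n) V := ⟨_, rfl⟩
  have hpos : 0 < ‖Vn‖ := by
    have h3 := h.low hb0 n
    rw [← hVn] at h3
    have h4 := Real.exp_pos (-(ρ + δ) * n)
    by_contra hc
    have h5 : ‖Vn‖ = 0 := le_antisymm (not_lt.1 hc) (norm_nonneg _)
    rw [h5, mul_zero] at h3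
    linarith
  obtain ⟨t, ht⟩ : ∃ t, t = ‖Vn‖⁻¹ := ⟨_, rfl⟩
  have ht0 : 0 < t := by rw [ht]; exact inv_pos.2 hpos
  have hcon : ∀ m : ℕ, ‖act (co 1 b c ((G 1 b c)^[n] p) m) (t • Vn)‖ ≤
      (t * C * Real.exp (-(ρ - 3 * δ) * n)) * Real.exp (-(ρ - 3 * δ) * m) := by
    intro m
    rw [act_smul, norm_smul, hVn, ← act_mm, ← co_add, Real.norm_eq_abs, abs_of_pos ht0]
    have h3 := h.con (n + m)
    have h4 : -(ρ - 3 * δ) * ((n + m : ℕ) : ℝ) = -(ρ - 3 * δ) * n + -(ρ - 3 * δ) * m := by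
      push_cast
      ring
    rw [h4, Real.exp_add] at h3
    calc t * ‖act (co 1 b c p (n + m)) V‖
        ≤ t * (C * (Real.exp (-(ρ - 3 * δ) * n) * Real.exp (-(ρ - 3 * δ) * m))) :=
          mul_le_mul_of_nonneg_left h3 ht0.le
      _ = _ := by ring
  have hunit : ‖t • Vn‖ = 1 := by
    rw [norm_smul, Real.norm_eq_abs, abs_of_pos ht0, ht, inv_mul_cancel₀ hpos.ne']
  have hdir := uniq_dir hb0 h1.unit hunit h1.con hcon (by linarith)
  have hU : ‖U'‖ = 1 := by
    rw [← angle_swap]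
    exact h2.unit
  have hpar := unit_par V' U' h1.unit hU hw
  have hUW : U' = t • Vn ∨ U' = -(t • Vn) := by
    rcases hdir with e | e <;> rcases hpar with e' | e' <;> rw [e, e'] <;> simp
  have h5 := h2.con n
  rw [act_co_swap hb0, Gi_iter_G_iter hb0, angle_swap] at h5
  have h7 : act (adj (co 1 b c p n)) (t • Vn) = (t * b ^ n) • V := by
    rw [act_smul, hVn, act_adj_act, dt_co, smul_smul]
  have hbn : b ^ n ≠ 0 := pow_ne_zero n hb0
  have h8 : (b ^ n)⁻¹ • act (adj (co 1 b c p n)) (t • Vn) = t • V := by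
    rw [h7, smul_smul]
    congr 1
    field_simp
  have h6 : ‖(b ^ n)⁻¹ • act (adj (co 1 b c p n)) U'‖ = t := by
    rcases hUW with e | e
    · rw [e, h8, norm_smul, h.unit, mul_one, Real.norm_eq_abs, abs_of_pos ht0]
    · rw [e, act_neg, smul_neg, norm_neg, h8, norm_smul, h.unit, mul_one, Real.norm_eq_abs,
        abs_of_pos ht0]
  rw [h6] at h5
  have h9 : ‖Vn‖ ≤ C := by
    have h10 := h.con n
    rw [← hVn] at h10
    have h11 : Real.exp (-(ρ - 3 * δ) * n) ≤ 1 := by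
      apply Real.exp_le_one_iff.2
      have : (0 : ℝ) ≤ n := Nat.cast_nonneg n
      have h12 : 0 ≤ (ρ - 3 * δ) * n := mul_nonneg (by linarith) this
      linarith
    calc ‖Vn‖ ≤ C * Real.exp (-(ρ - 3 * δ) * n) := h10
      _ ≤ C * 1 := mul_le_mul_of_nonneg_left h11 (by linarith)
      _ = C := mul_one C
  calc (1 : ℝ) = ‖Vn‖ * t := by rw [ht, mul_inv_cancel₀ hpos.ne']
    _ ≤ C * (C * Real.exp (-(χ - 3 * δ) * n)) := mul_le_mul h9 h5 ht0.le (by linarith)
    _ = C ^ 2 * Real.exp (-(χ - 3 * δ) * n) := by ring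

/-- the points where the two directions agree -/
private def angleSet (b c χ δ R : ℝ) (C : ℝ) : Set E2 :=
  {p | ∃ V U : E2, Reg 1 b c (χ - Real.log |b|) δ R C p V ∧
    Reg (1 / b) (1 / b) (c / b) χ δ R C p.swap U.swap ∧ wd V U = 0}

private theorem angleSet_compact (b c χ δ R C : ℝ) : IsCompact (angleSet b c χ δ R C) := by
  have hK1 := reg_compact 1 b c (χ - Real.log |b|) δ R C
  have hK2 := reg_compact (1 / b) (1 / b) (c / b) χ δ R C
  have hcl : IsClosed {y : (E2 × E2) × (E2 × E2) | y.2.1 = y.1.1.swap ∧ wd y.1.2 y.2.2.swap = 0} := by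
    apply IsClosed.inter
    · exact isClosed_eq (by fun_prop) (continuous_swap.comp (by fun_prop))
    · apply isClosed_eq _ continuous_const
      have h1 : Continuous fun y : (E2 × E2) × (E2 × E2) => ((y.1.2, y.2.2.swap) : E2 × E2) :=
        Continuous.prodMk (by fun_prop) (continuous_swap.comp (by fun_prop))
      exact continuous_wd.comp h1
  have hcomp := ((hK1.prod hK2).inter_right hcl).image
    (f := fun y : (E2 × E2) × (E2 × E2) => y.1.1) (by fun_prop)
  have heq : angleSet b c χ δ R C = (fun y : (E2 × E2) × (E2 × E2) => y.1.1) ''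
      ({x : E2 × E2 | Reg 1 b c (χ - Real.log |b|) δ R C x.1 x.2} ×ˢ
        {x : E2 × E2 | Reg (1 / b) (1 / b) (c / b) χ δ R C x.1 x.2} ∩
        {y : (E2 × E2) × (E2 × E2) | y.2.1 = y.1.1.swap ∧ wd y.1.2 y.2.2.swap = 0}) := by
    ext p
    constructor
    · rintro ⟨V, U, h1, h2, h3⟩
      refine ⟨((p, V), (p.swap, U.swap)), ⟨⟨h1, h2⟩, rfl, ?_⟩, rfl⟩
      rw [Prod.swap_swap]
      exact h3
    · rintro ⟨⟨⟨q, V⟩, ⟨r, W⟩⟩, ⟨⟨h1, h2⟩, h3, h4⟩, rfl⟩
      have h3' : r = q.swap := h3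
      subst h3'
      refine ⟨V, W.swap, h1, ?_, h4⟩
      rw [Prod.swap_swap]
      exact h2
  rw [heq]
  exact hcomp

theorem angle {b c χ δ R : ℝ} (hb0 : b ≠ 0) (hb1 : |b| < 1) (hδ : 0 < δ) (hχ : 100 * δ ≤ χ)
    {μ : Measure E2} [IsProbabilityMeasure μ] (hμ : MeasurePreserving (G 1 b c) μ μ) :
    ∀ᵐ p ∂μ, ∀ (C : ℝ) (V U : E2), Reg 1 b c (χ - Real.log |b|) δ R C p V →
      Reg (1 / b) (1 / b) (c / b) χ δ R C p.swap U.swap → wd V U ≠ 0 := by
  have key : ∀ C : ℕ, ∀ᵐ p ∂μ, p ∉ angleSet b c χ δ R C := by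
    intro C
    have hm : MeasurableSet (angleSet b c χ δ R C) := (angleSet_compact b c χ δ R C).measurableSet
    have hrec := hμ.conservative.ae_mem_imp_frequently_image_mem hm.nullMeasurableSet
    filter_upwards [hrec] with p hp hmem
    have hfr := hp hmem
    obtain ⟨V, U, hV, hU, hw⟩ := hmem
    have hlim : Filter.Tendsto (fun n : ℕ => (C : ℝ) ^ 2 * Real.exp (-(χ - 3 * δ) * n))
        Filter.atTop (nhds ((C : ℝ) ^ 2 * 0)) := by
      apply Filter.Tendsto.const_mul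
      refine Real.tendsto_exp_atBot.comp ?_
      refine Filter.Tendsto.const_mul_atTop_of_neg (by linarith) tendsto_natCast_atTop_atTop
    rw [mul_zero] at hlim
    have hev := hlim.eventually_lt_const (zero_lt_one)
    obtain ⟨n, hn1, hn2⟩ := (hfr.and_eventually hev).exists
    obtain ⟨V', U', hV', hU', hw'⟩ := hn1
    have := angle_no_return hb0 hb1 hδ hχ n hV hV' hU' hw'
    linarith
  have key' : ∀ᵐ p ∂μ, ∀ C : ℕ, p ∉ angleSet b c χ δ R C := ae_all_iff.2 key
  filter_upwards [key'] with p hp C V U hV hU hw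
  refine hp ⌈C⌉₊ ⟨V, U, hV.mono (Nat.le_ceil C) le_rfl, hU.mono (Nat.le_ceil C) le_rfl, hw⟩


end Pool.Agent.HD
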