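import Pool.Agent.HD.Orb

set_option autoImplicit false

/-!
HD-Area. The inverse of the Henon map expands the area; no loops: there is no bounded open set whose frontier
has bounded backward orbits.
-/

namespace Pool.Agent.HD

open MeasureTheory

private theorem vol_line {b : ℝ} (hb : b ≠ 0) (α : ℝ) (A : Set ℝ) :
    volume ((fun y : ℝ => α - b * y) ⁻¹' A) = ENNReal.ofReal |b|⁻¹ * volume A := by
  have h1 : (fun y : ℝ => α - b * y) ⁻¹' A = (fun y : ℝ => (-b) * y) ⁻¹' ((fun z => α + z) ⁻¹' A) := by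
    ext y
    simp only [Set.mem_preimage]
    rw [neg_mul, sub_eq_add_neg]
  rw [h1, Real.volume_preimage_mul_left (neg_ne_zero.2 hb), measure_preimage_add, abs_inv, abs_neg]

private theorem image_Gi {b c : ℝ} (hb : b ≠ 0) (S : Set E2) :
    Gi 1 b c '' S = G 1 b c ⁻¹' S := by
  rw [Set.image_eq_preimage_of_inverse (fun p => G_Gi hb p) (fun p => Gi_G hb p)]

private theorem image_Gi_iter {b c : ℝ} (hb : b ≠ 0) (n : ℕ) (S : Set E2) :
    (Gi 1 b c)^[n] '' S = (G 1 b c)^[n] ⁻¹' S := by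
  rw [Set.image_eq_preimage_of_inverse (fun p => G_iter_Gi_iter hb n p)
    (fun p => Gi_iter_G_iter hb n p)]

theorem vol_Gi {b c : ℝ} (hb : b ≠ 0) {S : Set E2} (hS : MeasurableSet S) :
    volume (Gi 1 b c '' S) = ENNReal.ofReal |b|⁻¹ * volume S := by
  rw [image_Gi hb]
  have hm : MeasurableSet (G 1 b c ⁻¹' S) := (continuous_G 1 b c).measurable hS
  have h1 : volume (G 1 b c ⁻¹' S) = ∫⁻ x : ℝ, volume (Prod.mk x ⁻¹' (G 1 b c ⁻¹' S)) := by
    rw [Measure.volume_eq_prod, Measure.prod_apply hm]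
  have h2 : volume S = ∫⁻ x : ℝ, volume ((fun z : ℝ => (z, x)) ⁻¹' S) := by
    rw [Measure.volume_eq_prod, Measure.prod_apply_symm hS]
  rw [h1, h2, ← lintegral_const_mul' _ _ ENNReal.ofReal_ne_top]
  refine lintegral_congr fun x => ?_
  rw [← vol_line hb (1 * x ^ 2 + c)]
  rfl

private theorem vol_Gi_iter {b c : ℝ} (hb : b ≠ 0) {U : Set E2} (hU : IsOpen U) (n : ℕ) :
    volume ((Gi 1 b c)^[n] '' U) = ENNReal.ofReal |b|⁻¹ ^ n * volume U := by
  induction n with
  | zero => simp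
  | succ n ih =>
    have h1 : IsOpen ((Gi 1 b c)^[n] '' U) := by
      rw [image_Gi_iter hb]
      exact hU.preimage (continuous_G_iter 1 b c n)
    rw [Function.iterate_succ', Set.image_comp, vol_Gi hb h1.measurableSet, ih, pow_succ']
    ring

private theorem norm_le_max {b c : ℝ} (hb : b ≠ 0) {U : Set E2} (hU : IsOpen U)
    (hne : U.Nonempty) (hbd : Bornology.IsBounded U) {M : ℝ} (n : ℕ)
    (h : ∀ z ∈ frontier U, ‖(Gi 1 b c)^[n] z‖ ≤ M) :
    ∀ z ∈ U, ‖(Gi 1 b c)^[n] z‖ ≤ max M 0 := by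
  have hc : IsCompact (closure U) := hbd.isCompact_closure
  have hcont : ContinuousOn (fun z => ‖(Gi 1 b c)^[n] z‖) (closure U) :=
    (continuous_norm.comp (continuous_Gi_iter 1 b c n)).continuousOn
  obtain ⟨z0, hz0, hmax⟩ := hc.exists_isMaxOn hne.closure hcont
  have hmax' : ∀ z ∈ closure U, ‖(Gi 1 b c)^[n] z‖ ≤ ‖(Gi 1 b c)^[n] z0‖ := hmax
  have key : ‖(Gi 1 b c)^[n] z0‖ ≤ max M 0 := by
    by_cases hzU : z0 ∈ U
    · refine le_trans ?_ (le_max_right M 0)
      have hop : IsOpen ((Gi 1 b c)^[n] '' U) := by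
        rw [image_Gi_iter hb]
        exact hU.preimage (continuous_G_iter 1 b c n)
      have hw : (Gi 1 b c)^[n] z0 ∈ (Gi 1 b c)^[n] '' U := ⟨z0, hzU, rfl⟩
      have ht : Filter.Tendsto (fun ε : ℝ => (1 + ε) • (Gi 1 b c)^[n] z0)
          (nhdsWithin 0 (Set.Ioi 0)) (nhds ((Gi 1 b c)^[n] z0)) := by
        have h1 : Continuous (fun ε : ℝ => (1 + ε) • (Gi 1 b c)^[n] z0) := by fun_prop
        have h2 := h1.tendsto 0
        rw [add_zero, one_smul] at h2
        exact h2.mono_left nhdsWithin_le_nhds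
      have hev := ht.eventually (hop.mem_nhds hw)
      obtain ⟨ε, hε1, hε2⟩ := (hev.and self_mem_nhdsWithin).exists
      obtain ⟨z1, hz1, hz1'⟩ := hε1
      have hε : (0 : ℝ) < ε := hε2
      have h3 := hmax' z1 (subset_closure hz1)
      have h4 : (Gi 1 b c)^[n] z1 = (1 + ε) • (Gi 1 b c)^[n] z0 := hz1'
      rw [h4, norm_smul, Real.norm_of_nonneg (by linarith)] at h3
      have h5 := norm_nonneg ((Gi 1 b c)^[n] z0)
      nlinarith
    · have hf : z0 ∈ frontier U := by
        rw [hU.frontier_eq]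
        exact ⟨hz0, hzU⟩
      exact (h z0 hf).trans (le_max_left M 0)
  exact fun z hz => (hmax' z (subset_closure hz)).trans key

/-- no loops in the set of points with bounded backward orbits -/
theorem noLoop {b c : ℝ} (hb0 : b ≠ 0) (hb1 : |b| < 1) {U : Set E2} (hU : IsOpen U)
    (hne : U.Nonempty) (hbd : Bornology.IsBounded U) {M : ℝ}
    (h : ∀ z ∈ frontier U, ∀ n : ℕ, ‖(Gi 1 b c)^[n] z‖ ≤ M) : False := by
  have hb := hb0
  have hr : 1 < |b|⁻¹ := (one_lt_inv₀ (abs_pos.2 hb0)).2 hb1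
  have hsub : ∀ n : ℕ, (Gi 1 b c)^[n] '' U ⊆ Metric.closedBall (0 : E2) (max M 0) := by
    rintro n w ⟨z, hz, rfl⟩
    rw [mem_closedBall_zero_iff]
    exact norm_le_max hb hU hne hbd n (fun z hz => h z hz n) z hz
  have hB : volume (Metric.closedBall (0 : E2) (max M 0)) ≠ ⊤ :=
    (isCompact_closedBall _ _).measure_lt_top.ne
  have hv0 : volume U ≠ 0 := (hU.measure_pos volume hne).ne'
  have hv1 : volume U ≠ ⊤ := hbd.measure_lt_top.ne
  have hle : ∀ n : ℕ, |b|⁻¹ ^ n * (volume U).toReal ≤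
      (volume (Metric.closedBall (0 : E2) (max M 0))).toReal := by
    intro n
    have h1 := measure_mono (μ := volume) (hsub n)
    rw [vol_Gi_iter hb hU n] at h1
    have h2 := ENNReal.toReal_mono hB h1
    rw [ENNReal.toReal_mul, ENNReal.toReal_pow, ENNReal.toReal_ofReal (by positivity)] at h2
    exact h2
  have hvpos : 0 < (volume U).toReal := ENNReal.toReal_pos hv0 hv1
  obtain ⟨n, hn⟩ := pow_unbounded_of_one_lt
    ((volume (Metric.closedBall (0 : E2) (max M 0))).toReal / (volume U).toReal) hr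
  rw [div_lt_iff₀ hvpos] at hn
  exact absurd (hle n) (not_le.2 hn)

end Pool.Agent.HD
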