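import Pool.Agent.HD.Uq

set_option autoImplicit false

/-!
HD-Back. Transport of regular points and branches by the inverse map: with `p' = Gi a b c p`, the direction at
`p'` is `V' = t⁻¹ • W` with `act (der a b p') W = V` and `t = ‖W‖`; the asymptotic coordinate is multiplied by `t`.
-/

namespace Pool.Agent.HD

variable {a b c ρ δ R C : ℝ} {p V : E2}

private theorem back_dt (a b : ℝ) (p : E2) : dt (der a b p) = b := by
  simp only [dt, der]
  ring

private theorem back_co (hb : b ≠ 0) (p : E2) (n : ℕ) :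
    co a b c (Gi a b c p) (n + 1) = mm (co a b c p n) (der a b (Gi a b c p)) := by
  rw [add_comm, co_add, co_one, Function.iterate_one, G_Gi hb]

private theorem back_iter_succ (hb : b ≠ 0) (p : E2) (n : ℕ) :
    (G a b c)^[n + 1] (Gi a b c p) = (G a b c)^[n] p := by
  rw [Function.iterate_succ_apply, G_Gi hb]

private theorem back_exp (x : ℝ) (n : ℕ) :
    Real.exp (-x * ((n : ℕ) : ℝ)) = Real.exp x * Real.exp (-x * ((n + 1 : ℕ) : ℝ)) := by
  rw [← Real.exp_add]
  congr 1
  push_cast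
  ring

/-- the preimage direction -/
private theorem back_dir (hb : b ≠ 0) (p' V : E2) (hV : ‖V‖ = 1) :
    ∃ V' : E2, ∃ t : ℝ, 0 < t ∧ ‖V'‖ = 1 ∧ act (der a b p') V' = t⁻¹ • V := by
  set W : E2 := b⁻¹ • act (adj (der a b p')) V with hW
  have hW1 : act (der a b p') W = V := by
    rw [hW, act_smul, act_act_adj, back_dt, smul_smul, inv_mul_cancel₀ hb, one_smul]
  have hW0 : W ≠ 0 := by
    intro h0
    rw [h0, act_zero] at hW1
    rw [← hW1, norm_zero] at hV
    exact zero_ne_one hV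
  have ht : 0 < ‖W‖ := norm_pos_iff.2 hW0
  refine ⟨‖W‖⁻¹ • W, ‖W‖, ht, ?_, ?_⟩
  · rw [norm_smul, norm_inv, norm_norm, inv_mul_cancel₀ ht.ne']
  · rw [act_smul, hW1]

theorem Reg.back (hb : b ≠ 0) (hδ : 0 < δ) (h : Reg a b c ρ δ R C p V)
    (hR : ‖Gi a b c p‖ ≤ R) :
    ∃ C' : ℝ, ∃ V' : E2, ∃ t : ℝ, 0 < t ∧ Reg a b c ρ δ R C' (Gi a b c p) V' ∧
      ∀ (s : ℝ) (q : E2), Asym a b c ρ p V s q ↔
        Asym a b c ρ (Gi a b c p) V' (t * s) (Gi a b c q) := by
  obtain ⟨V', t, ht, hV', hact⟩ := back_dir (a := a) hb (Gi a b c p) V h.unit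
  have hC1 : 1 ≤ C := h.one_le
  have hactn : ∀ n : ℕ, act (co a b c (Gi a b c p) (n + 1)) V' = t⁻¹ • act (co a b c p n) V := by
    intro n
    rw [back_co hb, act_mm, hact, act_smul]
  set K : ℝ := max (max 1 C) (max (t⁻¹ * (C * Real.exp (ρ - 3 * δ)))
    (2 * C * ‖der a b (Gi a b c p)‖ * Real.exp (-(ρ + Real.log |b| + δ)))) with hK
  have hK1 : 1 ≤ K := (le_max_left _ _).trans (le_max_left _ _)
  have hK2 : C ≤ K := (le_max_right _ _).trans (le_max_left _ _)
  have hK3 : t⁻¹ * (C * Real.exp (ρ - 3 * δ)) ≤ K := (le_max_left _ _).trans (le_max_right _ _)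
  have hK4 : 2 * C * ‖der a b (Gi a b c p)‖ * Real.exp (-(ρ + Real.log |b| + δ)) ≤ K :=
    (le_max_right _ _).trans (le_max_right _ _)
  refine ⟨K, V', t, ht, ⟨hV', ?_, ?_, ?_⟩, ?_⟩
  · intro n
    rcases n with _ | n
    · exact hR
    · rw [back_iter_succ hb]
      exact h.bdd n
  · intro n
    rcases n with _ | n
    · have e1 : act (co a b c (Gi a b c p) 0) V' = V' := act_one V'
      rw [e1, hV', Nat.cast_zero, mul_zero, Real.exp_zero, mul_one]
      exact hK1
    · rw [hactn, norm_smul, norm_inv, Real.norm_eq_abs, abs_of_pos ht]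
      calc t⁻¹ * ‖act (co a b c p n) V‖ ≤ t⁻¹ * (C * Real.exp (-(ρ - 3 * δ) * n)) :=
            mul_le_mul_of_nonneg_left (h.con n) (inv_nonneg.2 ht.le)
        _ = t⁻¹ * (C * Real.exp (ρ - 3 * δ)) * Real.exp (-(ρ - 3 * δ) * ((n + 1 : ℕ) : ℝ)) := by
            rw [back_exp]
            ring
        _ ≤ K * Real.exp (-(ρ - 3 * δ) * ((n + 1 : ℕ) : ℝ)) :=
            mul_le_mul_of_nonneg_right hK3 (Real.exp_pos _).le
  · intro k n
    rcases k with _ | k
    · rw [Function.iterate_zero, id, Nat.cast_zero, mul_zero, add_zero]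
      rcases n with _ | n
      · have e1 : ‖co a b c (Gi a b c p) 0‖ = ‖co a b c p 0‖ := rfl
        have e2 := h.up 0 0
        simp only [Function.iterate_zero, id] at e2
        have e3 : ‖co a b c p 0‖ = 1 := by
          simp [co, Prod.norm_def]
        rw [e1, e3, Nat.cast_zero, mul_zero, Real.exp_zero, mul_one]
        exact hK1
      · rw [back_co hb]
        have h0 := h.up 0 n
        simp only [Function.iterate_zero, id, Nat.cast_zero, mul_zero, add_zero] at h0
        calc ‖mm (co a b c p n) (der a b (Gi a b c p))‖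
            ≤ 2 * ‖co a b c p n‖ * ‖der a b (Gi a b c p)‖ := norm_mm_le _ _
          _ ≤ 2 * (C * Real.exp ((ρ + Real.log |b| + δ) * n)) * ‖der a b (Gi a b c p)‖ := by
              gcongr
          _ = 2 * C * ‖der a b (Gi a b c p)‖ * Real.exp (-(ρ + Real.log |b| + δ)) *
                Real.exp ((ρ + Real.log |b| + δ) * ((n + 1 : ℕ) : ℝ)) := by
              have e4 : Real.exp ((ρ + Real.log |b| + δ) * n) =
                  Real.exp (-(ρ + Real.log |b| + δ)) *
                    Real.exp ((ρ + Real.log |b| + δ) * ((n + 1 : ℕ) : ℝ)) := by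
                rw [← Real.exp_add]
                congr 1
                push_cast
                ring
              rw [e4]
              ring
          _ ≤ K * Real.exp ((ρ + Real.log |b| + δ) * ((n + 1 : ℕ) : ℝ)) :=
              mul_le_mul_of_nonneg_right hK4 (Real.exp_pos _).le
    · rw [back_iter_succ hb]
      have h0 := h.up k n
      have hle : Real.exp ((ρ + Real.log |b| + δ) * n + δ * k) ≤
          Real.exp ((ρ + Real.log |b| + δ) * n + δ * ((k + 1 : ℕ) : ℝ)) := by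
        apply Real.exp_le_exp.2
        push_cast
        linarith
      calc _ ≤ C * Real.exp ((ρ + Real.log |b| + δ) * n + δ * k) := h0
        _ ≤ K * Real.exp ((ρ + Real.log |b| + δ) * n + δ * ((k + 1 : ℕ) : ℝ)) := by
            gcongr
  · intro s q
    have hstep : ∀ n : ℕ, (G a b c)^[n + 1] (Gi a b c q) - (G a b c)^[n + 1] (Gi a b c p) -
        (t * s) • act (co a b c (Gi a b c p) (n + 1)) V' =
        (G a b c)^[n] q - (G a b c)^[n] p - s • act (co a b c p n) V := by
      intro n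
      rw [back_iter_succ hb, back_iter_succ hb, hactn, smul_smul]
      congr 2
      field_simp
    constructor
    · rintro ⟨D, hD⟩
      refine ⟨max ‖(G a b c)^[0] (Gi a b c q) - (G a b c)^[0] (Gi a b c p) -
        (t * s) • act (co a b c (Gi a b c p) 0) V'‖ (D * Real.exp (3 / 2 * ρ)), ?_⟩
      intro n
      rcases n with _ | n
      · rw [Nat.cast_zero, mul_zero, Real.exp_zero, mul_one]
        exact le_max_left _ _
      · rw [hstep]
        calc _ ≤ D * Real.exp (-(3 / 2 * ρ) * n) := hD n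
          _ = D * Real.exp (3 / 2 * ρ) * Real.exp (-(3 / 2 * ρ) * ((n + 1 : ℕ) : ℝ)) := by
              rw [back_exp]
              ring
          _ ≤ _ := mul_le_mul_of_nonneg_right (le_max_right _ _) (Real.exp_pos _).le
    · rintro ⟨D, hD⟩
      refine ⟨D * Real.exp (-(3 / 2 * ρ)), ?_⟩
      intro n
      have h1 := hD (n + 1)
      rw [hstep] at h1
      have e : D * Real.exp (-(3 / 2 * ρ)) * Real.exp (-(3 / 2 * ρ) * (n : ℝ)) =
          D * Real.exp (-(3 / 2 * ρ) * ((n + 1 : ℕ) : ℝ)) := by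
        rw [mul_assoc, ← Real.exp_add]
        congr 2
        push_cast
        ring
      rw [e]
      exact h1

/-- all iterates -/
theorem Reg.back_iter (hb : b ≠ 0) (hδ : 0 < δ) (h : Reg a b c ρ δ R C p V)
    (hR : ∀ n : ℕ, ‖(Gi a b c)^[n] p‖ ≤ R) (n : ℕ) :
    ∃ C' : ℝ, ∃ V' : E2, ∃ t : ℝ, 0 < t ∧ Reg a b c ρ δ R C' ((Gi a b c)^[n] p) V' ∧
      ∀ (s : ℝ) (q : E2), Asym a b c ρ p V s q ↔
        Asym a b c ρ ((Gi a b c)^[n] p) V' (t * s) ((Gi a b c)^[n] q) := by
  induction n with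
  | zero =>
    refine ⟨C, V, 1, one_pos, h, ?_⟩
    intro s q
    rw [one_mul]
    exact Iff.rfl
  | succ n ih =>
    obtain ⟨C1, V1, t1, ht1, h1, ha1⟩ := ih
    have hR1 : ‖Gi a b c ((Gi a b c)^[n] p)‖ ≤ R := by
      have e : Gi a b c ((Gi a b c)^[n] p) = (Gi a b c)^[n + 1] p :=
        (Function.iterate_succ_apply' _ _ _).symm
      rw [e]
      exact hR (n + 1)
    obtain ⟨C2, V2, t2, ht2, h2, ha2⟩ := h1.back hb hδ hR1
    refine ⟨C2, V2, t2 * t1, mul_pos ht2 ht1, ?_, ?_⟩
    · rw [Function.iterate_succ_apply']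
      exact h2
    · intro s q
      rw [ha1, ha2, Function.iterate_succ_apply', Function.iterate_succ_apply', mul_assoc]

/-- boundedness of the branch is transported -/
theorem Reg.back_bdd (hb : b ≠ 0) (hδ : 0 < δ) (h : Reg a b c ρ δ R C p V)
    (hR : ∀ n : ℕ, ‖(Gi a b c)^[n] p‖ ≤ R) {M : ℝ}
    (hM : Br a b c ρ (Metric.closedBall 0 M) p V) (n : ℕ) :
    ∃ C' : ℝ, ∃ V' : E2, ∃ M' : ℝ, Reg a b c ρ δ R C' ((Gi a b c)^[n] p) V' ∧
      Br a b c ρ (Metric.closedBall 0 M') ((Gi a b c)^[n] p) V' ∧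
      ∀ S : Set E2, Br a b c ρ S ((Gi a b c)^[n] p) V' →
        ∀ s : ℝ, 0 ≤ s → ∀ q, Asym a b c ρ p V s q → (Gi a b c)^[n] q ∈ S := by
  obtain ⟨C', V', t, ht, h', ha⟩ := h.back_iter hb hδ hR n
  have hc : IsCompact ((Gi a b c)^[n] '' Metric.closedBall (0 : E2) M) :=
    (isCompact_closedBall (0 : E2) M).image (continuous_Gi_iter a b c n)
  obtain ⟨M', hM'⟩ := hc.isBounded.subset_closedBall (0 : E2)
  refine ⟨C', V', M', h', ?_, ?_⟩
  · intro s' hs' q' hq'
    have hq : (Gi a b c)^[n] ((G a b c)^[n] q') = q' := Gi_iter_G_iter hb n q'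
    have hs : t * (t⁻¹ * s') = s' := by
      rw [← mul_assoc, mul_inv_cancel₀ ht.ne', one_mul]
    have h1 : Asym a b c ρ p V (t⁻¹ * s') ((G a b c)^[n] q') := by
      rw [ha, hs, hq]
      exact hq'
    have h2 := hM (t⁻¹ * s') (mul_nonneg (inv_nonneg.2 ht.le) hs') _ h1
    apply hM'
    exact ⟨_, h2, hq⟩
  · intro S hS s hs q hq
    exact hS (t * s) (mul_nonneg ht.le hs) _ ((ha s q).1 hq)

end Pool.Agent.HD
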