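import Pool.Agent.HD.Maxi

set_option autoImplicit false

/-!
HD-Birk. The pointwise ergodic theorem of Birkhoff for bounded functions and ergodic maps.

Plan: it is enough: if `∫ φ < c` then a.e. `limsup S_n/n ≤ c` (apply to `-φ` too), i.e. for `ψ = φ - c`, `∫ ψ < 0`: a.e.
`S_n ψ` is bounded above (then `limsup S_n ψ / n ≤ 0`). Let `E = {x | S_n ψ x not bounded above in n}`: `T⁻¹ E = E` up to a
null set, in fact exactly (`S_(n+1) ψ x = ψ x + S_n ψ (T x)`), measurable, so `μ E = 0` or `μ Eᶜ = 0` (ergodic). If a.e. `x ∈ E`,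
the sets `{∃ n ∈ [1, N], S_n ψ > 0}` increase to a set of full measure, so `∫ ψ ≥ 0` by `maximal` and dominated
convergence (`tendsto_setIntegral_of_monotone`), contradiction. Use rational `c ↓ ∫ φ` (countably many) at the end.
The bound `hC` holds a.e.; on the orbit: `∀ᵐ x, ∀ n, |φ (T^[n] x)| ≤ C` (`QuasiMeasurePreserving.ae`), or replace `φ` by
its truncation `max (-C) (min C φ)` which is a.e. equal along orbits.
-/

namespace Pool.Agent.HD

open MeasureTheory Filter Topology

private theorem birk_sub {X : Type*} (T : X → X) (φ : X → ℝ) (c : ℝ) (n : ℕ) (x : X) :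
    birkhoffSum T (fun y => φ y - c) n x = birkhoffSum T φ n x - n * c := by
  induction n with
  | zero => simp
  | succ n ih =>
    rw [birkhoffSum_succ, birkhoffSum_succ, ih]
    push_cast
    ring

private theorem birk_upper {X : Type*} [MeasurableSpace X] {μ : Measure X} [IsProbabilityMeasure μ]
    {T : X → X} (hT : Ergodic T μ) {φ : X → ℝ} (hφ : Measurable φ) (hi : Integrable φ μ)
    (hneg : ∫ x, φ x ∂μ < 0) :
    ∀ᵐ x ∂μ, ∃ B : ℕ, ∀ n : ℕ, birkhoffSum T φ n x ≤ B := by
  have hTm : Measurable T := hT.measurable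
  have hSm : ∀ n, Measurable (fun x => birkhoffSum T φ n x) := by
    intro n
    unfold birkhoffSum
    exact Finset.measurable_sum _ fun k _ => hφ.comp (hTm.iterate k)
  set E : Set X := {x | ∀ B : ℕ, ∃ n : ℕ, (B : ℝ) < birkhoffSum T φ n x} with hE
  have hEm : MeasurableSet E := by
    rw [hE]
    simp only [Set.setOf_forall, Set.setOf_exists]
    exact MeasurableSet.iInter fun B => MeasurableSet.iUnion fun n =>
      measurableSet_lt measurable_const (hSm n)
  have hinv : T ⁻¹' E = E := by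
    ext x
    constructor
    · intro h B
      obtain ⟨B', hB'⟩ := exists_nat_ge ((B : ℝ) - φ x)
      obtain ⟨n, hn⟩ := h B'
      refine ⟨n + 1, ?_⟩
      rw [birkhoffSum_succ']
      linarith
    · intro h B
      obtain ⟨B', hB'⟩ := exists_nat_ge ((B : ℝ) + φ x)
      obtain ⟨n, hn⟩ := h B'
      rcases n with _ | n
      · rw [birkhoffSum_zero] at hn
        exact absurd hn (not_lt.2 (Nat.cast_nonneg _))
      · refine ⟨n, ?_⟩
        rw [birkhoffSum_succ'] at hn
        linarith
  rcases hT.toPreErgodic.ae_mem_or_ae_notMem hEm hinv with h | h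
  · exfalso
    set A : ℕ → Set X := fun N => {x | ∃ n : ℕ, 1 ≤ n ∧ n ≤ N ∧ 0 < birkhoffSum T φ n x} with hA
    have hAm : ∀ N, MeasurableSet (A N) := by
      intro N
      have : A N = ⋃ n : ℕ, ⋃ _ : 1 ≤ n ∧ n ≤ N, {x | 0 < birkhoffSum T φ n x} := by
        ext x
        simp only [hA, Set.mem_setOf_eq, Set.mem_iUnion, exists_prop]
        constructor
        · rintro ⟨n, h1, h2, h3⟩
          exact ⟨n, ⟨h1, h2⟩, h3⟩
        · rintro ⟨n, ⟨h1, h2⟩, h3⟩
          exact ⟨n, h1, h2, h3⟩
      rw [this]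
      exact MeasurableSet.iUnion fun n => MeasurableSet.iUnion fun _ =>
        measurableSet_lt measurable_const (hSm n)
    have hmono : Monotone A := by
      rintro N N' hN x ⟨n, h1, h2, h3⟩
      exact ⟨n, h1, h2.trans hN, h3⟩
    have h1 := tendsto_setIntegral_of_monotone (μ := μ) hAm hmono hi.integrableOn
    have h2 : ∫ x in ⋃ n, A n, φ x ∂μ = ∫ x, φ x ∂μ := by
      have h3 : (⋃ n, A n) =ᵐ[μ] Set.univ := by
        rw [ae_eq_univ]
        refine measure_mono_null ?_ (ae_iff.1 h)
        intro x hx hxE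
        apply hx
        obtain ⟨n, hn⟩ := hxE 0
        rw [Nat.cast_zero] at hn
        refine Set.mem_iUnion.2 ⟨n, n, ?_, le_rfl, hn⟩
        rcases n with _ | n
        · rw [birkhoffSum_zero] at hn
          exact absurd hn (lt_irrefl _)
        · omega
      rw [setIntegral_congr_set h3, setIntegral_univ]
    rw [h2] at h1
    have h4 : 0 ≤ ∫ x, φ x ∂μ :=
      ge_of_tendsto' h1 fun N => maximal hT.toMeasurePreserving hφ hi N
    linarith
  · filter_upwards [h] with x hx
    by_contra hc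
    push Not at hc
    exact hx hc

private theorem birk_lim {S : ℕ → ℝ} {I : ℝ}
    (h : ∀ c : ℚ, I < c → ∃ B : ℕ, ∀ n : ℕ, S n - n * c ≤ B) {a : ℝ} (ha : I < a) :
    ∀ᶠ n : ℕ in atTop, S n / n < a := by
  obtain ⟨c, hc1, hc2⟩ := exists_rat_btwn ha
  obtain ⟨B, hB⟩ := h c hc1
  obtain ⟨N, hN⟩ := exists_nat_gt ((B : ℝ) / (a - c))
  have hac : 0 < a - c := sub_pos.2 hc2
  filter_upwards [eventually_ge_atTop (N + 1)] with n hn
  have hn1 : (N : ℝ) < n := by exact_mod_cast hn
  have hn0 : (0 : ℝ) < n := lt_of_le_of_lt (Nat.cast_nonneg _) hn1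
  rw [div_lt_iff₀ hn0]
  rw [div_lt_iff₀ hac] at hN
  have h1 := hB n
  nlinarith [mul_lt_mul_of_pos_right hn1 hac]

theorem birk {X : Type*} [MeasurableSpace X] {μ : Measure X} [IsProbabilityMeasure μ] {T : X → X}
    (hT : Ergodic T μ) {φ : X → ℝ} (hφ : Measurable φ) {C : ℝ} (hC : ∀ᵐ x ∂μ, |φ x| ≤ C) :
    ∀ᵐ x ∂μ, Tendsto (fun n : ℕ => birkhoffSum T φ n x / n) atTop (𝓝 (∫ x, φ x ∂μ)) := by
  have hi : Integrable φ μ := by
    refine Integrable.of_bound hφ.aestronglyMeasurable C ?_
    filter_upwards [hC] with x hx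
    rwa [Real.norm_eq_abs]
  have key : ∀ ψ : X → ℝ, Measurable ψ → Integrable ψ μ → ∀ᵐ x ∂μ, ∀ c : ℚ,
      ∫ x, ψ x ∂μ < c → ∃ B : ℕ, ∀ n : ℕ, birkhoffSum T ψ n x - n * c ≤ B := by
    intro ψ hψ hiψ
    rw [ae_all_iff]
    intro c
    by_cases hc : ∫ x, ψ x ∂μ < c
    · have h1 : ∫ x, (ψ x - c) ∂μ < 0 := by
        rw [integral_sub hiψ (integrable_const _), integral_const]
        simp only [probReal_univ, smul_eq_mul, one_mul]
        linarith
      filter_upwards [birk_upper hT (hψ.sub_const (c : ℝ))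
        (hiψ.sub (integrable_const (c : ℝ))) h1] with x hx _
      obtain ⟨B, hB⟩ := hx
      refine ⟨B, fun n => ?_⟩
      rw [← birk_sub]
      exact hB n
    · exact Eventually.of_forall fun x h => absurd h hc
  filter_upwards [key φ hφ hi, key (fun x => -φ x) hφ.neg hi.neg] with x h1 h2
  rw [tendsto_order]
  constructor
  · intro a ha
    have h3 : ∫ x, -φ x ∂μ < -a := by
      rw [integral_neg]
      linarith
    filter_upwards [birk_lim h2 h3] with n hn
    have h4 : birkhoffSum T (fun x => -φ x) n x = -birkhoffSum T φ n x :=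
      birkhoffSum_neg T φ n x
    rw [h4, neg_div] at hn
    linarith
  · intro a ha
    exact birk_lim h1 ha

end Pool.Agent.HD
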