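import Pool.Agent.HD.Volt

set_option autoImplicit false

/-!
HD-Uni. Uniqueness of the point with a given asymptotic coordinate.
-/

namespace Pool.Agent.HD

variable {a b c ρ δ R C : ℝ} {p V : E2}

private lemma exp_le' {u v : ℝ} (h : v ≤ u) (k : ℕ) : Real.exp (-u * k) ≤ Real.exp (-v * k) := by
  apply Real.exp_le_exp.2
  have : (0 : ℝ) ≤ k := by positivity
  nlinarith

private lemma z_bound (hδ : 0 < δ) (hρ : 100 * δ ≤ ρ) (h : Reg a b c ρ δ R C p V)
    {s D : ℝ} {q : E2} (h1 : ∀ n : ℕ, ‖(G a b c)^[n] q - (G a b c)^[n] p -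
      s • act (co a b c p n) V‖ ≤ D * Real.exp (-(3 / 2 * ρ) * n)) (k : ℕ) :
    ‖(G a b c)^[k] q - (G a b c)^[k] p‖ ≤ (|D| + |s| * C) * Real.exp (-(ρ - 4 * δ) * k) := by
  have e1 : (G a b c)^[k] q - (G a b c)^[k] p = ((G a b c)^[k] q - (G a b c)^[k] p -
      s • act (co a b c p k) V) + s • act (co a b c p k) V := by abel
  have hC : 0 ≤ C := zero_le_one.trans h.one_le
  rw [e1]
  refine (norm_add_le _ _).trans ?_
  rw [norm_smul, Real.norm_eq_abs, add_mul]
  apply add_le_add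
  · refine (h1 k).trans ?_
    exact mul_le_mul (le_abs_self D) (exp_le' (by linarith) k) (Real.exp_pos _).le (abs_nonneg _)
  · rw [mul_assoc]
    apply mul_le_mul_of_nonneg_left _ (abs_nonneg s)
    refine (h.con k).trans ?_
    exact mul_le_mul_of_nonneg_left (exp_le' (by linarith) k) hC

theorem asym_unique (hb : b ≠ 0) (hδ : 0 < δ) (hρ : 100 * δ ≤ ρ) (h : Reg a b c ρ δ R C p V)
    {s : ℝ} {q q' : E2} (h1 : Asym a b c ρ p V s q) (h2 : Asym a b c ρ p V s q') : q = q' := by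
  obtain ⟨D, hD⟩ := h1
  obtain ⟨D', hD'⟩ := h2
  have hC : 0 ≤ C := zero_le_one.trans h.one_le
  set z : ℕ → E2 := fun k => (G a b c)^[k] q - (G a b c)^[k] p with hz
  set z' : ℕ → E2 := fun k => (G a b c)^[k] q' - (G a b c)^[k] p with hz'
  set y : ℕ → E2 := fun k => z k - z' k with hy
  set D₁ : ℝ := |D| + |D'| + |s| * C with hD₁
  have hD₁0 : 0 ≤ D₁ := by positivity
  have bz : ∀ k : ℕ, ‖z k‖ ≤ D₁ * Real.exp (-(ρ - 4 * δ) * k) := fun k =>
    (z_bound hδ hρ h hD k).trans (mul_le_mul_of_nonneg_right (by rw [hD₁]; linarith [abs_nonneg D'])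
      (Real.exp_pos _).le)
  have bz' : ∀ k : ℕ, ‖z' k‖ ≤ D₁ * Real.exp (-(ρ - 4 * δ) * k) := fun k =>
    (z_bound hδ hρ h hD' k).trans (mul_le_mul_of_nonneg_right (by rw [hD₁]; linarith [abs_nonneg D])
      (Real.exp_pos _).le)
  have by0 : ∀ k : ℕ, ‖y k‖ ≤ (|D| + |D'|) * Real.exp (-(3 / 2 * ρ) * k) := by
    intro k
    have e1 : y k = ((G a b c)^[k] q - (G a b c)^[k] p - s • act (co a b c p k) V) -
        ((G a b c)^[k] q' - (G a b c)^[k] p - s • act (co a b c p k) V) := by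
      simp only [hy, hz, hz']; abel
    rw [e1, add_mul]
    refine (norm_sub_le _ _).trans (add_le_add ?_ ?_)
    · exact (hD k).trans (mul_le_mul_of_nonneg_right (le_abs_self D) (Real.exp_pos _).le)
    · exact (hD' k).trans (mul_le_mul_of_nonneg_right (le_abs_self D') (Real.exp_pos _).le)
  set g : ℕ → E2 := fun k => (a * ((z k).1 + (z' k).1) * (y k).1, 0) with hg
  have hrec : ∀ k : ℕ, y (k + 1) = act (der a b ((G a b c)^[k] p)) (y k) + g k := by
    intro k
    have e1 : ∀ x : E2, (G a b c)^[k + 1] x - (G a b c)^[k + 1] p =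
        act (der a b ((G a b c)^[k] p)) ((G a b c)^[k] x - (G a b c)^[k] p) +
          (a * ((G a b c)^[k] x - (G a b c)^[k] p).1 ^ 2, 0) := by
      intro x
      rw [Function.iterate_succ_apply', Function.iterate_succ_apply']
      have := G_add a b c ((G a b c)^[k] p) ((G a b c)^[k] x - (G a b c)^[k] p)
      rw [add_sub_cancel] at this
      rw [this]
      abel
    have e2 : y (k + 1) = ((G a b c)^[k + 1] q - (G a b c)^[k + 1] p) -
        ((G a b c)^[k + 1] q' - (G a b c)^[k + 1] p) := rfl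
    rw [e2, e1 q, e1 q']
    have e3 : y k = z k - z' k := rfl
    have e4 : g k = (a * ((z k).1 + (z' k).1) * (y k).1, 0) := rfl
    have e5 : (y k).1 = (z k).1 - (z' k).1 := rfl
    rw [e4, e5, e3, act_sub _ (z k) (z' k)]
    have e6 : ((a * ((z k).1 + (z' k).1) * ((z k).1 - (z' k).1), 0) : E2) =
        (a * (z k).1 ^ 2, 0) - (a * (z' k).1 ^ 2, 0) := by
      simp only [Prod.mk_sub_mk, sub_zero, Prod.mk.injEq, and_true]
      ring
    rw [e6]
    change act _ (z k) + (a * (z k).1 ^ 2, 0) - (act _ (z' k) + (a * (z' k).1 ^ 2, 0)) = _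
    abel
  have hCV : 0 ≤ CV ρ δ C := by
    rw [CV]
    apply div_nonneg (by positivity)
    rw [sub_nonneg, Real.exp_le_one_iff]
    linarith
  set B : ℝ := CV ρ δ C * (2 * |a| * D₁) with hB
  have hB0 : 0 ≤ B := by positivity
  obtain ⟨N, hN⟩ : ∃ N : ℕ, Real.exp (-(ρ - 5 * δ)) ^ N < 1 / (2 * (B + 1)) :=
    exists_pow_lt_of_lt_one (by positivity) (by rw [Real.exp_lt_one_iff]; linarith)
  have hN' : ∀ k ≥ N, B * Real.exp (-(ρ - 5 * δ) * k) ≤ 1 / 2 := by
    intro k hk
    have e1 : Real.exp (-(ρ - 5 * δ) * k) ≤ Real.exp (-(ρ - 5 * δ)) ^ N := by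
      rw [← Real.exp_nat_mul]
      apply Real.exp_le_exp.2
      have e2 : (N : ℝ) ≤ k := by exact_mod_cast hk
      nlinarith
    have e3 : B * Real.exp (-(ρ - 5 * δ) * k) ≤ B * (1 / (2 * (B + 1))) :=
      mul_le_mul_of_nonneg_left (e1.trans hN.le) hB0
    refine e3.trans ?_
    rw [mul_one_div, div_le_div_iff₀ (by positivity) (by positivity)]
    linarith
  have key : ∀ Y : ℝ, 0 ≤ Y → (∀ k ≥ N, ‖y k‖ ≤ Y * Real.exp (-(ρ - 4 * δ) * k)) →
      ∀ k ≥ N, ‖y k‖ ≤ Y / 2 * Real.exp (-(ρ - 4 * δ) * k) := by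
    intro Y hY0 hY k hk
    have e1 : ∀ k ≥ N, ‖g k‖ ≤ (2 * |a| * D₁ * Y) * Real.exp (-(2 * (ρ - 4 * δ)) * k) := by
      intro k hk
      have e2 : ‖g k‖ = |a| * |(z k).1 + (z' k).1| * |(y k).1| := by
        simp only [hg, Prod.norm_def, norm_zero, Real.norm_eq_abs, abs_mul]
        exact max_eq_left (by positivity)
      have e3 : |(z k).1 + (z' k).1| ≤ 2 * D₁ * Real.exp (-(ρ - 4 * δ) * k) := by
        have := norm_fst_le (z k)
        have := norm_fst_le (z' k)
        have := bz k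
        have := bz' k
        have := abs_add_le (z k).1 (z' k).1
        simp only [Real.norm_eq_abs] at *
        linarith
      have e4 : |(y k).1| ≤ Y * Real.exp (-(ρ - 4 * δ) * k) := (norm_fst_le (y k)).trans (hY k hk)
      rw [e2]
      have e5 : |a| * |(z k).1 + (z' k).1| * |(y k).1| ≤
          |a| * (2 * D₁ * Real.exp (-(ρ - 4 * δ) * k)) * (Y * Real.exp (-(ρ - 4 * δ) * k)) := by
        gcongr
      refine e5.trans (le_of_eq ?_)
      have e6 : Real.exp (-(2 * (ρ - 4 * δ)) * k) =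
          Real.exp (-(ρ - 4 * δ) * k) * Real.exp (-(ρ - 4 * δ) * k) := by
        rw [← Real.exp_add]; congr 1; ring
      rw [e6]
      ring
    have e2 := volt hb hδ hρ hC h.up (N := N) (y := y) (g := g) (fun k _ => hrec k) e1
      (D := |D| + |D'|) (fun k _ => (by0 k).trans
        (mul_le_mul_of_nonneg_left (exp_le' (by linarith) k) (by positivity))) k hk
    refine e2.trans ?_
    have e3 : Real.exp (-(2 * ρ - 9 * δ) * k) =
        Real.exp (-(ρ - 5 * δ) * k) * Real.exp (-(ρ - 4 * δ) * k) := by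
      rw [← Real.exp_add]; congr 1; ring
    rw [e3]
    have e4 : CV ρ δ C * (2 * |a| * D₁ * Y) *
        (Real.exp (-(ρ - 5 * δ) * k) * Real.exp (-(ρ - 4 * δ) * k)) =
        (B * Real.exp (-(ρ - 5 * δ) * k)) * (Y * Real.exp (-(ρ - 4 * δ) * k)) := by
      rw [hB]; ring
    rw [e4]
    have e5 := mul_le_mul_of_nonneg_right (hN' k hk)
      (show 0 ≤ Y * Real.exp (-(ρ - 4 * δ) * k) by positivity)
    linarith
  have iter : ∀ n : ℕ, ∀ k ≥ N,
      ‖y k‖ ≤ (|D| + |D'|) / 2 ^ n * Real.exp (-(ρ - 4 * δ) * k) := by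
    intro n
    induction n with
    | zero =>
      intro k _
      rw [pow_zero, div_one]
      exact (by0 k).trans (mul_le_mul_of_nonneg_left (exp_le' (by linarith) k) (by positivity))
    | succ n ih =>
      have := key _ (by positivity) ih
      intro k hk
      refine (this k hk).trans (le_of_eq ?_)
      rw [pow_succ]
      field_simp
  have hyN : ‖y N‖ ≤ 0 := by
    have hl : Filter.Tendsto (fun n : ℕ => (|D| + |D'|) / 2 ^ n *
        Real.exp (-(ρ - 4 * δ) * N)) Filter.atTop (nhds 0) := by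
      have h3 : Filter.Tendsto (fun n : ℕ => ((1 : ℝ) / 2) ^ n) Filter.atTop (nhds 0) :=
        tendsto_pow_atTop_nhds_zero_of_lt_one (by norm_num) (by norm_num)
      have h4 := h3.const_mul ((|D| + |D'|) * Real.exp (-(ρ - 4 * δ) * N))
      rw [mul_zero] at h4
      refine h4.congr (fun n => ?_)
      rw [one_div, inv_pow]
      ring
    exact ge_of_tendsto' hl (fun n => iter n N le_rfl)
  have hy0 : y N = 0 := norm_le_zero_iff.1 hyN
  have hGG : (G a b c)^[N] q = (G a b c)^[N] q' := by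
    have e1 : y N = (G a b c)^[N] q - (G a b c)^[N] q' := by
      simp only [hy, hz, hz']; abel
    rw [e1, sub_eq_zero] at hy0
    exact hy0
  rw [← Gi_iter_G_iter (a := a) (c := c) hb N q, hGG, Gi_iter_G_iter hb]

end Pool.Agent.HD
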