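import Pool.Agent.HD.Exi
import Pool.Agent.HD.Uni

set_option autoImplicit false

/-!
HD-Cpt. Compactness: the stable curve depends continuously on the data; sets of points with a branch
in a closed set.
-/

namespace Pool.Agent.HD

variable {a b c ρ δ : ℝ}

open Filter Topology

private lemma cpt_continuous (a b c : ℝ) (n : ℕ) :
    Continuous fun x : (E2 × E2) × (ℝ × E2) =>
      (G a b c)^[n] x.2.2 - (G a b c)^[n] x.1.1 - x.2.1 • act (co a b c x.1.1 n) x.1.2 := by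
  have h1 : Continuous fun x : (E2 × E2) × (ℝ × E2) => (G a b c)^[n] x.2.2 :=
    (continuous_G_iter a b c n).comp (continuous_snd.comp continuous_snd)
  have h2 : Continuous fun x : (E2 × E2) × (ℝ × E2) => (G a b c)^[n] x.1.1 :=
    (continuous_G_iter a b c n).comp (continuous_fst.comp continuous_fst)
  have h3 : Continuous fun x : (E2 × E2) × (ℝ × E2) => co a b c x.1.1 n :=
    (continuous_co a b c n).comp (continuous_fst.comp continuous_fst)
  have h4 : Continuous fun x : (E2 × E2) × (ℝ × E2) => x.1.2 :=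
    continuous_snd.comp continuous_fst
  have h5 : Continuous fun x : (E2 × E2) × (ℝ × E2) => act (co a b c x.1.1 n) x.1.2 :=
    continuous_act.comp (h3.prodMk h4)
  have h6 : Continuous fun x : (E2 × E2) × (ℝ × E2) => x.2.1 :=
    continuous_fst.comp continuous_snd
  exact (h1.sub h2).sub (h6.smul h5)

theorem asym_compact (hb : b ≠ 0) (hδ : 0 < δ) (hρ : 100 * δ ≤ ρ) (R C S : ℝ) :
    IsCompact {x : (E2 × E2) × (ℝ × E2) | Reg a b c ρ δ R C x.1.1 x.1.2 ∧ |x.2.1| ≤ S ∧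
      Asym a b c ρ x.1.1 x.1.2 x.2.1 x.2.2} := by
  obtain ⟨D, hD⟩ := exists_asym (a := a) (c := c) hb hδ hρ R C S
  set X : Set ((E2 × E2) × (ℝ × E2)) := {x | Reg a b c ρ δ R C x.1.1 x.1.2 ∧ |x.2.1| ≤ S ∧
      Asym a b c ρ x.1.1 x.1.2 x.2.1 x.2.2} with hX
  have key : ∀ x ∈ X, ∀ n : ℕ, ‖(G a b c)^[n] x.2.2 - (G a b c)^[n] x.1.1 -
      x.2.1 • act (co a b c x.1.1 n) x.1.2‖ ≤ D * Real.exp (-(3 / 2 * ρ) * n) := by
    rintro x ⟨h1, h2, h3⟩
    obtain ⟨q, hq⟩ := hD x.1.1 x.1.2 h1 x.2.1 h2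
    have h4 : x.2.2 = q := asym_unique hb hδ hρ h1 h3 ⟨D, hq⟩
    rw [h4]
    exact hq
  have hreg : IsClosed {x : (E2 × E2) × (ℝ × E2) | Reg a b c ρ δ R C x.1.1 x.1.2} :=
    (reg_compact a b c ρ δ R C).isClosed.preimage continuous_fst
  have hS : IsClosed {x : (E2 × E2) × (ℝ × E2) | |x.2.1| ≤ S} :=
    isClosed_le (continuous_abs.comp (continuous_fst.comp continuous_snd)) continuous_const
  have hn : ∀ n : ℕ, IsClosed {x : (E2 × E2) × (ℝ × E2) | ‖(G a b c)^[n] x.2.2 -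
      (G a b c)^[n] x.1.1 - x.2.1 • act (co a b c x.1.1 n) x.1.2‖ ≤
        D * Real.exp (-(3 / 2 * ρ) * n)} := fun n =>
    isClosed_le (cpt_continuous a b c n).norm continuous_const
  have hXeq : X = ({x : (E2 × E2) × (ℝ × E2) | Reg a b c ρ δ R C x.1.1 x.1.2} ∩
      {x : (E2 × E2) × (ℝ × E2) | |x.2.1| ≤ S}) ∩ ⋂ n : ℕ, {x : (E2 × E2) × (ℝ × E2) |
        ‖(G a b c)^[n] x.2.2 - (G a b c)^[n] x.1.1 - x.2.1 • act (co a b c x.1.1 n) x.1.2‖ ≤
        D * Real.exp (-(3 / 2 * ρ) * n)} := by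
    ext x
    constructor
    · intro hx
      exact ⟨⟨hx.1, hx.2.1⟩, Set.mem_iInter.2 fun n => key x hx n⟩
    · rintro ⟨⟨h1, h2⟩, h3⟩
      exact ⟨h1, h2, D, fun n => Set.mem_iInter.1 h3 n⟩
  have hXc : IsClosed X := by
    rw [hXeq]
    exact (hreg.inter hS).inter (isClosed_iInter hn)
  refine IsCompact.of_isClosed_subset ((reg_compact a b c ρ δ R C).prod
    ((isCompact_Icc (a := -S) (b := S)).prod
      (isCompact_closedBall (0 : E2) (R + S + D)))) hXc ?_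
  intro x hx
  have h0 := key x hx 0
  obtain ⟨h1, h2, -⟩ := hx
  refine ⟨h1, abs_le.1 h2, ?_⟩
  rw [mem_closedBall_zero_iff]
  have hp := h1.bdd 0
  simp only [Function.iterate_zero, id_eq] at h0 hp
  have h3 : act (co a b c x.1.1 0) x.1.2 = x.1.2 := act_one _
  rw [h3, Nat.cast_zero, mul_zero, Real.exp_zero, mul_one] at h0
  have h4 : ‖x.2.1 • x.1.2‖ ≤ S := by
    rw [norm_smul, h1.unit, mul_one, Real.norm_eq_abs]
    exact h2
  have h5 : x.2.2 = (x.2.2 - x.1.1 - x.2.1 • x.1.2) + x.1.1 + x.2.1 • x.1.2 := by abel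
  calc ‖x.2.2‖ = ‖(x.2.2 - x.1.1 - x.2.1 • x.1.2) + x.1.1 + x.2.1 • x.1.2‖ := by rw [← h5]
    _ ≤ ‖x.2.2 - x.1.1 - x.2.1 • x.1.2‖ + ‖x.1.1‖ + ‖x.2.1 • x.1.2‖ := norm_add₃_le
    _ ≤ R + S + D := by linarith

theorem br_compact (hb : b ≠ 0) (hδ : 0 < δ) (hρ : 100 * δ ≤ ρ) (R C : ℝ) {F : Set E2}
    (hF : IsClosed F) :
    IsCompact {x : E2 × E2 | Reg a b c ρ δ R C x.1 x.2 ∧ Br a b c ρ F x.1 x.2} := by
  refine IsCompact.of_isClosed_subset (reg_compact a b c ρ δ R C) ?_ fun x hx => hx.1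
  apply IsSeqClosed.isClosed
  intro x y hx hxy
  have hy : Reg a b c ρ δ R C y.1 y.2 :=
    (reg_compact a b c ρ δ R C).isClosed.mem_of_tendsto hxy
      (Eventually.of_forall fun i => (hx i).1)
  refine ⟨hy, ?_⟩
  intro s hs q hq
  have hsS : |s| ≤ s := (abs_of_nonneg hs).le
  obtain ⟨D, hD⟩ := exists_asym (a := a) (c := c) hb hδ hρ R C s
  have h1 : ∀ i, ∃ q' : E2, Asym a b c ρ (x i).1 (x i).2 s q' := by
    intro i
    obtain ⟨q', hq'⟩ := hD (x i).1 (x i).2 (hx i).1 s hsS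
    exact ⟨q', D, hq'⟩
  choose Q hQ using h1
  have h2 : ∀ i, Q i ∈ F := fun i => (hx i).2 s hs (Q i) (hQ i)
  obtain ⟨z, hz, φ, hφ, hlim⟩ := (asym_compact (a := a) (c := c) hb hδ hρ R C s).tendsto_subseq
    (x := fun i => (x i, (s, Q i))) fun i => ⟨(hx i).1, hsS, hQ i⟩
  have h3 : Tendsto (fun i => x (φ i)) atTop (𝓝 z.1) :=
    (continuous_fst.tendsto z).comp hlim
  have h4 : z.1 = y := tendsto_nhds_unique h3 (hxy.comp hφ.tendsto_atTop)
  have h5 : Tendsto (fun _ : ℕ => s) atTop (𝓝 z.2.1) :=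
    ((continuous_fst.comp continuous_snd).tendsto z).comp hlim
  have h6 : z.2.1 = s := tendsto_nhds_unique h5 tendsto_const_nhds
  have h7 : Tendsto (fun i => Q (φ i)) atTop (𝓝 z.2.2) :=
    ((continuous_snd.comp continuous_snd).tendsto z).comp hlim
  have h8 : z.2.2 ∈ F := hF.mem_of_tendsto h7 (Eventually.of_forall fun i => h2 (φ i))
  have h9 : Asym a b c ρ y.1 y.2 s z.2.2 := by
    have := hz.2.2
    rw [h4, h6] at this
    exact this
  rw [asym_unique hb hδ hρ hy hq h9]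
  exact h8

theorem exists_curve (hb : b ≠ 0) (hδ : 0 < δ) (hρ : 100 * δ ≤ ρ) {R C : ℝ} {p V : E2}
    (h : Reg a b c ρ δ R C p V) :
    ∃ γ : ℝ → E2, Continuous γ ∧ Function.Injective γ ∧ γ 0 = p ∧
      ∀ s, Asym a b c ρ p V s (γ s) := by
  have h1 : ∀ s : ℝ, ∃ q : E2, Asym a b c ρ p V s q := by
    intro s
    obtain ⟨D, hD⟩ := exists_asym (a := a) (c := c) hb hδ hρ R C |s|
    obtain ⟨q, hq⟩ := hD p V h s le_rfl
    exact ⟨q, D, hq⟩
  choose γ hγ using h1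
  refine ⟨γ, ?_, ?_, ?_, hγ⟩
  · rw [continuous_iff_seqContinuous]
    intro u s hu
    obtain ⟨S, hS⟩ : ∃ S : ℝ, ∀ i, |u i| ≤ S := by
      obtain ⟨S, hS⟩ := (Metric.isBounded_range_of_tendsto u hu).exists_norm_le
      exact ⟨S, fun i => hS (u i) ⟨i, rfl⟩⟩
    apply tendsto_of_subseq_tendsto
    intro ns hns
    obtain ⟨z, hz, φ, hφ, hlim⟩ := (asym_compact (a := a) (c := c) hb hδ hρ R C S).tendsto_subseq
      (x := fun i => ((p, V), (u (ns i), γ (u (ns i))))) fun i => ⟨h, hS _, hγ _⟩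
    refine ⟨φ, ?_⟩
    have h3 : Tendsto (fun _ : ℕ => (p, V)) atTop (𝓝 z.1) :=
      (continuous_fst.tendsto z).comp hlim
    have h4 : z.1 = (p, V) := tendsto_nhds_unique h3 tendsto_const_nhds
    have h5 : Tendsto (fun i => u (ns (φ i))) atTop (𝓝 z.2.1) :=
      ((continuous_fst.comp continuous_snd).tendsto z).comp hlim
    have h6 : z.2.1 = s :=
      tendsto_nhds_unique h5 (hu.comp (hns.comp hφ.tendsto_atTop))
    have h7 : Tendsto (fun i => γ (u (ns (φ i)))) atTop (𝓝 z.2.2) :=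
      ((continuous_snd.comp continuous_snd).tendsto z).comp hlim
    have h8 : Asym a b c ρ p V s z.2.2 := by
      have := hz.2.2
      rw [h4, h6] at this
      exact this
    have h9 : z.2.2 = γ s := asym_unique hb hδ hρ h h8 (hγ s)
    rw [h9] at h7
    exact h7
  · intro s s' hss
    refine Asym.inj_s hb hρ hδ h (hγ s) ?_
    rw [hss]
    exact hγ s'
  · exact asym_unique hb hδ hρ h (hγ 0) (asym_zero a b c ρ p V)

end Pool.Agent.HD
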