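import Pool.Agent.HD.Orb

set_option autoImplicit false

/-!
HD-Lit. The literal stable set `Ws` is the set of exponentially asymptotic points (`ws_iff`); exponential
asymptoticity is an equivalence relation and its classes are Borel.
-/

namespace Pool.Agent.HD

open Filter

private lemma lit_log_ennreal {d r : ℝ} (h : ENNReal.log (ENNReal.ofReal d) < (r : EReal)) :
    d < Real.exp r := by
  have h1 := EReal.exp_strictMono h
  rw [ENNReal.exp_log, EReal.exp_coe] at h1
  exact (ENNReal.ofReal_lt_ofReal_iff (Real.exp_pos r)).1 h1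

private lemma lit_absorb (g : ℕ → ℝ) (hg : ∀ n, 0 ≤ g n) (a : ℝ)
    (h : ∀ᶠ n : ℕ in atTop, g n ≤ Real.exp (-a * n)) :
    ∃ D : ℝ, ∀ n : ℕ, g n ≤ D * Real.exp (-a * n) := by
  obtain ⟨N, hN⟩ := eventually_atTop.1 h
  refine ⟨1 + ∑ n ∈ Finset.range N, g n * Real.exp (a * n), fun n => ?_⟩
  have hS : 0 ≤ ∑ n ∈ Finset.range N, g n * Real.exp (a * n) :=
    Finset.sum_nonneg fun i _ => mul_nonneg (hg i) (Real.exp_pos _).le
  rcases le_or_gt N n with hn | hn
  · refine (hN n hn).trans ?_
    nlinarith [Real.exp_pos (-a * (n : ℝ))]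
  · have h1 : g n * Real.exp (a * n) ≤ ∑ n ∈ Finset.range N, g n * Real.exp (a * n) :=
      Finset.single_le_sum (f := fun n : ℕ => g n * Real.exp (a * n))
        (fun i _ => mul_nonneg (hg i) (Real.exp_pos _).le) (Finset.mem_range.2 hn)
    have h2 : g n = g n * Real.exp (a * n) * Real.exp (-a * n) := by
      rw [mul_assoc, ← Real.exp_add]
      have : a * (n : ℝ) + -a * n = 0 := by ring
      rw [this, Real.exp_zero, mul_one]
    rw [h2]
    refine mul_le_mul_of_nonneg_right ?_ (Real.exp_pos _).le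
    linarith

theorem ws_iff (f : E2 → E2) (p q : E2) : q ∈ Ws f p ↔ ExpC f p q := by
  constructor
  · intro h
    have h' : limsup (fun n : ℕ => ENNReal.log (edist (f^[n] q) (f^[n] p)) / ((n : ℝ) : EReal))
        atTop < 0 := h
    obtain ⟨x, hx1, hx2⟩ := EReal.lt_iff_exists_real_btwn.1 h'
    have hx0 : x < 0 := by exact_mod_cast hx2
    refine ⟨-x, by linarith, ?_⟩
    refine lit_absorb (fun n => dist (f^[n] q) (f^[n] p)) (fun n => dist_nonneg) (-x) ?_
    filter_upwards [eventually_lt_of_limsup_lt hx1, eventually_gt_atTop 0] with n hn hn0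
    have hnpos : (0 : EReal) < ((n : ℝ) : EReal) := by
      exact_mod_cast hn0
    rw [EReal.div_lt_iff hnpos (EReal.coe_ne_top _), ← EReal.coe_mul, edist_dist] at hn
    have := lit_log_ennreal hn
    have e : - -x * (n : ℝ) = x * n := by ring
    rw [e]
    exact this.le
  · rintro ⟨a, ha, D, hD⟩
    show limsup (fun n : ℕ => ENNReal.log (edist (f^[n] q) (f^[n] p)) / ((n : ℝ) : EReal))
        atTop < 0
    have hlt : ((-a / 2 : ℝ) : EReal) < 0 := by
      have : -a / 2 < 0 := by linarith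
      exact_mod_cast this
    refine lt_of_le_of_lt ?_ hlt
    refine limsup_le_of_le (h := ?_)
    have hD1 : (0 : ℝ) < max D 1 := lt_of_lt_of_le one_pos (le_max_right _ _)
    have hev : ∀ᶠ n : ℕ in atTop, Real.log (max D 1) / (a / 2) ≤ (n : ℝ) :=
      tendsto_natCast_atTop_atTop.eventually_ge_atTop _
    filter_upwards [hev, eventually_gt_atTop 0] with n hn hn0
    have hnpos : (0 : EReal) < ((n : ℝ) : EReal) := by
      exact_mod_cast hn0
    rw [EReal.div_le_iff_le_mul hnpos (EReal.coe_ne_top _), ← EReal.coe_mul, edist_dist]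
    have hb : dist (f^[n] q) (f^[n] p) ≤ max D 1 * Real.exp (-a * n) :=
      (hD n).trans (mul_le_mul_of_nonneg_right (le_max_left _ _) (Real.exp_pos _).le)
    have hpos : 0 < max D 1 * Real.exp (-a * n) := mul_pos hD1 (Real.exp_pos _)
    refine (ENNReal.log_monotone (ENNReal.ofReal_le_ofReal hb)).trans ?_
    rw [ENNReal.log_ofReal_of_pos hpos, Real.log_mul hD1.ne' (Real.exp_pos _).ne', Real.log_exp]
    rw [div_le_iff₀ (by linarith)] at hn
    have : Real.log (max D 1) + -a * (n : ℝ) ≤ (n : ℝ) * (-a / 2) := by linarith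
    exact_mod_cast this

theorem ExpC.refl (f : E2 → E2) (p : E2) : ExpC f p p := by
  refine ⟨1, one_pos, 0, fun n => ?_⟩
  rw [dist_self, zero_mul]

theorem ExpC.symm {f : E2 → E2} {p q : E2} (h : ExpC f p q) : ExpC f q p := by
  obtain ⟨a, ha, D, hD⟩ := h
  refine ⟨a, ha, D, fun n => ?_⟩
  rw [dist_comm]
  exact hD n

private lemma lit_le_max {a a' D : ℝ} (h : a' ≤ a) (n : ℕ) :
    D * Real.exp (-a * n) ≤ max D 0 * Real.exp (-a' * n) := by
  have h1 : D * Real.exp (-a * n) ≤ max D 0 * Real.exp (-a * n) :=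
    mul_le_mul_of_nonneg_right (le_max_left _ _) (Real.exp_pos _).le
  refine h1.trans (mul_le_mul_of_nonneg_left ?_ (le_max_right _ _))
  refine Real.exp_le_exp.2 (mul_le_mul_of_nonneg_right ?_ (Nat.cast_nonneg n))
  linarith

theorem ExpC.trans {f : E2 → E2} {p q r : E2} (h : ExpC f p q) (h' : ExpC f q r) :
    ExpC f p r := by
  obtain ⟨a, ha, D, hD⟩ := h
  obtain ⟨a', ha', D', hD'⟩ := h'
  refine ⟨min a a', lt_min ha ha', max D' 0 + max D 0, fun n => ?_⟩
  refine (dist_triangle _ (f^[n] q) _).trans ?_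
  rw [add_mul]
  exact add_le_add ((hD' n).trans (lit_le_max (min_le_right _ _) n))
    ((hD n).trans (lit_le_max (min_le_left _ _) n))

theorem ExpC.tendsto {f : E2 → E2} {p q : E2} (h : ExpC f p q) :
    Filter.Tendsto (fun n : ℕ => dist (f^[n] q) (f^[n] p)) Filter.atTop (nhds 0) := by
  obtain ⟨a, ha, D, hD⟩ := h
  refine squeeze_zero (fun n => dist_nonneg) hD ?_
  have h1 : Tendsto (fun n : ℕ => Real.exp (-a * n)) atTop (nhds 0) := by
    refine Real.tendsto_exp_atBot.comp ?_
    exact tendsto_natCast_atTop_atTop.const_mul_atTop_of_neg (by linarith)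
  simpa using h1.const_mul D

theorem measurableSet_ws {f : E2 → E2} (hf : Continuous f) (p : E2) :
    MeasurableSet {q | ExpC f p q} := by
  have : {q | ExpC f p q} = ⋃ k : ℕ, ⋃ D : ℕ, ⋂ n : ℕ,
      {q | dist (f^[n] q) (f^[n] p) ≤ (D : ℝ) * Real.exp (-(1 / ((k : ℝ) + 1)) * n)} := by
    ext q
    simp only [Set.mem_iUnion, Set.mem_iInter]
    constructor
    · rintro ⟨a, ha, D, hD⟩
      obtain ⟨k, hk⟩ := exists_nat_one_div_lt ha
      refine ⟨k, ⌈D⌉₊, fun n => ?_⟩
      refine (hD n).trans ?_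
      refine (lit_le_max (a' := 1 / ((k : ℝ) + 1)) hk.le n).trans ?_
      refine mul_le_mul_of_nonneg_right ?_ (Real.exp_pos _).le
      exact max_le (Nat.le_ceil D) (Nat.cast_nonneg _)
    · rintro ⟨k, D, h⟩
      exact ⟨1 / ((k : ℝ) + 1), by positivity, D, h⟩
  rw [this]
  refine MeasurableSet.iUnion fun k => MeasurableSet.iUnion fun D => MeasurableSet.iInter fun n => ?_
  exact (isClosed_le ((hf.iterate n).dist continuous_const) continuous_const).measurableSet

/-- exponential convergence is not changed by the exchange of the coordinates -/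
theorem expC_swap {b c : ℝ} (hb : b ≠ 0) (p q : E2) :
    ExpC (G (1 / b) (1 / b) (c / b)) p.swap q.swap ↔ ExpC (Gi 1 b c) p q := by
  have h : ∀ n : ℕ, dist ((G (1 / b) (1 / b) (c / b))^[n] q.swap)
      ((G (1 / b) (1 / b) (c / b))^[n] p.swap) = dist ((Gi 1 b c)^[n] q) ((Gi 1 b c)^[n] p) := by
    intro n
    rw [G_swap_iter hb, G_swap_iter hb, Prod.dist_eq, Prod.dist_eq, max_comm]
    rfl
  unfold ExpC
  simp only [h]

end Pool.Agent.HD
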