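import Pool.Agent.HD.Back
import Pool.Agent.HD.Cpt
import Pool.Agent.HD.Lit
import Pool.Agent.HD.Supp

set_option autoImplicit false

/-!
HD-Bnd. Bounded branches consist of points with bounded backward orbits, almost everywhere.
-/

namespace Pool.Agent.HD

open MeasureTheory

private def bndZ1 (b c ρ δ R : ℝ) (C M : ℕ) : Set E2 :=
  {p | ∃ V, Reg 1 b c ρ δ R C p V ∧ Br 1 b c ρ (Metric.closedBall 0 M) p V}

private def bndZ2 (b c ρ δ R : ℝ) (C M : ℕ) : Set E2 :=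
  {p | ∃ V, Reg 1 b c ρ δ R C p V ∧ Br 1 b c ρ (Metric.closedBall 0 M) p V ∧
    Br 1 b c ρ (Metric.closedBall 0 M) p (-V)}

private theorem bnd_Z1_meas {b c ρ δ : ℝ} (hb : b ≠ 0) (hδ : 0 < δ) (hρ : 100 * δ ≤ ρ) (R : ℝ)
    (C M : ℕ) : MeasurableSet (bndZ1 b c ρ δ R C M) := by
  have h := br_compact (a := 1) (c := c) hb hδ hρ R C
    (F := Metric.closedBall (0 : E2) (M : ℝ)) Metric.isClosed_closedBall
  have h2 : bndZ1 b c ρ δ R C M = Prod.fst '' {x : E2 × E2 | Reg 1 b c ρ δ R C x.1 x.2 ∧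
      Br 1 b c ρ (Metric.closedBall 0 M) x.1 x.2} := by
    ext p
    constructor
    · rintro ⟨V, hV⟩
      exact ⟨(p, V), hV, rfl⟩
    · rintro ⟨⟨p', V⟩, hV, rfl⟩
      exact ⟨V, hV⟩
  rw [h2]
  exact (h.image continuous_fst).isClosed.measurableSet

private theorem bnd_Z2_meas {b c ρ δ : ℝ} (hb : b ≠ 0) (hδ : 0 < δ) (hρ : 100 * δ ≤ ρ) (R : ℝ)
    (C M : ℕ) : MeasurableSet (bndZ2 b c ρ δ R C M) := by
  have h := br_compact (a := 1) (c := c) hb hδ hρ R C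
    (F := Metric.closedBall (0 : E2) (M : ℝ)) Metric.isClosed_closedBall
  have hφ : Continuous fun x : E2 × E2 => ((x.1, -x.2) : E2 × E2) :=
    continuous_fst.prodMk continuous_snd.neg
  have h2 : bndZ2 b c ρ δ R C M = Prod.fst '' ({x : E2 × E2 | Reg 1 b c ρ δ R C x.1 x.2 ∧
      Br 1 b c ρ (Metric.closedBall 0 M) x.1 x.2} ∩ (fun x : E2 × E2 => ((x.1, -x.2) : E2 × E2)) ⁻¹'
      {x : E2 × E2 | Reg 1 b c ρ δ R C x.1 x.2 ∧
      Br 1 b c ρ (Metric.closedBall 0 M) x.1 x.2}) := by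
    ext p
    constructor
    · rintro ⟨V, hV1, hV2, hV3⟩
      exact ⟨(p, V), ⟨⟨hV1, hV2⟩, ⟨hV1.neg, hV3⟩⟩, rfl⟩
    · rintro ⟨⟨p', V⟩, ⟨⟨hV1, hV2⟩, ⟨_, hV3⟩⟩, rfl⟩
      exact ⟨V, hV1, hV2, hV3⟩
  rw [h2]
  exact ((h.inter_right (h.isClosed.preimage hφ)).image continuous_fst).isClosed.measurableSet

private def bndP (b c ρ δ R : ℝ) (C M : ℕ) : Set E2 :=
  bndZ2 b c ρ δ R C M ∪ (bndZ1 b c ρ δ R C M \ ⋃ C' : ℕ, ⋃ M' : ℕ, bndZ2 b c ρ δ R C' M')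

private theorem bnd_P_meas {b c ρ δ : ℝ} (hb : b ≠ 0) (hδ : 0 < δ) (hρ : 100 * δ ≤ ρ) (R : ℝ)
    (C M : ℕ) : MeasurableSet (bndP b c ρ δ R C M) :=
  (bnd_Z2_meas hb hδ hρ R C M).union ((bnd_Z1_meas hb hδ hρ R C M).diff
    (MeasurableSet.iUnion fun C' => MeasurableSet.iUnion fun M' => bnd_Z2_meas hb hδ hρ R C' M'))

private theorem bnd_Br_mono {a b c ρ : ℝ} {S S' : Set E2} (h : S ⊆ S') {p V : E2}
    (hS : Br a b c ρ S p V) : Br a b c ρ S' p V :=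
  fun s hs q hq => h (hS s hs q hq)

private theorem bnd_dir {b c ρ δ R : ℝ} (hb : b ≠ 0) (hρ : 0 < 2 * ρ - 6 * δ + Real.log |b|)
    {p V W : E2} {C C' : ℝ} (hV : Reg 1 b c ρ δ R C p V) (hW : Reg 1 b c ρ δ R C' p W) :
    V = W ∨ V = -W :=
  uniq_dir hb hW.unit hV.unit hW.con hV.con (by linarith)

/-- a bounded branch of a point of `bndP C M` is in the ball of radius `M` -/
private theorem bnd_P_branch {b c ρ δ R : ℝ} (hb : b ≠ 0)
    (hρ : 0 < 2 * ρ - 6 * δ + Real.log |b|) {C M : ℕ} {p V : E2} (hp : p ∈ bndP b c ρ δ R C M)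
    {C' M' : ℝ} (hV : Reg 1 b c ρ δ R C' p V) (hB : Br 1 b c ρ (Metric.closedBall 0 M') p V) :
    Br 1 b c ρ (Metric.closedBall 0 M) p V := by
  rcases hp with ⟨W, hW1, hW2, hW3⟩ | ⟨⟨W, hW1, hW2⟩, hn⟩
  · rcases bnd_dir hb hρ hV hW1 with h | h
    · rw [h]; exact hW2
    · rw [h]; exact hW3
  · rcases bnd_dir hb hρ hV hW1 with h | h
    · rw [h]; exact hW2
    · exfalso
      apply hn
      obtain ⟨N, hN⟩ := exists_nat_ge (max (M : ℝ) M')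
      rw [Set.mem_iUnion₂]
      refine ⟨C, N, W, hW1, ?_, ?_⟩
      · exact bnd_Br_mono (Metric.closedBall_subset_closedBall ((le_max_left _ _).trans hN)) hW2
      · rw [← h]
        exact bnd_Br_mono (Metric.closedBall_subset_closedBall ((le_max_right _ _).trans hN)) hB

private theorem bnd_mem_P {b c ρ δ R : ℝ} {p V : E2} {C M : ℝ}
    (hV : Reg 1 b c ρ δ R C p V) (hB : Br 1 b c ρ (Metric.closedBall 0 M) p V) :
    ∃ C' M' : ℕ, p ∈ bndP b c ρ δ R C' M' := by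
  by_cases h : p ∈ ⋃ C' : ℕ, ⋃ M' : ℕ, bndZ2 b c ρ δ R C' M'
  · rw [Set.mem_iUnion₂] at h
    obtain ⟨C', M', h'⟩ := h
    exact ⟨C', M', Or.inl h'⟩
  · obtain ⟨C', hC'⟩ := exists_nat_ge C
    obtain ⟨M', hM'⟩ := exists_nat_ge M
    exact ⟨C', M', Or.inr ⟨⟨V, hV.mono hC' le_rfl,
      bnd_Br_mono (Metric.closedBall_subset_closedBall hM') hB⟩, h⟩⟩

theorem bnd {b c χ δ : ℝ} (hb0 : b ≠ 0) (hb1 : |b| < 1) (hδ : 0 < δ) (hχ : 100 * δ ≤ χ)
    {μ : Measure E2} [IsProbabilityMeasure μ] (hμ : MeasurePreserving (G 1 b c) μ μ) :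
    ∀ᵐ p ∂μ, ∀ (C : ℝ) (V : E2), Reg 1 b c (χ - Real.log |b|) δ (|c| + 4) C p V → ∀ M : ℝ,
      Br 1 b c (χ - Real.log |b|) (Metric.closedBall 0 M) p V →
      Br 1 b c (χ - Real.log |b|) (Kb b c (|c| + 4)) p V := by
  have hlog : Real.log |b| < 0 := Real.log_neg (abs_pos.mpr hb0) hb1
  have hρ : 100 * δ ≤ χ - Real.log |b| := by linarith
  have hρ2 : 0 < 2 * (χ - Real.log |b|) - 6 * δ + Real.log |b| := by linarith
  have hcons := (mp_Gi hb0 hμ).conservative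
  have hret : ∀ᵐ p ∂μ, ∀ C M : ℕ, p ∈ bndP b c (χ - Real.log |b|) δ (|c| + 4) C M →
      ∃ᶠ n in Filter.atTop, (Gi 1 b c)^[n] p ∈ bndP b c (χ - Real.log |b|) δ (|c| + 4) C M := by
    rw [ae_all_iff]
    intro C
    rw [ae_all_iff]
    intro M
    exact hcons.ae_mem_imp_frequently_image_mem
      (bnd_P_meas hb0 hδ hρ (|c| + 4) C M).nullMeasurableSet
  filter_upwards [hret, supp hb0 hb1 hμ] with p hp hsupp
  intro C V hReg M hBr s hs q hq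
  obtain ⟨C', M', hP⟩ := bnd_mem_P hReg hBr
  have hfr := hp C' M' hP
  have h2 : ∃ᶠ n : ℕ in Filter.atTop, ‖(Gi 1 b c)^[n] q‖ ≤ M' := by
    refine hfr.mono ?_
    intro n hn
    obtain ⟨C1, V1, M1, hR1, hB1, hS1⟩ := Reg.back_bdd hb0 hδ hReg hsupp.2 hBr n
    have h3 := hS1 _ (bnd_P_branch hb0 hρ2 hn hR1 hB1) s hs q hq
    rwa [mem_closedBall_zero_iff] at h3
  have hE := (Asym.expC hρ hδ hReg hq).tendsto
  have h1 : ∃ᶠ n : ℕ in Filter.atTop, ‖(G 1 b c)^[n] q‖ ≤ |c| + 4 + 1 := by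
    refine Filter.Eventually.frequently ?_
    filter_upwards [hE.eventually (gt_mem_nhds (zero_lt_one' ℝ))] with n hn
    have h4 : ‖(G 1 b c)^[n] q‖ ≤ ‖(G 1 b c)^[n] q - (G 1 b c)^[n] p‖ + ‖(G 1 b c)^[n] p‖ := by
      have := norm_add_le ((G 1 b c)^[n] q - (G 1 b c)^[n] p) ((G 1 b c)^[n] p)
      rwa [sub_add_cancel] at this
    rw [dist_eq_norm] at hn
    have h5 := hsupp.1 n
    linarith
  have hf := filt hb0 hb1 (q := q) (M := max (|c| + 4 + 1) M')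
    (h1.mono fun n hn => hn.trans (le_max_left _ _)) (h2.mono fun n hn => hn.trans (le_max_right _ _))
  exact hf.2

end Pool.Agent.HD
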