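import Pool.Agent.HD.Uq

set_option autoImplicit false

/-!
HD-Boot1. Exponentially asymptotic orbits: decomposition along the contracted direction.

`wedge`: the determinant `W_k = wd V_k z_k` satisfies `W_(k+1) = b W_k - a w_k² (V_k).1`, solved from
infinity. `decomp`: the projection of `z_k` to the direction `V_k`.
-/

namespace Pool.Agent.HD

private theorem boot1_pow {b : ℝ} (hb : b ≠ 0) (k : ℕ) :
    |b| ^ k = Real.exp (Real.log |b| * k) := by
  rw [mul_comm, Real.exp_nat_mul, Real.exp_log (abs_pos.2 hb)]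

private theorem boot1_exp {x y : ℝ} (h : x ≤ y) (k : ℕ) : Real.exp (x * k) ≤ Real.exp (y * k) :=
  Real.exp_le_exp.2 (mul_le_mul_of_nonneg_right h (Nat.cast_nonneg k))

/-- a scalar recursion solved from infinity -/
private theorem boot1_seq {b s E : ℝ} (hb : b ≠ 0) (hs : 0 < s + Real.log |b|) {W ε : ℕ → ℝ}
    (hW : ∀ k, W (k + 1) = b * W k - ε k) (hε : ∀ k : ℕ, |ε k| ≤ E * Real.exp (-s * k))
    {s' E' : ℝ} (hs' : 0 < s' + Real.log |b|) (hW' : ∀ k : ℕ, |W k| ≤ E' * Real.exp (-s' * k)) :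
    ∃ D' : ℝ, 0 ≤ D' ∧ ∀ k : ℕ, |W k| ≤ D' * Real.exp (-s * k) := by
  have hb0 : 0 < |b| := abs_pos.2 hb
  have hE : 0 ≤ E := by
    have h := (abs_nonneg _).trans (hε 0)
    simpa using h
  have hE' : 0 ≤ E' := by
    have h := (abs_nonneg _).trans (hW' 0)
    simpa using h
  have hlt : Real.exp (-(s + Real.log |b|)) < 1 := by
    rw [Real.exp_lt_one_iff]; linarith
  set θ := Real.exp (-(s + Real.log |b|)) with hθ
  have hθ0 : 0 < θ := Real.exp_pos _
  set K := E / |b| / (1 - θ) with hK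
  have hK0 : 0 ≤ K := div_nonneg (div_nonneg hE hb0.le) (by linarith)
  have hKid : K * (1 - θ) = E / |b| := by
    rw [hK]; exact div_mul_cancel₀ _ (by linarith)
  have hpow : ∀ k : ℕ, Real.exp (-s * k) = θ ^ k * |b| ^ k := by
    intro k
    rw [boot1_pow hb, hθ, ← Real.exp_nat_mul, ← Real.exp_add]
    congr 1; ring
  refine ⟨K, hK0, fun k => ?_⟩
  have hstep : ∀ n : ℕ, |W n| / |b| ^ n ≤ |W (n + 1)| / |b| ^ (n + 1) + E / |b| * θ ^ n := by
    intro n
    have h1 : |b| * |W n| ≤ |W (n + 1)| + E * Real.exp (-s * n) := by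
      have h2 : b * W n = W (n + 1) + ε n := by rw [hW]; ring
      rw [← abs_mul, h2]
      exact (abs_add_le _ _).trans (add_le_add le_rfl (hε n))
    rw [hpow] at h1
    have hbn : 0 < |b| ^ n := pow_pos hb0 n
    have e1 : |W n| / |b| ^ n = (|b| * |W n|) / |b| ^ (n + 1) := by
      rw [pow_succ]; field_simp
    have e2 : |W (n + 1)| / |b| ^ (n + 1) + E / |b| * θ ^ n =
        (|W (n + 1)| + E * (θ ^ n * |b| ^ n)) / |b| ^ (n + 1) := by
      rw [pow_succ]; field_simp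
    rw [e1, e2]
    exact div_le_div_of_nonneg_right h1 (pow_pos hb0 _).le
  have hind : ∀ n : ℕ, |W k| / |b| ^ k + K * θ ^ (k + n) ≤
      |W (k + n)| / |b| ^ (k + n) + K * θ ^ k := by
    intro n
    induction n with
    | zero => simp
    | succ n ih =>
      have h1 := hstep (k + n)
      have h2 : K * θ ^ (k + n) - K * θ ^ (k + (n + 1)) = E / |b| * θ ^ (k + n) := by
        rw [← hKid, ← add_assoc, pow_succ]; ring
      rw [← add_assoc k n 1] at *
      linarith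
  have hlim : Filter.Tendsto (fun n : ℕ => |W (k + n)| / |b| ^ (k + n)) Filter.atTop
      (nhds 0) := by
    have hθ' : Real.exp (-(s' + Real.log |b|)) < 1 := by
      rw [Real.exp_lt_one_iff]; linarith
    have h1 : Filter.Tendsto (fun n : ℕ => E' * Real.exp (-(s' + Real.log |b|)) ^ n)
        Filter.atTop (nhds 0) := by
      have h := (tendsto_pow_atTop_nhds_zero_of_lt_one (Real.exp_pos _).le hθ').const_mul E'
      simpa using h
    have h2 : Filter.Tendsto (fun n : ℕ => |W n| / |b| ^ n) Filter.atTop (nhds 0) := by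
      refine squeeze_zero (fun n => div_nonneg (abs_nonneg _) (pow_pos hb0 _).le)
        (fun n => ?_) h1
      rw [div_le_iff₀ (pow_pos hb0 _)]
      refine (hW' n).trans (le_of_eq ?_)
      rw [boot1_pow hb, ← Real.exp_nat_mul, mul_assoc, ← Real.exp_add]
      congr 2; ring
    have h3 := h2.comp (Filter.tendsto_add_atTop_nat k)
    refine h3.congr fun n => ?_
    simp only [Function.comp_apply, add_comm n k]
  have hfin : |W k| / |b| ^ k ≤ K * θ ^ k := by
    have h1 : ∀ n : ℕ, |W k| / |b| ^ k ≤ |W (k + n)| / |b| ^ (k + n) + K * θ ^ k := by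
      intro n
      have h2 := hind n
      have h3 : 0 ≤ K * θ ^ (k + n) := mul_nonneg hK0 (pow_pos hθ0 _).le
      linarith
    have h4 := ge_of_tendsto' (hlim.add_const (K * θ ^ k)) h1
    rwa [zero_add] at h4
  rw [div_le_iff₀ (pow_pos hb0 _)] at hfin
  rw [hpow]
  linarith [hfin, mul_assoc K (θ ^ k) (|b| ^ k)]

private theorem boot1_step (a b c : ℝ) (p q : E2) (k : ℕ) :
    (G a b c)^[k + 1] q - (G a b c)^[k + 1] p =
      act (der a b ((G a b c)^[k] p)) ((G a b c)^[k] q - (G a b c)^[k] p) +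
        (a * ((G a b c)^[k] q - (G a b c)^[k] p).1 ^ 2, 0) := by
  rw [Function.iterate_succ_apply', Function.iterate_succ_apply']
  have h := G_add a b c ((G a b c)^[k] p) ((G a b c)^[k] q - (G a b c)^[k] p)
  rw [add_sub_cancel] at h
  rw [h]
  abel

private theorem boot1_wd (a b : ℝ) (p u v : E2) (t : ℝ) :
    wd (act (der a b p) u) (act (der a b p) v + (t, 0)) = b * wd u v - t * u.1 := by
  simp only [wd, act, der, Prod.fst_add, Prod.snd_add]
  ring

private theorem boot1_fst (v : E2) : |v.1| ≤ ‖v‖ := norm_fst_le v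

private theorem boot1_snd (v : E2) : |v.2| ≤ ‖v‖ := norm_snd_le v

private theorem boot1_sq_le (v : E2) : ‖v‖ ^ 2 ≤ v.1 ^ 2 + v.2 ^ 2 := by
  rw [Prod.norm_def, Real.norm_eq_abs, Real.norm_eq_abs]
  rcases le_total |v.1| |v.2| with h | h
  · rw [max_eq_right h, sq_abs]; nlinarith [sq_nonneg v.1]
  · rw [max_eq_left h, sq_abs]; nlinarith [sq_nonneg v.2]

private theorem boot1_der (a b R : ℝ) (p : E2) (hp : ‖p‖ ≤ R) :
    ‖der a b p‖ ≤ 2 * |a| * R + |b| + 1 := by
  have hR : 0 ≤ R := (norm_nonneg p).trans hp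
  have ha : 0 ≤ 2 * |a| * R := by positivity
  have hb : 0 ≤ |b| := abs_nonneg b
  have h1 : |2 * a * p.1| ≤ 2 * |a| * R := by
    rw [abs_mul, abs_mul, abs_two]
    exact mul_le_mul_of_nonneg_left ((boot1_fst p).trans hp) (by positivity)
  rw [der, Prod.norm_def, Prod.norm_def, Prod.norm_def]
  simp only [Real.norm_eq_abs, abs_neg, abs_one, abs_zero]
  refine max_le (max_le (by linarith) (by linarith)) (max_le (by linarith) (by linarith))

variable {a b c ρ δ R C : ℝ} {p V q : E2}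

theorem wedge (hb : b ≠ 0) (hδ : 0 < δ) (hτ : 3 * δ < ρ + Real.log |b|)
    (h : Reg a b c ρ δ R C p V) {r D : ℝ} (hr : 0 < r)
    (hq : ∀ k : ℕ, ‖(G a b c)^[k] q - (G a b c)^[k] p‖ ≤ D * Real.exp (-r * k)) :
    ∃ D' : ℝ, ∀ k : ℕ,
      |wd (act (co a b c p k) V) ((G a b c)^[k] q - (G a b c)^[k] p)| ≤
        D' * Real.exp (-(2 * r + ρ - 3 * δ) * k) := by
  have hD : 0 ≤ D := by
    have h1 := (norm_nonneg _).trans (hq 0)
    simpa using h1
  have hC : 0 ≤ C := zero_le_one.trans h.one_le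
  obtain ⟨D', -, hD'⟩ := boot1_seq (E := |a| * D ^ 2 * C) (E' := 2 * C * D)
    (s := 2 * r + ρ - 3 * δ) (s' := r + ρ - 3 * δ)
    (W := fun k => wd (act (co a b c p k) V) ((G a b c)^[k] q - (G a b c)^[k] p))
    (ε := fun k => a * ((G a b c)^[k] q - (G a b c)^[k] p).1 ^ 2 * (act (co a b c p k) V).1)
    hb (by linarith) (fun k => by
      rw [boot1_step, act_co_succ, boot1_wd]) (fun k => by
      have h1 : |((G a b c)^[k] q - (G a b c)^[k] p).1| ≤ D * Real.exp (-r * k) :=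
        (boot1_fst _).trans (hq k)
      have h2 : |(act (co a b c p k) V).1| ≤ C * Real.exp (-(ρ - 3 * δ) * k) :=
        (boot1_fst _).trans (h.con k)
      rw [abs_mul, abs_mul, abs_pow]
      have h3 : |a| * |((G a b c)^[k] q - (G a b c)^[k] p).1| ^ 2 * |(act (co a b c p k) V).1| ≤
          |a| * (D * Real.exp (-r * k)) ^ 2 * (C * Real.exp (-(ρ - 3 * δ) * k)) := by
        gcongr
      refine h3.trans (le_of_eq ?_)
      have h4 : Real.exp (-(2 * r + ρ - 3 * δ) * k) =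
          Real.exp (-r * k) ^ 2 * Real.exp (-(ρ - 3 * δ) * k) := by
        rw [← Real.exp_nat_mul, ← Real.exp_add]
        congr 1; push_cast; ring
      rw [h4]; ring) (by linarith) (fun k => by
      have h1 := abs_wd_le (act (co a b c p k) V) ((G a b c)^[k] q - (G a b c)^[k] p)
      have h3 : 2 * ‖act (co a b c p k) V‖ * ‖(G a b c)^[k] q - (G a b c)^[k] p‖ ≤
          2 * (C * Real.exp (-(ρ - 3 * δ) * k)) * (D * Real.exp (-r * k)) := by
        have := h.con k
        have := hq k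
        gcongr
      refine (h1.trans h3).trans (le_of_eq ?_)
      have h4 : Real.exp (-(r + ρ - 3 * δ) * k) =
          Real.exp (-r * k) * Real.exp (-(ρ - 3 * δ) * k) := by
        rw [← Real.exp_add]
        congr 1; ring
      rw [h4]; ring)
  exact ⟨D', hD'⟩

theorem decomp (hb : b ≠ 0) (hδ : 0 < δ) (hτ : 3 * δ < ρ + Real.log |b|)
    (h : Reg a b c ρ δ R C p V) {r D : ℝ} (hr : 0 < r)
    (hq : ∀ k : ℕ, ‖(G a b c)^[k] q - (G a b c)^[k] p‖ ≤ D * Real.exp (-r * k)) :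
    ∃ α : ℕ → ℝ, ∃ D' : ℝ, (∀ k : ℕ,
      ‖(G a b c)^[k] q - (G a b c)^[k] p - α k • act (co a b c p k) V‖ ≤
        D' * Real.exp (-(2 * r - 5 * δ) * k)) ∧
      ∀ k : ℕ, |α (k + 1) - α k| ≤ D' * Real.exp ((ρ - 2 * r + 6 * δ) * k) := by
  have hD : 0 ≤ D := by
    have h1 := (norm_nonneg _).trans (hq 0)
    simpa using h1
  have hC : 0 < C := zero_lt_one.trans_le h.one_le
  have hR : 0 ≤ R := (norm_nonneg _).trans (h.bdd 0)
  obtain ⟨D₀, hD₀⟩ := wedge hb hδ hτ h hr hq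
  have hD₀' : 0 ≤ D₀ := by
    have h1 := (abs_nonneg _).trans (hD₀ 0)
    simpa using h1
  set Vk : ℕ → E2 := fun k => act (co a b c p k) V with hVk
  set z : ℕ → E2 := fun k => (G a b c)^[k] q - (G a b c)^[k] p with hz
  have hlow : ∀ k : ℕ, Real.exp (-(ρ + δ) * k) ≤ 2 * C * ‖Vk k‖ := fun k => h.low hb k
  have hVpos : ∀ k : ℕ, 0 < ‖Vk k‖ := by
    intro k
    by_contra hn
    have h0 : ‖Vk k‖ = 0 := le_antisymm (not_lt.1 hn) (norm_nonneg _)
    have h1 := hlow k
    rw [h0, mul_zero] at h1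
    exact absurd h1 (not_le.2 (Real.exp_pos _))
  have hinv : ∀ k : ℕ, 1 / ‖Vk k‖ ≤ 2 * C * Real.exp ((ρ + δ) * k) := by
    intro k
    rw [div_le_iff₀ (hVpos k)]
    have h1 := hlow k
    have h2 : Real.exp ((ρ + δ) * k) * Real.exp (-(ρ + δ) * k) = 1 := by
      rw [← Real.exp_add, ← Real.exp_zero]; congr 1; ring
    calc (1 : ℝ) = Real.exp ((ρ + δ) * k) * Real.exp (-(ρ + δ) * k) := h2.symm
      _ ≤ Real.exp ((ρ + δ) * k) * (2 * C * ‖Vk k‖) :=
        mul_le_mul_of_nonneg_left h1 (Real.exp_pos _).le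
      _ = 2 * C * Real.exp ((ρ + δ) * k) * ‖Vk k‖ := by ring
  set N : ℕ → ℝ := fun k => (Vk k).1 ^ 2 + (Vk k).2 ^ 2 with hN
  have hNle : ∀ k, ‖Vk k‖ ^ 2 ≤ N k := fun k => boot1_sq_le _
  have hNpos : ∀ k, 0 < N k := fun k => (pow_pos (hVpos k) 2).trans_le (hNle k)
  set α : ℕ → ℝ := fun k => ((Vk k).1 * (z k).1 + (Vk k).2 * (z k).2) / N k with hα
  set u : ℕ → E2 := fun k => z k - α k • Vk k with hu
  have hukey : ∀ k, u k = (wd (Vk k) (z k) / N k) • ((-(Vk k).2, (Vk k).1) : E2) := by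
    intro k
    have hNk := (hNpos k).ne'
    have hNdef : N k = (Vk k).1 ^ 2 + (Vk k).2 ^ 2 := rfl
    apply Prod.ext
    · simp only [hu, hα, Prod.fst_sub, Prod.smul_fst, smul_eq_mul, wd]
      field_simp
      rw [hNdef]; ring
    · simp only [hu, hα, Prod.snd_sub, Prod.smul_snd, smul_eq_mul, wd]
      field_simp
      rw [hNdef]; ring
  have hunorm : ∀ k : ℕ, ‖u k‖ ≤ 2 * C * D₀ * Real.exp (-(2 * r - 4 * δ) * k) := by
    intro k
    have h1 : ‖u k‖ ≤ |wd (Vk k) (z k)| / N k * ‖Vk k‖ := by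
      rw [hukey, norm_smul, Real.norm_eq_abs, abs_div, abs_of_pos (hNpos k)]
      refine mul_le_mul_of_nonneg_left ?_ (div_nonneg (abs_nonneg _) (hNpos k).le)
      rw [Prod.norm_def]
      simp only [norm_neg, Real.norm_eq_abs]
      exact max_le (boot1_snd _) (boot1_fst _)
    have h2 : |wd (Vk k) (z k)| / N k * ‖Vk k‖ ≤ |wd (Vk k) (z k)| * (1 / ‖Vk k‖) := by
      have h3 : ‖Vk k‖ / N k ≤ 1 / ‖Vk k‖ := by
        rw [div_le_div_iff₀ (hNpos k) (hVpos k)]
        have := hNle k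
        nlinarith
      calc |wd (Vk k) (z k)| / N k * ‖Vk k‖ = |wd (Vk k) (z k)| * (‖Vk k‖ / N k) := by ring
        _ ≤ _ := mul_le_mul_of_nonneg_left h3 (abs_nonneg _)
    have h4 : |wd (Vk k) (z k)| * (1 / ‖Vk k‖) ≤
        (D₀ * Real.exp (-(2 * r + ρ - 3 * δ) * k)) * (2 * C * Real.exp ((ρ + δ) * k)) :=
      mul_le_mul (hD₀ k) (hinv k) (by positivity) (by positivity)
    refine ((h1.trans h2).trans h4).trans (le_of_eq ?_)
    have h5 : Real.exp (-(2 * r - 4 * δ) * k) =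
        Real.exp (-(2 * r + ρ - 3 * δ) * k) * Real.exp ((ρ + δ) * k) := by
      rw [← Real.exp_add]; congr 1; ring
    rw [h5]; ring
  set T := 2 * |a| * R + |b| + 1 with hT
  have hT0 : 0 ≤ T := by positivity
  set e : ℕ → E2 := fun k => act (der a b ((G a b c)^[k] p)) (u k) + (a * (z k).1 ^ 2, 0) with he
  have hze : ∀ k, z (k + 1) = α k • Vk (k + 1) + e k := by
    intro k
    have h1 : z (k + 1) = act (der a b ((G a b c)^[k] p)) (z k) + (a * (z k).1 ^ 2, 0) :=
      boot1_step a b c p q k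
    have h2 : Vk (k + 1) = act (der a b ((G a b c)^[k] p)) (Vk k) := act_co_succ a b c p V k
    have h3 : z k = α k • Vk k + u k := by simp only [hu]; abel
    have h4 : act (der a b ((G a b c)^[k] p)) (z k) =
        α k • Vk (k + 1) + act (der a b ((G a b c)^[k] p)) (u k) := by
      conv_lhs => rw [h3]
      rw [act_add, act_smul, h2]
    rw [h1, h4, add_assoc]
  have henorm : ∀ k : ℕ, ‖e k‖ ≤
      (4 * T * C * D₀ + |a| * D ^ 2) * Real.exp (-(2 * r - 4 * δ) * k) := by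
    intro k
    have h1 : ‖e k‖ ≤ 2 * T * ‖u k‖ + |a| * ‖z k‖ ^ 2 := by
      refine (norm_add_le _ _).trans (add_le_add ?_ ?_)
      · refine (norm_act_le _ _).trans ?_
        refine mul_le_mul_of_nonneg_right ?_ (norm_nonneg _)
        exact mul_le_mul_of_nonneg_left (boot1_der a b R _ (h.bdd k)) (by norm_num)
      · rw [Prod.norm_def]
        simp only [norm_zero, Real.norm_eq_abs]
        refine max_le ?_ (by positivity)
        rw [abs_mul, abs_pow]
        have := boot1_fst (z k)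
        gcongr
    have h2 : |a| * ‖z k‖ ^ 2 ≤ |a| * (D ^ 2 * Real.exp (-(2 * r - 4 * δ) * k)) := by
      refine mul_le_mul_of_nonneg_left ?_ (abs_nonneg _)
      have h3 : ‖z k‖ ^ 2 ≤ (D * Real.exp (-r * k)) ^ 2 :=
        pow_le_pow_left₀ (norm_nonneg _) (hq k) 2
      refine h3.trans ?_
      have h4 : (D * Real.exp (-r * k)) ^ 2 = D ^ 2 * Real.exp (-(2 * r) * k) := by
        rw [mul_pow, ← Real.exp_nat_mul]; congr 2; push_cast; ring
      rw [h4]
      exact mul_le_mul_of_nonneg_left (boot1_exp (by linarith) k) (by positivity)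
    have h5 : 2 * T * ‖u k‖ ≤ 2 * T * (2 * C * D₀ * Real.exp (-(2 * r - 4 * δ) * k)) :=
      mul_le_mul_of_nonneg_left (hunorm k) (by positivity)
    calc ‖e k‖ ≤ 2 * T * ‖u k‖ + |a| * ‖z k‖ ^ 2 := h1
      _ ≤ 2 * T * (2 * C * D₀ * Real.exp (-(2 * r - 4 * δ) * k)) +
          |a| * (D ^ 2 * Real.exp (-(2 * r - 4 * δ) * k)) := add_le_add h5 h2
      _ = _ := by ring
  have hαstep : ∀ k, α (k + 1) - α k =
      ((Vk (k + 1)).1 * (e k).1 + (Vk (k + 1)).2 * (e k).2) / N (k + 1) := by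
    intro k
    have hNk := (hNpos (k + 1)).ne'
    have hNdef : N (k + 1) = (Vk (k + 1)).1 ^ 2 + (Vk (k + 1)).2 ^ 2 := rfl
    have h1 : α (k + 1) =
        ((Vk (k + 1)).1 * (z (k + 1)).1 + (Vk (k + 1)).2 * (z (k + 1)).2) / N (k + 1) := rfl
    rw [h1, hze k]
    simp only [Prod.fst_add, Prod.snd_add, Prod.smul_fst, Prod.smul_snd, smul_eq_mul]
    rw [div_sub' hNk, div_left_inj' hNk, hNdef]
    ring
  set M := 4 * T * C * D₀ + |a| * D ^ 2 with hM
  have hM0 : 0 ≤ M := by positivity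
  refine ⟨α, 2 * C * D₀ + 4 * C * Real.exp (ρ + δ) * M, fun k => ?_, fun k => ?_⟩
  · have h1 := hunorm k
    have h2 : Real.exp (-(2 * r - 4 * δ) * k) ≤ Real.exp (-(2 * r - 5 * δ) * k) :=
      boot1_exp (by linarith) k
    have h3 : 0 ≤ 4 * C * Real.exp (ρ + δ) * M := by positivity
    calc ‖u k‖ ≤ 2 * C * D₀ * Real.exp (-(2 * r - 4 * δ) * k) := h1
      _ ≤ 2 * C * D₀ * Real.exp (-(2 * r - 5 * δ) * k) :=
        mul_le_mul_of_nonneg_left h2 (by positivity)
      _ ≤ _ := mul_le_mul_of_nonneg_right (by linarith) (Real.exp_pos _).le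
  · have h1 : |α (k + 1) - α k| ≤ 2 * ‖e k‖ * (1 / ‖Vk (k + 1)‖) := by
      rw [hαstep, abs_div, abs_of_pos (hNpos _)]
      have h2 : |(Vk (k + 1)).1 * (e k).1 + (Vk (k + 1)).2 * (e k).2| ≤
          2 * ‖e k‖ * ‖Vk (k + 1)‖ := by
        refine (abs_add_le _ _).trans ?_
        rw [abs_mul, abs_mul]
        have h3 : |(Vk (k + 1)).1| * |(e k).1| ≤ ‖Vk (k + 1)‖ * ‖e k‖ :=
          mul_le_mul (boot1_fst _) (boot1_fst _) (abs_nonneg _) (norm_nonneg _)
        have h4 : |(Vk (k + 1)).2| * |(e k).2| ≤ ‖Vk (k + 1)‖ * ‖e k‖ :=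
          mul_le_mul (boot1_snd _) (boot1_snd _) (abs_nonneg _) (norm_nonneg _)
        linarith
      rw [div_le_iff₀ (hNpos _)]
      refine h2.trans ?_
      have h5 : ‖Vk (k + 1)‖ ≤ 1 / ‖Vk (k + 1)‖ * N (k + 1) := by
        rw [one_div, ← div_eq_inv_mul, le_div_iff₀ (hVpos _)]
        have := hNle (k + 1)
        nlinarith
      calc 2 * ‖e k‖ * ‖Vk (k + 1)‖ ≤ 2 * ‖e k‖ * (1 / ‖Vk (k + 1)‖ * N (k + 1)) :=
            mul_le_mul_of_nonneg_left h5 (by positivity)
        _ = _ := by ring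
    have h6 : 2 * ‖e k‖ * (1 / ‖Vk (k + 1)‖) ≤
        2 * (M * Real.exp (-(2 * r - 4 * δ) * k)) *
          (2 * C * Real.exp ((ρ + δ) * ((k + 1 : ℕ) : ℝ))) := by
      refine mul_le_mul ?_ (hinv (k + 1)) (by positivity) (by positivity)
      exact mul_le_mul_of_nonneg_left (henorm k) (by norm_num)
    have h7 : Real.exp (-(2 * r - 4 * δ) * k) * Real.exp ((ρ + δ) * ((k + 1 : ℕ) : ℝ)) =
        Real.exp (ρ + δ) * Real.exp ((ρ - 2 * r + 5 * δ) * k) := by
      rw [← Real.exp_add, ← Real.exp_add]; congr 1; push_cast; ring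
    have h8 : Real.exp ((ρ - 2 * r + 5 * δ) * k) ≤ Real.exp ((ρ - 2 * r + 6 * δ) * k) :=
      boot1_exp (by linarith) k
    calc |α (k + 1) - α k| ≤ 2 * (M * Real.exp (-(2 * r - 4 * δ) * k)) *
          (2 * C * Real.exp ((ρ + δ) * ((k + 1 : ℕ) : ℝ))) := h1.trans h6
      _ = 4 * C * M * (Real.exp (-(2 * r - 4 * δ) * k) *
          Real.exp ((ρ + δ) * ((k + 1 : ℕ) : ℝ))) := by ring
      _ = 4 * C * Real.exp (ρ + δ) * M * Real.exp ((ρ - 2 * r + 5 * δ) * k) := by
          rw [h7]; ring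
      _ ≤ 4 * C * Real.exp (ρ + δ) * M * Real.exp ((ρ - 2 * r + 6 * δ) * k) :=
          mul_le_mul_of_nonneg_left h8 (by positivity)
      _ ≤ _ := by
          refine mul_le_mul_of_nonneg_right ?_ (Real.exp_pos _).le
          have : 0 ≤ 2 * C * D₀ := by positivity
          linarith

end Pool.Agent.HD
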