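import Mathlib

set_option autoImplicit false

/-!
# Mild dissipation of real Henon maps, nonatomic hyperbolic measures: definitions

Interface of the project HD. The Henon map is `G 1 b c`; its inverse is `Gi 1 b c`, and
`swap ∘ Gi 1 b c ∘ swap = G (1 / b) (1 / b) (c / b)`.
-/

namespace Pool.Agent.HD

open MeasureTheory

/-- the plane (with the maximum norm) -/
abbrev E2 : Type := ℝ × ℝ

/-- `2 × 2` matrices, as pairs of rows (with the maximum norm of the entries) -/
abbrev M2 : Type := E2 × E2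

/-- the map `(x, y) ↦ (a x² + c - b y, x)` -/
def G (a b c : ℝ) (p : E2) : E2 := (a * p.1 ^ 2 + c - b * p.2, p.1)

/-- the inverse of `G a b c` -/
noncomputable def Gi (a b c : ℝ) (p : E2) : E2 := (p.2, (a * p.2 ^ 2 + c - p.1) / b)

/-- the matrix `M` applied to the vector `v` -/
def act (M : M2) (v : E2) : E2 :=
  (M.1.1 * v.1 + M.1.2 * v.2, M.2.1 * v.1 + M.2.2 * v.2)

/-- product of matrices -/
def mm (M N : M2) : M2 :=
  ((M.1.1 * N.1.1 + M.1.2 * N.2.1, M.1.1 * N.1.2 + M.1.2 * N.2.2),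
    (M.2.1 * N.1.1 + M.2.2 * N.2.1, M.2.1 * N.1.2 + M.2.2 * N.2.2))

/-- determinant -/
def dt (M : M2) : ℝ := M.1.1 * M.2.2 - M.1.2 * M.2.1

/-- adjugate -/
def adj (M : M2) : M2 := ((M.2.2, -M.1.2), (-M.2.1, M.1.1))

/-- the determinant of two vectors -/
def wd (u v : E2) : ℝ := u.1 * v.2 - u.2 * v.1

/-- the derivative of `G a b c` at `p` -/
def der (a b : ℝ) (p : E2) : M2 := ((2 * a * p.1, -b), (1, 0))

/-- the derivative of the `n`-th iterate of `G a b c` at `p` -/
def co (a b c : ℝ) (p : E2) : ℕ → M2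
  | 0 => ((1, 0), (0, 1))
  | n + 1 => mm (der a b ((G a b c)^[n] p)) (co a b c p n)

/-- upper growth of the cocycle along the forward orbit of `p` -/
def Up (a b c τ δ C : ℝ) (p : E2) : Prop :=
  ∀ k n : ℕ, ‖co a b c ((G a b c)^[k] p) n‖ ≤ C * Real.exp ((τ + δ) * n + δ * k)

/-- `p` is regular with contracted unit vector `V`: contraction rate `ρ`, growth rate
`ρ + log |b|` of the cocycle, error `δ`, constant `C`, orbit in the ball of radius `R` -/
structure Reg (a b c ρ δ R C : ℝ) (p V : E2) : Prop where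
  unit : ‖V‖ = 1
  bdd : ∀ n : ℕ, ‖(G a b c)^[n] p‖ ≤ R
  con : ∀ n : ℕ, ‖act (co a b c p n) V‖ ≤ C * Real.exp (-(ρ - 3 * δ) * n)
  up : Up a b c (ρ + Real.log |b|) δ C p

/-- the orbit of `q` is asymptotic to the orbit of `p` with asymptotic coordinate `s` -/
def Asym (a b c ρ : ℝ) (p V : E2) (s : ℝ) (q : E2) : Prop :=
  ∃ D : ℝ, ∀ n : ℕ, ‖(G a b c)^[n] q - (G a b c)^[n] p - s • act (co a b c p n) V‖ ≤
    D * Real.exp (-(3 / 2 * ρ) * n)

/-- exponential convergence of the orbits -/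
def ExpC (f : E2 → E2) (p q : E2) : Prop :=
  ∃ a : ℝ, 0 < a ∧ ∃ D : ℝ, ∀ n : ℕ, dist (f^[n] q) (f^[n] p) ≤ D * Real.exp (-a * n)

/-- the stable set of `p`, literally: `limsup (1/n) log d(fⁿ q, fⁿ p) < 0` (with `log 0 = -∞`) -/
noncomputable def Ws (f : E2 → E2) (p : E2) : Set E2 :=
  {q | Filter.limsup (fun n : ℕ => ENNReal.log (edist (f^[n] q) (f^[n] p)) / ((n : ℝ) : EReal))
    Filter.atTop < 0}

/-- all points of the branch `s ≥ 0` of the stable curve lie in `S` -/
def Br (a b c ρ : ℝ) (S : Set E2) (p V : E2) : Prop :=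
  ∀ s : ℝ, 0 ≤ s → ∀ q, Asym a b c ρ p V s q → q ∈ S

/-- backward orbits of the Henon map in the ball of radius `R` -/
def Kb (b c R : ℝ) : Set E2 := {q | ∀ n : ℕ, ‖(Gi 1 b c)^[n] q‖ ≤ R}

/-- the constant of the Volterra estimate -/
noncomputable def CV (ρ δ C : ℝ) : ℝ := 2 * C * Real.exp (ρ + δ) / (1 - Real.exp (-(ρ - 9 * δ)))

/-- both directions: `V` is contracted by the Henon map, `U` by its inverse, at an angle, and the
branch in the direction `V` is in `Kb` -/
structure Both (b c χ δ R C : ℝ) (p V U : E2) : Prop where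
  s : Reg 1 b c (χ - Real.log |b|) δ R C p V
  u : Reg (1 / b) (1 / b) (c / b) χ δ R C p.swap U.swap
  angle : C⁻¹ ≤ |wd V U|

end Pool.Agent.HD
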