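import Pool.Agent.HD.Orb

set_option autoImplicit false

/-!
HD-Dir. Existence of the contracted direction: every matrix `M` almost kills a unit vector, the
directions for `co p n` and `co p (n + 1)` are exponentially close, the limit is contracted.
-/

namespace Pool.Agent.HD

private lemma almost_kernel (M : M2) (hM : 0 < ‖M‖) :
    ∃ e : E2, ‖e‖ = 1 ∧ ‖act M e‖ ≤ |dt M| / ‖M‖ := by
  obtain ⟨⟨x, y⟩, ⟨z, w⟩⟩ := M
  set N := ‖(((x, y), (z, w)) : M2)‖ with hN
  have hNd : N = max (max |x| |y|) (max |z| |w|) := by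
    rw [hN]; simp [Prod.norm_def, Real.norm_eq_abs]
  rcases le_total (max |z| |w|) (max |x| |y|) with h | h
  · rw [max_eq_left h] at hNd
    refine ⟨(-y / N, x / N), ?_, ?_⟩
    · rw [Prod.norm_def, Real.norm_eq_abs, Real.norm_eq_abs, abs_div, abs_div, abs_neg,
        abs_of_pos hM, max_div_div_right hM.le, max_comm |y| |x|, ← hNd, div_self hM.ne']
    · rw [Prod.norm_def, Real.norm_eq_abs, Real.norm_eq_abs]
      apply max_le
      · have : x * (-y / N) + y * (x / N) = 0 := by ring
        simp only [act, this, abs_zero]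
        positivity
      · have : z * (-y / N) + w * (x / N) = (x * w - y * z) / N := by ring
        simp only [act, this, abs_div, abs_of_pos hM, dt]
        exact le_rfl
  · rw [max_eq_right h] at hNd
    refine ⟨(-w / N, z / N), ?_, ?_⟩
    · rw [Prod.norm_def, Real.norm_eq_abs, Real.norm_eq_abs, abs_div, abs_div, abs_neg,
        abs_of_pos hM, max_div_div_right hM.le, max_comm |w| |z|, ← hNd, div_self hM.ne']
    · rw [Prod.norm_def, Real.norm_eq_abs, Real.norm_eq_abs]
      apply max_le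
      · have : x * (-w / N) + y * (z / N) = -(x * w - y * z) / N := by ring
        simp only [act, this, abs_div, abs_neg, abs_of_pos hM, dt]
        exact le_rfl
      · have : z * (-w / N) + w * (z / N) = 0 := by ring
        simp only [act, this, abs_zero]
        positivity

private lemma norm_der_le {a b R : ℝ} {q : E2} (hq : ‖q‖ ≤ R) :
    ‖der a b q‖ ≤ 2 * |a| * R + |b| + 1 := by
  have hR : 0 ≤ R := (norm_nonneg _).trans hq
  have h1 : |q.1| ≤ R := (norm_fst_le q).trans hq
  have h2 : |2 * a * q.1| ≤ 2 * |a| * R := by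
    rw [abs_mul, abs_mul, abs_of_pos (by norm_num : (0 : ℝ) < 2)]
    gcongr
  have h0 : 0 ≤ 2 * |a| * R := by positivity
  have hb := abs_nonneg b
  simp only [der, Prod.norm_def, Real.norm_eq_abs, abs_neg, abs_one, abs_zero]
  refine max_le (max_le ?_ ?_) (max_le ?_ ?_) <;> linarith

private lemma signs (e : ℕ → E2) (d : ℕ → ℝ)
    (h : ∀ n, ‖e n - e (n + 1)‖ ≤ d n ∨ ‖e n + e (n + 1)‖ ≤ d n) :
    ∃ v : ℕ → E2, (∀ n, v n = e n ∨ v n = -e n) ∧ ∀ n, ‖v n - v (n + 1)‖ ≤ d n := by
  classical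
  have step : ∀ (n : ℕ) (x : E2), (x = e n ∨ x = -e n) →
      ∃ y : E2, (y = e (n + 1) ∨ y = -e (n + 1)) ∧ ‖x - y‖ ≤ d n := by
    intro n x hx
    rcases hx with hx | hx <;> rcases h n with h1 | h1
    · exact ⟨e (n + 1), Or.inl rfl, by rw [hx]; exact h1⟩
    · exact ⟨-e (n + 1), Or.inr rfl, by rw [hx, sub_neg_eq_add]; exact h1⟩
    · refine ⟨-e (n + 1), Or.inr rfl, ?_⟩
      rw [hx, ← norm_neg]
      have : -(-e n - -e (n + 1)) = e n - e (n + 1) := by abel
      rw [this]; exact h1
    · refine ⟨e (n + 1), Or.inl rfl, ?_⟩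
      rw [hx, ← norm_neg]
      have : -(-e n - e (n + 1)) = e n + e (n + 1) := by abel
      rw [this]; exact h1
  choose! f hf hfd using step
  let v : ℕ → E2 := fun n => Nat.rec (e 0) (fun n x => f n x) n
  have hv : ∀ n, v n = e n ∨ v n = -e n := by
    intro n
    induction n with
    | zero => exact Or.inl rfl
    | succ n ih => exact hf n (v n) ih
  exact ⟨v, hv, fun n => hfd n (v n) (hv n)⟩

theorem exists_dir {a b c τ δ R C : ℝ} {p : E2} (hb : b ≠ 0) (hδ : 0 < δ)
    (h1 : 4 * δ < 2 * τ - Real.log |b|) (hC : 0 < C)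
    (hbd : ∀ n : ℕ, ‖(G a b c)^[n] p‖ ≤ R)
    (lo : ∀ n : ℕ, C⁻¹ * Real.exp ((τ - δ) * n) ≤ ‖co a b c p n‖)
    (up : ∀ n : ℕ, ‖co a b c p n‖ ≤ C * Real.exp ((τ + δ) * n)) :
    ∃ V : E2, ‖V‖ = 1 ∧ ∃ C' : ℝ, ∀ n : ℕ,
      ‖act (co a b c p n) V‖ ≤ C' * Real.exp (-(τ - Real.log |b| - 3 * δ) * n) := by
  have hbp : 0 < |b| := abs_pos.2 hb
  have hbn : ∀ n : ℕ, |b| ^ n = Real.exp (Real.log |b| * n) := by
    intro n
    rw [mul_comm, Real.exp_nat_mul, Real.exp_log hbp]
  have hpos : ∀ n, 0 < ‖co a b c p n‖ := fun n =>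
    lt_of_lt_of_le (by positivity) (lo n)
  have hdt : ∀ n, |dt (co a b c p n)| = |b| ^ n := fun n => by rw [dt_co, abs_pow]
  have hinv : ∀ n, (‖co a b c p n‖)⁻¹ ≤ C * Real.exp (-(τ - δ) * n) := by
    intro n
    rw [inv_le_comm₀ (hpos n) (by positivity), mul_inv, ← Real.exp_neg]
    refine le_trans (le_of_eq ?_) (lo n)
    congr 2
    ring
  have hex : ∀ n, ∃ e : E2, ‖e‖ = 1 ∧ ‖act (co a b c p n) e‖ ≤ |b| ^ n / ‖co a b c p n‖ := by
    intro n
    obtain ⟨e, he, h⟩ := almost_kernel _ (hpos n)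
    rw [hdt] at h
    exact ⟨e, he, h⟩
  choose e he hk using hex
  set T : ℝ := 2 * |a| * R + |b| + 1 with hT
  have hR : 0 ≤ R := (norm_nonneg _).trans (hbd 0)
  have hT0 : 0 < T := by positivity
  set γ : ℝ := 2 * τ - Real.log |b| - 2 * δ with hγ
  have hγ0 : 0 < γ := by linarith
  set K : ℝ := 4 * T * C ^ 2 * Real.exp (-(τ - δ)) with hK
  have hK0 : 0 < K := by positivity
  have hwd : ∀ n, |wd (e n) (e (n + 1))| ≤ K * Real.exp (-γ) ^ n := by
    intro n
    have w1 : |b| ^ (n + 1) * |wd (e n) (e (n + 1))| ≤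
        2 * (2 * T * (|b| ^ n / ‖co a b c p n‖)) * (|b| ^ (n + 1) / ‖co a b c p (n + 1)‖) := by
      have e1 : |b| ^ (n + 1) * |wd (e n) (e (n + 1))| =
          |wd (act (co a b c p (n + 1)) (e n)) (act (co a b c p (n + 1)) (e (n + 1)))| := by
        rw [wd_act, abs_mul, hdt]
      rw [e1]
      refine (abs_wd_le _ _).trans ?_
      have e2 : ‖act (co a b c p (n + 1)) (e n)‖ ≤ 2 * T * (|b| ^ n / ‖co a b c p n‖) := by
        rw [act_co_succ]
        refine (norm_act_le _ _).trans ?_
        have := norm_der_le (a := a) (b := b) (hbd n)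
        have hk' := hk n
        gcongr
      have e3 := hk (n + 1)
      gcongr
    have hb1 : 0 < |b| ^ (n + 1) := by positivity
    have w2 : |wd (e n) (e (n + 1))| ≤
        4 * T * |b| ^ n * (‖co a b c p n‖)⁻¹ * (‖co a b c p (n + 1)‖)⁻¹ := by
      rw [← mul_le_mul_iff_right₀ hb1]
      refine w1.trans (le_of_eq ?_)
      rw [div_eq_mul_inv, div_eq_mul_inv]
      ring
    refine w2.trans ?_
    have i1 := hinv n
    have i2 := hinv (n + 1)
    calc 4 * T * |b| ^ n * (‖co a b c p n‖)⁻¹ * (‖co a b c p (n + 1)‖)⁻¹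
        ≤ 4 * T * |b| ^ n * (C * Real.exp (-(τ - δ) * n)) *
            (C * Real.exp (-(τ - δ) * ((n + 1 : ℕ) : ℝ))) := by
          gcongr
      _ = K * Real.exp (-γ) ^ n := by
          rw [hbn, hK, ← Real.exp_nat_mul]
          have : (4 * T * Real.exp (Real.log |b| * n) * (C * Real.exp (-(τ - δ) * n)) *
              (C * Real.exp (-(τ - δ) * ((n + 1 : ℕ) : ℝ)))) = 4 * T * C ^ 2 *
              (Real.exp (Real.log |b| * n) * Real.exp (-(τ - δ) * n) *
                Real.exp (-(τ - δ) * ((n + 1 : ℕ) : ℝ))) := by ring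
          rw [this, mul_assoc (4 * T * C ^ 2), ← Real.exp_add, ← Real.exp_add, ← Real.exp_add]
          congr 2
          push_cast
          rw [hγ]
          ring
  obtain ⟨v, hv, hvd⟩ := signs e (fun n => 2 * K * Real.exp (-γ) ^ n) (by
    intro n
    have := hwd n
    rcases unit_dist _ _ (he n) (he (n + 1)) with h | h
    · left; linarith
    · right; linarith)
  have hq1 : Real.exp (-γ) < 1 := by
    rw [Real.exp_lt_one_iff]; linarith
  have hvd' : ∀ n, dist (v n) (v (n + 1)) ≤ 2 * K * Real.exp (-γ) ^ n := by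
    intro n; rw [dist_eq_norm]; exact hvd n
  have hcs : CauchySeq v := cauchySeq_of_le_geometric _ _ hq1 hvd'
  obtain ⟨V, hV⟩ := cauchySeq_tendsto_of_complete hcs
  have hVd := fun n => dist_le_of_le_geometric_of_tendsto _ _ hq1 hvd' hV n
  have hvn : ∀ n, ‖v n‖ = 1 := by
    intro n
    rcases hv n with h | h
    · rw [h, he]
    · rw [h, norm_neg, he]
  have hvk : ∀ n, ‖act (co a b c p n) (v n)‖ ≤ |b| ^ n / ‖co a b c p n‖ := by
    intro n
    rcases hv n with h | h
    · rw [h]; exact hk n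
    · rw [h, act_neg, norm_neg]; exact hk n
  refine ⟨V, ?_, C + 2 * C * (2 * K / (1 - Real.exp (-γ))), ?_⟩
  · have := hV.norm
    simp only [hvn] at this
    exact (tendsto_nhds_unique this tendsto_const_nhds)
  · intro n
    have hq0 : 0 < 1 - Real.exp (-γ) := by linarith
    have e0 : act (co a b c p n) V = act (co a b c p n) (v n) + act (co a b c p n) (V - v n) := by
      rw [← act_add]; congr 1; abel
    have e1 : ‖act (co a b c p n) (v n)‖ ≤
        C * Real.exp (-(τ - Real.log |b| - 3 * δ) * n) := by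
      refine (hvk n).trans ?_
      rw [div_eq_mul_inv, hbn]
      calc Real.exp (Real.log |b| * n) * (‖co a b c p n‖)⁻¹
          ≤ Real.exp (Real.log |b| * n) * (C * Real.exp (-(τ - δ) * n)) := by
            gcongr; exact hinv n
        _ = C * Real.exp (Real.log |b| * n + -(τ - δ) * n) := by
            rw [Real.exp_add]; ring
        _ ≤ C * Real.exp (-(τ - Real.log |b| - 3 * δ) * n) := by
            gcongr
            have hn : (0 : ℝ) ≤ n := Nat.cast_nonneg n
            nlinarith [mul_nonneg hδ.le hn]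
    have e2 : ‖act (co a b c p n) (V - v n)‖ ≤
        2 * C * (2 * K / (1 - Real.exp (-γ))) *
          Real.exp (-(τ - Real.log |b| - 3 * δ) * n) := by
      refine (norm_act_le _ _).trans ?_
      have hd : ‖V - v n‖ ≤ 2 * K * Real.exp (-γ) ^ n / (1 - Real.exp (-γ)) := by
        rw [← dist_eq_norm, dist_comm]; exact hVd n
      calc 2 * ‖co a b c p n‖ * ‖V - v n‖
          ≤ 2 * (C * Real.exp ((τ + δ) * n)) *
              (2 * K * Real.exp (-γ) ^ n / (1 - Real.exp (-γ))) := by
            have := up n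
            gcongr
        _ = 2 * C * (2 * K / (1 - Real.exp (-γ))) *
              (Real.exp ((τ + δ) * n) * Real.exp (-γ) ^ n) := by ring
        _ = 2 * C * (2 * K / (1 - Real.exp (-γ))) *
              Real.exp (-(τ - Real.log |b| - 3 * δ) * n) := by
            rw [← Real.exp_nat_mul, ← Real.exp_add]
            congr 2
            rw [hγ]; ring
    rw [e0]
    refine (norm_add_le _ _).trans ?_
    rw [add_mul]
    exact add_le_add e1 e2

end Pool.Agent.HD
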