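import Pool.Agent.HD.ErgF

set_option autoImplicit false

/-!
HD-ErgB. Growth of the derivative cocycle: the backward case.

The general form `erg_gen` is applied to `T = Gi 1 b c` and the cocycle of the exchanged map; the limit
is identified by the invariance of the measure and the relation between the two cocycles.
-/

namespace Pool.Agent.HD

open MeasureTheory Filter Topology

private theorem ErgB_norm_der (a b : ℝ) (p : E2) : ‖der a b p‖ ≤ 2 * |a| * ‖p‖ + |b| + 1 := by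
  have h1 : |p.1| ≤ ‖p‖ := norm_fst_le p
  have h2 : 0 ≤ ‖p‖ := norm_nonneg p
  have h3 : 0 ≤ |a| := abs_nonneg a
  have h4 : 0 ≤ |b| := abs_nonneg b
  have h5 : 0 ≤ 2 * |a| * ‖p‖ := by positivity
  rw [der, Prod.norm_def]
  apply max_le
  · rw [Prod.norm_def]
    apply max_le
    · change |2 * a * p.1| ≤ _
      rw [abs_mul, abs_mul, abs_two]
      have h6 : 2 * |a| * |p.1| ≤ 2 * |a| * ‖p‖ := mul_le_mul_of_nonneg_left h1 (by positivity)
      linarith
    · change |-b| ≤ _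
      rw [abs_neg]
      linarith
  · rw [Prod.norm_def]
    apply max_le
    · change |(1 : ℝ)| ≤ _
      rw [abs_one]
      linarith
    · change |(0 : ℝ)| ≤ _
      rw [abs_zero]
      linarith

private theorem ErgB_co_pos {a b c : ℝ} (hb : b ≠ 0) (p : E2) (n : ℕ) : 0 < ‖co a b c p n‖ := by
  rw [norm_pos_iff]
  intro h
  have h1 := dt_co a b c p n
  rw [h] at h1
  have h2 : dt (0 : M2) = 0 := by simp [dt]
  rw [h2] at h1
  exact pow_ne_zero n hb h1.symm

private theorem ErgB_cont {a b c : ℝ} (hb : b ≠ 0) (n : ℕ) :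
    Continuous fun p : E2 => Real.log ‖co a b c p n‖ :=
  (continuous_co a b c n).norm.log fun p => (ErgB_co_pos hb p n).ne'

private theorem ErgB_int {b c : ℝ} (hb0 : b ≠ 0) (hb1 : |b| < 1) {μ : Measure E2}
    [IsProbabilityMeasure μ] (hμ : MeasurePreserving (G 1 b c) μ μ) (n : ℕ) :
    Integrable (fun p : E2 => Real.log ‖co 1 b c p n‖) μ := by
  obtain ⟨C, hC⟩ := (isCompact_closedBall (0 : E2) (|c| + 4)).exists_bound_of_continuousOn
    (ErgB_cont (a := 1) (c := c) hb0 n).continuousOn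
  refine Integrable.of_bound (ErgB_cont hb0 n).aestronglyMeasurable C ?_
  filter_upwards [supp hb0 hb1 hμ] with p hp
  apply hC
  rw [mem_closedBall_zero_iff]
  exact hp.1 0

private theorem ErgB_integral {b c : ℝ} (hb0 : b ≠ 0) (hb1 : |b| < 1) {μ : Measure E2}
    [IsProbabilityMeasure μ] (hμ : MeasurePreserving (G 1 b c) μ μ) (n : ℕ) :
    ∫ p, Real.log ‖co (1 / b) (1 / b) (c / b) p.swap n‖ ∂μ =
      (∫ p, Real.log ‖co 1 b c p n‖ ∂μ) - n * Real.log |b| := by
  have hT : MeasurePreserving ((Gi 1 b c)^[n]) μ μ := (mp_Gi hb0 hμ).iterate n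
  have hi := ErgB_int hb0 hb1 hμ n
  have h1 : ∀ p : E2, Real.log ‖co (1 / b) (1 / b) (c / b) p.swap n‖ =
      Real.log ‖co 1 b c ((Gi 1 b c)^[n] p) n‖ - n * Real.log |b| := by
    intro p
    have hbp : 0 < |b| := abs_pos.2 hb0
    rw [norm_co_swap hb0, Real.log_div (ErgB_co_pos hb0 _ n).ne' (by positivity), Real.log_pow]
  have h2 : Integrable (fun p : E2 => Real.log ‖co 1 b c ((Gi 1 b c)^[n] p) n‖) μ :=
    hT.integrable_comp_of_integrable hi
  have h3 : ∫ p, Real.log ‖co 1 b c ((Gi 1 b c)^[n] p) n‖ ∂μ =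
      ∫ p, Real.log ‖co 1 b c p n‖ ∂μ := by
    have h4 := integral_map (μ := μ) hT.measurable.aemeasurable
      (f := fun p : E2 => Real.log ‖co 1 b c p n‖) (ErgB_cont hb0 n).aestronglyMeasurable
    rw [hT.map_eq] at h4
    exact h4.symm
  calc ∫ p, Real.log ‖co (1 / b) (1 / b) (c / b) p.swap n‖ ∂μ
      = ∫ p, (Real.log ‖co 1 b c ((Gi 1 b c)^[n] p) n‖ - n * Real.log |b|) ∂μ :=
        integral_congr_ae (Filter.Eventually.of_forall h1)
    _ = (∫ p, Real.log ‖co 1 b c ((Gi 1 b c)^[n] p) n‖ ∂μ) - n * Real.log |b| := by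
        rw [integral_sub h2 (integrable_const _), integral_const]
        simp
    _ = _ := by rw [h3]

theorem ergB {b c χ : ℝ} (hb0 : b ≠ 0) (hb1 : |b| < 1) {μ : Measure E2} [IsProbabilityMeasure μ]
    (hμ : Ergodic (G 1 b c) μ)
    (hχ : Tendsto (fun n : ℕ => (∫ p, Real.log ‖co 1 b c p n‖ ∂μ) / n) atTop (𝓝 χ)) :
    (∀ᵐ p ∂μ, Tendsto (fun n : ℕ => Real.log ‖co (1 / b) (1 / b) (c / b) p.swap n‖ / n) atTop
      (𝓝 (χ - Real.log |b|))) ∧
      ∀ δ : ℝ, 0 < δ → ∀ᵐ p ∂μ, ∃ C : ℝ,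
        Up (1 / b) (1 / b) (c / b) (χ - Real.log |b|) δ C p.swap := by
  have hmp : MeasurePreserving (G 1 b c) μ μ := hμ.toMeasurePreserving
  have hb' : (1 / b) ≠ 0 := one_div_ne_zero hb0
  have hbp : 0 < |b| := abs_pos.2 hb0
  obtain ⟨g, hg1, hg2, hg3⟩ := erg_gen (ergodic_Gi hb0 hμ)
    (A := fun n p => co (1 / b) (1 / b) (c / b) p.swap n)
    (fun n => ((continuous_co (1 / b) (1 / b) (c / b) n).comp continuous_swap).measurable)
    (K := 2 * |1 / b| * (|c| + 4) + |1 / b| + 1) (β := |b|⁻¹) (inv_pos.2 hbp)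
    (fun _ => rfl)
    (fun x m n => by
      have h := co_add (1 / b) (1 / b) (c / b) x.swap m n
      rw [G_swap_iter hb0] at h
      exact h)
    (by
      filter_upwards [supp hb0 hb1 hmp] with p hp
      have h1 : ‖p‖ ≤ |c| + 4 := hp.1 0
      have h2 : ‖p.swap‖ = ‖p‖ := by
        rw [Prod.norm_def, Prod.norm_def, max_comm]
        rfl
      have h3 := ErgB_norm_der (1 / b) (1 / b) p.swap
      rw [h2] at h3
      simp only [co_one]
      have h4 : 2 * |1 / b| * ‖p‖ ≤ 2 * |1 / b| * (|c| + 4) :=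
        mul_le_mul_of_nonneg_left h1 (by positivity)
      linarith)
    (fun x n => by
      simp only [dt_co]
      rw [abs_pow, one_div, abs_inv])
  have hlim : Tendsto (fun n : ℕ =>
      (∫ p, Real.log ‖co (1 / b) (1 / b) (c / b) p.swap n‖ ∂μ) / n) atTop
      (𝓝 (χ - Real.log |b|)) := by
    refine (hχ.sub_const (Real.log |b|)).congr' ?_
    filter_upwards [eventually_gt_atTop 0] with n hn
    have hn' : (n : ℝ) ≠ 0 := by exact_mod_cast hn.ne'
    rw [ErgB_integral hb0 hb1 hmp n]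
    field_simp
  have hgχ : g = χ - Real.log |b| := tendsto_nhds_unique hg2 hlim
  rw [hgχ] at hg1 hg3
  refine ⟨hg1, fun δ hδ => ?_⟩
  filter_upwards [hg3 δ hδ] with p hp
  obtain ⟨C, hC⟩ := hp
  refine ⟨C, fun k n => ?_⟩
  rw [G_swap_iter hb0]
  exact hC k n

end Pool.Agent.HD
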