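import Pool.Agent.HD.Birk

set_option autoImplicit false

/-!
HD-Temp. Tempered growth: for an ergodic map, a function with bounded increments along the orbits
grows sublinearly (`temper`), and a cocycle with growth rate `χ` has tempered upper bounds
(`temper2`).
-/

namespace Pool.Agent.HD

open MeasureTheory Filter Topology

private theorem temper_tele {X : Type*} (T : X → X) (φ : X → ℝ) (n : ℕ) (x : X) :
    birkhoffSum T (fun y => φ (T y) - φ y) n x = φ (T^[n] x) - φ x := by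
  induction n with
  | zero => simp
  | succ n ih =>
    rw [birkhoffSum_succ, ih, Function.iterate_succ_apply']
    ring

private theorem temper_zero {u : ℕ → ℝ} {I M : ℝ} (hu : Tendsto (fun n : ℕ => u n / n) atTop (𝓝 I))
    (hf : ∃ᶠ n in atTop, |u n| ≤ M) : I = 0 := by
  by_contra hI
  have hI' : 0 < |I| := abs_pos.2 hI
  have h1 : ∀ᶠ n : ℕ in atTop, |I| / 2 < |u n / n| := by
    have h2 := hu.abs
    exact h2.eventually (lt_mem_nhds (by linarith))
  have h3 : ∀ᶠ n : ℕ in atTop, M / n < |I| / 2 := by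
    have h4 : Tendsto (fun n : ℕ => M / (n : ℝ)) atTop (𝓝 0) :=
      tendsto_const_div_atTop_nhds_zero_nat M
    exact h4.eventually (gt_mem_nhds (by linarith))
  obtain ⟨n, hn, hn1, hn3, hn0⟩ :=
    (hf.and_eventually (h1.and (h3.and (eventually_gt_atTop 0)))).exists
  have hn0' : (0 : ℝ) < n := by exact_mod_cast hn0
  have h5 : |u n / n| ≤ M / n := by
    rw [abs_div, abs_of_pos hn0']
    exact div_le_div_of_nonneg_right hn hn0'.le
  linarith

theorem temper {X : Type*} [MeasurableSpace X] {μ : Measure X} [IsProbabilityMeasure μ] {T : X → X}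
    (hT : Ergodic T μ) {φ : X → ℝ} (hφ : Measurable φ) {C : ℝ}
    (h : ∀ᵐ x ∂μ, |φ (T x) - φ x| ≤ C) :
    ∀ᵐ x ∂μ, Tendsto (fun n : ℕ => φ (T^[n] x) / n) atTop (𝓝 0) := by
  have hψ : Measurable (fun y => φ (T y) - φ y) := (hφ.comp hT.measurable).sub hφ
  have h1 := birk hT hψ h
  have h2 : ∀ᵐ x ∂μ, ∀ M : ℕ, x ∈ {y | |φ y| ≤ M} → ∃ᶠ n in atTop, T^[n] x ∈ {y | |φ y| ≤ M} := by
    rw [ae_all_iff]
    intro M
    refine hT.toMeasurePreserving.conservative.ae_mem_imp_frequently_image_mem ?_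
    exact (measurableSet_le hφ.abs measurable_const).nullMeasurableSet
  filter_upwards [h1, h2] with x hx1 hx2
  set I : ℝ := ∫ x, (φ (T x) - φ x) ∂μ with hI
  have h3 : Tendsto (fun n : ℕ => φ (T^[n] x) / n) atTop (𝓝 I) := by
    have h4 : Tendsto (fun n : ℕ => φ x / (n : ℝ)) atTop (𝓝 0) :=
      tendsto_const_div_atTop_nhds_zero_nat _
    have h5 := hx1.add h4
    rw [add_zero] at h5
    refine h5.congr fun n => ?_
    rw [temper_tele, ← add_div]
    congr 1
    ring
  obtain ⟨M, hM⟩ := exists_nat_ge |φ x|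
  have h6 := hx2 M hM
  have h7 : I = 0 := temper_zero h3 h6
  rw [h7] at h3
  exact h3

private theorem temper_bdd {u : ℕ → ℝ} {χ δ : ℝ} (hδ : 0 < δ)
    (hu : Tendsto (fun n : ℕ => u n / n) atTop (𝓝 χ)) :
    BddAbove (Set.range fun n : ℕ => u n - (χ + δ) * n) := by
  have h1 : ∀ᶠ n : ℕ in atTop, u n / n < χ + δ := hu.eventually (gt_mem_nhds (by linarith))
  have h2 : ∀ᶠ n : ℕ in atTop, u n - (χ + δ) * n ≤ 0 := by
    filter_upwards [h1, eventually_gt_atTop 0] with n hn hn0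
    have hn0' : (0 : ℝ) < n := by exact_mod_cast hn0
    rw [div_lt_iff₀ hn0'] at hn
    linarith
  have h3 : IsBoundedUnder (· ≤ ·) atTop (fun n : ℕ => u n - (χ + δ) * n) := ⟨0, h2⟩
  exact h3.bddAbove_range

private theorem temper_D {v : ℕ → ℝ} {δ : ℝ} (hδ : 0 < δ)
    (hv : Tendsto (fun k : ℕ => v k / k) atTop (𝓝 0)) : ∃ D : ℝ, ∀ k : ℕ, v k ≤ D + δ * k := by
  have hv' : Tendsto (fun k : ℕ => v k / k) atTop (𝓝 (0 : ℝ)) := hv
  have h1 := temper_bdd (χ := 0) hδ hv'
  obtain ⟨D, hD⟩ := h1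
  refine ⟨D, fun k => ?_⟩
  have := hD ⟨k, rfl⟩
  simp only [zero_add] at this
  linarith

theorem temper2 {X : Type*} [MeasurableSpace X] {μ : Measure X} [IsProbabilityMeasure μ]
    {T : X → X} (hT : Ergodic T μ) {a : ℕ → X → ℝ} (ha : ∀ n, Measurable (a n)) {C χ : ℝ}
    (h0 : ∀ x, a 0 x = 0) (h1 : ∀ᵐ x ∂μ, ∀ n : ℕ, |a (n + 1) x - a n (T x)| ≤ C)
    (hlim : ∀ᵐ x ∂μ, Tendsto (fun n : ℕ => a n x / n) atTop (𝓝 χ)) {δ : ℝ} (hδ : 0 < δ) :
    ∀ᵐ x ∂μ, ∃ D : ℝ, ∀ k n : ℕ, a n (T^[k] x) ≤ D + (χ + δ) * n + δ * k := by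
  set φ : X → ℝ := fun x => ⨆ n : ℕ, (a n x - (χ + δ) * n) with hφ
  have hφm : Measurable φ := Measurable.iSup fun n => (ha n).sub measurable_const
  have hbdd : ∀ᵐ x ∂μ, BddAbove (Set.range fun n : ℕ => a n x - (χ + δ) * n) := by
    filter_upwards [hlim] with x hx
    exact temper_bdd hδ hx
  have hbddT : ∀ᵐ x ∂μ, BddAbove (Set.range fun n : ℕ => a n (T x) - (χ + δ) * n) :=
    hT.quasiMeasurePreserving.ae hbdd
  have hinc : ∀ᵐ x ∂μ, |φ (T x) - φ x| ≤ C + |χ + δ| := by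
    filter_upwards [hbdd, hbddT, h1] with x hx hTx hx1
    have hC : 0 ≤ C := (abs_nonneg _).trans (hx1 0)
    have hle : ∀ n : ℕ, a n x - (χ + δ) * n ≤ φ x := fun n => le_ciSup hx n
    have hleT : ∀ n : ℕ, a n (T x) - (χ + δ) * n ≤ φ (T x) := fun n => le_ciSup hTx n
    have habs := le_abs_self (χ + δ)
    have habs' := neg_abs_le (χ + δ)
    rw [abs_le]
    constructor
    · have h2 : φ x ≤ φ (T x) + (C + |χ + δ|) := by
        refine ciSup_le fun n => ?_
        rcases n with _ | n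
        · have h3 := hleT 0
          rw [h0] at h3 ⊢
          simp only [Nat.cast_zero, mul_zero, sub_zero] at h3 ⊢
          have := abs_nonneg (χ + δ)
          linarith
        · have h3 := hleT n
          have h4 := (abs_le.1 (hx1 n)).2
          push_cast
          linarith
      linarith
    · have h2 : φ (T x) ≤ φ x + (C + |χ + δ|) := by
        refine ciSup_le fun n => ?_
        have h3 := hle (n + 1)
        have h4 := (abs_le.1 (hx1 n)).1
        push_cast at h3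
        linarith
      linarith
  have htem := temper hT hφm hinc
  have hbk : ∀ᵐ x ∂μ, ∀ k : ℕ,
      BddAbove (Set.range fun n : ℕ => a n (T^[k] x) - (χ + δ) * n) := by
    rw [ae_all_iff]
    intro k
    exact (hT.quasiMeasurePreserving.iterate k).ae hbdd
  filter_upwards [htem, hbk] with x hx hxk
  obtain ⟨D, hD⟩ := temper_D hδ hx
  refine ⟨D, fun k n => ?_⟩
  have h3 : a n (T^[k] x) - (χ + δ) * n ≤ φ (T^[k] x) := le_ciSup (hxk k) n
  have h4 := hD k
  linarith

end Pool.Agent.HD
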