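import Pool.Agent.HD.King
import Pool.Agent.HD.Temp
import Pool.Agent.HD.Supp

set_option autoImplicit false

/-!
HD-ErgF. Growth of the derivative cocycle of an ergodic measure: general form and the forward case.
-/

namespace Pool.Agent.HD

open MeasureTheory Filter Topology

private theorem ergf_norm_one : ‖((((1 : ℝ), (0 : ℝ)), ((0 : ℝ), (1 : ℝ))) : M2)‖ = 1 := by
  simp [Prod.norm_def]

private theorem ergf_mm_adj (M N : M2) : mm (mm M N) (adj N) = dt N • M := by
  ext <;> simp only [mm, adj, dt, Prod.smul_fst, Prod.smul_snd, smul_eq_mul] <;> ring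

private theorem ergf_pos {M : M2} {t : ℝ} (ht : 0 < t) (h : |dt M| = t) : 0 < ‖M‖ := by
  rw [norm_pos_iff]
  intro h0
  rw [h0] at h
  have h2 : dt (0 : M2) = 0 := by simp [dt]
  rw [h2, abs_zero] at h
  exact absurd h ht.ne

private theorem ergf_log_bound {X : Type*} {T : X → X} {A : ℕ → X → M2} {K β : ℝ}
    (hβ : 0 < β) (h0 : ∀ x, A 0 x = ((1, 0), (0, 1)))
    (hadd : ∀ x m n, A (m + n) x = mm (A n (T^[m] x)) (A m x))
    (hdt : ∀ x n, |dt (A n x)| = β ^ n) {x : X} (hK : ∀ i : ℕ, ‖A 1 (T^[i] x)‖ ≤ K) (n : ℕ) :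
    |Real.log ‖A n x‖| ≤ (|Real.log (2 * K)| + |Real.log β| + Real.log 2) * n := by
  have hpos : ∀ y m, 0 < ‖A m y‖ := fun y m => ergf_pos (pow_pos hβ m) (hdt y m)
  have hK0 : 0 < K := lt_of_lt_of_le (hpos x 1) (by simpa using hK 0)
  have hup : ∀ m : ℕ, ‖A m x‖ ≤ (2 * K) ^ m := by
    intro m
    induction m with
    | zero => rw [h0, ergf_norm_one]; simp
    | succ m ih =>
      rw [hadd x m 1]
      refine (norm_mm_le _ _).trans ?_
      rw [pow_succ, mul_comm ((2 * K) ^ m)]
      have := hK m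
      gcongr
  have hlog2 : 0 < Real.log 2 := Real.log_pos (by norm_num)
  have h1 : Real.log ‖A n x‖ ≤ n * Real.log (2 * K) := by
    have := Real.log_le_log (hpos x n) (hup n)
    rwa [Real.log_pow] at this
  have h2 : n * Real.log β ≤ Real.log 2 + 2 * Real.log ‖A n x‖ := by
    have h3 : β ^ n ≤ 2 * ‖A n x‖ ^ 2 := by
      rw [← hdt x n]; exact abs_dt_le _
    have h4 := Real.log_le_log (pow_pos hβ n) h3
    rw [Real.log_pow, Real.log_mul (by norm_num) (pow_pos (hpos x n) 2).ne', Real.log_pow] at h4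
    exact_mod_cast h4
  rcases Nat.eq_zero_or_pos n with hn | hn
  · subst hn
    rw [h0, ergf_norm_one]
    simp
  · have hn1 : (1 : ℝ) ≤ n := by exact_mod_cast hn
    have hn0 : (0 : ℝ) ≤ n := by linarith
    have e1 : n * Real.log (2 * K) ≤ n * |Real.log (2 * K)| :=
      mul_le_mul_of_nonneg_left (le_abs_self _) hn0
    have e2 : -(n * |Real.log β|) ≤ n * Real.log β := by
      have := mul_le_mul_of_nonneg_left (neg_abs_le (Real.log β)) hn0
      linarith
    have e3 : Real.log 2 ≤ n * Real.log 2 := by nlinarith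
    have e4 : 0 ≤ n * |Real.log (2 * K)| := by positivity
    have e5 : 0 ≤ n * |Real.log β| := by positivity
    have e6 : 0 ≤ n * Real.log 2 := by positivity
    rw [abs_le]
    constructor <;> nlinarith

theorem erg_gen {X : Type*} [MeasurableSpace X] {μ : Measure X} [IsProbabilityMeasure μ]
    {T : X → X} (hT : Ergodic T μ) {A : ℕ → X → M2} (hA : ∀ n, Measurable (A n)) {K β : ℝ}
    (hβ : 0 < β) (h0 : ∀ x, A 0 x = ((1, 0), (0, 1)))
    (hadd : ∀ x m n, A (m + n) x = mm (A n (T^[m] x)) (A m x))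
    (hK : ∀ᵐ x ∂μ, ‖A 1 x‖ ≤ K) (hdt : ∀ x n, |dt (A n x)| = β ^ n) :
    ∃ g : ℝ, (∀ᵐ x ∂μ, Tendsto (fun n : ℕ => Real.log ‖A n x‖ / n) atTop (𝓝 g)) ∧
      Tendsto (fun n : ℕ => (∫ x, Real.log ‖A n x‖ ∂μ) / n) atTop (𝓝 g) ∧
      ∀ δ : ℝ, 0 < δ → ∀ᵐ x ∂μ, ∃ C : ℝ, ∀ k n : ℕ,
        ‖A n (T^[k] x)‖ ≤ C * Real.exp ((g + δ) * n + δ * k) := by
  classical
  have hmp := hT.toMeasurePreserving
  have hpos : ∀ x n, 0 < ‖A n x‖ := fun x n => ergf_pos (pow_pos hβ n) (hdt x n)
  have hAK : ∀ᵐ x ∂μ, ∀ i : ℕ, ‖A 1 (T^[i] x)‖ ≤ K := by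
    rw [ae_all_iff]
    intro i
    exact (hmp.iterate i).quasiMeasurePreserving.ae hK
  set L : ℝ := |Real.log (2 * K)| + |Real.log β| + Real.log 2 with hL
  have hlog2 : 0 < Real.log 2 := Real.log_pos (by norm_num)
  have hb : ∀ᵐ x ∂μ, ∀ n : ℕ, |Real.log ‖A n x‖| ≤ L * n := by
    filter_upwards [hAK] with x hx n
    exact ergf_log_bound hβ h0 hadd hdt hx n
  have hml : ∀ n, Measurable fun x => Real.log ‖A n x‖ := fun n =>
    Real.measurable_log.comp (hA n).norm
  -- the subadditive sequence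
  set a : ℕ → X → ℝ := fun n x => if n = 0 then 0 else Real.log 2 + Real.log ‖A n x‖ with ha
  have ham : ∀ n, Measurable (a n) := by
    intro n
    by_cases hn : n = 0
    · simp only [ha, hn, if_true]
      exact measurable_const
    · simp only [ha, hn, if_false]
      exact measurable_const.add (hml n)
  have haC : ∀ᵐ x ∂μ, ∀ n : ℕ, |a n x| ≤ (L + Real.log 2) * n := by
    filter_upwards [hb] with x hx n
    by_cases hn : n = 0
    · simp [ha, hn]
    · simp only [ha, hn, if_false]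
      have hn1 : (1 : ℝ) ≤ n := by exact_mod_cast Nat.pos_of_ne_zero hn
      have e3 : Real.log 2 ≤ Real.log 2 * n := by nlinarith
      calc |Real.log 2 + Real.log ‖A n x‖| ≤ |Real.log 2| + |Real.log ‖A n x‖| := abs_add_le _ _
        _ ≤ Real.log 2 * n + L * n := by
          rw [abs_of_pos hlog2]
          exact add_le_add e3 (hx n)
        _ = (L + Real.log 2) * n := by ring
  have hsub : ∀ᵐ x ∂μ, ∀ m n : ℕ, a (m + n) x ≤ a m x + a n (T^[m] x) := by
    refine Filter.Eventually.of_forall ?_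
    intro x m n
    by_cases hm : m = 0
    · subst hm
      simp [ha]
    · by_cases hn : n = 0
      · subst hn
        simp [ha]
      · have hmn : m + n ≠ 0 := by omega
        simp only [ha, hm, hn, hmn, if_false]
        have h1 : ‖A (m + n) x‖ ≤ 2 * ‖A n (T^[m] x)‖ * ‖A m x‖ := by
          rw [hadd x m n]; exact norm_mm_le _ _
        have h2 := Real.log_le_log (hpos x (m + n)) h1
        rw [Real.log_mul (by have := hpos (T^[m] x) n; positivity) (hpos x m).ne',
          Real.log_mul (by norm_num) (hpos _ n).ne'] at h2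
        linarith
  obtain ⟨g, hg1, hg2⟩ := king hT ham haC hsub
  have hl0 : Tendsto (fun n : ℕ => Real.log 2 / (n : ℝ)) atTop (𝓝 0) :=
    tendsto_const_div_atTop_nhds_zero_nat _
  have hlim : ∀ᵐ x ∂μ, Tendsto (fun n : ℕ => Real.log ‖A n x‖ / n) atTop (𝓝 g) := by
    filter_upwards [hg1] with x hx
    have h1 := hx.sub hl0
    rw [sub_zero] at h1
    refine h1.congr' ?_
    filter_upwards [eventually_ge_atTop 1] with n hn
    have hn0 : n ≠ 0 := by omega
    simp only [ha, hn0, if_false]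
    ring
  refine ⟨g, hlim, ?_, ?_⟩
  · have h1 := hg2.sub hl0
    rw [sub_zero] at h1
    refine h1.congr' ?_
    filter_upwards [eventually_ge_atTop 1] with n hn
    have hn0 : n ≠ 0 := by omega
    have hint : Integrable (fun x => Real.log ‖A n x‖) μ := by
      refine Integrable.of_bound (hml n).aestronglyMeasurable (L * n) ?_
      filter_upwards [hb] with x hx
      rw [Real.norm_eq_abs]
      exact hx n
    have h2 : ∫ x, a n x ∂μ = Real.log 2 + ∫ x, Real.log ‖A n x‖ ∂μ := by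
      simp only [ha, hn0, if_false]
      rw [integral_add (integrable_const _) hint, integral_const]
      simp
    rw [h2]
    ring
  · intro δ hδ
    have h0' : ∀ x, (fun n x => Real.log ‖A n x‖ : ℕ → X → ℝ) 0 x = 0 := by
      intro x
      simp only [h0, ergf_norm_one, Real.log_one]
    have h1' : ∀ᵐ x ∂μ, ∀ n : ℕ,
        |(fun n x => Real.log ‖A n x‖ : ℕ → X → ℝ) (n + 1) x -
          (fun n x => Real.log ‖A n x‖ : ℕ → X → ℝ) n (T x)| ≤
          |Real.log (2 * K)| + |Real.log β| := by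
      filter_upwards [hK] with x hx n
      have hp1 := hpos x 1
      have hK0 : 0 < K := lt_of_lt_of_le hp1 hx
      have e0 : A (n + 1) x = mm (A n (T x)) (A 1 x) := by
        have := hadd x 1 n
        rw [add_comm 1 n] at this
        simpa using this
      have e1 : ‖A (n + 1) x‖ ≤ 2 * K * ‖A n (T x)‖ := by
        rw [e0]
        refine (norm_mm_le _ _).trans ?_
        have := (hpos (T x) n).le
        nlinarith
      have e2 : β * ‖A n (T x)‖ ≤ 2 * K * ‖A (n + 1) x‖ := by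
        have h3 := ergf_mm_adj (A n (T x)) (A 1 x)
        rw [← e0] at h3
        have h4 : ‖dt (A 1 x) • A n (T x)‖ ≤ 2 * ‖A (n + 1) x‖ * ‖adj (A 1 x)‖ := by
          rw [← h3]; exact norm_mm_le _ _
        rw [norm_smul, Real.norm_eq_abs, hdt x 1, pow_one, norm_adj] at h4
        have := (hpos x (n + 1)).le
        nlinarith
      have f1 := Real.log_le_log (hpos x (n + 1)) e1
      have f2 := Real.log_le_log (by have := hpos (T x) n; positivity) e2
      rw [Real.log_mul (by positivity) (hpos (T x) n).ne'] at f1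
      rw [Real.log_mul hβ.ne' (hpos (T x) n).ne', Real.log_mul (by positivity)
        (hpos x (n + 1)).ne'] at f2
      have g1 := le_abs_self (Real.log (2 * K))
      have g2 := neg_abs_le (Real.log β)
      have g3 := abs_nonneg (Real.log β)
      rw [abs_le]
      constructor <;> linarith
    filter_upwards [temper2 hT hml h0' h1' hlim hδ] with x hx
    obtain ⟨D, hD⟩ := hx
    refine ⟨Real.exp D, ?_⟩
    intro k n
    have h5 := hD k n
    rw [← Real.exp_add]
    have h6 : ‖A n (T^[k] x)‖ = Real.exp (Real.log ‖A n (T^[k] x)‖) :=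
      (Real.exp_log (hpos _ n)).symm
    rw [h6]
    apply Real.exp_le_exp.mpr
    linarith

theorem ergF {b c : ℝ} (hb0 : b ≠ 0) (hb1 : |b| < 1) {μ : Measure E2} [IsProbabilityMeasure μ]
    (hμ : Ergodic (G 1 b c) μ) :
    ∃ χ : ℝ, (∀ᵐ p ∂μ, Tendsto (fun n : ℕ => Real.log ‖co 1 b c p n‖ / n) atTop (𝓝 χ)) ∧
      Tendsto (fun n : ℕ => (∫ p, Real.log ‖co 1 b c p n‖ ∂μ) / n) atTop (𝓝 χ) ∧
      ∀ δ : ℝ, 0 < δ → ∀ᵐ p ∂μ, ∃ C : ℝ, Up 1 b c χ δ C p := by
  have hb : 0 < |b| := abs_pos.mpr hb0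
  have hK : ∀ᵐ p ∂μ, ‖co 1 b c p 1‖ ≤ 2 * (|c| + 4) + |b| + 1 := by
    filter_upwards [supp hb0 hb1 hμ.toMeasurePreserving] with p hp
    have h0 : ‖p‖ ≤ |c| + 4 := by simpa using hp.1 0
    have h1 : |p.1| ≤ |c| + 4 := (norm_fst_le p).trans h0
    rw [co_one]
    have hc := abs_nonneg c
    simp only [der, Prod.norm_def, Real.norm_eq_abs, abs_neg, abs_one, abs_zero]
    have h2 : |2 * 1 * p.1| ≤ 2 * (|c| + 4) := by
      rw [mul_one, abs_mul, abs_two]
      linarith
    refine max_le (max_le ?_ ?_) (max_le ?_ ?_) <;> linarith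
  obtain ⟨g, h1, h2, h3⟩ := erg_gen (μ := μ) (T := G 1 b c) hμ (A := fun n p => co 1 b c p n)
    (fun n => (continuous_co 1 b c n).measurable) hb (fun x => rfl)
    (fun x m n => co_add 1 b c x m n) hK
    (fun x n => by rw [dt_co, abs_pow])
  refine ⟨g, h1, h2, fun δ hδ => ?_⟩
  filter_upwards [h3 δ hδ] with p hp
  obtain ⟨C, hC⟩ := hp
  exact ⟨C, fun k n => hC k n⟩

end Pool.Agent.HD
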