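import Pool.Agent.HD.Loc

set_option autoImplicit false

/-!
HD-Exi. Existence of the point with a given asymptotic coordinate, with uniform constants: the
local existence theorem `loc` at `G^[N] p`, pulled back by the inverse.
-/

namespace Pool.Agent.HD

variable {a b c ρ δ : ℝ}

private theorem exi_CV (ρ δ C : ℝ) : CV ρ δ C = C * CV ρ δ 1 := by
  unfold CV; ring

private theorem exi_CV_nonneg (hδ : 0 < δ) (hρ : 100 * δ ≤ ρ) : 0 ≤ CV ρ δ 1 := by
  unfold CV
  have h : Real.exp (-(ρ - 9 * δ)) ≤ 1 := Real.exp_le_one_iff.mpr (by linarith)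
  have h2 := Real.exp_pos (ρ + δ)
  exact div_nonneg (by linarith) (by linarith)

private theorem exi_ball (N : ℕ) (r : ℝ) :
    ∃ B : ℝ, 0 ≤ B ∧ ∀ j : ℕ, j ≤ N → ∀ x : E2, ‖x‖ ≤ r → ‖(Gi a b c)^[j] x‖ ≤ B := by
  have h1 : ∀ j : ℕ, ∃ B : ℝ, 0 ≤ B ∧ ∀ x : E2, ‖x‖ ≤ r → ‖(Gi a b c)^[j] x‖ ≤ B := by
    intro j
    have hc : IsCompact ((Gi a b c)^[j] '' Metric.closedBall (0 : E2) r) :=
      (isCompact_closedBall _ _).image (continuous_Gi_iter a b c j)
    obtain ⟨B, hB⟩ := hc.isBounded.exists_norm_le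
    refine ⟨max B 0, le_max_right _ _, fun x hx => ?_⟩
    exact le_trans (hB _ ⟨x, by simpa using hx, rfl⟩) (le_max_left _ _)
  choose B hB0 hB using h1
  refine ⟨∑ j ∈ Finset.range (N + 1), B j, Finset.sum_nonneg fun j _ => hB0 j, ?_⟩
  intro j hj x hx
  refine le_trans (hB j x hx) ?_
  exact Finset.single_le_sum (f := B) (fun i _ => hB0 i) (Finset.mem_range.mpr (by omega))

private theorem exi_back (hb : b ≠ 0) (N n : ℕ) (hn : n ≤ N) (x : E2) :
    (G a b c)^[n] ((Gi a b c)^[N] x) = (Gi a b c)^[N - n] x := by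
  have : N = n + (N - n) := by omega
  conv_lhs => rw [this, Function.iterate_add_apply]
  rw [G_iter_Gi_iter hb]

theorem exists_asym (hb : b ≠ 0) (hδ : 0 < δ) (hρ : 100 * δ ≤ ρ) (R C S : ℝ) :
    ∃ D : ℝ, ∀ p V : E2, Reg a b c ρ δ R C p V → ∀ s : ℝ, |s| ≤ S → ∃ q : E2, ∀ n : ℕ,
      ‖(G a b c)^[n] q - (G a b c)^[n] p - s • act (co a b c p n) V‖ ≤
        D * Real.exp (-(3 / 2 * ρ) * n) := by
  by_cases hC : 1 ≤ C
  swap
  · exact ⟨0, fun p V h => absurd h.one_le hC⟩
  by_cases hS : 0 ≤ S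
  swap
  · exact ⟨0, fun p V _ s hs => absurd (le_trans (abs_nonneg s) hs) hS⟩
  have hC0 : 0 ≤ C := by linarith
  have hκ := exi_CV_nonneg hδ hρ
  -- choice of `N`
  obtain ⟨N, hN⟩ : ∃ N : ℕ, 8 * |a| * CV ρ δ 1 * C ^ 2 * S * Real.exp (-(ρ - 4 * δ) * N) ≤ 1 := by
    have h1 : Filter.Tendsto (fun n : ℕ => 8 * |a| * CV ρ δ 1 * C ^ 2 * S *
        Real.exp (-(ρ - 4 * δ)) ^ n) Filter.atTop (nhds (8 * |a| * CV ρ δ 1 * C ^ 2 * S * 0)) := by
      refine (tendsto_pow_atTop_nhds_zero_of_lt_one (Real.exp_pos _).le ?_).const_mul _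
      rw [Real.exp_lt_one_iff]; linarith
    rw [mul_zero] at h1
    obtain ⟨N, hN⟩ := (h1.eventually (ge_mem_nhds (by norm_num : (0 : ℝ) < 1))).exists
    refine ⟨N, ?_⟩
    rw [← Real.exp_nat_mul] at hN
    rwa [mul_comm (-(ρ - 4 * δ)) (N : ℝ)]
  set U : ℝ := S * C * Real.exp (-(ρ - 3 * δ) * N) with hUdef
  have hU0 : 0 ≤ U := by positivity
  have hU1 : U ≤ S * C := by
    have : Real.exp (-(ρ - 3 * δ) * N) ≤ 1 := by
      rw [Real.exp_le_one_iff]
      have : 0 ≤ (N : ℝ) := Nat.cast_nonneg N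
      nlinarith
    calc U ≤ S * C * 1 := mul_le_mul_of_nonneg_left this (by positivity)
      _ = S * C := mul_one _
  obtain ⟨B, hB0, hB⟩ := exi_ball (a := a) (b := b) (c := c) N (R + 2 * (S * C))
  set W : ℝ := 4 * |a| * CV ρ δ (C * Real.exp (δ * N)) * U ^ 2 with hW
  have hW0 : 0 ≤ W := by
    rw [hW, exi_CV]
    positivity
  refine ⟨(W + (B + |R| + S * C)) * Real.exp (3 / 2 * ρ * N), ?_⟩
  intro p V h s hs
  set pN : E2 := (G a b c)^[N] p with hpN
  have hit : ∀ k : ℕ, (G a b c)^[k] pN = (G a b c)^[N + k] p := by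
    intro k
    rw [hpN, ← Function.iterate_add_apply, add_comm]
  obtain ⟨z, hz1, hz2, hz3⟩ := loc (p := pN) hb hδ hρ (C := C * Real.exp (δ * N))
    (by positivity) (up_shift h.up N)
    (u := fun k => s • act (co a b c p (N + k)) V)
    (by
      intro k
      rw [hit, act_smul, ← act_co_succ]
      rfl) hU0
    (by
      intro k
      have h1 := h.con (N + k)
      have h2 : Real.exp (-(ρ - 3 * δ) * ((N + k : ℕ) : ℝ)) ≤
          Real.exp (-(ρ - 3 * δ) * N) * Real.exp (-(ρ - 4 * δ) * k) := by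
        rw [← Real.exp_add, Real.exp_le_exp]
        push_cast
        have : 0 ≤ (k : ℝ) := Nat.cast_nonneg k
        nlinarith
      calc ‖s • act (co a b c p (N + k)) V‖ = |s| * ‖act (co a b c p (N + k)) V‖ := by
            rw [norm_smul, Real.norm_eq_abs]
        _ ≤ S * (C * Real.exp (-(ρ - 3 * δ) * ((N + k : ℕ) : ℝ))) :=
            mul_le_mul hs h1 (norm_nonneg _) hS
        _ ≤ S * (C * (Real.exp (-(ρ - 3 * δ) * N) * Real.exp (-(ρ - 4 * δ) * k))) := by
            gcongr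
        _ = U * Real.exp (-(ρ - 4 * δ) * k) := by rw [hUdef]; ring)
    (by
      have h1 : 8 * |a| * CV ρ δ (C * Real.exp (δ * N)) * U =
          8 * |a| * CV ρ δ 1 * C ^ 2 * S * Real.exp (-(ρ - 4 * δ) * N) := by
        rw [exi_CV, hUdef]
        have : Real.exp (-(ρ - 4 * δ) * N) = Real.exp (δ * N) * Real.exp (-(ρ - 3 * δ) * N) := by
          rw [← Real.exp_add]; congr 1; ring
        rw [this]; ring
      rw [h1]; exact hN)
  refine ⟨(Gi a b c)^[N] (pN + z 0), ?_⟩
  intro n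
  have hexpN : 0 < Real.exp (3 / 2 * ρ * N) := Real.exp_pos _
  have hSC : 0 ≤ S * C := by positivity
  rcases le_or_gt N n with hn | hn
  · obtain ⟨k, rfl⟩ := Nat.exists_eq_add_of_le hn
    have h1 : (G a b c)^[N + k] ((Gi a b c)^[N] (pN + z 0)) = (G a b c)^[N + k] p + z k := by
      rw [add_comm N k, Function.iterate_add_apply, G_iter_Gi_iter hb, hz2, hit, add_comm k N]
    rw [h1]
    have h2 : (G a b c)^[N + k] p + z k - (G a b c)^[N + k] p - s • act (co a b c p (N + k)) V =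
        z k - s • act (co a b c p (N + k)) V := by abel
    rw [h2]
    have h3 := hz3 k
    have h4 : Real.exp (-(2 * ρ - 9 * δ) * k) ≤
        Real.exp (3 / 2 * ρ * N) * Real.exp (-(3 / 2 * ρ) * ((N + k : ℕ) : ℝ)) := by
      rw [← Real.exp_add, Real.exp_le_exp]
      push_cast
      have : 0 ≤ (k : ℝ) := Nat.cast_nonneg k
      nlinarith
    calc ‖z k - s • act (co a b c p (N + k)) V‖ ≤ W * Real.exp (-(2 * ρ - 9 * δ) * k) := h3
      _ ≤ W * (Real.exp (3 / 2 * ρ * N) * Real.exp (-(3 / 2 * ρ) * ((N + k : ℕ) : ℝ))) :=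
          mul_le_mul_of_nonneg_left h4 hW0
      _ ≤ (W + (B + |R| + S * C)) * (Real.exp (3 / 2 * ρ * N) *
            Real.exp (-(3 / 2 * ρ) * ((N + k : ℕ) : ℝ))) := by
          refine mul_le_mul_of_nonneg_right ?_ (by positivity)
          have := abs_nonneg R
          linarith
      _ = _ := by ring
  · have h1 : (G a b c)^[n] ((Gi a b c)^[N] (pN + z 0)) = (Gi a b c)^[N - n] (pN + z 0) :=
      exi_back hb N n hn.le _
    have hz0 : ‖z 0‖ ≤ 2 * (S * C) := by
      have := hz1 0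
      simp only [Nat.cast_zero, mul_zero, Real.exp_zero, mul_one] at this
      linarith
    have h2 : ‖pN + z 0‖ ≤ R + 2 * (S * C) :=
      le_trans (norm_add_le _ _) (add_le_add (h.bdd N) hz0)
    have h3 := hB (N - n) (Nat.sub_le _ _) _ h2
    have h4 : ‖s • act (co a b c p n) V‖ ≤ S * C := by
      have h5 : ‖act (co a b c p n) V‖ ≤ C := by
        refine le_trans (h.con n) ?_
        have : Real.exp (-(ρ - 3 * δ) * n) ≤ 1 := by
          rw [Real.exp_le_one_iff]
          have : 0 ≤ (n : ℝ) := Nat.cast_nonneg n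
          nlinarith
        calc C * Real.exp (-(ρ - 3 * δ) * n) ≤ C * 1 := mul_le_mul_of_nonneg_left this hC0
          _ = C := mul_one _
      rw [norm_smul, Real.norm_eq_abs]
      exact mul_le_mul hs h5 (norm_nonneg _) hS
    have h5 : 1 ≤ Real.exp (3 / 2 * ρ * N) * Real.exp (-(3 / 2 * ρ) * n) := by
      rw [← Real.exp_add]
      apply Real.one_le_exp
      have : (n : ℝ) ≤ N := by exact_mod_cast hn.le
      nlinarith
    have h6 : 0 ≤ B + |R| + S * C := by
      have := abs_nonneg R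
      linarith
    calc ‖(G a b c)^[n] ((Gi a b c)^[N] (pN + z 0)) - (G a b c)^[n] p -
          s • act (co a b c p n) V‖
        ≤ ‖(Gi a b c)^[N - n] (pN + z 0)‖ + ‖(G a b c)^[n] p‖ +
          ‖s • act (co a b c p n) V‖ := by
          rw [h1]
          refine le_trans (norm_sub_le _ _) ?_
          gcongr
          exact norm_sub_le _ _
      _ ≤ B + |R| + S * C := by
          have := h.bdd n
          have := le_abs_self R
          linarith
      _ ≤ (W + (B + |R| + S * C)) * 1 := by linarith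
      _ ≤ (W + (B + |R| + S * C)) * (Real.exp (3 / 2 * ρ * N) * Real.exp (-(3 / 2 * ρ) * n)) :=
          mul_le_mul_of_nonneg_left h5 (by linarith)
      _ = _ := by ring

end Pool.Agent.HD
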