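import Pool.Agent.HD.Orb

set_option autoImplicit false

/-!
HD-Fd. The matrix `co` is the derivative of the iterate (`fdL_hasFDerivAt`), comparison of its norm with the
operator norm, and positivity of the exponent.
-/

namespace Pool.Agent.HD

open MeasureTheory Filter Topology

/-- the continuous linear map of a matrix -/
private noncomputable def fdL (M : M2) : E2 →L[ℝ] E2 :=
  LinearMap.toContinuousLinearMap
    { toFun := act M, map_add' := act_add M, map_smul' := fun t v => act_smul M t v }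

private lemma fdL_apply (M : M2) (v : E2) : fdL M v = act M v := rfl

private lemma fdL_mm (M N : M2) : fdL (mm M N) = (fdL M).comp (fdL N) := by
  refine ContinuousLinearMap.ext fun v => ?_
  rw [ContinuousLinearMap.comp_apply, fdL_apply, fdL_apply, fdL_apply, act_mm]

private lemma fdL_one : fdL ((1, 0), (0, 1)) = ContinuousLinearMap.id ℝ E2 := by
  refine ContinuousLinearMap.ext fun v => ?_
  rw [ContinuousLinearMap.id_apply, fdL_apply, act_one]

private lemma fdL_G (a b c : ℝ) (p : E2) : HasFDerivAt (G a b c) (fdL (der a b p)) p := by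
  have h1 : HasFDerivAt (fun p : E2 => p.1) (ContinuousLinearMap.fst ℝ ℝ ℝ) p := hasFDerivAt_fst
  have h2 : HasFDerivAt (fun p : E2 => p.2) (ContinuousLinearMap.snd ℝ ℝ ℝ) p := hasFDerivAt_snd
  have h3 := ((((h1.pow 2).const_mul a).add_const c).sub (h2.const_mul b)).prodMk h1
  refine h3.congr_fderiv ?_
  refine ContinuousLinearMap.ext fun v => ?_
  rw [fdL_apply]
  refine Prod.ext ?_ ?_
  · simp [act, der]
    ring
  · simp [act, der]

private lemma fdL_hasFDerivAt (a b c : ℝ) (p : E2) (n : ℕ) :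
    HasFDerivAt ((G a b c)^[n]) (fdL (co a b c p n)) p := by
  induction n with
  | zero =>
    rw [Function.iterate_zero]
    have : fdL (co a b c p 0) = ContinuousLinearMap.id ℝ E2 := fdL_one
    rw [this]
    exact hasFDerivAt_id p
  | succ n ih =>
    rw [Function.iterate_succ']
    have : fdL (co a b c p (n + 1)) =
        (fdL (der a b ((G a b c)^[n] p))).comp (fdL (co a b c p n)) := fdL_mm _ _
    rw [this]
    exact (fdL_G a b c _).comp p ih

private lemma fdL_fderiv (a b c : ℝ) (p : E2) (n : ℕ) :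
    fderiv ℝ ((G a b c)^[n]) p = fdL (co a b c p n) := (fdL_hasFDerivAt a b c p n).fderiv

theorem norm_co_le_fderiv (a b c : ℝ) (n : ℕ) (p : E2) :
    ‖co a b c p n‖ ≤ ‖fderiv ℝ ((G a b c)^[n]) p‖ := by
  rw [fdL_fderiv]
  generalize co a b c p n = M
  have h1 := (fdL M).le_opNorm ((1, 0) : E2)
  have h2 := (fdL M).le_opNorm ((0, 1) : E2)
  have e1 : ‖((1, 0) : E2)‖ = 1 := by simp [Prod.norm_def]
  have e2 : ‖((0, 1) : E2)‖ = 1 := by simp [Prod.norm_def]
  rw [e1, mul_one, fdL_apply] at h1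
  rw [e2, mul_one, fdL_apply] at h2
  simp only [act, Prod.norm_def, mul_one, mul_zero, add_zero, zero_add, sup_le_iff] at h1 h2
  simp only [Prod.norm_def, sup_le_iff]
  exact ⟨⟨h1.1, h2.1⟩, ⟨h1.2, h2.2⟩⟩

theorem norm_fderiv_le_co (a b c : ℝ) (n : ℕ) (p : E2) :
    ‖fderiv ℝ ((G a b c)^[n]) p‖ ≤ 2 * ‖co a b c p n‖ := by
  rw [fdL_fderiv]
  refine ContinuousLinearMap.opNorm_le_bound _ (by positivity) fun v => ?_
  rw [fdL_apply]
  exact norm_act_le _ _

theorem co_ne_zero {a b c : ℝ} (hb : b ≠ 0) (p : E2) (n : ℕ) : 0 < ‖co a b c p n‖ := by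
  rw [norm_pos_iff]
  intro h
  have h1 := dt_co a b c p n
  rw [h] at h1
  have h2 : dt (0 : M2) = 0 := by simp [dt]
  rw [h2] at h1
  exact pow_ne_zero n hb h1.symm

theorem chi_pos {b c χ : ℝ} (hb : b ≠ 0) (μ : Measure E2)
    (hlim : ∀ᵐ p ∂μ, Tendsto (fun n : ℕ => Real.log ‖co 1 b c p n‖ / n) atTop (𝓝 χ))
    (hpos : μ {p | 0 < limsup (fun n : ℕ => Real.log ‖fderiv ℝ ((G 1 b c)^[n]) p‖ / n) atTop} ≠ 0) :
    0 < χ := by
  by_contra hχ
  push Not at hχ
  refine hpos (measure_eq_zero_iff_ae_notMem.2 ?_)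
  filter_upwards [hlim] with p hp
  have hup : Tendsto (fun n : ℕ => Real.log 2 / n + Real.log ‖co 1 b c p n‖ / n) atTop (𝓝 χ) := by
    have h0 : Tendsto (fun n : ℕ => Real.log 2 / (n : ℝ)) atTop (𝓝 0) :=
      tendsto_const_div_atTop_nhds_zero_nat _
    simpa using h0.add hp
  have ht : Tendsto (fun n : ℕ => Real.log ‖fderiv ℝ ((G 1 b c)^[n]) p‖ / n) atTop (𝓝 χ) := by
    refine tendsto_of_tendsto_of_tendsto_of_le_of_le hp hup (fun n => ?_) (fun n => ?_)
    · have := Real.log_le_log (co_ne_zero hb p n) (norm_co_le_fderiv 1 b c n p)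
      exact div_le_div_of_nonneg_right this (Nat.cast_nonneg n)
    · have h1 : 0 < ‖fderiv ℝ ((G 1 b c)^[n]) p‖ :=
        (co_ne_zero hb p n).trans_le (norm_co_le_fderiv 1 b c n p)
      have h2 := Real.log_le_log h1 (norm_fderiv_le_co 1 b c n p)
      rw [Real.log_mul two_ne_zero (co_ne_zero hb p n).ne'] at h2
      have h3 := div_le_div_of_nonneg_right h2 (Nat.cast_nonneg n : (0 : ℝ) ≤ n)
      rw [add_div] at h3
      exact h3
  rw [ht.limsup_eq]
  exact not_lt.2 hχ

end Pool.Agent.HD
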