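import Pool.Agent.HD.Orb

set_option autoImplicit false

/-!
HD-Filt. Filtration: an orbit which is bounded infinitely often in both time directions is bounded by `|c| + 4`.

With `R = |c| + 4`: if `R ≤ |x|`, `|y| ≤ |x|`, then the first coordinate at least doubles under `G`, and if `R ≤ |y|`,
`|x| ≤ |y|`, then the second coordinate at least doubles under `Gi`. A point of norm larger than `R` is in one of these two
regions.
-/

namespace Pool.Agent.HD

open Filter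

private theorem filt_ineq {c x y t : ℝ} (hx : |c| + 4 ≤ |x|) (hy : |y| ≤ |x|) (ht : |t| ≤ |y|) :
    2 * |x| ≤ |x ^ 2 + c - t| := by
  have h1 : x ^ 2 = |x| ^ 2 := (sq_abs x).symm
  have h2 : |x ^ 2 + c - t| ≥ |x| ^ 2 - |c| - |x| := by
    have h3 : x ^ 2 + c - t ≤ |x ^ 2 + c - t| := le_abs_self _
    have h4 : -|c| ≤ c := neg_abs_le c
    have h5 : t ≤ |t| := le_abs_self t
    rw [h1] at h3 ⊢
    linarith
  have h6 : 0 ≤ |c| := abs_nonneg c
  nlinarith [mul_nonneg (sub_nonneg.2 hx) (by linarith : (0 : ℝ) ≤ |x| - 3)]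

private theorem filt_fwd {b c : ℝ} (hb1 : |b| < 1) {p : E2} (h1 : |c| + 4 ≤ |p.1|)
    (h2 : |p.2| ≤ |p.1|) (n : ℕ) :
    2 ^ n * |p.1| ≤ |((G 1 b c)^[n] p).1| ∧ |((G 1 b c)^[n] p).2| ≤ |((G 1 b c)^[n] p).1| := by
  induction n with
  | zero => exact ⟨by simp, by simpa using h2⟩
  | succ n ih =>
    obtain ⟨i1, i2⟩ := ih
    rw [Function.iterate_succ_apply']
    set r := (G 1 b c)^[n] p with hr
    have hp0 : 0 ≤ |p.1| := abs_nonneg _
    have h2n : (1 : ℝ) ≤ 2 ^ n := one_le_pow₀ (by norm_num)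
    have hle : |c| + 4 ≤ |r.1| := by
      have : |p.1| ≤ 2 ^ n * |p.1| := le_mul_of_one_le_left hp0 h2n
      linarith
    have ht : |b * r.2| ≤ |r.2| := by
      rw [abs_mul]
      have : |b| * |r.2| ≤ 1 * |r.2| := mul_le_mul_of_nonneg_right hb1.le (abs_nonneg _)
      linarith
    have key := filt_ineq hle i2 ht
    have e1 : (G 1 b c r).1 = r.1 ^ 2 + c - b * r.2 := by simp [G]
    have e2 : (G 1 b c r).2 = r.1 := by simp [G]
    rw [e1, e2]
    constructor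
    · have : (2 : ℝ) ^ (n + 1) * |p.1| = 2 * (2 ^ n * |p.1|) := by ring
      rw [this]
      linarith
    · have : 0 ≤ |r.1| := abs_nonneg _
      linarith

private theorem filt_bwd {b c : ℝ} (hb0 : b ≠ 0) (hb1 : |b| < 1) {p : E2}
    (h1 : |c| + 4 ≤ |p.2|) (h2 : |p.1| ≤ |p.2|) (n : ℕ) :
    2 ^ n * |p.2| ≤ |((Gi 1 b c)^[n] p).2| ∧
      |((Gi 1 b c)^[n] p).1| ≤ |((Gi 1 b c)^[n] p).2| := by
  induction n with
  | zero => exact ⟨by simp, by simpa using h2⟩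
  | succ n ih =>
    obtain ⟨i1, i2⟩ := ih
    rw [Function.iterate_succ_apply']
    set r := (Gi 1 b c)^[n] p with hr
    have hp0 : 0 ≤ |p.2| := abs_nonneg _
    have h2n : (1 : ℝ) ≤ 2 ^ n := one_le_pow₀ (by norm_num)
    have hle : |c| + 4 ≤ |r.2| := by
      have : |p.2| ≤ 2 ^ n * |p.2| := le_mul_of_one_le_left hp0 h2n
      linarith
    have key := filt_ineq hle i2 (le_refl |r.1|)
    have e1 : (Gi 1 b c r).1 = r.2 := by simp [Gi]
    have e2 : (Gi 1 b c r).2 = (r.2 ^ 2 + c - r.1) / b := by simp [Gi]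
    have hb : 0 < |b| := abs_pos.2 hb0
    have hdiv : |r.2 ^ 2 + c - r.1| ≤ |(r.2 ^ 2 + c - r.1) / b| := by
      rw [abs_div, le_div_iff₀ hb]
      exact mul_le_of_le_one_right (abs_nonneg _) hb1.le
    rw [e1, e2]
    constructor
    · have : (2 : ℝ) ^ (n + 1) * |p.2| = 2 * (2 ^ n * |p.2|) := by ring
      rw [this]
      linarith
    · have : 0 ≤ |r.2| := abs_nonneg _
      linarith

private theorem filt_freq {u : ℕ → ℝ} {M : ℝ} (h : ∃ᶠ n : ℕ in atTop, u n ≤ M) (n0 : ℕ) :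
    ∃ m : ℕ, u (m + n0) < 2 ^ m := by
  obtain ⟨K, hK⟩ := pow_unbounded_of_one_lt M (by norm_num : (1 : ℝ) < 2)
  obtain ⟨n, hn1, hn2⟩ := (h.and_eventually (eventually_ge_atTop (n0 + K))).exists
  refine ⟨n - n0, ?_⟩
  have e : n - n0 + n0 = n := by omega
  rw [e]
  have h2 : (2 : ℝ) ^ K ≤ 2 ^ (n - n0) := pow_le_pow_right₀ (by norm_num) (by omega)
  linarith

private theorem filt_cases {R : ℝ} {p : E2} (h : R < ‖p‖) :
    (R ≤ |p.1| ∧ |p.2| ≤ |p.1|) ∨ (R ≤ |p.2| ∧ |p.1| ≤ |p.2|) := by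
  rw [Prod.norm_def, Real.norm_eq_abs, Real.norm_eq_abs] at h
  rcases le_total |p.2| |p.1| with h1 | h1
  · rw [max_eq_left h1] at h
    exact Or.inl ⟨h.le, h1⟩
  · rw [max_eq_right h1] at h
    exact Or.inr ⟨h.le, h1⟩

private theorem filt_grow {x y R : ℝ} {m : ℕ} (hR : 1 ≤ R) (hx : R ≤ x) (h : 2 ^ m * x ≤ y) :
    2 ^ m ≤ y := by
  have h1 : (0 : ℝ) < 2 ^ m := by positivity
  have h2 : (2 : ℝ) ^ m * 1 ≤ 2 ^ m * x := mul_le_mul_of_nonneg_left (by linarith) h1.le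
  linarith

theorem filt {b c : ℝ} (hb0 : b ≠ 0) (hb1 : |b| < 1) {q : E2} {M : ℝ}
    (h1 : ∃ᶠ n : ℕ in atTop, ‖(G 1 b c)^[n] q‖ ≤ M)
    (h2 : ∃ᶠ n : ℕ in atTop, ‖(Gi 1 b c)^[n] q‖ ≤ M) :
    (∀ n : ℕ, ‖(G 1 b c)^[n] q‖ ≤ |c| + 4) ∧ ∀ n : ℕ, ‖(Gi 1 b c)^[n] q‖ ≤ |c| + 4 := by
  have hR : (1 : ℝ) ≤ |c| + 4 := by
    have := abs_nonneg c
    linarith
  constructor
  · intro n
    by_contra hn
    rw [not_le] at hn
    rcases filt_cases hn with ⟨ha, hb⟩ | ⟨ha, hb⟩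
    · obtain ⟨m, hm⟩ := filt_freq h1 n
      rw [Function.iterate_add_apply] at hm
      have g1 := filt_grow hR ha (filt_fwd hb1 ha hb m).1
      have g2 := norm_fst_le ((G 1 b c)^[m] ((G 1 b c)^[n] q))
      rw [Real.norm_eq_abs] at g2
      linarith
    · obtain ⟨m, hm⟩ := filt_freq h2 0
      rw [Nat.add_zero] at hm
      have g1 := filt_grow hR ha (filt_bwd hb0 hb1 ha hb (m + n)).1
      have g2 := norm_snd_le ((Gi 1 b c)^[m + n] ((G 1 b c)^[n] q))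
      rw [Real.norm_eq_abs] at g2
      have e : (Gi 1 b c)^[m + n] ((G 1 b c)^[n] q) = (Gi 1 b c)^[m] q := by
        rw [Function.iterate_add_apply, Gi_iter_G_iter hb0]
      have g3 : (2 : ℝ) ^ m ≤ 2 ^ (m + n) := pow_le_pow_right₀ (by norm_num) (by omega)
      rw [e] at g1 g2
      linarith
  · intro n
    by_contra hn
    rw [not_le] at hn
    rcases filt_cases hn with ⟨ha, hb⟩ | ⟨ha, hb⟩
    · obtain ⟨m, hm⟩ := filt_freq h1 0
      rw [Nat.add_zero] at hm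
      have g1 := filt_grow hR ha (filt_fwd hb1 ha hb (m + n)).1
      have g2 := norm_fst_le ((G 1 b c)^[m + n] ((Gi 1 b c)^[n] q))
      rw [Real.norm_eq_abs] at g2
      have e : (G 1 b c)^[m + n] ((Gi 1 b c)^[n] q) = (G 1 b c)^[m] q := by
        rw [Function.iterate_add_apply, G_iter_Gi_iter hb0]
      have g3 : (2 : ℝ) ^ m ≤ 2 ^ (m + n) := pow_le_pow_right₀ (by norm_num) (by omega)
      rw [e] at g1 g2
      linarith
    · obtain ⟨m, hm⟩ := filt_freq h2 n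
      rw [Function.iterate_add_apply] at hm
      have g1 := filt_grow hR ha (filt_bwd hb0 hb1 ha hb m).1
      have g2 := norm_snd_le ((Gi 1 b c)^[m] ((Gi 1 b c)^[n] q))
      rw [Real.norm_eq_abs] at g2
      linarith

end Pool.Agent.HD
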