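import Pool.Agent.HD.Defs

set_option autoImplicit false

/-!
HD-Fix. A fixed point theorem in weighted spaces of sequences, by Picard iteration from `0`.
-/

namespace Pool.Agent.HD

theorem fixpt {ω : ℕ → ℝ} (hω : ∀ k, 0 < ω k) {r : ℝ} (hr : 0 ≤ r)
    (T : (ℕ → E2) → ℕ → E2)
    (h1 : ∀ z : ℕ → E2, (∀ k, ‖z k‖ ≤ r * ω k) → ∀ k, ‖T z k‖ ≤ r * ω k)
    (h2 : ∀ z z' : ℕ → E2, (∀ k, ‖z k‖ ≤ r * ω k) → (∀ k, ‖z' k‖ ≤ r * ω k) → ∀ d : ℝ,
      (∀ k, ‖z k - z' k‖ ≤ d * ω k) → ∀ k, ‖T z k - T z' k‖ ≤ d / 2 * ω k) :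
    ∃ z : ℕ → E2, (∀ k, ‖z k‖ ≤ r * ω k) ∧ T z = z := by
  have hZ : ∀ j k, ‖T^[j] (fun _ => 0) k‖ ≤ r * ω k := by
    intro j
    induction j with
    | zero =>
      intro k
      have := hω k
      simp only [Function.iterate_zero, id_eq, norm_zero]
      positivity
    | succ j ih =>
      intro k
      rw [Function.iterate_succ_apply']
      exact h1 _ ih k
  have hD : ∀ j k, ‖T^[j] (fun _ => 0) k - T^[j + 1] (fun _ => 0) k‖ ≤ 2 * r / 2 ^ j * ω k := by
    intro j
    induction j with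
    | zero =>
      intro k
      have h3 := hZ 1 k
      have h4 := hω k
      have h5 : 0 ≤ r * ω k := by positivity
      simp only [Function.iterate_zero, id_eq, zero_add, zero_sub, norm_neg, pow_zero, div_one]
      linarith
    | succ j ih =>
      intro k
      have h3 := h2 _ _ (hZ j) (hZ (j + 1)) _ ih k
      rw [← Function.iterate_succ_apply' T j, ← Function.iterate_succ_apply' T (j + 1)] at h3
      refine h3.trans (le_of_eq ?_)
      rw [pow_succ]
      ring
  have hdist : ∀ k j, dist (T^[j] (fun _ => 0) k) (T^[j + 1] (fun _ => 0) k) ≤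
      4 * r * ω k / 2 / 2 ^ j := by
    intro k j
    rw [dist_eq_norm]
    refine (hD j k).trans (le_of_eq ?_)
    ring
  have hlim : ∀ k, ∃ x : E2, Filter.Tendsto (fun j => T^[j] (fun _ => 0) k) Filter.atTop (nhds x) :=
    fun k => cauchySeq_tendsto_of_complete (cauchySeq_of_le_geometric_two (hdist k))
  choose z hz using hlim
  have hzb : ∀ k, ‖z k‖ ≤ r * ω k := fun k =>
    le_of_tendsto (hz k).norm (Filter.Eventually.of_forall fun j => hZ j k)
  have hzd : ∀ j k, ‖T^[j] (fun _ => 0) k - z k‖ ≤ 4 * r / 2 ^ j * ω k := by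
    intro j k
    rw [← dist_eq_norm]
    refine (dist_le_of_le_geometric_two_of_tendsto (hdist k) (hz k) j).trans (le_of_eq ?_)
    ring
  refine ⟨z, hzb, ?_⟩
  funext k
  have h3 : Filter.Tendsto (fun j => T^[j + 1] (fun _ => 0) k) Filter.atTop (nhds (z k)) :=
    (Filter.tendsto_add_atTop_iff_nat 1).mpr (hz k)
  have h4 : Filter.Tendsto (fun j => T^[j + 1] (fun _ => 0) k) Filter.atTop (nhds (T z k)) := by
    rw [tendsto_iff_norm_sub_tendsto_zero]
    have h5 : ∀ j : ℕ, ‖T^[j + 1] (fun _ => 0) k - T z k‖ ≤ 2 * r * ω k * (1 / 2) ^ j := by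
      intro j
      have h6 := h2 _ _ (hZ j) hzb _ (hzd j) k
      rw [Function.iterate_succ_apply']
      refine h6.trans (le_of_eq ?_)
      rw [one_div, inv_pow]
      ring
    have h7 : Filter.Tendsto (fun j : ℕ => 2 * r * ω k * (1 / 2 : ℝ) ^ j) Filter.atTop (nhds 0) := by
      have := (tendsto_pow_atTop_nhds_zero_of_lt_one (r := (1 / 2 : ℝ)) (by norm_num)
        (by norm_num)).const_mul (2 * r * ω k)
      simpa using this
    exact squeeze_zero (fun j => norm_nonneg _) h5 h7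
  exact tendsto_nhds_unique h4 h3

end Pool.Agent.HD
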