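import Pool.Agent.HD.Defs

set_option autoImplicit false

/-!
HD-GDefs. Linear coordinates with axes `U0` (horizontal) and `V0` (vertical), and local graphs.
-/

namespace Pool.Agent.HD

/-- coordinates of `z` in the basis `U0, V0` -/
noncomputable def lc (V0 U0 z : E2) : E2 := (wd V0 z / wd V0 U0, wd U0 z / wd U0 V0)

/-- the point with given coordinates in the basis `U0, V0` -/
def li (V0 U0 w : E2) : E2 := w.1 • U0 + w.2 • V0

/-- `g` is the local stable curve and `h` the local unstable curve of `p`, as graphs over the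
coordinate axes, on intervals of radius `r`; the upper half of the stable one and the unstable one
have backward orbits in the ball of radius `R'` -/
structure Gph (b c R' : ℝ) (V0 U0 : E2) (r : ℝ) (p : E2) (g h : ℝ → ℝ) : Prop where
  gl : ∀ u v, |g u - g v| ≤ 1 / 5 * |u - v|
  hl : ∀ u v, |h u - h v| ≤ 1 / 5 * |u - v|
  gp : g (lc V0 U0 p).2 = (lc V0 U0 p).1
  hp : h (lc V0 U0 p).1 = (lc V0 U0 p).2
  gs : ∀ y, |y - (lc V0 U0 p).2| ≤ r → ExpC (G 1 b c) p (li V0 U0 (g y, y))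
  gk : ∀ y, (lc V0 U0 p).2 ≤ y → |y - (lc V0 U0 p).2| ≤ r → li V0 U0 (g y, y) ∈ Kb b c R'
  hs : ∀ x, |x - (lc V0 U0 p).1| ≤ r → ExpC (Gi 1 b c) p (li V0 U0 (x, h x))
  hk : ∀ x, |x - (lc V0 U0 p).1| ≤ r → li V0 U0 (x, h x) ∈ Kb b c R'

end Pool.Agent.HD
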