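import Pool.Agent.HD.Defs

set_option autoImplicit false

/-!
HD-Graph. A nearly vertical curve is the graph of a Lipschitz function.

The second coordinate of the curve is a Lipschitz homeomorphism near `0`; its inverse, applied to the truncated value
`max (φ 0 - r / 2) (min y (φ 0 + r / 2))`, gives the parameter.
-/

namespace Pool.Agent.HD

theorem graph {σ : ℝ → E2} {r : ℝ} (hr : 0 < r)
    (h : ∀ s s' : ℝ, |s| ≤ r → |s'| ≤ r →
      ‖σ s - σ s' - (s - s') • ((0 : ℝ), (1 : ℝ))‖ ≤ 1 / 10 * |s - s'|) :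
    ∃ g : ℝ → ℝ, (∀ y y', |g y - g y'| ≤ 1 / 5 * |y - y'|) ∧ g (σ 0).2 = (σ 0).1 ∧
      ∀ y, |y - (σ 0).2| ≤ r / 2 → ∃ s, |s| ≤ r ∧ σ s = (g y, y) ∧ ((σ 0).2 ≤ y → 0 ≤ s) := by
  have h1 : ∀ s s' : ℝ, |s| ≤ r → |s'| ≤ r → |(σ s).1 - (σ s').1| ≤ 1 / 10 * |s - s'| := by
    intro s s' hs hs'
    have := (norm_fst_le _).trans (h s s' hs hs')
    simpa [Real.norm_eq_abs] using this
  have h2 : ∀ s s' : ℝ, |s| ≤ r → |s'| ≤ r →
      |(σ s).2 - (σ s').2 - (s - s')| ≤ 1 / 10 * |s - s'| := by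
    intro s s' hs hs'
    have := (norm_snd_le _).trans (h s s' hs hs')
    simpa [Real.norm_eq_abs] using this
  have h3 : ∀ s s' : ℝ, |s| ≤ r → |s'| ≤ r → 9 / 10 * |s - s'| ≤ |(σ s).2 - (σ s').2| := by
    intro s s' hs hs'
    have h4 := h2 s s' hs hs'
    have h5 : |s - s'| ≤ |(σ s).2 - (σ s').2| + |(σ s).2 - (σ s').2 - (s - s')| := by
      have : s - s' = ((σ s).2 - (σ s').2) - ((σ s).2 - (σ s').2 - (s - s')) := by ring
      calc |s - s'| = |((σ s).2 - (σ s').2) - ((σ s).2 - (σ s').2 - (s - s'))| := by rw [← this]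
        _ ≤ _ := abs_sub _ _
    linarith
  have h4 : ∀ s s' : ℝ, |s| ≤ r → |s'| ≤ r → |(σ s).2 - (σ s').2| ≤ 11 / 10 * |s - s'| := by
    intro s s' hs hs'
    have h4 := h2 s s' hs hs'
    have h5 : |(σ s).2 - (σ s').2| ≤ |s - s'| + |(σ s).2 - (σ s').2 - (s - s')| := by
      have : (σ s).2 - (σ s').2 = (s - s') + ((σ s).2 - (σ s').2 - (s - s')) := by ring
      calc |(σ s).2 - (σ s').2| = |(s - s') + ((σ s).2 - (σ s').2 - (s - s'))| := by rw [← this]
        _ ≤ _ := abs_add_le _ _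
    linarith
  have habs : ∀ s ∈ Set.Icc (-r) r, |s| ≤ r := fun s hs => abs_le.2 hs
  have hr' : |r| ≤ r := by rw [abs_of_pos hr]
  have hr'' : |-r| ≤ r := by rw [abs_neg, abs_of_pos hr]
  have h0' : |(0 : ℝ)| ≤ r := by rw [abs_zero]; exact hr.le
  have hcont : ContinuousOn (fun s => (σ s).2) (Set.Icc (-r) r) := by
    rw [Metric.continuousOn_iff]
    intro s hs ε hε
    refine ⟨ε / 2, by positivity, fun s' hs' hd => ?_⟩
    rw [Real.dist_eq] at hd ⊢
    have := h4 s' s (habs _ hs') (habs _ hs)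
    calc |(σ s').2 - (σ s).2| ≤ 11 / 10 * |s' - s| := this
      _ < ε := by linarith
  have hup : (σ 0).2 + 9 / 10 * r ≤ (σ r).2 := by
    have := h2 r 0 hr' h0'
    rw [sub_zero, abs_of_pos hr] at this
    have := (abs_le.1 this).1
    linarith
  have hdn : (σ (-r)).2 ≤ (σ 0).2 - 9 / 10 * r := by
    have := h2 (-r) 0 hr'' h0'
    rw [sub_zero, abs_neg, abs_of_pos hr] at this
    have := (abs_le.1 this).2
    linarith
  have hex : ∀ y : ℝ, ∃ s : ℝ, |s| ≤ r ∧
      (σ s).2 = max ((σ 0).2 - r / 2) (min y ((σ 0).2 + r / 2)) := by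
    intro y
    have hy : max ((σ 0).2 - r / 2) (min y ((σ 0).2 + r / 2)) ∈
        Set.Icc ((σ (-r)).2) ((σ r).2) := by
      constructor
      · exact le_trans (by linarith) (le_max_left _ _)
      · apply max_le (by linarith)
        exact (min_le_right _ _).trans (by linarith)
    obtain ⟨s, hs, he⟩ := intermediate_value_Icc (by linarith : -r ≤ r) hcont hy
    exact ⟨s, habs s hs, he⟩
  choose S hS1 hS2 using hex
  have hS3 : ∀ y y' : ℝ, |S y - S y'| ≤ 10 / 9 * |y - y'| := by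
    intro y y'
    have h5 := h3 (S y) (S y') (hS1 y) (hS1 y')
    rw [hS2, hS2] at h5
    have h6 : |max ((σ 0).2 - r / 2) (min y ((σ 0).2 + r / 2)) -
        max ((σ 0).2 - r / 2) (min y' ((σ 0).2 + r / 2))| ≤ |y - y'| := by
      refine (abs_max_sub_max_le_max _ _ _ _).trans ?_
      rw [sub_self, abs_zero]
      refine max_le (abs_nonneg _) ((abs_min_sub_min_le_max _ _ _ _).trans ?_)
      rw [sub_self, abs_zero]
      exact max_le le_rfl (abs_nonneg _)
    linarith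
  have hT : ∀ y : ℝ, |y - (σ 0).2| ≤ r / 2 →
      max ((σ 0).2 - r / 2) (min y ((σ 0).2 + r / 2)) = y := by
    intro y hy
    obtain ⟨h5, h6⟩ := abs_le.1 hy
    rw [min_eq_left (by linarith), max_eq_right (by linarith)]
  refine ⟨fun y => (σ (S y)).1, ?_, ?_, ?_⟩
  · intro y y'
    have h5 := h1 (S y) (S y') (hS1 y) (hS1 y')
    have h6 := hS3 y y'
    have h7 := abs_nonneg (y - y')
    show |(σ (S y)).1 - (σ (S y')).1| ≤ 1 / 5 * |y - y'|
    linarith
  · have h5 : (σ (S (σ 0).2)).2 = (σ 0).2 := by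
      rw [hS2, hT]
      rw [sub_self, abs_zero]
      linarith
    have h6 := h3 (S (σ 0).2) 0 (hS1 _) h0'
    rw [h5, sub_self, abs_zero, sub_zero] at h6
    have h7 : S (σ 0).2 = 0 := by
      rw [← abs_nonpos_iff]
      linarith
    show (σ (S (σ 0).2)).1 = (σ 0).1
    rw [h7]
  · intro y hy
    have h5 : (σ (S y)).2 = y := by rw [hS2, hT y hy]
    refine ⟨S y, hS1 y, Prod.ext rfl h5, fun h6 => ?_⟩
    by_contra h7
    have h8 := not_le.1 h7
    have h9 := h2 (S y) 0 (hS1 y) h0'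
    rw [h5, sub_zero, abs_of_neg h8] at h9
    have := (abs_le.1 h9).2
    linarith

end Pool.Agent.HD
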