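import Pool.Agent.HD.GDefs
import Pool.Agent.HD.Cpt
import Pool.Agent.HD.LocG
import Pool.Agent.HD.Lit
import Pool.Agent.HD.Graph

set_option autoImplicit false

/-!
HD-GeoA. Local stable and unstable graphs of the points of a block.

The coordinates `lc V0 U0` are linear and bounded by a constant `Λ`; in these coordinates the local stable curve of `p` is
nearly vertical (`local_curve`) and `graph` gives the function `g`. The unstable curve is the stable curve of `p.swap` for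
the exchanged inverse map; after the exchange of the coordinates it is treated in the same way.
-/

namespace Pool.Agent.HD

/-- the coordinates as a linear map -/
private noncomputable def lcm (V0 U0 : E2) : E2 →ₗ[ℝ] E2 where
  toFun z := lc V0 U0 z
  map_add' x y := by
    ext <;> simp only [lc, wd, Prod.fst_add, Prod.snd_add] <;> ring
  map_smul' r x := by
    ext <;> simp only [lc, wd, Prod.smul_fst, Prod.smul_snd, smul_eq_mul, RingHom.id_apply] <;> ring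

/-- the exchange of the coordinates as a linear map -/
private def swm : E2 →ₗ[ℝ] E2 where
  toFun z := z.swap
  map_add' _ _ := rfl
  map_smul' _ _ := rfl

private lemma norm_swap (z : E2) : ‖z.swap‖ = ‖z‖ := by
  rw [Prod.norm_def, Prod.norm_def, Prod.fst_swap, Prod.snd_swap, max_comm]

private lemma abs_wd_le' (u v : E2) : |wd u v| ≤ 2 * ‖u‖ * ‖v‖ := by
  have h1 : |u.1| ≤ ‖u‖ := norm_fst_le u
  have h2 : |u.2| ≤ ‖u‖ := norm_snd_le u
  have h3 : |v.1| ≤ ‖v‖ := norm_fst_le v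
  have h4 : |v.2| ≤ ‖v‖ := norm_snd_le v
  have h5 : |u.1 * v.2| ≤ ‖u‖ * ‖v‖ := by
    rw [abs_mul]; exact mul_le_mul h1 h4 (abs_nonneg _) (norm_nonneg _)
  have h6 : |u.2 * v.1| ≤ ‖u‖ * ‖v‖ := by
    rw [abs_mul]; exact mul_le_mul h2 h3 (abs_nonneg _) (norm_nonneg _)
  have h7 : |wd u v| ≤ |u.1 * v.2| + |u.2 * v.1| := by
    unfold wd; exact abs_sub _ _
  linarith

private lemma wd_neg (V0 U0 : E2) : wd U0 V0 = - wd V0 U0 := by
  unfold wd; ring

private lemma li_lc {V0 U0 : E2} (hw : wd V0 U0 ≠ 0) (z : E2) : li V0 U0 (lc V0 U0 z) = z := by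
  unfold li lc
  rw [wd_neg V0 U0]
  unfold wd at hw ⊢
  ext
  · simp only [Prod.fst_add, Prod.smul_fst, smul_eq_mul]
    field_simp
    ring
  · simp only [Prod.snd_add, Prod.smul_snd, smul_eq_mul]
    field_simp
    ring

private lemma lc_V0 {V0 U0 : E2} (hw : wd V0 U0 ≠ 0) : lc V0 U0 V0 = (0, 1) := by
  have h1 : wd U0 V0 ≠ 0 := by rw [wd_neg]; exact neg_ne_zero.mpr hw
  unfold lc
  rw [div_self h1]
  have : wd V0 V0 = 0 := by unfold wd; ring
  rw [this, zero_div]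

private lemma lc_U0 {V0 U0 : E2} (hw : wd V0 U0 ≠ 0) : lc V0 U0 U0 = (1, 0) := by
  unfold lc
  rw [div_self hw]
  have : wd U0 U0 = 0 := by unfold wd; ring
  rw [this, zero_div]

private lemma norm_lc_le (V0 U0 z : E2) :
    ‖lc V0 U0 z‖ ≤ ((2 * ‖V0‖ + 2 * ‖U0‖) / |wd V0 U0| + 1) * ‖z‖ := by
  have hz := norm_nonneg z
  have key : ∀ u : E2, ‖u‖ ≤ ‖V0‖ + ‖U0‖ →
      |wd u z| / |wd V0 U0| ≤ ((2 * ‖V0‖ + 2 * ‖U0‖) / |wd V0 U0| + 1) * ‖z‖ := by
    intro u hu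
    have h1 : |wd u z| ≤ (2 * ‖V0‖ + 2 * ‖U0‖) * ‖z‖ := by
      refine (abs_wd_le' u z).trans ?_
      apply mul_le_mul_of_nonneg_right _ hz
      linarith
    calc |wd u z| / |wd V0 U0| ≤ ((2 * ‖V0‖ + 2 * ‖U0‖) * ‖z‖) / |wd V0 U0| :=
          div_le_div_of_nonneg_right h1 (abs_nonneg _)
      _ = (2 * ‖V0‖ + 2 * ‖U0‖) / |wd V0 U0| * ‖z‖ := by ring
      _ ≤ _ := by nlinarith
  unfold lc
  rw [Prod.norm_def]
  apply max_le
  · rw [Real.norm_eq_abs, abs_div]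
    exact key V0 (by linarith [norm_nonneg U0])
  · rw [Real.norm_eq_abs, abs_div, wd_neg V0 U0, abs_neg]
    exact key U0 (by linarith [norm_nonneg V0])

private lemma near {A : E2 →ₗ[ℝ] E2} {Λ : ℝ} (hΛ : 0 < Λ) (hA : ∀ z, ‖A z‖ ≤ Λ * ‖z‖)
    {W0 : E2} (hA0 : A W0 = ((0 : ℝ), (1 : ℝ))) {W : E2} (hW : ‖W - W0‖ ≤ 1 / (20 * Λ))
    {γ : ℝ → E2} {s s' : ℝ}
    (h : ‖γ s - γ s' - (s - s') • W‖ ≤ 1 / (20 * Λ) * |s - s'|) :
    ‖A (γ s) - A (γ s') - (s - s') • ((0 : ℝ), (1 : ℝ))‖ ≤ 1 / 10 * |s - s'| := by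
  have e : A (γ s) - A (γ s') - (s - s') • ((0 : ℝ), (1 : ℝ)) =
      A (γ s - γ s' - (s - s') • W) + (s - s') • A (W - W0) := by
    rw [← hA0, map_sub, map_sub, map_sub, map_smul, smul_sub]
    abel
  rw [e]
  have h1 : ‖A (γ s - γ s' - (s - s') • W)‖ ≤ 1 / 20 * |s - s'| := by
    refine (hA _).trans ((mul_le_mul_of_nonneg_left h hΛ.le).trans (le_of_eq ?_))
    field_simp
  have h2 : ‖(s - s') • A (W - W0)‖ ≤ 1 / 20 * |s - s'| := by
    rw [norm_smul, Real.norm_eq_abs, mul_comm]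
    apply mul_le_mul_of_nonneg_right _ (abs_nonneg _)
    refine (hA _).trans ((mul_le_mul_of_nonneg_left hW hΛ.le).trans (le_of_eq ?_))
    field_simp
  refine (norm_add_le _ _).trans ?_
  linarith

theorem geoA {b c χ δ R C : ℝ} (hb0 : b ≠ 0) (hb1 : |b| < 1) (hδ : 0 < δ)
    (hχ : 100 * δ ≤ χ) {V0 U0 : E2} (hw : wd V0 U0 ≠ 0) :
    ∃ η : ℝ, 0 < η ∧ ∃ r : ℝ, 0 < r ∧ ∀ p V U : E2, Both b c χ δ R C p V U →
      Br 1 b c (χ - Real.log |b|) (Kb b c R) p V → ‖V - V0‖ ≤ η → ‖U - U0‖ ≤ η →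
      ∃ g h : ℝ → ℝ, Gph b c (R + 1) V0 U0 r p g h := by
  set Λ : ℝ := (2 * ‖V0‖ + 2 * ‖U0‖) / |wd V0 U0| + 1 with hΛdef
  have hΛ : 0 < Λ := by positivity
  have hη : 0 < 1 / (20 * Λ) := by positivity
  have hlog : Real.log |b| < 0 := Real.log_neg (abs_pos.mpr hb0) hb1
  have hρ : 100 * δ ≤ χ - Real.log |b| := by linarith
  have hb0' : (1 / b : ℝ) ≠ 0 := one_div_ne_zero hb0
  obtain ⟨s1, hs1, H1⟩ := local_curve (a := 1) (c := c) hb0 hδ hρ R C hη
  obtain ⟨s2, hs2, H2⟩ := local_curve (a := 1 / b) (c := c / b) hb0' hδ hχ R C hη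
  set s0 : ℝ := min s1 s2 with hs0def
  have hs0 : 0 < s0 := lt_min hs1 hs2
  refine ⟨1 / (20 * Λ), hη, s0 / 2, half_pos hs0, ?_⟩
  intro p V U hB hBr hV hU
  -- the stable curve
  obtain ⟨γ, -, -, hγ0, hγ⟩ := exists_curve (a := 1) hb0 hδ hρ hB.s
  obtain ⟨g, hgl, hg0, hgs⟩ := graph (σ := fun s => lcm V0 U0 (γ s)) hs0 (by
    intro s s' hs hs'
    apply near hΛ (fun z => norm_lc_le V0 U0 z) (lc_V0 hw) hV
    exact (H1 p V hB.s s s' _ _ (hs.trans (min_le_left _ _)) (hs'.trans (min_le_left _ _))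
      (hγ s) (hγ s')).1)
  -- the unstable curve
  obtain ⟨γ', -, -, hγ'0, hγ'⟩ := exists_curve (a := 1 / b) hb0' hδ hχ hB.u
  obtain ⟨h, hhl, hh0, hhs⟩ := graph (σ := fun s => (swm.comp ((lcm V0 U0).comp swm)) (γ' s)) hs0 (by
    intro s s' hs hs'
    have hU' : ‖U.swap - U0.swap‖ ≤ 1 / (20 * Λ) := by
      have : U.swap - U0.swap = (U - U0).swap := rfl
      rw [this, norm_swap]; exact hU
    refine near (A := swm.comp ((lcm V0 U0).comp swm)) (W0 := U0.swap) hΛ (fun z => ?_) ?_ hU'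
      (H2 p.swap U.swap hB.u s s' _ _ (hs.trans (min_le_right _ _))
        (hs'.trans (min_le_right _ _)) (hγ' s) (hγ' s')).1
    · have : (swm.comp ((lcm V0 U0).comp swm)) z = (lc V0 U0 z.swap).swap := rfl
      rw [this, norm_swap, ← norm_swap z]
      exact norm_lc_le V0 U0 z.swap
    · have : (swm.comp ((lcm V0 U0).comp swm)) U0.swap = (lc V0 U0 U0).swap := rfl
      rw [this, lc_U0 hw]; rfl)
  have e0 : lcm V0 U0 (γ 0) = lc V0 U0 p := by
    show lc V0 U0 (γ 0) = _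
    rw [hγ0]
  have e0' : (swm.comp ((lcm V0 U0).comp swm)) (γ' 0) = (lc V0 U0 p).swap := by
    show (lc V0 U0 (γ' 0).swap).swap = _
    rw [hγ'0, Prod.swap_swap]
  rw [e0] at hg0 hgs
  rw [e0'] at hh0 hhs
  rw [Prod.snd_swap, Prod.fst_swap] at hh0
  rw [Prod.snd_swap] at hhs
  -- the points of the graphs
  have P1 : ∀ y, |y - (lc V0 U0 p).2| ≤ s0 / 2 → ∃ s, |s| ≤ s0 ∧ li V0 U0 (g y, y) = γ s ∧
      ((lc V0 U0 p).2 ≤ y → 0 ≤ s) := by
    intro y hy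
    obtain ⟨s, hs, he, hpos⟩ := hgs y hy
    refine ⟨s, hs, ?_, hpos⟩
    have he' : lc V0 U0 (γ s) = (g y, y) := he
    rw [← he', li_lc hw]
  have P2 : ∀ x, |x - (lc V0 U0 p).1| ≤ s0 / 2 → ∃ s, |s| ≤ s0 ∧
      li V0 U0 (x, h x) = (γ' s).swap := by
    intro x hx
    obtain ⟨s, hs, he, -⟩ := hhs x hx
    refine ⟨s, hs, ?_⟩
    have he' : (lc V0 U0 (γ' s).swap).swap = (h x, x) := he
    have he2 : lc V0 U0 (γ' s).swap = (x, h x) := by
      have := congrArg Prod.swap he'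
      rwa [Prod.swap_swap] at this
    rw [← he2, li_lc hw]
  have zz : |(0 : ℝ)| ≤ s2 := by rw [abs_zero]; exact hs2.le
  refine ⟨g, h, ⟨hgl, hhl, hg0, hh0, ?_, ?_, ?_, ?_⟩⟩
  · intro y hy
    obtain ⟨s, hs, he, -⟩ := P1 y hy
    rw [he]
    exact Asym.expC hρ hδ hB.s (hγ s)
  · intro y hy1 hy
    obtain ⟨s, hs, he, hpos⟩ := P1 y hy
    rw [he]
    have hk := hBr s (hpos hy1) _ (hγ s)
    intro n
    have := hk n
    linarith
  · intro x hx
    obtain ⟨s, hs, he⟩ := P2 x hx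
    rw [he, ← expC_swap hb0, Prod.swap_swap]
    exact Asym.expC hχ hδ hB.u (hγ' s)
  · intro x hx
    obtain ⟨s, hs, he⟩ := P2 x hx
    rw [he]
    intro n
    have h1 := (H2 p.swap U.swap hB.u s 0 (γ' s) (γ' 0) (hs.trans (min_le_right _ _)) zz
      (hγ' s) (hγ' 0)).2 n
    have h2 := hB.u.bdd n
    have h3 := G_swap_iter (a := 1) (c := c) hb0 (γ' s).swap n
    rw [Prod.swap_swap] at h3
    have h4 : ‖(Gi 1 b c)^[n] (γ' s).swap‖ = ‖(G (1 / b) (1 / b) (c / b))^[n] (γ' s)‖ := by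
      rw [h3, norm_swap]
    rw [h4]
    have h5 := norm_sub_norm_le ((G (1 / b) (1 / b) (c / b))^[n] (γ' s))
      ((G (1 / b) (1 / b) (c / b))^[n] p.swap)
    linarith

end Pool.Agent.HD
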