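import Pool.Agent.HD.Defs

set_option autoImplicit false

/-!
HD-Rect. A rectangle bounded by nearly vertical and nearly horizontal graphs.

The open set is `U = {z | min (g 0 z.2) (g 1 z.2) < z.1 < max (g 0 z.2) (g 1 z.2), max (h 0 z.1) (h 1 z.1) < z.2 < t z.1}`.
In the closure the weak inequalities hold, which gives `|z.1 - x0| ≤ ε`, `|z.2 - y0| ≤ 2 ε`; on the frontier one of them
is an equality.
-/

namespace Pool.Agent.HD

/-- the closed rectangle -/
private def rectK (g h : Fin 2 → ℝ → ℝ) (t : ℝ → ℝ) : Set E2 :=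
  {z | (min (g 0 z.2) (g 1 z.2) ≤ z.1 ∧ z.1 ≤ max (g 0 z.2) (g 1 z.2)) ∧
    (max (h 0 z.1) (h 1 z.1) ≤ z.2 ∧ z.2 ≤ t z.1)}

/-- the open rectangle -/
private def rectU (g h : Fin 2 → ℝ → ℝ) (t : ℝ → ℝ) : Set E2 :=
  {z | (min (g 0 z.2) (g 1 z.2) < z.1 ∧ z.1 < max (g 0 z.2) (g 1 z.2)) ∧
    (max (h 0 z.1) (h 1 z.1) < z.2 ∧ z.2 < t z.1)}

private theorem rect_cont {f : ℝ → ℝ} (hf : ∀ u v, |f u - f v| ≤ 1 / 5 * |u - v|) :
    Continuous f := by
  have : LipschitzWith (1 / 5 : NNReal) f := by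
    apply LipschitzWith.of_dist_le_mul
    intro u v
    rw [Real.dist_eq, Real.dist_eq]
    have h := hf u v
    simpa using h
  exact this.continuous

private theorem rect_up {f : ℝ → ℝ} (hf : ∀ u v, |f u - f v| ≤ 1 / 5 * |u - v|) (u v : ℝ) :
    f u ≤ f v + 1 / 5 * |u - v| := by
  have := (abs_le.1 (hf u v)).2
  linarith

private theorem rect_dn {f : ℝ → ℝ} (hf : ∀ u v, |f u - f v| ≤ 1 / 5 * |u - v|) (u v : ℝ) :
    f v - 1 / 5 * |u - v| ≤ f u := by
  have := (abs_le.1 (hf u v)).1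
  linarith

/-- the value of a graph through a point near the centre -/
private theorem rect_near {f : ℝ → ℝ} (hf : ∀ u v, |f u - f v| ≤ 1 / 5 * |u - v|)
    {a b a0 b0 ε v : ℝ} (hab : f a = b) (ha : |a - a0| ≤ ε / 20) (hb : |b - b0| ≤ ε / 20) :
    |f v - b0| ≤ ε / 20 + 1 / 5 * (|v - a0| + ε / 20) := by
  have h1 : |f v - f a| ≤ 1 / 5 * |v - a| := hf v a
  have h2 : |v - a| ≤ |v - a0| + |a - a0| := by
    have := abs_sub_le v a0 a
    rw [abs_sub_comm a0 a] at this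
    exact this
  have h3 : |f v - b0| ≤ |f v - f a| + |f a - b0| := abs_sub_le _ _ _
  rw [hab] at h1 h3
  linarith

private theorem rect_est {g h : Fin 2 → ℝ → ℝ} {t : ℝ → ℝ} {x y : Fin 2 → ℝ} {x0 y0 ε : ℝ}
    (hg : ∀ i u v, |g i u - g i v| ≤ 1 / 5 * |u - v|)
    (hh : ∀ i u v, |h i u - h i v| ≤ 1 / 5 * |u - v|)
    (ht : ∀ u v, |t u - t v| ≤ 1 / 5 * |u - v|)
    (hgy : ∀ i, g i (y i) = x i) (hhx : ∀ i, h i (x i) = y i)
    (hε : 0 < ε) (ht0 : t x0 = y0 + ε)
    (hx : ∀ i, |x i - x0| ≤ ε / 20) (hy : ∀ i, |y i - y0| ≤ ε / 20) {z : E2}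
    (hz : z ∈ rectK g h t) : |z.1 - x0| ≤ ε ∧ |z.2 - y0| ≤ 2 * ε := by
  obtain ⟨⟨z1, z2⟩, z3, z4⟩ := hz
  have a1 := abs_le.1 (rect_near (hg 0) (v := z.2) (hgy 0) (hy 0) (hx 0))
  have a2 := abs_le.1 (rect_near (hg 1) (v := z.2) (hgy 1) (hy 1) (hx 1))
  have a3 := abs_le.1 (rect_near (hh 0) (v := z.1) (hhx 0) (hx 0) (hy 0))
  have a4 : t z.1 ≤ y0 + ε + 1 / 5 * |z.1 - x0| := by
    have := rect_up ht z.1 x0
    rw [ht0] at this
    exact this
  have b1 : z.1 - x0 ≤ ε / 20 + 1 / 5 * (|z.2 - y0| + ε / 20) := by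
    rcases le_total (g 0 z.2) (g 1 z.2) with hc | hc
    · rw [max_eq_right hc] at z2
      linarith [a2.2]
    · rw [max_eq_left hc] at z2
      linarith [a1.2]
  have b2 : -(ε / 20 + 1 / 5 * (|z.2 - y0| + ε / 20)) ≤ z.1 - x0 := by
    rcases le_total (g 0 z.2) (g 1 z.2) with hc | hc
    · rw [min_eq_left hc] at z1
      linarith [a1.1]
    · rw [min_eq_right hc] at z1
      linarith [a2.1]
  have b3 : |z.1 - x0| ≤ ε / 20 + 1 / 5 * (|z.2 - y0| + ε / 20) := abs_le.2 ⟨b2, b1⟩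
  have b4 : h 0 z.1 ≤ z.2 := (le_max_left _ _).trans z3
  have b5 : |z.2 - y0| ≤ ε + 1 / 5 * |z.1 - x0| := by
    rw [abs_le]
    constructor
    · linarith [a3.1, abs_nonneg (z.1 - x0)]
    · linarith
  constructor
  · linarith [abs_nonneg (z.2 - y0)]
  · linarith [abs_nonneg (z.1 - x0)]

theorem rect {g h : Fin 2 → ℝ → ℝ} {t : ℝ → ℝ} {x y : Fin 2 → ℝ} {x0 y0 ρ ε : ℝ}
    (hg : ∀ i u v, |g i u - g i v| ≤ 1 / 5 * |u - v|)
    (hh : ∀ i u v, |h i u - h i v| ≤ 1 / 5 * |u - v|)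
    (ht : ∀ u v, |t u - t v| ≤ 1 / 5 * |u - v|)
    (hgy : ∀ i, g i (y i) = x i) (hhx : ∀ i, h i (x i) = y i)
    (hε : 0 < ε) (ht0 : t x0 = y0 + ε) (hερ : ε ≤ ρ)
    (hx : ∀ i, |x i - x0| ≤ ε / 20) (hy : ∀ i, |y i - y0| ≤ ε / 20)
    (hne : ∀ v, |v - y0| ≤ 2 * ρ → g 0 v ≠ g 1 v) :
    ∃ U : Set E2, IsOpen U ∧ U.Nonempty ∧ Bornology.IsBounded U ∧
      ∀ z ∈ frontier U, |z.1 - x0| ≤ 2 * ρ ∧ |z.2 - y0| ≤ 2 * ρ ∧
        ((∃ i, z.1 = g i z.2 ∧ y i ≤ z.2) ∨ (∃ i, z.2 = h i z.1) ∨ z.2 = t z.1) := by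
  have cg : ∀ i, Continuous fun z : E2 => g i z.2 := fun i => (rect_cont (hg i)).comp continuous_snd
  have ch : ∀ i, Continuous fun z : E2 => h i z.1 := fun i => (rect_cont (hh i)).comp continuous_fst
  have ct : Continuous fun z : E2 => t z.1 := (rect_cont ht).comp continuous_fst
  have cmin : Continuous fun z : E2 => min (g 0 z.2) (g 1 z.2) := (cg 0).min (cg 1)
  have cmax : Continuous fun z : E2 => max (g 0 z.2) (g 1 z.2) := (cg 0).max (cg 1)
  have cmh : Continuous fun z : E2 => max (h 0 z.1) (h 1 z.1) := (ch 0).max (ch 1)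
  have hopen : IsOpen (rectU g h t) := by
    have o1 : IsOpen {z : E2 | min (g 0 z.2) (g 1 z.2) < z.1} := isOpen_lt cmin continuous_fst
    have o2 : IsOpen {z : E2 | z.1 < max (g 0 z.2) (g 1 z.2)} := isOpen_lt continuous_fst cmax
    have o3 : IsOpen {z : E2 | max (h 0 z.1) (h 1 z.1) < z.2} := isOpen_lt cmh continuous_snd
    have o4 : IsOpen {z : E2 | z.2 < t z.1} := isOpen_lt continuous_snd ct
    exact (o1.inter o2).inter (o3.inter o4)
  have hclosed : IsClosed (rectK g h t) := by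
    have o1 : IsClosed {z : E2 | min (g 0 z.2) (g 1 z.2) ≤ z.1} := isClosed_le cmin continuous_fst
    have o2 : IsClosed {z : E2 | z.1 ≤ max (g 0 z.2) (g 1 z.2)} := isClosed_le continuous_fst cmax
    have o3 : IsClosed {z : E2 | max (h 0 z.1) (h 1 z.1) ≤ z.2} := isClosed_le cmh continuous_snd
    have o4 : IsClosed {z : E2 | z.2 ≤ t z.1} := isClosed_le continuous_snd ct
    exact (o1.inter o2).inter (o3.inter o4)
  have hsub : rectU g h t ⊆ rectK g h t := by
    intro z hz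
    exact ⟨⟨hz.1.1.le, hz.1.2.le⟩, hz.2.1.le, hz.2.2.le⟩
  have hcl : closure (rectU g h t) ⊆ rectK g h t := closure_minimal hsub hclosed
  refine ⟨rectU g h t, hopen, ?_, ?_, ?_⟩
  · -- nonempty
    have hv : |(y0 + ε / 4) - y0| = ε / 4 := by
      rw [add_sub_cancel_left, abs_of_pos (by linarith)]
    have hgne := hne (y0 + ε / 4) (by rw [hv]; linarith)
    have a1 := abs_le.1 (rect_near (hg 0) (v := y0 + ε / 4) (hgy 0) (hy 0) (hx 0))
    have a2 := abs_le.1 (rect_near (hg 1) (v := y0 + ε / 4) (hgy 1) (hy 1) (hx 1))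
    rw [hv] at a1 a2
    set u := (g 0 (y0 + ε / 4) + g 1 (y0 + ε / 4)) / 2 with hu
    have hux : |u - x0| ≤ 11 / 100 * ε := by
      rw [abs_le]
      constructor
      · linarith [a1.1, a2.1]
      · linarith [a1.2, a2.2]
    have a3 := abs_le.1 (rect_near (hh 0) (v := u) (hhx 0) (hx 0) (hy 0))
    have a4 := abs_le.1 (rect_near (hh 1) (v := u) (hhx 1) (hx 1) (hy 1))
    have a5 := rect_dn ht u x0
    rw [ht0] at a5
    refine ⟨(u, y0 + ε / 4), ⟨?_, ?_⟩, ?_, ?_⟩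
    · rcases lt_or_gt_of_ne hgne with hc | hc
      · exact lt_of_le_of_lt (min_le_left _ _) (by rw [hu]; linarith)
      · exact lt_of_le_of_lt (min_le_right _ _) (by rw [hu]; linarith)
    · rcases lt_or_gt_of_ne hgne with hc | hc
      · exact lt_of_lt_of_le (by rw [hu]; linarith) (le_max_right _ _)
      · exact lt_of_lt_of_le (by rw [hu]; linarith) (le_max_left _ _)
    · apply max_lt
      · linarith [a3.2]
      · linarith [a4.2]
    · change y0 + ε / 4 < t u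
      linarith
  · -- bounded
    apply (Metric.isBounded_closedBall (x := ((x0, y0) : E2)) (r := 2 * ε)).subset
    intro z hz
    obtain ⟨e1, e2⟩ := rect_est hg hh ht hgy hhx hε ht0 hx hy (hsub hz)
    rw [Metric.mem_closedBall, Prod.dist_eq, Real.dist_eq, Real.dist_eq]
    apply max_le
    · linarith
    · exact e2
  · -- frontier
    intro z hz
    have hzK : z ∈ rectK g h t := hcl hz.1
    have hzU : z ∉ rectU g h t := by
      intro hzU
      exact hz.2 (hopen.interior_eq.symm ▸ hzU)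
    obtain ⟨e1, e2⟩ := rect_est hg hh ht hgy hhx hε ht0 hx hy hzK
    refine ⟨by linarith, by linarith, ?_⟩
    obtain ⟨⟨z1, z2⟩, z3, z4⟩ := hzK
    have hgi : ∀ i, z.1 = g i z.2 → y i ≤ z.2 := by
      intro i hi
      have c1 : h i z.1 ≤ z.2 := by
        refine le_trans ?_ z3
        fin_cases i
        · exact le_max_left _ _
        · exact le_max_right _ _
      have c2 := rect_dn (hh i) z.1 (x i)
      rw [hhx i] at c2
      have c3 : |z.1 - x i| ≤ 1 / 5 * |z.2 - y i| := by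
        rw [hi, ← hgy i]
        exact hg i _ _
      by_contra hlt
      rw [not_le] at hlt
      rw [abs_of_neg (by linarith : z.2 - y i < 0)] at c3
      linarith
    by_cases k1 : min (g 0 z.2) (g 1 z.2) < z.1
    · by_cases k2 : z.1 < max (g 0 z.2) (g 1 z.2)
      · by_cases k3 : max (h 0 z.1) (h 1 z.1) < z.2
        · by_cases k4 : z.2 < t z.1
          · exact absurd ⟨⟨k1, k2⟩, k3, k4⟩ hzU
          · exact Or.inr (Or.inr (le_antisymm z4 (not_lt.1 k4)))
        · right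
          left
          have e : z.2 = max (h 0 z.1) (h 1 z.1) := le_antisymm (not_lt.1 k3) z3
          rcases le_total (h 0 z.1) (h 1 z.1) with hc | hc
          · rw [max_eq_right hc] at e
            exact ⟨1, e⟩
          · rw [max_eq_left hc] at e
            exact ⟨0, e⟩
      · left
        have e : z.1 = max (g 0 z.2) (g 1 z.2) := le_antisymm z2 (not_lt.1 k2)
        rcases le_total (g 0 z.2) (g 1 z.2) with hc | hc
        · rw [max_eq_right hc] at e
          exact ⟨1, e, hgi 1 e⟩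
        · rw [max_eq_left hc] at e
          exact ⟨0, e, hgi 0 e⟩
    · left
      have e : z.1 = min (g 0 z.2) (g 1 z.2) := le_antisymm (not_lt.1 k1) z1
      rcases le_total (g 0 z.2) (g 1 z.2) with hc | hc
      · rw [min_eq_left hc] at e
        exact ⟨0, e, hgi 0 e⟩
      · rw [min_eq_right hc] at e
        exact ⟨1, e, hgi 1 e⟩

end Pool.Agent.HD
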