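import Pool.Agent.HD.GDefs
import Pool.Agent.HD.Lit
import Pool.Agent.HD.Area
import Pool.Agent.HD.Rect

set_option autoImplicit false

/-!
HD-GeoB. The contradiction: too many bounded branches.

Two points `q1, q2` of `Q` near each other, all of whose neighbourhoods meet `Q` in positive
measure and which are not asymptotic backwards, have disjoint unstable graphs, one above the
other (`core_false` treats both cases). Near the lower one take `p1, p2` in `Q`, not asymptotic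
forwards; the rectangle of `rect` has its frontier in `Kb`, which contradicts `noLoop`.
-/

namespace Pool.Agent.HD

open MeasureTheory Topology

private lemma wd_anti (u v : E2) : wd u v = -wd v u := by
  simp only [wd]; ring

private lemma li_lc {V0 U0 : E2} (hw : wd V0 U0 ≠ 0) (z : E2) :
    li V0 U0 (lc V0 U0 z) = z := by
  have hw' : wd U0 V0 ≠ 0 := by rw [wd_anti]; exact neg_ne_zero.mpr hw
  have h2 : wd U0 V0 = -wd V0 U0 := wd_anti _ _
  have hw1 : V0.1 * U0.2 - V0.2 * U0.1 ≠ 0 := hw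
  ext
  · simp only [li, lc, Prod.fst_add, Prod.smul_fst, smul_eq_mul, h2]
    simp only [wd]
    rw [div_mul_eq_mul_div, div_mul_eq_mul_div, div_neg, ← sub_eq_add_neg, ← sub_div,
      div_eq_iff hw1]
    ring
  · simp only [li, lc, Prod.snd_add, Prod.smul_snd, smul_eq_mul, h2]
    simp only [wd]
    rw [div_mul_eq_mul_div, div_mul_eq_mul_div, div_neg, ← sub_eq_add_neg, ← sub_div,
      div_eq_iff hw1]
    ring

private lemma lc_li {V0 U0 : E2} (hw : wd V0 U0 ≠ 0) (w : E2) :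
    lc V0 U0 (li V0 U0 w) = w := by
  have hw' : wd U0 V0 ≠ 0 := by rw [wd_anti]; exact neg_ne_zero.mpr hw
  ext
  · simp only [li, lc]
    rw [div_eq_iff hw]
    simp only [wd, Prod.fst_add, Prod.smul_fst, Prod.snd_add, Prod.smul_snd, smul_eq_mul]
    ring
  · simp only [li, lc]
    rw [div_eq_iff hw']
    simp only [wd, Prod.fst_add, Prod.smul_fst, Prod.snd_add, Prod.smul_snd, smul_eq_mul]
    ring

private lemma cont_lc (V0 U0 : E2) : Continuous (lc V0 U0) := by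
  unfold lc wd
  fun_prop

private lemma cont_li (V0 U0 : E2) : Continuous (li V0 U0) := by
  unfold li
  fun_prop

/-- the coordinates as a homeomorphism -/
private noncomputable def liHomeo {V0 U0 : E2} (hw : wd V0 U0 ≠ 0) : E2 ≃ₜ E2 where
  toFun := li V0 U0
  invFun := lc V0 U0
  left_inv := lc_li hw
  right_inv := li_lc hw
  continuous_toFun := cont_li V0 U0
  continuous_invFun := cont_lc V0 U0

/-- points near `q` in the coordinates -/
private lemma near_mem (V0 U0 : E2) (Q : Set E2) (q : E2) {η : ℝ} (hη : 0 < η) :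
    {p | p ∈ Q ∧ |(lc V0 U0 p).1 - (lc V0 U0 q).1| ≤ η ∧
      |(lc V0 U0 p).2 - (lc V0 U0 q).2| ≤ η} ∈ 𝓝[Q] q := by
  have h1 : {p | |(lc V0 U0 p).1 - (lc V0 U0 q).1| ≤ η ∧
      |(lc V0 U0 p).2 - (lc V0 U0 q).2| ≤ η} ∈ 𝓝 q := by
    have c1 : Continuous fun p => |(lc V0 U0 p).1 - (lc V0 U0 q).1| :=
      ((continuous_fst.comp (cont_lc V0 U0)).sub continuous_const).abs
    have c2 : Continuous fun p => |(lc V0 U0 p).2 - (lc V0 U0 q).2| :=
      ((continuous_snd.comp (cont_lc V0 U0)).sub continuous_const).abs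
    have e1 : ∀ᶠ p in 𝓝 q, |(lc V0 U0 p).1 - (lc V0 U0 q).1| < η :=
      (c1.tendsto q).eventually_lt_const (by simpa using hη)
    have e2 : ∀ᶠ p in 𝓝 q, |(lc V0 U0 p).2 - (lc V0 U0 q).2| < η :=
      (c2.tendsto q).eventually_lt_const (by simpa using hη)
    filter_upwards [e1, e2] with p h1 h2
    exact ⟨h1.le, h2.le⟩
  filter_upwards [self_mem_nhdsWithin, mem_nhdsWithin_of_mem_nhds h1] with p hp hp'
  exact ⟨hp, hp'.1, hp'.2⟩

private lemma exists_far {μ : Measure E2} {A B : Set E2} (hA : μ A ≠ 0) (hB : μ B = 0) :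
    μ (A \ B) ≠ 0 := by
  intro h
  apply hA
  have h1 : A ⊆ (A \ B) ∪ B := by
    intro x hx
    by_cases hx' : x ∈ B
    · exact Or.inr hx'
    · exact Or.inl ⟨hx, hx'⟩
  exact measure_mono_null h1 (measure_union_null h hB)

private lemma core_false {b c R' : ℝ} (hb0 : b ≠ 0) (hb1 : |b| < 1) {μ : Measure E2}
    (hs : ∀ p, μ {q | ExpC (G 1 b c) p q} = 0)
    {V0 U0 : E2} (hw : wd V0 U0 ≠ 0) {r : ℝ} {Q : Set E2}
    (h : ∀ p ∈ Q, ∃ g h : ℝ → ℝ, Gph b c R' V0 U0 r p g h)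
    {q : E2} (hq : ∀ t ∈ 𝓝[Q] q, 0 < μ t) {t : ℝ → ℝ}
    (ht : ∀ u v, |t u - t v| ≤ 1 / 5 * |u - v|) {ρ ε : ℝ} (hρ : r = 10 * ρ)
    (hε : 0 < ε) (hερ : ε ≤ ρ) (ht0 : t (lc V0 U0 q).1 = (lc V0 U0 q).2 + ε)
    (hk : ∀ x, |x - (lc V0 U0 q).1| ≤ 2 * ρ → li V0 U0 (x, t x) ∈ Kb b c R') : False := by
  set x0 := (lc V0 U0 q).1 with hx0
  set y0 := (lc V0 U0 q).2 with hy0
  have hN := hq _ (near_mem V0 U0 Q q (η := ε / 20) (by positivity))
  rw [← hx0, ← hy0] at hN
  obtain ⟨p1, hp1⟩ := nonempty_of_measure_ne_zero hN.ne'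
  obtain ⟨p2, hp2, hp12⟩ := nonempty_of_measure_ne_zero (exists_far hN.ne' (hs p1))
  obtain ⟨g1, h1, G1⟩ := h p1 hp1.1
  obtain ⟨g2, h2, G2⟩ := h p2 hp2.1
  have hne : ∀ v, |v - y0| ≤ 2 * ρ → g1 v ≠ g2 v := by
    intro v hv heq
    apply hp12
    have a1 : |v - (lc V0 U0 p1).2| ≤ r := by
      calc |v - (lc V0 U0 p1).2| = |(v - y0) - ((lc V0 U0 p1).2 - y0)| := by ring_nf
        _ ≤ |v - y0| + |(lc V0 U0 p1).2 - y0| := abs_sub _ _
        _ ≤ r := by linarith [hp1.2.2]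
    have a2 : |v - (lc V0 U0 p2).2| ≤ r := by
      calc |v - (lc V0 U0 p2).2| = |(v - y0) - ((lc V0 U0 p2).2 - y0)| := by ring_nf
        _ ≤ |v - y0| + |(lc V0 U0 p2).2 - y0| := abs_sub _ _
        _ ≤ r := by linarith [hp2.2.2]
    have b1 := G1.gs v a1
    have b2 := G2.gs v a2
    rw [← heq] at b2
    exact b1.trans b2.symm
  obtain ⟨U, hUo, hUn, hUb, hUf⟩ := rect (g := ![g1, g2]) (h := ![h1, h2]) (t := t)
    (x := ![(lc V0 U0 p1).1, (lc V0 U0 p2).1]) (y := ![(lc V0 U0 p1).2, (lc V0 U0 p2).2])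
    (x0 := x0) (y0 := y0) (ρ := ρ) (ε := ε)
    (by
      intro i u v
      fin_cases i
      · exact G1.gl u v
      · exact G2.gl u v)
    (by
      intro i u v
      fin_cases i
      · exact G1.hl u v
      · exact G2.hl u v)
    ht
    (by
      intro i
      fin_cases i
      · exact G1.gp
      · exact G2.gp)
    (by
      intro i
      fin_cases i
      · exact G1.hp
      · exact G2.hp)
    hε ht0 hερ
    (by
      intro i
      fin_cases i
      · exact hp1.2.1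
      · exact hp2.2.1)
    (by
      intro i
      fin_cases i
      · exact hp1.2.2
      · exact hp2.2.2)
    hne
  have hUo' : IsOpen (li V0 U0 '' U) := (liHomeo hw).isOpenMap U hUo
  have hUb' : Bornology.IsBounded (li V0 U0 '' U) := by
    have h3 : IsCompact (closure U) := hUb.isCompact_closure
    exact ((h3.image (cont_li V0 U0)).isBounded).subset (Set.image_mono subset_closure)
  refine noLoop (b := b) (c := c) hb0 hb1 hUo' (hUn.image _) hUb' (M := R') ?_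
  intro z hz
  have hz' : z ∈ li V0 U0 '' frontier U := by
    have h3 := (liHomeo hw).image_frontier U
    rw [show li V0 U0 '' frontier U = (liHomeo hw) '' frontier U from rfl, h3]
    exact hz
  obtain ⟨w, hwf, rfl⟩ := hz'
  obtain ⟨hw1, hw2, hcase⟩ := hUf w hwf
  have key : li V0 U0 w ∈ Kb b c R' := by
    have yb : ∀ p, |(lc V0 U0 p).2 - y0| ≤ ε / 20 → |w.2 - (lc V0 U0 p).2| ≤ r := by
      intro p hp
      calc |w.2 - (lc V0 U0 p).2| = |(w.2 - y0) - ((lc V0 U0 p).2 - y0)| := by ring_nf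
        _ ≤ |w.2 - y0| + |(lc V0 U0 p).2 - y0| := abs_sub _ _
        _ ≤ r := by linarith
    have xb : ∀ p, |(lc V0 U0 p).1 - x0| ≤ ε / 20 → |w.1 - (lc V0 U0 p).1| ≤ r := by
      intro p hp
      calc |w.1 - (lc V0 U0 p).1| = |(w.1 - x0) - ((lc V0 U0 p).1 - x0)| := by ring_nf
        _ ≤ |w.1 - x0| + |(lc V0 U0 p).1 - x0| := abs_sub _ _
        _ ≤ r := by linarith
    rcases hcase with ⟨i, e1, e2⟩ | ⟨i, e1⟩ | e1
    · fin_cases i
      · have h3 := G1.gk w.2 e2 (yb p1 hp1.2.2)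
        have e1' : w.1 = g1 w.2 := e1
        rw [← e1'] at h3
        exact h3
      · have h3 := G2.gk w.2 e2 (yb p2 hp2.2.2)
        have e1' : w.1 = g2 w.2 := e1
        rw [← e1'] at h3
        exact h3
    · fin_cases i
      · have h3 := G1.hk w.1 (xb p1 hp1.2.1)
        have e1' : w.2 = h1 w.1 := e1
        rw [← e1'] at h3
        exact h3
      · have h3 := G2.hk w.1 (xb p2 hp2.2.1)
        have e1' : w.2 = h2 w.1 := e1
        rw [← e1'] at h3
        exact h3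
    · have h3 := hk w.1 hw1
      rw [← e1] at h3
      exact h3
  exact key

private lemma lip_cont {f : ℝ → ℝ} (hf : ∀ u v, |f u - f v| ≤ 1 / 5 * |u - v|) :
    Continuous f := by
  have h1 : LipschitzWith (1 / 5) f := by
    apply LipschitzWith.of_dist_le_mul
    intro u v
    rw [Real.dist_eq, Real.dist_eq]
    have := hf u v
    push_cast
    exact this
  exact h1.continuous

theorem geoB {b c R' : ℝ} (hb0 : b ≠ 0) (hb1 : |b| < 1) {μ : Measure E2}
    (hs : ∀ p, μ {q | ExpC (G 1 b c) p q} = 0) (hu : ∀ p, μ {q | ExpC (Gi 1 b c) p q} = 0)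
    {V0 U0 : E2} (hw : wd V0 U0 ≠ 0) {r : ℝ} (hr : 0 < r) {Q : Set E2} (hQ : μ Q ≠ 0)
    (h : ∀ p ∈ Q, ∃ g h : ℝ → ℝ, Gph b c R' V0 U0 r p g h) : False := by
  obtain ⟨ρ, hρ, hrρ⟩ : ∃ ρ : ℝ, 0 < ρ ∧ r = 10 * ρ := ⟨r / 10, by positivity, by ring⟩
  obtain ⟨q1, hq1, hq1'⟩ := exists_mem_forall_mem_nhdsWithin_pos_measure hQ
  have hN := hq1' _ (near_mem V0 U0 Q q1 (η := ρ / 20) (by positivity))
  obtain ⟨q2, hq2, hq2'⟩ := exists_mem_forall_mem_nhdsWithin_pos_measure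
    (exists_far hN.ne' (hu q1))
  have hq2Q : q2 ∈ Q := hq2.1.1
  have hx12 : |(lc V0 U0 q2).1 - (lc V0 U0 q1).1| ≤ ρ / 20 := hq2.1.2.1
  have hy12 : |(lc V0 U0 q2).2 - (lc V0 U0 q1).2| ≤ ρ / 20 := hq2.1.2.2
  have hfar : ¬ ExpC (Gi 1 b c) q1 q2 := hq2.2
  have hq2'' : ∀ t ∈ 𝓝[Q] q2, 0 < μ t := by
    intro t ht
    exact hq2' t (nhdsWithin_mono q2 (fun x hx => hx.1.1) ht)
  obtain ⟨g1, h1, G1⟩ := h q1 hq1
  obtain ⟨g2, h2, G2⟩ := h q2 hq2Q
  have r1 : ∀ x, |x - (lc V0 U0 q1).1| ≤ 3 * ρ → |x - (lc V0 U0 q2).1| ≤ 4 * ρ := by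
    intro x hx
    calc |x - (lc V0 U0 q2).1| =
        |(x - (lc V0 U0 q1).1) - ((lc V0 U0 q2).1 - (lc V0 U0 q1).1)| := by ring_nf
      _ ≤ |x - (lc V0 U0 q1).1| + |(lc V0 U0 q2).1 - (lc V0 U0 q1).1| := abs_sub _ _
      _ ≤ 4 * ρ := by linarith
  have hne : ∀ x, |x - (lc V0 U0 q1).1| ≤ 3 * ρ → h1 x ≠ h2 x := by
    intro x hx heq
    apply hfar
    have b1 := G1.hs x (by linarith)
    have b2 := G2.hs x (by linarith [r1 x hx])
    rw [← heq] at b2
    exact b1.trans b2.symm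
  have hc : Continuous fun x => h1 x - h2 x := (lip_cont G1.hl).sub (lip_cont G2.hl)
  -- the sign is constant
  have hsign : (∀ x, |x - (lc V0 U0 q1).1| ≤ 3 * ρ → h1 x < h2 x) ∨
      (∀ x, |x - (lc V0 U0 q1).1| ≤ 3 * ρ → h2 x < h1 x) := by
    by_contra hcon
    push Not at hcon
    obtain ⟨⟨x, hx, hx'⟩, ⟨y, hy, hy'⟩⟩ := hcon
    have hmem : (0 : ℝ) ∈ Set.uIcc (h1 x - h2 x) (h1 y - h2 y) := by
      rw [Set.mem_uIcc]
      right
      constructor <;> linarith
    obtain ⟨z, hz, hz'⟩ := intermediate_value_uIcc (f := fun x => h1 x - h2 x)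
      hc.continuousOn hmem
    apply hne z _ (by
      have : h1 z - h2 z = 0 := hz'
      linarith)
    rw [abs_le] at hx hy ⊢
    rw [Set.mem_uIcc] at hz
    rcases hz with hz | hz <;> constructor <;> linarith [hz.1, hz.2, hx.1, hx.2, hy.1, hy.2]
  rcases hsign with hlt | hlt
  · have h0 := hlt (lc V0 U0 q1).1 (by rw [sub_self, abs_zero]; positivity)
    rw [G1.hp] at h0
    have hup : h2 (lc V0 U0 q1).1 - (lc V0 U0 q1).2 ≤ ρ := by
      have e1 := G2.hl (lc V0 U0 q1).1 (lc V0 U0 q2).1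
      rw [G2.hp, abs_sub_comm (lc V0 U0 q1).1] at e1
      have e2 := (abs_le.mp e1).2
      have e3 := (abs_le.mp hy12).2
      linarith
    exact core_false hb0 hb1 hs hw h hq1' (t := h2) G2.hl hrρ
      (ε := h2 (lc V0 U0 q1).1 - (lc V0 U0 q1).2) (by linarith) hup (by ring)
      (fun x hx => G2.hk x (by linarith [r1 x (by linarith)]))
  · have h0 := hlt (lc V0 U0 q2).1 (by linarith)
    rw [G2.hp] at h0
    have hup : h1 (lc V0 U0 q2).1 - (lc V0 U0 q2).2 ≤ ρ := by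
      have e1 := G1.hl (lc V0 U0 q2).1 (lc V0 U0 q1).1
      rw [G1.hp] at e1
      have e2 := (abs_le.mp e1).2
      have e3 := (abs_le.mp hy12).1
      linarith
    refine core_false hb0 hb1 hs hw h hq2'' (t := h1) G1.hl hrρ
      (ε := h1 (lc V0 U0 q2).1 - (lc V0 U0 q2).2) (by linarith) hup (by ring)
      (fun x hx => G1.hk x ?_)
    calc |x - (lc V0 U0 q1).1| =
        |(x - (lc V0 U0 q2).1) + ((lc V0 U0 q2).1 - (lc V0 U0 q1).1)| := by ring_nf
      _ ≤ |x - (lc V0 U0 q2).1| + |(lc V0 U0 q2).1 - (lc V0 U0 q1).1| := abs_add_le _ _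
      _ ≤ r := by linarith

end Pool.Agent.HD
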