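import Pool.Agent.HD.Orb

set_option autoImplicit false

/-!
HD-Uq. Elementary properties of regular points: uniqueness of the contracted direction, bounds for the inverse
of the cocycle, lower bounds, compactness of the set of regular pairs, uniqueness of the asymptotic coordinate.
-/

namespace Pool.Agent.HD

open Filter

variable {a b c ρ δ R C : ℝ} {p V : E2}

private lemma uq_pow (hb : b ≠ 0) (n : ℕ) : |b| ^ n = Real.exp (Real.log |b| * n) := by
  rw [mul_comm, Real.exp_nat_mul, Real.exp_log (abs_pos.2 hb)]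

private lemma uq_lim {x K r : ℝ} (hr : 0 < r) (h : ∀ n : ℕ, x ≤ K * Real.exp (-r * n)) : x ≤ 0 := by
  have h1 : Tendsto (fun n : ℕ => Real.exp (-r * n)) atTop (nhds 0) := by
    refine Real.tendsto_exp_atBot.comp ?_
    exact tendsto_natCast_atTop_atTop.const_mul_atTop_of_neg (by linarith)
  have h2 : Tendsto (fun n : ℕ => K * Real.exp (-r * n)) atTop (nhds 0) := by
    simpa using h1.const_mul K
  exact ge_of_tendsto' h2 h

theorem uniq_dir (hb : b ≠ 0) {V V' : E2} (hV : ‖V‖ = 1) (hV' : ‖V'‖ = 1) {C C' r r' : ℝ}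
    (h : ∀ n : ℕ, ‖act (co a b c p n) V‖ ≤ C * Real.exp (-r * n))
    (h' : ∀ n : ℕ, ‖act (co a b c p n) V'‖ ≤ C' * Real.exp (-r' * n))
    (hr : 0 < r + r' + Real.log |b|) : V' = V ∨ V' = -V := by
  refine unit_par V V' hV hV' ?_
  have key : |wd V V'| ≤ 0 := by
    refine uq_lim (K := 2 * C * C') hr fun n => ?_
    have h1 := wd_act (co a b c p n) V V'
    rw [dt_co] at h1
    have h2 := abs_wd_le (act (co a b c p n) V) (act (co a b c p n) V')
    rw [h1, abs_mul, abs_pow, uq_pow hb] at h2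
    have h3 : ‖act (co a b c p n) V‖ * ‖act (co a b c p n) V'‖ ≤
        (C * Real.exp (-r * n)) * (C' * Real.exp (-r' * n)) :=
      mul_le_mul (h n) (h' n) (norm_nonneg _) ((norm_nonneg _).trans (h n))
    have h4 : Real.exp (Real.log |b| * n) * |wd V V'| ≤
        2 * ((C * Real.exp (-r * n)) * (C' * Real.exp (-r' * n))) := by
      refine h2.trans ?_
      rw [mul_assoc]
      exact mul_le_mul_of_nonneg_left h3 zero_le_two
    have h5 : Real.exp (-(Real.log |b|) * n) * (Real.exp (Real.log |b| * n) * |wd V V'|) ≤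
        Real.exp (-(Real.log |b|) * n) *
          (2 * ((C * Real.exp (-r * n)) * (C' * Real.exp (-r' * n)))) :=
      mul_le_mul_of_nonneg_left h4 (Real.exp_pos _).le
    have e1 : Real.exp (-(Real.log |b|) * n) * (Real.exp (Real.log |b| * n) * |wd V V'|) =
        |wd V V'| := by
      rw [← mul_assoc, ← Real.exp_add]
      have : -(Real.log |b|) * (n : ℝ) + Real.log |b| * n = 0 := by ring
      rw [this, Real.exp_zero, one_mul]
    have e2 : Real.exp (-(r + r' + Real.log |b|) * n) =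
        Real.exp (-(Real.log |b|) * n) * (Real.exp (-r * n) * Real.exp (-r' * n)) := by
      rw [← Real.exp_add, ← Real.exp_add]
      refine congrArg Real.exp ?_
      ring
    rw [e1] at h5
    rw [e2]
    refine h5.trans (le_of_eq ?_)
    ring
  exact abs_eq_zero.1 (le_antisymm key (abs_nonneg _))

private lemma uq_ratio (hb : b ≠ 0) (hup : Up a b c (ρ + Real.log |b|) δ C p) (k n : ℕ) :
    ‖co a b c ((G a b c)^[k] p) n‖ / |b| ^ n ≤ C * Real.exp ((ρ + δ) * n + δ * k) := by
  have h0 : 0 < |b| ^ n := pow_pos (abs_pos.2 hb) n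
  rw [div_le_iff₀ h0, uq_pow hb, mul_assoc, ← Real.exp_add]
  refine (hup k n).trans (le_of_eq ?_)
  refine congrArg (fun t => C * Real.exp t) ?_
  ring

theorem inv_bound (hb : b ≠ 0) (hup : Up a b c (ρ + Real.log |b|) δ C p) (k n : ℕ) (v : E2) :
    ‖v‖ ≤ 2 * C * Real.exp ((ρ + δ) * n + δ * k) * ‖act (co a b c ((G a b c)^[k] p) n) v‖ := by
  have hd : dt (co a b c ((G a b c)^[k] p) n) ≠ 0 := by
    rw [dt_co]
    exact pow_ne_zero n hb
  have h1 := norm_le_of_act (co a b c ((G a b c)^[k] p) n) v hd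
  rw [dt_co, abs_pow] at h1
  refine h1.trans (mul_le_mul_of_nonneg_right ?_ (norm_nonneg _))
  rw [mul_assoc]
  exact mul_le_mul_of_nonneg_left (uq_ratio hb hup k n) zero_le_two

/-- the inverse of the cocycle -/
theorem inv_bound' (hb : b ≠ 0) (hup : Up a b c (ρ + Real.log |b|) δ C p) (k n : ℕ) (v : E2) :
    ‖(b ^ n)⁻¹ • act (adj (co a b c ((G a b c)^[k] p) n)) v‖ ≤
      2 * C * Real.exp ((ρ + δ) * n + δ * k) * ‖v‖ := by
  have h0 : 0 < |b| ^ n := pow_pos (abs_pos.2 hb) n
  have h1 := norm_act_le (adj (co a b c ((G a b c)^[k] p) n)) v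
  rw [norm_adj] at h1
  have h2 := uq_ratio hb hup k n
  rw [norm_smul, norm_inv, Real.norm_eq_abs, abs_pow]
  have h3 : (|b| ^ n)⁻¹ * ‖act (adj (co a b c ((G a b c)^[k] p) n)) v‖ ≤
      (|b| ^ n)⁻¹ * (2 * ‖co a b c ((G a b c)^[k] p) n‖ * ‖v‖) :=
    mul_le_mul_of_nonneg_left h1 (inv_nonneg.2 h0.le)
  refine h3.trans ?_
  have h4 : (|b| ^ n)⁻¹ * (2 * ‖co a b c ((G a b c)^[k] p) n‖ * ‖v‖) =
      2 * (‖co a b c ((G a b c)^[k] p) n‖ / |b| ^ n) * ‖v‖ := by
    rw [div_eq_mul_inv]
    ring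
  rw [h4]
  refine mul_le_mul_of_nonneg_right ?_ (norm_nonneg _)
  rw [mul_assoc]
  exact mul_le_mul_of_nonneg_left h2 zero_le_two

theorem up_shift (hup : Up a b c (ρ + Real.log |b|) δ C p) (N : ℕ) :
    Up a b c (ρ + Real.log |b|) δ (C * Real.exp (δ * N)) ((G a b c)^[N] p) := by
  intro k n
  have h := hup (k + N) n
  rw [Function.iterate_add_apply] at h
  refine h.trans (le_of_eq ?_)
  rw [mul_assoc, ← Real.exp_add]
  refine congrArg (fun t => C * Real.exp t) ?_
  push_cast
  ring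

theorem Reg.one_le (h : Reg a b c ρ δ R C p V) : 1 ≤ C := by
  have h1 := h.up 0 0
  have h2 : ‖co a b c ((G a b c)^[0] p) 0‖ = 1 := by
    show ‖(((1, 0), (0, 1)) : M2)‖ = 1
    simp [Prod.norm_def]
  rw [h2] at h1
  simpa using h1

theorem Reg.low (hb : b ≠ 0) (h : Reg a b c ρ δ R C p V) (n : ℕ) :
    Real.exp (-(ρ + δ) * n) ≤ 2 * C * ‖act (co a b c p n) V‖ := by
  have h1 := inv_bound hb h.up 0 n V
  rw [h.unit] at h1
  have h2 : (ρ + δ) * (n : ℝ) + δ * ((0 : ℕ) : ℝ) = (ρ + δ) * n := by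
    push_cast
    ring
  rw [h2] at h1
  have h3 := mul_le_mul_of_nonneg_left h1 (Real.exp_pos (-(ρ + δ) * n)).le
  have h4 : Real.exp (-(ρ + δ) * n) * Real.exp ((ρ + δ) * n) = 1 := by
    rw [← Real.exp_add]
    have : -(ρ + δ) * (n : ℝ) + (ρ + δ) * n = 0 := by ring
    rw [this, Real.exp_zero]
  rw [mul_one] at h3
  refine h3.trans (le_of_eq ?_)
  calc Real.exp (-(ρ + δ) * n) * (2 * C * Real.exp ((ρ + δ) * n) *
        ‖act (co a b c ((G a b c)^[0] p) n) V‖)
      = (Real.exp (-(ρ + δ) * n) * Real.exp ((ρ + δ) * n)) *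
        (2 * C * ‖act (co a b c ((G a b c)^[0] p) n) V‖) := by ring
    _ = 2 * C * ‖act (co a b c p n) V‖ := by rw [h4, one_mul, Function.iterate_zero, id]

theorem Reg.neg (h : Reg a b c ρ δ R C p V) : Reg a b c ρ δ R C p (-V) where
  unit := by rw [norm_neg]; exact h.unit
  bdd := h.bdd
  con := fun n => by rw [act_neg, norm_neg]; exact h.con n
  up := h.up

theorem Reg.mono (h : Reg a b c ρ δ R C p V) {C' δ' : ℝ} (hC : C ≤ C') (hδ : δ ≤ δ') :
    Reg a b c ρ δ' R C' p V where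
  unit := h.unit
  bdd := h.bdd
  con := fun n => by
    have h0 : 0 ≤ C := zero_le_one.trans h.one_le
    have hn : (0 : ℝ) ≤ n := Nat.cast_nonneg n
    refine (h.con n).trans (mul_le_mul hC (Real.exp_le_exp.2 ?_) (Real.exp_pos _).le
      (h0.trans hC))
    nlinarith [mul_le_mul_of_nonneg_right hδ hn]
  up := fun k n => by
    have h0 : 0 ≤ C := zero_le_one.trans h.one_le
    have hn : (0 : ℝ) ≤ n := Nat.cast_nonneg n
    have hk : (0 : ℝ) ≤ k := Nat.cast_nonneg k
    refine (h.up k n).trans (mul_le_mul hC (Real.exp_le_exp.2 ?_) (Real.exp_pos _).le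
      (h0.trans hC))
    nlinarith [mul_le_mul_of_nonneg_right hδ hn, mul_le_mul_of_nonneg_right hδ hk]

theorem reg_compact (a b c ρ δ R C : ℝ) :
    IsCompact {x : E2 × E2 | Reg a b c ρ δ R C x.1 x.2} := by
  have hset : {x : E2 × E2 | Reg a b c ρ δ R C x.1 x.2} =
      {x : E2 × E2 | ‖x.2‖ = 1} ∩ ((⋂ n : ℕ, {x : E2 × E2 | ‖(G a b c)^[n] x.1‖ ≤ R}) ∩
        ((⋂ n : ℕ, {x : E2 × E2 | ‖act (co a b c x.1 n) x.2‖ ≤
          C * Real.exp (-(ρ - 3 * δ) * n)}) ∩
        ⋂ k : ℕ, ⋂ n : ℕ, {x : E2 × E2 | ‖co a b c ((G a b c)^[k] x.1) n‖ ≤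
          C * Real.exp ((ρ + Real.log |b| + δ) * n + δ * k)})) := by
    ext x
    simp only [Set.mem_inter_iff, Set.mem_iInter]
    constructor
    · intro h
      exact ⟨h.unit, h.bdd, h.con, h.up⟩
    · rintro ⟨h1, h2, h3, h4⟩
      exact ⟨h1, h2, h3, h4⟩
  have hcl : IsClosed {x : E2 × E2 | Reg a b c ρ δ R C x.1 x.2} := by
    rw [hset]
    refine IsClosed.inter ?_ (IsClosed.inter ?_ (IsClosed.inter ?_ ?_))
    · exact isClosed_eq continuous_snd.norm continuous_const
    · refine isClosed_iInter fun n => ?_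
      exact isClosed_le ((continuous_G_iter a b c n).comp continuous_fst).norm continuous_const
    · refine isClosed_iInter fun n => ?_
      have h1 : Continuous fun x : E2 × E2 => act (co a b c x.1 n) x.2 :=
        continuous_act.comp
          (((continuous_co a b c n).comp continuous_fst).prodMk continuous_snd)
      exact isClosed_le h1.norm continuous_const
    · refine isClosed_iInter fun k => isClosed_iInter fun n => ?_
      have h1 : Continuous fun x : E2 × E2 => co a b c ((G a b c)^[k] x.1) n :=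
        (continuous_co a b c n).comp ((continuous_G_iter a b c k).comp continuous_fst)
      exact isClosed_le h1.norm continuous_const
  refine IsCompact.of_isClosed_subset
    ((isCompact_closedBall (0 : E2) R).prod (isCompact_closedBall (0 : E2) 1)) hcl ?_
  intro x h
  have h' : Reg a b c ρ δ R C x.1 x.2 := h
  refine Set.mem_prod.2 ⟨?_, ?_⟩
  · rw [mem_closedBall_zero_iff]
    exact h'.bdd 0
  · rw [mem_closedBall_zero_iff]
    exact h'.unit.le

theorem asym_zero (a b c ρ : ℝ) (p V : E2) : Asym a b c ρ p V 0 p := by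
  refine ⟨0, fun n => ?_⟩
  rw [zero_smul, sub_self, sub_zero, norm_zero, zero_mul]

theorem Asym.neg {s : ℝ} {q : E2} (h : Asym a b c ρ p V s q) :
    Asym a b c ρ p (-V) (-s) q := by
  obtain ⟨D, hD⟩ := h
  refine ⟨D, fun n => ?_⟩
  rw [act_neg, smul_neg, neg_smul, neg_neg]
  exact hD n

/-- the asymptotic coordinate is determined by the point -/
theorem Asym.inj_s (hb : b ≠ 0) (hρ : 100 * δ ≤ ρ) (hδ : 0 < δ) (h : Reg a b c ρ δ R C p V)
    {s s' : ℝ} {q : E2} (h1 : Asym a b c ρ p V s q) (h2 : Asym a b c ρ p V s' q) : s = s' := by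
  obtain ⟨D, hD⟩ := h1
  obtain ⟨D', hD'⟩ := h2
  have hC : 0 ≤ C := zero_le_one.trans h.one_le
  have key : |s - s'| ≤ 0 := by
    refine uq_lim (K := 2 * C * (D + D')) (r := ρ / 2 - δ) (by linarith) fun n => ?_
    have e1 : ‖(s - s') • act (co a b c p n) V‖ ≤ (D + D') * Real.exp (-(3 / 2 * ρ) * n) := by
      have e2 : (s - s') • act (co a b c p n) V =
          ((G a b c)^[n] q - (G a b c)^[n] p - s' • act (co a b c p n) V) -
          ((G a b c)^[n] q - (G a b c)^[n] p - s • act (co a b c p n) V) := by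
        rw [sub_smul]
        abel
      rw [e2]
      refine (norm_sub_le _ _).trans ?_
      rw [add_mul]
      linarith [hD n, hD' n]
    rw [norm_smul, Real.norm_eq_abs] at e1
    have e3 : |s - s'| * Real.exp (-(ρ + δ) * n) ≤
        2 * C * ((D + D') * Real.exp (-(3 / 2 * ρ) * n)) := by
      have e4 : |s - s'| * Real.exp (-(ρ + δ) * n) ≤
          |s - s'| * (2 * C * ‖act (co a b c p n) V‖) :=
        mul_le_mul_of_nonneg_left (h.low hb n) (abs_nonneg _)
      have e5 : 2 * C * (|s - s'| * ‖act (co a b c p n) V‖) ≤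
          2 * C * ((D + D') * Real.exp (-(3 / 2 * ρ) * n)) :=
        mul_le_mul_of_nonneg_left e1 (by linarith)
      refine e4.trans (le_trans (le_of_eq ?_) e5)
      ring
    have e6 : |s - s'| = |s - s'| * Real.exp (-(ρ + δ) * n) * Real.exp ((ρ + δ) * n) := by
      rw [mul_assoc, ← Real.exp_add]
      have : -(ρ + δ) * (n : ℝ) + (ρ + δ) * n = 0 := by ring
      rw [this, Real.exp_zero, mul_one]
    rw [e6]
    refine (mul_le_mul_of_nonneg_right e3 (Real.exp_pos _).le).trans (le_of_eq ?_)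
    have e7 : Real.exp (-(ρ / 2 - δ) * n) =
        Real.exp (-(3 / 2 * ρ) * n) * Real.exp ((ρ + δ) * n) := by
      rw [← Real.exp_add]
      refine congrArg Real.exp ?_
      ring
    rw [e7]
    ring
  exact sub_eq_zero.1 (abs_eq_zero.1 (le_antisymm key (abs_nonneg _)))

theorem Asym.expC (hρ : 100 * δ ≤ ρ) (hδ : 0 < δ) (h : Reg a b c ρ δ R C p V)
    {s : ℝ} {q : E2} (h1 : Asym a b c ρ p V s q) : ExpC (G a b c) p q := by
  obtain ⟨D, hD⟩ := h1
  refine ⟨ρ - 3 * δ, by linarith, |s| * C + |D|, fun n => ?_⟩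
  have hn : (0 : ℝ) ≤ n := Nat.cast_nonneg n
  rw [dist_eq_norm]
  have e1 : (G a b c)^[n] q - (G a b c)^[n] p =
      ((G a b c)^[n] q - (G a b c)^[n] p - s • act (co a b c p n) V) +
        s • act (co a b c p n) V := by
    abel
  rw [e1]
  refine (norm_add_le _ _).trans ?_
  have e2 : ‖(G a b c)^[n] q - (G a b c)^[n] p - s • act (co a b c p n) V‖ ≤
      |D| * Real.exp (-(ρ - 3 * δ) * n) := by
    refine (hD n).trans ?_
    refine (mul_le_mul_of_nonneg_right (le_abs_self D) (Real.exp_pos _).le).trans ?_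
    refine mul_le_mul_of_nonneg_left (Real.exp_le_exp.2 ?_) (abs_nonneg _)
    nlinarith
  have e3 : ‖s • act (co a b c p n) V‖ ≤ |s| * C * Real.exp (-(ρ - 3 * δ) * n) := by
    rw [norm_smul, Real.norm_eq_abs, mul_assoc]
    exact mul_le_mul_of_nonneg_left (h.con n) (abs_nonneg _)
  rw [add_mul]
  linarith

end Pool.Agent.HD
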