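import Pool.Agent.HD.Dir
import Pool.Agent.HD.Uq
import Pool.Agent.HD.Fd
import Pool.Agent.HD.ErgB

set_option autoImplicit false

/-!
HD-Good. Almost every point is regular, in both time directions.

`reg_of_growth` treats one point and one map: the contracted direction of `exists_dir` does not
depend on the error `δ` (`uniq_dir`). `good` applies it almost everywhere to the Henon map
and to its inverse (with exchanged coordinates).
-/

namespace Pool.Agent.HD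

open MeasureTheory Filter Topology

/-- a lower exponential bound from the growth rate -/
private lemma good_low {x : ℕ → ℝ} (hx : ∀ n, 0 < x n) {τ δ : ℝ} (hδ : 0 < δ)
    (hlim : Tendsto (fun n : ℕ => Real.log (x n) / n) atTop (𝓝 τ)) :
    ∃ C : ℝ, 0 < C ∧ ∀ n : ℕ, C⁻¹ * Real.exp ((τ - δ) * n) ≤ x n := by
  have h1 : ∀ᶠ n : ℕ in atTop, Real.exp ((τ - δ) * n) / x n ≤ 1 := by
    have h2 : ∀ᶠ n : ℕ in atTop, τ - δ < Real.log (x n) / n :=
      hlim.eventually (lt_mem_nhds (by linarith))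
    filter_upwards [h2, eventually_gt_atTop 0] with n hn hn0
    have hn0' : (0 : ℝ) < n := Nat.cast_pos.2 hn0
    rw [div_le_one (hx n)]
    have h3 : (τ - δ) * n ≤ Real.log (x n) := ((lt_div_iff₀ hn0').1 hn).le
    calc Real.exp ((τ - δ) * n) ≤ Real.exp (Real.log (x n)) := Real.exp_le_exp.2 h3
      _ = x n := Real.exp_log (hx n)
  have h2 : BddAbove (Set.range fun n : ℕ => Real.exp ((τ - δ) * n) / x n) :=
    (isBoundedUnder_of_eventually_le h1).bddAbove_range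
  obtain ⟨M, hM⟩ := h2
  refine ⟨max M 1, lt_max_of_lt_right one_pos, fun n => ?_⟩
  have h3 : Real.exp ((τ - δ) * n) / x n ≤ max M 1 :=
    (hM ⟨n, rfl⟩).trans (le_max_left _ _)
  rw [div_le_iff₀ (hx n)] at h3
  rwa [inv_mul_le_iff₀ (lt_max_of_lt_right one_pos)]

theorem reg_of_growth {a b c ρ R : ℝ} {p : E2} (hb : b ≠ 0) (hρ : 0 < ρ)
    (hτ : 0 < ρ + Real.log |b|) (hbd : ∀ n : ℕ, ‖(G a b c)^[n] p‖ ≤ R)
    (hlim : Tendsto (fun n : ℕ => Real.log ‖co a b c p n‖ / n) atTop (𝓝 (ρ + Real.log |b|)))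
    (hup : ∀ δ : ℝ, 0 < δ → ∃ C : ℝ, Up a b c (ρ + Real.log |b|) δ C p) :
    ∃ V : E2, ∀ δ : ℝ, 0 < δ → 100 * δ ≤ ρ → 100 * δ ≤ ρ + Real.log |b| →
      ∃ C : ℝ, Reg a b c ρ δ R C p V := by
  have hdir : ∀ δ : ℝ, 0 < δ → 100 * δ ≤ ρ → 100 * δ ≤ ρ + Real.log |b| →
      ∃ V : E2, ‖V‖ = 1 ∧ ∃ C' : ℝ, ∀ n : ℕ,
        ‖act (co a b c p n) V‖ ≤ C' * Real.exp (-(ρ - 3 * δ) * n) := by
    intro δ hδ h1 h2
    obtain ⟨C1, hC1, hlo⟩ := good_low (fun n => co_ne_zero hb p n) hδ hlim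
    obtain ⟨C2, hC2⟩ := hup δ hδ
    have hC : 0 < max C1 C2 := lt_max_of_lt_left hC1
    obtain ⟨V, hV, C', hC'⟩ := exists_dir (a := a) (b := b) (c := c) (τ := ρ + Real.log |b|)
      (δ := δ) (R := R) (C := max C1 C2) (p := p) hb hδ (by linarith) hC hbd
      (fun n => by
        refine le_trans ?_ (hlo n)
        have := le_max_left C1 C2
        gcongr)
      (fun n => by
        have h3 := hC2 0 n
        simp only [Function.iterate_zero, id_eq, Nat.cast_zero, mul_zero, add_zero] at h3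
        refine h3.trans ?_
        have := le_max_right C1 C2
        gcongr)
    refine ⟨V, hV, C', fun n => ?_⟩
    have h3 := hC' n
    rwa [add_sub_cancel_right] at h3
  obtain ⟨δ1, hδ1, h1ρ, h1τ⟩ : ∃ δ1 : ℝ, 0 < δ1 ∧ 100 * δ1 ≤ ρ ∧
      100 * δ1 ≤ ρ + Real.log |b| := by
    refine ⟨min ρ (ρ + Real.log |b|) / 100, by positivity, ?_, ?_⟩
    · rw [mul_div_cancel₀ _ (by norm_num : (100 : ℝ) ≠ 0)]
      exact min_le_left _ _
    · rw [mul_div_cancel₀ _ (by norm_num : (100 : ℝ) ≠ 0)]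
      exact min_le_right _ _
  obtain ⟨V, hV, C1, hC1⟩ := hdir δ1 hδ1 h1ρ h1τ
  refine ⟨V, fun δ hδ h1 h2 => ?_⟩
  obtain ⟨V', hV', C2, hC2⟩ := hdir δ hδ h1 h2
  obtain ⟨C3, hC3⟩ := hup δ hδ
  have hpar := uniq_dir (a := a) (b := b) (c := c) (p := p) hb hV hV' hC1 hC2 (by linarith)
  refine ⟨max C2 C3, ?_⟩
  constructor
  · exact hV
  · exact hbd
  · intro n
    have h3 : ‖act (co a b c p n) V‖ = ‖act (co a b c p n) V'‖ := by
      rcases hpar with h | h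
      · rw [h]
      · rw [h, act_neg, norm_neg]
    rw [h3]
    refine (hC2 n).trans ?_
    have := le_max_left C2 C3
    gcongr
  · intro k n
    refine (hC3 k n).trans ?_
    have := le_max_right C2 C3
    gcongr

/-- upper growth for all errors from countably many -/
private lemma good_up {a b c τ : ℝ} {p : E2}
    (h : ∀ m : ℕ, ∃ C : ℝ, Up a b c τ (1 / ((m : ℝ) + 1)) C p) (δ : ℝ) (hδ : 0 < δ) :
    ∃ C : ℝ, Up a b c τ δ C p := by
  obtain ⟨m, hm⟩ := exists_nat_one_div_lt hδ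
  obtain ⟨C, hC⟩ := h m
  have hC0 : 0 ≤ C := by
    have h0 := (norm_nonneg _).trans (hC 0 0)
    simpa using h0
  refine ⟨C, fun k n => (hC k n).trans ?_⟩
  have hn : (0 : ℝ) ≤ n := Nat.cast_nonneg n
  have hk : (0 : ℝ) ≤ k := Nat.cast_nonneg k
  gcongr

theorem good {b c : ℝ} (hb0 : b ≠ 0) (hb1 : |b| < 1) {μ : Measure E2} [IsProbabilityMeasure μ]
    (hμ : Ergodic (G 1 b c) μ)
    (hpos : μ {p | 0 < limsup (fun n : ℕ => Real.log ‖fderiv ℝ ((G 1 b c)^[n]) p‖ / n) atTop} ≠ 0) :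
    ∃ χ : ℝ, 0 < χ ∧ ∀ᵐ p ∂μ, ∃ V U : E2, ∀ δ : ℝ, 0 < δ → 100 * δ ≤ χ → ∃ C : ℝ,
      Reg 1 b c (χ - Real.log |b|) δ (|c| + 4) C p V ∧
      Reg (1 / b) (1 / b) (c / b) χ δ (|c| + 4) C p.swap U.swap := by
  obtain ⟨χ, h1, h2, h3⟩ := ergF (c := c) hb0 hb1 hμ
  obtain ⟨h4, h5⟩ := ergB hb0 hb1 hμ h2
  have hχ : 0 < χ := chi_pos hb0 μ h1 hpos
  have hlog : Real.log |b| < 0 := Real.log_neg (abs_pos.2 hb0) hb1
  have h3' : ∀ᵐ p ∂μ, ∀ m : ℕ, ∃ C : ℝ, Up 1 b c χ (1 / ((m : ℝ) + 1)) C p :=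
    ae_all_iff.2 fun m => h3 _ (by positivity)
  have h5' : ∀ᵐ p ∂μ, ∀ m : ℕ, ∃ C : ℝ,
      Up (1 / b) (1 / b) (c / b) (χ - Real.log |b|) (1 / ((m : ℝ) + 1)) C p.swap :=
    ae_all_iff.2 fun m => h5 _ (by positivity)
  refine ⟨χ, hχ, ?_⟩
  filter_upwards [h1, h3', h4, h5', supp hb0 hb1 hμ.toMeasurePreserving] with p k1 k3 k4 k5 k6
  have hb' : (1 / b : ℝ) ≠ 0 := one_div_ne_zero hb0
  have hlog' : Real.log |1 / b| = -Real.log |b| := by
    rw [abs_div, abs_one, one_div, Real.log_inv]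
  have e1 : χ - Real.log |b| + Real.log |b| = χ := sub_add_cancel _ _
  have e2 : χ + Real.log |1 / b| = χ - Real.log |b| := by rw [hlog', sub_eq_add_neg]
  obtain ⟨V, hV⟩ := reg_of_growth (a := 1) (b := b) (c := c) (ρ := χ - Real.log |b|)
    (R := |c| + 4) (p := p) hb0 (by linarith) (by rw [e1]; exact hχ) k6.1
    (by rw [e1]; exact k1) (by rw [e1]; exact good_up k3)
  obtain ⟨W, hW⟩ := reg_of_growth (a := 1 / b) (b := 1 / b) (c := c / b) (ρ := χ)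
    (R := |c| + 4) (p := p.swap) hb' hχ (by rw [e2]; linarith)
    (fun n => by
      rw [G_swap_iter hb0, Prod.norm_def, Prod.fst_swap, Prod.snd_swap, max_comm,
        ← Prod.norm_def]
      exact k6.2 n)
    (by rw [e2]; exact k4) (by rw [e2]; exact good_up k5)
  refine ⟨V, W.swap, fun δ hδ hδχ => ?_⟩
  rw [e1] at hV
  rw [e2] at hW
  obtain ⟨C1, hC1⟩ := hV δ hδ (by linarith) hδχ
  obtain ⟨C2, hC2⟩ := hW δ hδ hδχ (by linarith)
  refine ⟨max C1 C2, hC1.mono (le_max_left _ _) le_rfl, ?_⟩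
  rw [Prod.swap_swap]
  exact hC2.mono (le_max_right _ _) le_rfl

end Pool.Agent.HD
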