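import Pool.Agent.HD.Birk

set_option autoImplicit false

/-!
HD-King. The subadditive ergodic theorem of Kingman (bounded, ergodic case; proof of Steele).

`greedy` is the deterministic covering argument along an orbit. In `king` the sequence `b n = a n - C n` is nonpositive;
the function `liminf b n / n` is invariant, hence a constant; `greedy` and the ergodic theorem of Birkhoff for
indicators bound the upper limit by the same constant.
-/

namespace Pool.Agent.HD

open MeasureTheory Filter Topology

open Classical in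
theorem greedy {X : Type*} {T : X → X} {b : ℕ → X → ℝ} {x : X} {h : ℝ} {N : ℕ} {B : Set X}
    (hh : h ≤ 0) (hneg : ∀ i n : ℕ, b n (T^[i] x) ≤ 0)
    (hsub : ∀ i m n : ℕ, b (m + n) (T^[i] x) ≤ b m (T^[i] x) + b n (T^[i + m] x))
    (hB : ∀ i : ℕ, T^[i] x ∉ B → ∃ l : ℕ, 1 ≤ l ∧ l ≤ N ∧ b l (T^[i] x) ≤ h * l) (n : ℕ) :
    b n x ≤ h * ((n : ℝ) - N - ((Finset.range n).filter fun j => T^[j] x ∈ B).card) := by
  suffices H : ∀ n i : ℕ, b n (T^[i] x) ≤ h * ((n : ℝ) - N -
      ((Finset.range n).filter fun j => T^[i + j] x ∈ B).card) by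
    have := H n 0
    simpa using this
  intro n
  induction n using Nat.strong_induction_on with
  | _ n ih =>
    intro i
    by_cases hn : n ≤ N
    · refine (hneg i n).trans ?_
      apply mul_nonneg_of_nonpos_of_nonpos hh
      have h1 : (n : ℝ) ≤ N := by exact_mod_cast hn
      have h2 : (0 : ℝ) ≤ ((Finset.range n).filter fun j => T^[i + j] x ∈ B).card :=
        Nat.cast_nonneg _
      linarith
    · push Not at hn
      by_cases hx : T^[i] x ∈ B
      · obtain ⟨m, rfl⟩ : ∃ m, n = 1 + m := ⟨n - 1, by omega⟩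
        have h1 := hsub i 1 m
        have h2 := hneg i 1
        have h3 := ih m (by omega) (i + 1)
        have h4 : ((Finset.range (1 + m)).filter fun j => T^[i + j] x ∈ B).card =
            ((Finset.range m).filter fun j => T^[i + 1 + j] x ∈ B).card + 1 := by
          rw [Finset.card_filter, Finset.card_filter, add_comm 1 m, Finset.sum_range_succ']
          rw [add_zero, if_pos hx]
          congr 1
          apply Finset.sum_congr rfl
          intro j _
          rw [show i + (j + 1) = i + 1 + j by ring]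
        rw [h4]
        push_cast
        have h5 : h * (1 + (m : ℝ) - N -
            (((Finset.range m).filter fun j => T^[i + 1 + j] x ∈ B).card + 1)) =
            h * ((m : ℝ) - N -
              ((Finset.range m).filter fun j => T^[i + 1 + j] x ∈ B).card) := by ring
        rw [h5]
        linarith
      · obtain ⟨l, hl1, hlN, hl⟩ := hB i hx
        obtain ⟨m, rfl⟩ : ∃ m, n = l + m := ⟨n - l, by omega⟩
        have h1 := hsub i l m
        have h3 := ih m (by omega) (i + l)
        have h4 : ((Finset.range m).filter fun j => T^[i + l + j] x ∈ B).card ≤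
            ((Finset.range (l + m)).filter fun j => T^[i + j] x ∈ B).card := by
          apply Finset.card_le_card_of_injOn (fun j => l + j)
          · intro j hj
            have hj' := Finset.mem_coe.1 hj
            rw [Finset.mem_filter, Finset.mem_range] at hj'
            have h5 : l + j < l + m := by omega
            rw [Finset.mem_coe, Finset.mem_filter, Finset.mem_range]
            refine ⟨h5, ?_⟩
            rw [show i + (l + j) = i + l + j by ring]
            exact hj'.2
          · intro j _ j' _ hjj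
            exact Nat.add_left_cancel hjj
        have h5 : (((Finset.range m).filter fun j => T^[i + l + j] x ∈ B).card : ℝ) ≤
            ((Finset.range (l + m)).filter fun j => T^[i + j] x ∈ B).card := by
          exact_mod_cast h4
        push_cast
        have h6 : h * ((l : ℝ) + m - N -
            ((Finset.range m).filter fun j => T^[i + l + j] x ∈ B).card) ≤
            h * ((l : ℝ) + m - N -
            ((Finset.range (l + m)).filter fun j => T^[i + j] x ∈ B).card) := by
          apply mul_le_mul_of_nonpos_left _ hh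
          linarith
        have h7 : h * ((l : ℝ) + m - N -
            ((Finset.range m).filter fun j => T^[i + l + j] x ∈ B).card) =
            h * l + h * ((m : ℝ) - N -
            ((Finset.range m).filter fun j => T^[i + l + j] x ∈ B).card) := by ring
        linarith

/-! ### bounded sequences -/

private theorem king_ge {u : ℕ → ℝ} {lo : ℝ} (h1 : ∀ n, lo ≤ u n) :
    IsBoundedUnder (· ≥ ·) atTop u := isBoundedUnder_of ⟨lo, h1⟩

private theorem king_cge {u : ℕ → ℝ} (h2 : ∀ n, u n ≤ 0) :
    IsCoboundedUnder (· ≥ ·) atTop u :=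
  (isBoundedUnder_of ⟨0, h2⟩ : IsBoundedUnder (· ≤ ·) atTop u).isCoboundedUnder_ge

private theorem king_lim_mem {u : ℕ → ℝ} {lo : ℝ} (h1 : ∀ n, lo ≤ u n) (h2 : ∀ n, u n ≤ 0) :
    lo ≤ liminf u atTop ∧ liminf u atTop ≤ 0 := by
  refine ⟨le_liminf_of_le (king_cge h2) (Eventually.of_forall h1), ?_⟩
  by_contra hcon
  push Not at hcon
  obtain ⟨n, hn⟩ := (eventually_lt_of_lt_liminf hcon (king_ge h1)).exists
  exact absurd (h2 n) (not_le.2 hn)

/-- one step of the invariance -/
private theorem king_step {u v : ℕ → ℝ} {lo : ℝ} (h1 : ∀ n, lo ≤ u n)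
    (h3 : ∀ n, lo ≤ v n) (h4 : ∀ n, v n ≤ 0)
    (h : ∀ n : ℕ, u (n + 1) * (n + 1 : ℝ) ≤ v n * n) :
    liminf u atTop ≤ liminf v atTop := by
  by_contra hcon
  push Not at hcon
  obtain ⟨r, hr1, hr2⟩ := exists_between hcon
  obtain ⟨s, hs1, hs2⟩ := exists_between hr1
  have hv := frequently_lt_of_liminf_lt (king_cge h4) hs1
  have hu : ∀ᶠ n in atTop, r < u (n + 1) :=
    (tendsto_add_atTop_nat 1).eventually (eventually_lt_of_lt_liminf hr2 (king_ge h1))
  have hlarge : ∀ᶠ n : ℕ in atTop, -lo < (r - s) * (n + 1 : ℝ) := by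
    have h5 : Tendsto (fun n : ℕ => (r - s) * ((n : ℝ) + 1)) atTop atTop :=
      Tendsto.const_mul_atTop (by linarith)
        (tendsto_atTop_add_const_right _ _ tendsto_natCast_atTop_atTop)
    exact h5.eventually (eventually_gt_atTop _)
  obtain ⟨n, hn1, hn2, hn3⟩ := (hv.and_eventually (hu.and hlarge)).exists
  have h5 := h n
  have h6 := h3 n
  have h7 : r * (n + 1 : ℝ) < u (n + 1) * (n + 1 : ℝ) :=
    mul_lt_mul_of_pos_right hn2 (by positivity)
  have h8 : v n * (n : ℝ) ≤ s * (n : ℝ) :=
    mul_le_mul_of_nonneg_right hn1.le (Nat.cast_nonneg n)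
  have h9 : lo ≤ s := h6.trans hn1.le
  nlinarith

theorem king {X : Type*} [MeasurableSpace X] {μ : Measure X} [IsProbabilityMeasure μ] {T : X → X}
    (hT : Ergodic T μ) {a : ℕ → X → ℝ} (ha : ∀ n, Measurable (a n)) {C : ℝ}
    (hC : ∀ᵐ x ∂μ, ∀ n : ℕ, |a n x| ≤ C * n)
    (hsub : ∀ᵐ x ∂μ, ∀ m n : ℕ, a (m + n) x ≤ a m x + a n (T^[m] x)) :
    ∃ g : ℝ, (∀ᵐ x ∂μ, Tendsto (fun n : ℕ => a n x / n) atTop (𝓝 g)) ∧
      Tendsto (fun n : ℕ => (∫ x, a n x ∂μ) / n) atTop (𝓝 g) := by
  classical
  have hmp := hT.toMeasurePreserving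
  have hC0 : 0 ≤ C := by
    obtain ⟨x, hx⟩ := hC.exists
    have := hx 1
    simp only [Nat.cast_one, mul_one] at this
    exact (abs_nonneg _).trans this
  have hCo : ∀ᵐ x ∂μ, ∀ i n : ℕ, |a n (T^[i] x)| ≤ C * n := by
    rw [ae_all_iff]
    intro i
    exact (hmp.iterate i).quasiMeasurePreserving.ae hC
  have hso : ∀ᵐ x ∂μ, ∀ i m n : ℕ,
      a (m + n) (T^[i] x) ≤ a m (T^[i] x) + a n (T^[i + m] x) := by
    rw [ae_all_iff]
    intro i
    filter_upwards [(hmp.iterate i).quasiMeasurePreserving.ae hsub] with x hx m n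
    have h1 := hx m n
    rwa [← Function.iterate_add_apply, add_comm m i] at h1
  -- the nonpositive sequence
  set b : ℕ → X → ℝ := fun n x => a n x - C * n with hb
  have hbm : ∀ n, Measurable (b n) := fun n => (ha n).sub_const _
  have hbneg : ∀ᵐ x ∂μ, ∀ i n : ℕ, b n (T^[i] x) ≤ 0 := by
    filter_upwards [hCo] with x hx i n
    have := (abs_le.1 (hx i n)).2
    simp only [hb]
    linarith
  have hblo : ∀ᵐ x ∂μ, ∀ i n : ℕ, -(2 * C) * n ≤ b n (T^[i] x) := by
    filter_upwards [hCo] with x hx i n
    have := (abs_le.1 (hx i n)).1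
    simp only [hb]
    linarith
  have hbsub : ∀ᵐ x ∂μ, ∀ i m n : ℕ,
      b (m + n) (T^[i] x) ≤ b m (T^[i] x) + b n (T^[i + m] x) := by
    filter_upwards [hso] with x hx i m n
    have := hx i m n
    simp only [hb]
    push_cast
    linarith
  -- quotients
  have hq : ∀ᵐ x ∂μ, ∀ i n : ℕ, -(2 * C) ≤ b n (T^[i] x) / n ∧ b n (T^[i] x) / n ≤ 0 := by
    filter_upwards [hbneg, hblo] with x h1 h2 i n
    rcases Nat.eq_zero_or_pos n with rfl | hn
    · simp only [Nat.cast_zero, div_zero]
      exact ⟨by linarith, le_refl _⟩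
    · have hn' : (0 : ℝ) < n := Nat.cast_pos.2 hn
      exact ⟨(le_div_iff₀ hn').2 (h2 i n), div_nonpos_of_nonpos_of_nonneg (h1 i n) hn'.le⟩
  set g : X → ℝ := fun x => liminf (fun n : ℕ => b n x / n) atTop with hg
  have hgm : Measurable g := Measurable.liminf fun n => (hbm n).div_const _
  have hgb : ∀ᵐ x ∂μ, -(2 * C) ≤ g x ∧ g x ≤ 0 := by
    filter_upwards [hq] with x hx
    exact king_lim_mem (fun n => (hx 0 n).1) (fun n => (hx 0 n).2)
  have hgi : Integrable g μ := by
    refine Integrable.of_bound hgm.aestronglyMeasurable (2 * C) ?_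
    filter_upwards [hgb] with x hx
    rw [Real.norm_eq_abs, abs_le]
    exact ⟨hx.1, by linarith [hx.2]⟩
  have hgle : g ≤ᵐ[μ] g ∘ T := by
    filter_upwards [hq, hbneg, hbsub] with x h1 h2 h3
    simp only [hg, Function.comp]
    refine king_step (lo := -(2 * C)) (fun n => (h1 0 n).1)
      (fun n => (h1 1 n).1) (fun n => (h1 1 n).2) ?_
    intro n
    have h4 := h3 0 1 n
    have h5 := h2 0 1
    simp only [Function.iterate_zero, id_eq, zero_add, Function.iterate_one] at h4 h5
    have h6 : b (n + 1) x / ((n + 1 : ℕ) : ℝ) * ((n : ℝ) + 1) = b (n + 1) x := by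
      push_cast
      field_simp
    have h7 : b n (T x) / (n : ℝ) * n = b n (T x) ∨ n = 0 := by
      rcases Nat.eq_zero_or_pos n with rfl | hn
      · right; rfl
      · left
        have : (n : ℝ) ≠ 0 := by positivity
        field_simp
    rw [h6]
    rcases h7 with h7 | rfl
    · rw [h7]
      rw [add_comm 1 n] at h4
      linarith
    · simp only [zero_add, Nat.cast_zero, mul_zero]
      exact h5
  have hgc : g ∘ T =ᵐ[μ] g := by
    have h1 : Integrable (g ∘ T) μ := (hmp.integrable_comp hgm.aestronglyMeasurable).2 hgi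
    have h2 : ∫ x, g x ∂μ = ∫ x, (g ∘ T) x ∂μ := by
      have h3 := integral_map (μ := μ) hmp.measurable.aemeasurable
        (hgm.aestronglyMeasurable (μ := Measure.map T μ))
      rw [hmp.map_eq] at h3
      exact h3
    exact ((integral_eq_iff_of_ae_le hgi h1 hgle).1 h2).symm
  obtain ⟨γ, hγ⟩ := hT.ae_eq_const_of_ae_eq_comp₀ hgm.nullMeasurable hgc
  have hγ0 : -(2 * C) ≤ γ ∧ γ ≤ 0 := by
    obtain ⟨x, hx1, hx2⟩ := (hγ.and hgb).exists
    rw [hx1] at hx2
    exact hx2
  -- the upper bound
  have hup : ∀ ε : ℝ, 0 < ε → ∀ᵐ x ∂μ, ∀ᶠ n : ℕ in atTop,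
      b n x / n < min (γ + ε) 0 * (1 - ε) + ε := by
    intro ε hε
    set h : ℝ := min (γ + ε) 0 with hh
    have hh0 : h ≤ 0 := min_le_right _ _
    set B : ℕ → Set X := fun N => {x | ∀ l : ℕ, 1 ≤ l → l ≤ N → h * l < b l x} with hB
    have hBm : ∀ N, MeasurableSet (B N) := by
      intro N
      have h1 : B N = ⋂ l : ℕ, ⋂ (_ : 1 ≤ l), ⋂ (_ : l ≤ N), {x | h * l < b l x} := by
        ext x
        simp [hB]
      rw [h1]
      exact MeasurableSet.iInter fun l => MeasurableSet.iInter fun _ =>
        MeasurableSet.iInter fun _ => measurableSet_lt measurable_const (hbm l)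
    have hBa : Antitone B := by
      intro N N' hNN x hx l h1 h2
      exact hx l h1 (h2.trans hNN)
    have hBn : μ (⋂ N, B N) = 0 := by
      rw [← compl_compl (⋂ N, B N)]
      rw [← mem_ae_iff]
      filter_upwards [hγ, hq, hbneg] with x h1 h2 h3
      intro h4
      rw [Set.mem_iInter] at h4
      have h5 : ∀ l : ℕ, 1 ≤ l → h * l < b l x := fun l hl => h4 l l hl (le_refl _)
      have h6 : b 1 x ≤ 0 := by
        have := h3 0 1
        simpa using this
      have h7 : h < 0 := by
        have := h5 1 (le_refl _)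
        simp only [Nat.cast_one, mul_one] at this
        linarith
      have h8 : h = γ + ε := by
        rcases min_choice (γ + ε) 0 with h9 | h9
        · exact h9
        · rw [hh, h9] at h7
          exact absurd h7 (lt_irrefl _)
      have h9 : h ≤ g x := by
        refine le_liminf_of_le (king_cge fun n => (h2 0 n).2) ?_
        filter_upwards [eventually_ge_atTop 1] with n hn
        have hn' : (0 : ℝ) < n := Nat.cast_pos.2 hn
        exact (le_div_iff₀ hn').2 (h5 n hn).le
      rw [h1] at h9
      simp only [Function.const_apply] at h9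
      linarith
    have hBt : Tendsto (fun N => μ.real (B N)) atTop (𝓝 0) := by
      have h1 := tendsto_measure_iInter_atTop (μ := μ) (s := B)
        (fun N => (hBm N).nullMeasurableSet) hBa ⟨0, measure_ne_top _ _⟩
      rw [hBn] at h1
      have h2 : Tendsto (fun N => μ.real (B N)) atTop (𝓝 (0 : ENNReal).toReal) :=
        (ENNReal.tendsto_toReal ENNReal.zero_ne_top).comp h1
      rwa [ENNReal.toReal_zero] at h2
    obtain ⟨N, hN⟩ := (hBt.eventually (gt_mem_nhds hε)).exists
    -- Birkhoff for the indicator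
    have hbk := birk hT (φ := (B N).indicator fun _ => (1 : ℝ))
      (measurable_const.indicator (hBm N)) (C := 1) (Eventually.of_forall fun x => by
        by_cases hx : x ∈ B N
        · rw [Set.indicator_of_mem hx]; simp
        · rw [Set.indicator_of_notMem hx]; simp)
    have hint : ∫ x, (B N).indicator (fun _ => (1 : ℝ)) x ∂μ = μ.real (B N) := by
      rw [integral_indicator (hBm N)]
      simp
    rw [hint] at hbk
    filter_upwards [hbk, hbneg, hbsub] with x h1 h2 h3
    have h4 : ∀ n : ℕ, b n x ≤ h * ((n : ℝ) - N -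
        birkhoffSum T ((B N).indicator fun _ => (1 : ℝ)) n x) := by
      intro n
      have h5 := greedy (b := b) (x := x) (N := N) (B := B N) hh0 h2 h3 (by
        intro i hi
        simp only [hB, Set.mem_ofPred_eq, not_forall, not_lt] at hi
        obtain ⟨l, hl1, hl2, hl3⟩ := hi
        exact ⟨l, hl1, hl2, hl3⟩) n
      have h6 : ∀ inst : DecidablePred fun j : ℕ => T^[j] x ∈ B N,
          ((@Finset.filter ℕ (fun j => T^[j] x ∈ B N) inst (Finset.range n)).card : ℝ) =
            birkhoffSum T ((B N).indicator fun _ => (1 : ℝ)) n x := by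
        intro inst
        rw [birkhoffSum, Finset.card_filter]
        push_cast
        apply Finset.sum_congr rfl
        intro j _
        by_cases hj : T^[j] x ∈ B N
        · rw [if_pos hj, Set.indicator_of_mem hj]
        · rw [if_neg hj, Set.indicator_of_notMem hj]
      rw [h6] at h5
      exact h5
    -- the limit of the right side
    have h5 : Tendsto (fun n : ℕ => h * (1 - (N : ℝ) / n -
        birkhoffSum T ((B N).indicator fun _ => (1 : ℝ)) n x / n)) atTop
        (𝓝 (h * (1 - 0 - μ.real (B N)))) := by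
      refine Tendsto.const_mul _ ((tendsto_const_nhds.sub ?_).sub h1)
      exact tendsto_const_nhds.div_atTop tendsto_natCast_atTop_atTop
    have h6 : h * (1 - 0 - μ.real (B N)) < h * (1 - ε) + ε := by
      have : h * (1 - 0 - μ.real (B N)) ≤ h * (1 - ε) := by
        apply mul_le_mul_of_nonpos_left _ hh0
        linarith
      linarith
    filter_upwards [h5.eventually (gt_mem_nhds h6), eventually_ge_atTop 1] with n hn1 hn2
    have hn' : (0 : ℝ) < n := Nat.cast_pos.2 hn2
    refine lt_of_le_of_lt ?_ hn1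
    rw [div_le_iff₀ hn']
    refine (h4 n).trans (le_of_eq ?_)
    field_simp
  -- the limit of b n / n
  have hlimb : ∀ᵐ x ∂μ, Tendsto (fun n : ℕ => b n x / n) atTop (𝓝 γ) := by
    have h1 : ∀ᵐ x ∂μ, ∀ k : ℕ, ∀ᶠ n : ℕ in atTop,
        b n x / n < min (γ + 1 / ((k : ℝ) + 1)) 0 * (1 - 1 / ((k : ℝ) + 1)) +
          1 / ((k : ℝ) + 1) := by
      rw [ae_all_iff]
      intro k
      exact hup _ (by positivity)
    have h2 : Tendsto (fun k : ℕ => min (γ + 1 / ((k : ℝ) + 1)) 0 * (1 - 1 / ((k : ℝ) + 1)) +
        1 / ((k : ℝ) + 1)) atTop (𝓝 (min (γ + 0) 0 * (1 - 0) + 0)) := by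
      have h3 := tendsto_one_div_add_atTop_nhds_zero_nat (𝕜 := ℝ)
      exact (((tendsto_const_nhds.add h3).min tendsto_const_nhds).mul
        (tendsto_const_nhds.sub h3)).add h3
    simp only [add_zero, min_eq_left hγ0.2, sub_zero, mul_one] at h2
    filter_upwards [h1, hγ, hq] with x h3 h4 h5
    rw [tendsto_order]
    refine ⟨fun c hc => ?_, fun c hc => ?_⟩
    · have h6 : c < liminf (fun n : ℕ => b n x / n) atTop := by
        have : liminf (fun n : ℕ => b n x / n) atTop = γ := h4
        rw [this]
        exact hc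
      exact eventually_lt_of_lt_liminf h6 (king_ge fun n => (h5 0 n).1)
    · obtain ⟨k, hk⟩ := (h2.eventually (gt_mem_nhds hc)).exists
      filter_upwards [h3 k] with n hn
      exact hn.trans hk
  have hlima : ∀ᵐ x ∂μ, Tendsto (fun n : ℕ => a n x / n) atTop (𝓝 (γ + C)) := by
    filter_upwards [hlimb] with x hx
    have h1 : Tendsto (fun n : ℕ => b n x / n + C) atTop (𝓝 (γ + C)) := hx.add_const C
    refine h1.congr' ?_
    filter_upwards [eventually_ge_atTop 1] with n hn
    have hn' : (n : ℝ) ≠ 0 := by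
      have : (0 : ℝ) < n := Nat.cast_pos.2 hn
      exact this.ne'
    simp only [hb]
    field_simp
    ring
  refine ⟨γ + C, hlima, ?_⟩
  have h1 : Tendsto (fun n : ℕ => ∫ x, a n x / n ∂μ) atTop (𝓝 (∫ _, (γ + C) ∂μ)) := by
    refine tendsto_integral_of_dominated_convergence (fun _ => C)
      (fun n => ((ha n).div_const _).aestronglyMeasurable) (integrable_const _) ?_ hlima
    intro n
    filter_upwards [hC] with x hx
    rw [Real.norm_eq_abs, abs_div, Nat.abs_cast]
    rcases Nat.eq_zero_or_pos n with rfl | hn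
    · simpa using hC0
    · have hn' : (0 : ℝ) < n := Nat.cast_pos.2 hn
      rw [div_le_iff₀ hn']
      exact hx n
  simp only [integral_div, integral_const, probReal_univ, one_smul] at h1
  exact h1

end Pool.Agent.HD
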