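import Pool.Agent.HD.Uq
import Pool.Agent.HD.Fix

set_option autoImplicit false

/-!
HD-Loc. Nonlinear orbits asymptotic to a given linear one: existence.

The variation of constants operator from infinity
`T z k = u k - ∑' j, (b^(j+1))⁻¹ • act (adj (co (G^[k] p) (j+1))) (a * (z (k+j)).1^2, 0)` is a contraction
of a ball in the weighted space with weight `exp (-(ρ - 4δ) k)`; its fixed point is the required orbit.
-/

namespace Pool.Agent.HD

variable {a b c ρ δ C : ℝ} {p : E2}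

/-- the terms of the series -/
private noncomputable def lterm (a b c : ℝ) (p : E2) (v : ℕ → E2) (k j : ℕ) : E2 :=
  (b ^ (j + 1))⁻¹ • act (adj (co a b c ((G a b c)^[k] p) (j + 1))) (v (k + j))

private noncomputable def lsum (a b c : ℝ) (p : E2) (v : ℕ → E2) (k : ℕ) : E2 :=
  ∑' j, lterm a b c p v k j

private noncomputable def actL (M : M2) : E2 →L[ℝ] E2 :=
  LinearMap.toContinuousLinearMap
    { toFun := act M
      map_add' := act_add M
      map_smul' := act_smul M }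

private theorem actL_apply (M : M2) (v : E2) : actL M v = act M v := rfl

private theorem lterm_le (hb : b ≠ 0) (hC : 0 ≤ C)
    (hup : Up a b c (ρ + Real.log |b|) δ C p) {v : ℕ → E2} {Γ : ℝ}
    (hv : ∀ m : ℕ, ‖v m‖ ≤ Γ * Real.exp (-(2 * (ρ - 4 * δ)) * m)) (k j : ℕ) :
    ‖lterm a b c p v k j‖ ≤ (2 * C * Real.exp (ρ + δ) * Γ * Real.exp (-(2 * ρ - 9 * δ) * k)) *
      Real.exp (-(ρ - 9 * δ)) ^ j := by
  unfold lterm
  have h1 := inv_bound' hb hup k (j + 1) (v (k + j))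
  refine h1.trans ?_
  have h2 := hv (k + j)
  have h3 : 0 ≤ 2 * C * Real.exp ((ρ + δ) * ((j + 1 : ℕ) : ℝ) + δ * k) := by positivity
  refine (mul_le_mul_of_nonneg_left h2 h3).trans (le_of_eq ?_)
  have h4 : Real.exp ((ρ + δ) * ((j + 1 : ℕ) : ℝ) + δ * k) *
      Real.exp (-(2 * (ρ - 4 * δ)) * ((k + j : ℕ) : ℝ)) =
      Real.exp (ρ + δ) * Real.exp (-(2 * ρ - 9 * δ) * k) * Real.exp (-(ρ - 9 * δ)) ^ j := by
    rw [← Real.exp_nat_mul, ← Real.exp_add, ← Real.exp_add, ← Real.exp_add]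
    congr 1
    push_cast
    ring
  calc 2 * C * Real.exp ((ρ + δ) * ((j + 1 : ℕ) : ℝ) + δ * k) *
      (Γ * Real.exp (-(2 * (ρ - 4 * δ)) * ((k + j : ℕ) : ℝ)))
      = 2 * C * Γ * (Real.exp ((ρ + δ) * ((j + 1 : ℕ) : ℝ) + δ * k) *
        Real.exp (-(2 * (ρ - 4 * δ)) * ((k + j : ℕ) : ℝ))) := by ring
    _ = _ := by rw [h4]; ring

private theorem ratio_lt (hδ : 0 < δ) (hρ : 100 * δ ≤ ρ) : Real.exp (-(ρ - 9 * δ)) < 1 := by
  rw [Real.exp_lt_one_iff]
  linarith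

private theorem lterm_summable (hb : b ≠ 0) (hδ : 0 < δ) (hρ : 100 * δ ≤ ρ) (hC : 0 ≤ C)
    (hup : Up a b c (ρ + Real.log |b|) δ C p) {v : ℕ → E2} {Γ : ℝ}
    (hv : ∀ m : ℕ, ‖v m‖ ≤ Γ * Real.exp (-(2 * (ρ - 4 * δ)) * m)) (k : ℕ) :
    Summable (lterm a b c p v k) := by
  refine Summable.of_norm_bounded (g := fun j : ℕ =>
    (2 * C * Real.exp (ρ + δ) * Γ * Real.exp (-(2 * ρ - 9 * δ) * k)) *
      Real.exp (-(ρ - 9 * δ)) ^ j) ?_ (fun j => lterm_le hb hC hup hv k j)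
  exact (summable_geometric_of_lt_one (Real.exp_pos _).le (ratio_lt hδ hρ)).mul_left _

private theorem lsum_le (hb : b ≠ 0) (hδ : 0 < δ) (hρ : 100 * δ ≤ ρ) (hC : 0 ≤ C)
    (hup : Up a b c (ρ + Real.log |b|) δ C p) {v : ℕ → E2} {Γ : ℝ}
    (hv : ∀ m : ℕ, ‖v m‖ ≤ Γ * Real.exp (-(2 * (ρ - 4 * δ)) * m)) (k : ℕ) :
    ‖lsum a b c p v k‖ ≤ CV ρ δ C * Γ * Real.exp (-(2 * ρ - 9 * δ) * k) := by
  have hg : HasSum (fun j : ℕ =>
      (2 * C * Real.exp (ρ + δ) * Γ * Real.exp (-(2 * ρ - 9 * δ) * k)) *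
      Real.exp (-(ρ - 9 * δ)) ^ j)
      ((2 * C * Real.exp (ρ + δ) * Γ * Real.exp (-(2 * ρ - 9 * δ) * k)) *
        (1 - Real.exp (-(ρ - 9 * δ)))⁻¹) :=
    (hasSum_geometric_of_lt_one (Real.exp_pos _).le (ratio_lt hδ hρ)).mul_left _
  refine (tsum_of_norm_bounded hg (fun j => lterm_le hb hC hup hv k j)).trans (le_of_eq ?_)
  unfold CV
  rw [div_eq_mul_inv]
  ring

private theorem lsum_sub (hb : b ≠ 0) (hδ : 0 < δ) (hρ : 100 * δ ≤ ρ) (hC : 0 ≤ C)
    (hup : Up a b c (ρ + Real.log |b|) δ C p) {v v' : ℕ → E2} {Γ Γ' : ℝ}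
    (hv : ∀ m : ℕ, ‖v m‖ ≤ Γ * Real.exp (-(2 * (ρ - 4 * δ)) * m))
    (hv' : ∀ m : ℕ, ‖v' m‖ ≤ Γ' * Real.exp (-(2 * (ρ - 4 * δ)) * m)) (k : ℕ) :
    lsum a b c p v k - lsum a b c p v' k = lsum a b c p (fun m => v m - v' m) k := by
  unfold lsum
  rw [← (lterm_summable hb hδ hρ hC hup hv k).tsum_sub (lterm_summable hb hδ hρ hC hup hv' k)]
  refine tsum_congr fun j => ?_
  unfold lterm
  rw [act_sub, smul_sub]

private theorem adj_mm (M N : M2) (w : E2) :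
    act (adj (mm M N)) w = act (adj N) (act (adj M) w) := by
  simp only [act, adj, mm, Prod.mk.injEq]
  constructor <;> ring

private theorem der_term (hb : b ≠ 0) (k j : ℕ) (w : E2) :
    act (der a b ((G a b c)^[k] p))
      ((b ^ (j + 1))⁻¹ • act (adj (co a b c ((G a b c)^[k] p) (j + 1))) w) =
      (b ^ j)⁻¹ • act (adj (co a b c ((G a b c)^[k + 1] p) j)) w := by
  have h1 : co a b c ((G a b c)^[k] p) (j + 1) =
      mm (co a b c ((G a b c)^[k + 1] p) j) (der a b ((G a b c)^[k] p)) := by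
    rw [add_comm j 1, co_add, co_one]
    rw [← Function.iterate_add_apply, add_comm 1 k]
  rw [h1, adj_mm, act_smul, act_act_adj]
  have h2 : dt (der a b ((G a b c)^[k] p)) = b := by
    simp [dt, der]
  rw [h2, smul_smul]
  congr 1
  rw [pow_succ]
  field_simp

private theorem lsum_succ (hb : b ≠ 0) (hδ : 0 < δ) (hρ : 100 * δ ≤ ρ) (hC : 0 ≤ C)
    (hup : Up a b c (ρ + Real.log |b|) δ C p) {v : ℕ → E2} {Γ : ℝ}
    (hv : ∀ m : ℕ, ‖v m‖ ≤ Γ * Real.exp (-(2 * (ρ - 4 * δ)) * m)) (k : ℕ) :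
    act (der a b ((G a b c)^[k] p)) (lsum a b c p v k) = v k + lsum a b c p v (k + 1) := by
  have h0 := lterm_summable hb hδ hρ hC hup hv k
  have h1 : act (der a b ((G a b c)^[k] p)) (lsum a b c p v k) =
      ∑' j, (b ^ j)⁻¹ • act (adj (co a b c ((G a b c)^[k + 1] p) j)) (v (k + j)) := by
    rw [← actL_apply]
    unfold lsum
    rw [(actL _).map_tsum h0]
    refine tsum_congr fun j => ?_
    rw [actL_apply]
    unfold lterm
    exact der_term hb k j _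
  have h2 : Summable fun j : ℕ =>
      (b ^ j)⁻¹ • act (adj (co a b c ((G a b c)^[k + 1] p) j)) (v (k + j)) := by
    have h3 := h0.mapL (actL (der a b ((G a b c)^[k] p)))
    refine h3.congr fun j => ?_
    rw [actL_apply]
    unfold lterm
    exact der_term hb k j _
  rw [h1, h2.tsum_eq_zero_add]
  congr 1
  · have h4 : adj (co a b c ((G a b c)^[k + 1] p) 0) = ((1, 0), (0, 1)) := by
      simp [adj, co]
    rw [h4, act_one]
    simp
  · unfold lsum
    refine tsum_congr fun j => ?_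
    unfold lterm
    have h5 : k + (j + 1) = k + 1 + j := by ring
    rw [h5]

private theorem norm_quad (z : E2) : ‖((a * z.1 ^ 2, 0) : E2)‖ ≤ |a| * ‖z‖ ^ 2 := by
  rw [Prod.norm_def]
  simp only [norm_zero]
  refine max_le ?_ (by positivity)
  rw [Real.norm_eq_abs, abs_mul, abs_pow]
  refine mul_le_mul_of_nonneg_left ?_ (abs_nonneg a)
  exact pow_le_pow_left₀ (abs_nonneg _) (norm_fst_le z) 2

private theorem norm_quad_sub (z z' : E2) :
    ‖((a * z.1 ^ 2, 0) : E2) - (a * z'.1 ^ 2, 0)‖ ≤ |a| * (‖z‖ + ‖z'‖) * ‖z - z'‖ := by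
  rw [Prod.norm_def]
  simp only [Prod.fst_sub, Prod.snd_sub, sub_zero, norm_zero]
  refine max_le ?_ (by positivity)
  have h1 : a * z.1 ^ 2 - a * z'.1 ^ 2 = a * (z.1 + z'.1) * (z.1 - z'.1) := by ring
  rw [h1, Real.norm_eq_abs, abs_mul, abs_mul]
  have h2 : |z.1| ≤ ‖z‖ := norm_fst_le z
  have h3 : |z'.1| ≤ ‖z'‖ := norm_fst_le z'
  have h4 : |z.1 - z'.1| ≤ ‖z - z'‖ := norm_fst_le (z - z')
  have h5 : |z.1 + z'.1| ≤ ‖z‖ + ‖z'‖ := (abs_add_le _ _).trans (add_le_add h2 h3)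
  refine mul_le_mul (mul_le_mul_of_nonneg_left h5 (abs_nonneg a)) h4 (abs_nonneg _) ?_
  positivity

theorem loc (hb : b ≠ 0) (hδ : 0 < δ) (hρ : 100 * δ ≤ ρ) (hC : 0 ≤ C)
    (hup : Up a b c (ρ + Real.log |b|) δ C p) {u : ℕ → E2}
    (hu : ∀ k, u (k + 1) = act (der a b ((G a b c)^[k] p)) (u k)) {U : ℝ} (hU0 : 0 ≤ U)
    (hU : ∀ k : ℕ, ‖u k‖ ≤ U * Real.exp (-(ρ - 4 * δ) * k))
    (hs : 8 * |a| * CV ρ δ C * U ≤ 1) :
    ∃ z : ℕ → E2, (∀ k : ℕ, ‖z k‖ ≤ 2 * U * Real.exp (-(ρ - 4 * δ) * k)) ∧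
      (∀ k, (G a b c)^[k] (p + z 0) = (G a b c)^[k] p + z k) ∧
      ∀ k : ℕ, ‖z k - u k‖ ≤ 4 * |a| * CV ρ δ C * U ^ 2 * Real.exp (-(2 * ρ - 9 * δ) * k) := by
  have hCV : 0 ≤ CV ρ δ C := by
    unfold CV
    have := ratio_lt hδ hρ
    have h : 0 < 1 - Real.exp (-(ρ - 9 * δ)) := by linarith
    positivity
  have hsq : ∀ m : ℕ, Real.exp (-(ρ - 4 * δ) * m) * Real.exp (-(ρ - 4 * δ) * m) =
      Real.exp (-(2 * (ρ - 4 * δ)) * m) := by
    intro m
    rw [← Real.exp_add]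
    congr 1
    ring
  have hexp : ∀ k : ℕ, Real.exp (-(2 * ρ - 9 * δ) * k) ≤ Real.exp (-(ρ - 4 * δ) * k) := by
    intro k
    refine Real.exp_le_exp.mpr ?_
    have hk : (0 : ℝ) ≤ k := Nat.cast_nonneg k
    nlinarith
  -- the quadratic terms
  have hq : ∀ z : ℕ → E2, (∀ k : ℕ, ‖z k‖ ≤ 2 * U * Real.exp (-(ρ - 4 * δ) * k)) →
      ∀ m : ℕ, ‖((a * (z m).1 ^ 2, 0) : E2)‖ ≤
        (4 * |a| * U ^ 2) * Real.exp (-(2 * (ρ - 4 * δ)) * m) := by
    intro z hz m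
    refine (norm_quad (z m)).trans ?_
    have h1 : ‖z m‖ ^ 2 ≤ (2 * U * Real.exp (-(ρ - 4 * δ) * m)) ^ 2 :=
      pow_le_pow_left₀ (norm_nonneg _) (hz m) 2
    calc |a| * ‖z m‖ ^ 2 ≤ |a| * (2 * U * Real.exp (-(ρ - 4 * δ) * m)) ^ 2 :=
          mul_le_mul_of_nonneg_left h1 (abs_nonneg a)
      _ = (4 * |a| * U ^ 2) * (Real.exp (-(ρ - 4 * δ) * m) * Real.exp (-(ρ - 4 * δ) * m)) := by
          ring
      _ = _ := by rw [hsq]
  have hsum : ∀ z : ℕ → E2, (∀ k : ℕ, ‖z k‖ ≤ 2 * U * Real.exp (-(ρ - 4 * δ) * k)) →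
      ∀ k : ℕ, ‖lsum a b c p (fun m => (a * (z m).1 ^ 2, 0)) k‖ ≤
        4 * |a| * CV ρ δ C * U ^ 2 * Real.exp (-(2 * ρ - 9 * δ) * k) := by
    intro z hz k
    refine (lsum_le hb hδ hρ hC hup (hq z hz) k).trans (le_of_eq ?_)
    ring
  obtain ⟨z, hz1, hz2⟩ := fixpt (ω := fun k : ℕ => Real.exp (-(ρ - 4 * δ) * k))
    (fun k => Real.exp_pos _) (r := 2 * U) (by positivity)
    (fun z k => u k - lsum a b c p (fun m => (a * (z m).1 ^ 2, 0)) k)
    (by
      intro z hz k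
      have h1 := hsum z hz k
      have h2 : 4 * |a| * CV ρ δ C * U ^ 2 ≤ U / 2 := by
        have := mul_le_mul_of_nonneg_right hs hU0
        nlinarith
      have h3 : 4 * |a| * CV ρ δ C * U ^ 2 * Real.exp (-(2 * ρ - 9 * δ) * k) ≤
          U / 2 * Real.exp (-(ρ - 4 * δ) * k) :=
        mul_le_mul h2 (hexp k) (Real.exp_pos _).le (by positivity)
      calc ‖u k - lsum a b c p (fun m => (a * (z m).1 ^ 2, 0)) k‖
          ≤ ‖u k‖ + ‖lsum a b c p (fun m => (a * (z m).1 ^ 2, 0)) k‖ := norm_sub_le _ _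
        _ ≤ U * Real.exp (-(ρ - 4 * δ) * k) + U / 2 * Real.exp (-(ρ - 4 * δ) * k) :=
            add_le_add (hU k) (h1.trans h3)
        _ ≤ 2 * U * Real.exp (-(ρ - 4 * δ) * k) := by
            have h4 : 0 ≤ U * Real.exp (-(ρ - 4 * δ) * k) := by positivity
            linarith)
    (by
      intro z z' hz hz' d hd k
      have hd0 : 0 ≤ d := by
        have h1 := (norm_nonneg _).trans (hd 0)
        exact nonneg_of_mul_nonneg_left h1 (Real.exp_pos _)
      have h2 : (u k - lsum a b c p (fun m => (a * (z m).1 ^ 2, 0)) k) -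
          (u k - lsum a b c p (fun m => (a * (z' m).1 ^ 2, 0)) k) =
          -(lsum a b c p (fun m => (a * (z m).1 ^ 2, 0)) k -
            lsum a b c p (fun m => (a * (z' m).1 ^ 2, 0)) k) := by abel
      rw [h2, norm_neg, lsum_sub hb hδ hρ hC hup (hq z hz) (hq z' hz')]
      have h3 : ∀ m : ℕ, ‖((a * (z m).1 ^ 2, 0) : E2) - (a * (z' m).1 ^ 2, 0)‖ ≤
          (4 * |a| * U * d) * Real.exp (-(2 * (ρ - 4 * δ)) * m) := by
        intro m
        refine (norm_quad_sub (z m) (z' m)).trans ?_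
        have h4 : ‖z m‖ + ‖z' m‖ ≤ 4 * U * Real.exp (-(ρ - 4 * δ) * m) := by
          have := add_le_add (hz m) (hz' m)
          linarith
        calc |a| * (‖z m‖ + ‖z' m‖) * ‖z m - z' m‖
            ≤ |a| * (4 * U * Real.exp (-(ρ - 4 * δ) * m)) *
              (d * Real.exp (-(ρ - 4 * δ) * m)) :=
              mul_le_mul (mul_le_mul_of_nonneg_left h4 (abs_nonneg a)) (hd m)
                (norm_nonneg _) (by positivity)
          _ = (4 * |a| * U * d) *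
              (Real.exp (-(ρ - 4 * δ) * m) * Real.exp (-(ρ - 4 * δ) * m)) := by ring
          _ = _ := by rw [hsq]
      refine (lsum_le hb hδ hρ hC hup h3 k).trans ?_
      have h5 : CV ρ δ C * (4 * |a| * U * d) ≤ d / 2 := by
        have := mul_le_mul_of_nonneg_right hs hd0
        nlinarith
      exact mul_le_mul h5 (hexp k) (Real.exp_pos _).le (by positivity))
  have hz3 : ∀ k, z k = u k - lsum a b c p (fun m => (a * (z m).1 ^ 2, 0)) k := by
    intro k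
    exact (congrFun hz2 k).symm
  refine ⟨z, hz1, ?_, ?_⟩
  · have hrec : ∀ k, z (k + 1) = act (der a b ((G a b c)^[k] p)) (z k) +
        (a * (z k).1 ^ 2, 0) := by
      intro k
      have h1 := lsum_succ hb hδ hρ hC hup (hq z hz1) k
      rw [hz3 (k + 1), hu k]
      have h2 : act (der a b ((G a b c)^[k] p)) (z k) =
          act (der a b ((G a b c)^[k] p)) (u k) -
          act (der a b ((G a b c)^[k] p))
            (lsum a b c p (fun m => (a * (z m).1 ^ 2, 0)) k) := by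
        rw [← act_sub]
        exact congrArg _ (hz3 k)
      rw [h2, h1]
      abel
    intro k
    induction k with
    | zero => rfl
    | succ k ih =>
      rw [Function.iterate_succ_apply', ih, G_add, Function.iterate_succ_apply', hrec k, add_assoc]
  · intro k
    have h1 : z k - u k = -lsum a b c p (fun m => (a * (z m).1 ^ 2, 0)) k := by
      rw [sub_eq_iff_eq_add]
      rw [hz3 k]
      abel_nf
    rw [h1, norm_neg]
    exact hsum z hz1 k

end Pool.Agent.HD
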