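import Pool.Agent.HD.Pig
import Pool.Agent.HD.Boot2

set_option autoImplicit false

/-!
HD-Main. Mild dissipation for nonatomic measures with a positive exponent: for almost every point `p` the literal
stable set `Ws` is an injective curve through `p` and both of its branches are unbounded.
-/

namespace Pool.Agent.HD

open MeasureTheory Filter

/-- a bounded half of the stable curve gives a bounded branch -/
private lemma br_of_bounded {b c ρ δ R C : ℝ} {p V : E2} (hb : b ≠ 0) (hδ : 0 < δ)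
    (hρ : 100 * δ ≤ ρ) (h : Reg 1 b c ρ δ R C p V) {γ : ℝ → E2}
    (hγ : ∀ s : ℝ, 0 ≤ s → Asym 1 b c ρ p V s (γ s)) (h0 : γ 0 = p)
    (hB : Bornology.IsBounded (γ '' Set.Ioi 0)) :
    ∃ M : ℝ, Br 1 b c ρ (Metric.closedBall 0 M) p V := by
  obtain ⟨M, hM⟩ := hB.exists_norm_le
  refine ⟨max M ‖p‖, fun s hs q hq => ?_⟩
  have hqs : q = γ s := asym_unique hb hδ hρ h hq (hγ s hs)
  rw [mem_closedBall_zero_iff, hqs]
  rcases eq_or_lt_of_le hs with h1 | h1
  · rw [← h1, h0]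
    exact le_max_right _ _
  · exact (hM _ ⟨s, h1, rfl⟩).trans (le_max_left _ _)

theorem main {b c : ℝ} (hb0 : b ≠ 0) (hb1 : |b| < 1) {μ : Measure E2} [IsProbabilityMeasure μ]
    (hμ : Ergodic (G 1 b c) μ) (hna : ∀ p, μ {p} = 0)
    (hpos : μ {p | 0 < limsup (fun n : ℕ => Real.log ‖fderiv ℝ ((G 1 b c)^[n]) p‖ / n) atTop} ≠ 0) :
    ∀ᵐ p ∂μ, ∃ γ : ℝ → E2, Continuous γ ∧ Function.Injective γ ∧ γ 0 = p ∧
      Set.range γ = Ws (G 1 b c) p ∧ ¬ Bornology.IsBounded (γ '' Set.Ioi 0) ∧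
      ¬ Bornology.IsBounded (γ '' Set.Iio 0) := by
  obtain ⟨χ, hχ, hg⟩ := good hb0 hb1 hμ hpos
  have hlog : Real.log |b| < 0 := Real.log_neg (abs_pos.2 hb0) hb1
  filter_upwards [hg, pig hb0 hb1 hχ hμ hna hg] with p hVU hp
  obtain ⟨V, U, hVU⟩ := hVU
  have hδ : 0 < χ / 100 := by positivity
  have hρ : 100 * (χ / 100) ≤ χ - Real.log |b| := by linarith
  obtain ⟨C, hR, -⟩ := hVU (χ / 100) hδ (by linarith)
  obtain ⟨γ, hγc, hγi, hγ0, hγ⟩ := exists_curve hb0 hδ hρ hR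
  refine ⟨γ, hγc, hγi, hγ0, ?_, ?_, ?_⟩
  · ext q
    rw [ws_iff]
    constructor
    · rintro ⟨s, rfl⟩
      exact Asym.expC hρ hδ hR (hγ s)
    · intro hq
      obtain ⟨s, hs⟩ := expC_asym (R := |c| + 4) (V := V) (δ0 := χ / 100) hb0
        (by linarith : 0 < χ - Real.log |b|) (by linarith) hδ
        (fun δ h1 h2 => by
          obtain ⟨C', hC', -⟩ := hVU δ h1 (by linarith)
          exact ⟨C', hC'⟩) hq
      exact ⟨s, (asym_unique hb0 hδ hρ hR hs (hγ s)).symm⟩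
  · intro hB
    obtain ⟨M, hM⟩ := br_of_bounded hb0 hδ hρ hR (fun s _ => hγ s) hγ0 hB
    exact hp C V hR M hM
  · intro hB
    have h1 : ∀ s : ℝ, 0 ≤ s → Asym 1 b c (χ - Real.log |b|) p (-V) s (γ (-s)) := by
      intro s _
      have := (hγ (-s)).neg
      rwa [neg_neg] at this
    have h2 : Bornology.IsBounded ((fun s => γ (-s)) '' Set.Ioi 0) := by
      refine hB.subset ?_
      rintro _ ⟨s, hs, rfl⟩
      exact ⟨-s, Set.mem_Iio.2 (neg_lt_zero.2 (Set.mem_Ioi.1 hs)), rfl⟩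
    obtain ⟨M, hM⟩ := br_of_bounded (γ := fun s => γ (-s)) hb0 hδ hρ hR.neg h1
      (by simpa using hγ0) h2
    exact hp C (-V) hR.neg M hM

end Pool.Agent.HD
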