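import Mathlib

set_option autoImplicit false

/-!
HD-Maxi. The maximal ergodic theorem (Garsia).

The function `maxiF T φ N x` is the maximum of the Birkhoff sums `S_0 x = 0, S_1 x, ..., S_N x`; on the set where
it is positive it is at most `φ x + maxiF T φ N (T x)`.
-/

namespace Pool.Agent.HD

open MeasureTheory

private noncomputable def maxiF {X : Type*} (T : X → X) (φ : X → ℝ) : ℕ → X → ℝ
  | 0 => fun _ => 0
  | N + 1 => fun x => max 0 (φ x + maxiF T φ N (T x))

private theorem maxiF_nonneg {X : Type*} (T : X → X) (φ : X → ℝ) (N : ℕ) (x : X) :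
    0 ≤ maxiF T φ N x := by
  cases N with
  | zero => simp [maxiF]
  | succ N => simp [maxiF]

private theorem maxiF_mono {X : Type*} (T : X → X) (φ : X → ℝ) (N : ℕ) :
    ∀ x, maxiF T φ N x ≤ maxiF T φ (N + 1) x := by
  induction N with
  | zero => intro x; exact maxiF_nonneg T φ 1 x
  | succ N ih =>
    intro x
    have h := ih (T x)
    show max 0 (φ x + maxiF T φ N (T x)) ≤ max 0 (φ x + maxiF T φ (N + 1) (T x))
    exact max_le_max le_rfl (by linarith)

private theorem maxiF_ge {X : Type*} (T : X → X) (φ : X → ℝ) (N : ℕ) :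
    ∀ x n, n ≤ N → birkhoffSum T φ n x ≤ maxiF T φ N x := by
  induction N with
  | zero =>
    intro x n hn
    obtain rfl : n = 0 := by omega
    simp [maxiF]
  | succ N ih =>
    intro x n hn
    cases n with
    | zero =>
      rw [birkhoffSum_zero]
      exact maxiF_nonneg T φ (N + 1) x
    | succ n =>
      rw [birkhoffSum_succ']
      have h := ih (T x) n (by omega)
      show φ x + birkhoffSum T φ n (T x) ≤ max 0 (φ x + maxiF T φ N (T x))
      exact le_trans (by linarith) (le_max_right _ _)

private theorem maxiF_eq {X : Type*} (T : X → X) (φ : X → ℝ) (N : ℕ) :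
    ∀ x, ∃ n, n ≤ N ∧ maxiF T φ N x = birkhoffSum T φ n x := by
  induction N with
  | zero =>
    intro x
    exact ⟨0, le_rfl, by simp [maxiF]⟩
  | succ N ih =>
    intro x
    obtain ⟨n, hn, he⟩ := ih (T x)
    rcases le_total (φ x + maxiF T φ N (T x)) 0 with h | h
    · refine ⟨0, by omega, ?_⟩
      rw [birkhoffSum_zero]
      show max 0 (φ x + maxiF T φ N (T x)) = 0
      exact max_eq_left h
    · refine ⟨n + 1, by omega, ?_⟩
      rw [birkhoffSum_succ', ← he]
      show max 0 (φ x + maxiF T φ N (T x)) = _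
      exact max_eq_right h

private theorem maxiF_pos_iff {X : Type*} (T : X → X) (φ : X → ℝ) (N : ℕ) (x : X) :
    0 < maxiF T φ N x ↔ ∃ n : ℕ, 1 ≤ n ∧ n ≤ N ∧ 0 < birkhoffSum T φ n x := by
  constructor
  · intro h
    obtain ⟨n, hn, he⟩ := maxiF_eq T φ N x
    rcases Nat.eq_zero_or_pos n with h0 | h0
    · subst h0
      rw [he, birkhoffSum_zero] at h
      exact absurd h (lt_irrefl _)
    · exact ⟨n, h0, hn, he ▸ h⟩
  · rintro ⟨n, _, hn, h⟩
    exact lt_of_lt_of_le h (maxiF_ge T φ N x n hn)

private theorem maxiF_le {X : Type*} (T : X → X) (φ : X → ℝ) (N : ℕ) (x : X)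
    (h : 0 < maxiF T φ N x) : maxiF T φ N x ≤ φ x + maxiF T φ N (T x) := by
  cases N with
  | zero => simp [maxiF] at h
  | succ N =>
    have h1 : maxiF T φ (N + 1) x = max 0 (φ x + maxiF T φ N (T x)) := rfl
    have h2 := maxiF_mono T φ N (T x)
    rcases le_total (φ x + maxiF T φ N (T x)) 0 with h3 | h3
    · rw [h1, max_eq_left h3] at h
      exact absurd h (lt_irrefl _)
    · rw [h1, max_eq_right h3]
      linarith

private theorem maxiF_measurable {X : Type*} [MeasurableSpace X] {T : X → X} {φ : X → ℝ}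
    (hT : Measurable T) (hφ : Measurable φ) (N : ℕ) : Measurable (maxiF T φ N) := by
  induction N with
  | zero => exact measurable_const
  | succ N ih => exact measurable_const.max (hφ.add (ih.comp hT))

private theorem maxiF_integrable {X : Type*} [MeasurableSpace X] {μ : Measure X}
    [IsProbabilityMeasure μ] {T : X → X} (hT : MeasurePreserving T μ μ) {φ : X → ℝ}
    (hi : Integrable φ μ) (N : ℕ) : Integrable (maxiF T φ N) μ := by
  induction N with
  | zero => exact integrable_zero _ _ _
  | succ N ih =>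
    exact (integrable_zero X ℝ μ).sup (hi.add (hT.integrable_comp_of_integrable ih))

theorem maximal {X : Type*} [MeasurableSpace X] {μ : Measure X} [IsProbabilityMeasure μ] {T : X → X}
    (hT : MeasurePreserving T μ μ) {φ : X → ℝ} (hφ : Measurable φ) (hi : Integrable φ μ) (N : ℕ) :
    0 ≤ ∫ x in {x | ∃ n : ℕ, 1 ≤ n ∧ n ≤ N ∧ 0 < birkhoffSum T φ n x}, φ x ∂μ := by
  have hset : {x | ∃ n : ℕ, 1 ≤ n ∧ n ≤ N ∧ 0 < birkhoffSum T φ n x} = {x | 0 < maxiF T φ N x} := by
    ext x
    exact (maxiF_pos_iff T φ N x).symm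
  rw [hset]
  have hmeas : Measurable (maxiF T φ N) := maxiF_measurable hT.measurable hφ N
  have hint : Integrable (maxiF T φ N) μ := maxiF_integrable hT hi N
  have hintT : Integrable (fun x => maxiF T φ N (T x)) μ := hT.integrable_comp_of_integrable hint
  have hA : MeasurableSet {x | 0 < maxiF T φ N x} := measurableSet_lt measurable_const hmeas
  have hf : Integrable (fun x => maxiF T φ N x - maxiF T φ N (T x)) μ := hint.sub hintT
  have h0 : ∫ x, (maxiF T φ N x - maxiF T φ N (T x)) ∂μ = 0 := by
    rw [integral_sub hint hintT, sub_eq_zero]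
    have h := integral_map (μ := μ) hT.measurable.aemeasurable
      (f := maxiF T φ N) hmeas.aestronglyMeasurable
    rw [hT.map_eq] at h
    exact h
  have h1 : ∫ x in {x | 0 < maxiF T φ N x}, (maxiF T φ N x - maxiF T φ N (T x)) ∂μ
      ≤ ∫ x in {x | 0 < maxiF T φ N x}, φ x ∂μ := by
    apply setIntegral_mono_on hf.integrableOn hi.integrableOn hA
    intro x hx
    have hx' : 0 < maxiF T φ N x := hx
    have := maxiF_le T φ N x hx'
    linarith
  have h2 : ∫ x in {x | 0 < maxiF T φ N x}ᶜ, (maxiF T φ N x - maxiF T φ N (T x)) ∂μ ≤ 0 := by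
    apply setIntegral_nonpos hA.compl
    intro x hx
    have hx' : ¬ 0 < maxiF T φ N x := hx
    have := maxiF_nonneg T φ N (T x)
    linarith [not_lt.mp hx']
  have h3 := integral_add_compl hA hf
  linarith


end Pool.Agent.HD
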