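import Pool.Agent.HD.Lit
import Pool.Agent.HD.Supp

set_option autoImplicit false

/-!
HD-Null. Stable sets are null sets of a nonatomic invariant measure.

Let `W = {q | ExpC f p q}` (Borel). For `ε > 0` let `D = {(z, z') ∈ W × W | ε ≤ dist z z'}`. `Prod.map f f` preserves
`μ.prod μ`, which is finite, so almost every point of `D` returns to `D` infinitely often; but
`dist (f^[n] z) (f^[n] z') → 0` for `z, z' ∈ W`. So `D` is null, and `W × W` without the diagonal is null; the diagonal is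
null as `μ` has no atoms. So `μ W * μ W = 0`.
-/

namespace Pool.Agent.HD

open MeasureTheory

private theorem null_map_iterate (f : E2 → E2) (n : ℕ) (z : E2 × E2) :
    (Prod.map f f)^[n] z = (f^[n] z.1, f^[n] z.2) := by
  rw [Prod.map_iterate]
  rfl

private theorem null_tendsto {f : E2 → E2} {p z z' : E2} (h : ExpC f p z) (h' : ExpC f p z') :
    Filter.Tendsto (fun n : ℕ => dist (f^[n] z) (f^[n] z')) Filter.atTop (nhds 0) := by
  have h1 := (h'.symm.trans h).tendsto
  exact h1

private theorem null_far {f : E2 → E2} (hf : Continuous f) {μ : Measure E2}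
    [IsProbabilityMeasure μ] (hμ : MeasurePreserving f μ μ) (p : E2) {ε : ℝ} (hε : 0 < ε) :
    (μ.prod μ) {z : E2 × E2 | (ExpC f p z.1 ∧ ExpC f p z.2) ∧ ε ≤ dist z.1 z.2} = 0 := by
  have hW : MeasurableSet {q | ExpC f p q} := measurableSet_ws hf p
  have hD : MeasurableSet
      {z : E2 × E2 | (ExpC f p z.1 ∧ ExpC f p z.2) ∧ ε ≤ dist z.1 z.2} :=
    (((measurable_fst hW)).inter (measurable_snd hW)).inter
      (measurableSet_le measurable_const (measurable_fst.dist measurable_snd))
  have hc : Conservative (Prod.map f f) (μ.prod μ) := (hμ.prod hμ).conservative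
  have hae := hc.ae_mem_imp_frequently_image_mem hD.nullMeasurableSet
  have hnot : ∀ᵐ z ∂(μ.prod μ),
      ¬ ((ExpC f p z.1 ∧ ExpC f p z.2) ∧ ε ≤ dist z.1 z.2) := by
    filter_upwards [hae] with z hz hzD
    have hfr := hz hzD
    have ht := null_tendsto hzD.1.1 hzD.1.2
    have hev : ∀ᶠ n : ℕ in Filter.atTop, dist (f^[n] z.1) (f^[n] z.2) < ε :=
      ht.eventually (gt_mem_nhds hε)
    obtain ⟨n, hn1, hn2⟩ := (hfr.and_eventually hev).exists
    rw [null_map_iterate] at hn1
    exact absurd hn1.2 (not_le.2 hn2)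
  have := measure_eq_zero_iff_ae_notMem.2 hnot
  exact this

theorem null {f : E2 → E2} (hf : Continuous f) {μ : Measure E2} [IsProbabilityMeasure μ]
    (hμ : MeasurePreserving f μ μ) (hna : ∀ p, μ {p} = 0) (p : E2) :
    μ {q | ExpC f p q} = 0 := by
  have hdiag : (μ.prod μ) {z : E2 × E2 | z.1 = z.2} = 0 := by
    have hm : MeasurableSet {z : E2 × E2 | z.1 = z.2} :=
      measurableSet_eq_fun measurable_fst measurable_snd
    rw [Measure.prod_apply hm]
    have : ∀ x : E2, μ (Prod.mk x ⁻¹' {z : E2 × E2 | z.1 = z.2}) = 0 := by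
      intro x
      have hx : Prod.mk x ⁻¹' {z : E2 × E2 | z.1 = z.2} = {x} := by
        ext y
        simp [eq_comm]
      rw [hx]
      exact hna x
    rw [lintegral_congr this, lintegral_zero]
  have hfar : (μ.prod μ) (⋃ k : ℕ, {z : E2 × E2 | (ExpC f p z.1 ∧ ExpC f p z.2) ∧
      1 / ((k : ℝ) + 1) ≤ dist z.1 z.2}) = 0 :=
    measure_iUnion_null fun k => null_far hf hμ p (by positivity)
  have hsub : ({q | ExpC f p q} ×ˢ {q | ExpC f p q} : Set (E2 × E2)) ⊆
      (⋃ k : ℕ, {z : E2 × E2 | (ExpC f p z.1 ∧ ExpC f p z.2) ∧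
        1 / ((k : ℝ) + 1) ≤ dist z.1 z.2}) ∪ {z : E2 × E2 | z.1 = z.2} := by
    intro z hz
    by_cases hzz : z.1 = z.2
    · exact Or.inr hzz
    · left
      have hd : 0 < dist z.1 z.2 := dist_pos.2 hzz
      obtain ⟨k, hk⟩ := exists_nat_one_div_lt hd
      exact Set.mem_iUnion.2 ⟨k, ⟨hz.1, hz.2⟩, hk.le⟩
  have h0 : (μ.prod μ) ({q | ExpC f p q} ×ˢ {q | ExpC f p q}) = 0 :=
    measure_mono_null hsub (measure_union_null hfar hdiag)
  rw [Measure.prod_prod] at h0
  exact mul_self_eq_zero.1 h0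

end Pool.Agent.HD
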