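import Pool.Agent.HD.Alg

set_option autoImplicit false

/-!
HD-Orb. The maps `G`, `Gi`, the cocycle `co` and the exchange of `G` and its inverse.

`G` and `Gi` are inverse to each other, the cocycle is multiplicative, and the cocycle of
`swap ∘ Gi ∘ swap` is up to the factor `b ^ n` a permutation of the entries of the cocycle of `G`
along the backward orbit.
-/

namespace Pool.Agent.HD

theorem Gi_G {a b c : ℝ} (hb : b ≠ 0) (p : E2) : Gi a b c (G a b c p) = p := by
  unfold Gi G
  refine Prod.ext rfl ?_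
  change (a * p.1 ^ 2 + c - (a * p.1 ^ 2 + c - b * p.2)) / b = p.2
  field_simp
  ring

theorem G_Gi {a b c : ℝ} (hb : b ≠ 0) (p : E2) : G a b c (Gi a b c p) = p := by
  unfold Gi G
  refine Prod.ext ?_ rfl
  change a * p.2 ^ 2 + c - b * ((a * p.2 ^ 2 + c - p.1) / b) = p.1
  field_simp
  ring

theorem Gi_iter_G_iter {a b c : ℝ} (hb : b ≠ 0) (n : ℕ) (p : E2) :
    (Gi a b c)^[n] ((G a b c)^[n] p) = p :=
  (Function.LeftInverse.iterate (fun q => Gi_G hb q) n) p

theorem G_iter_Gi_iter {a b c : ℝ} (hb : b ≠ 0) (n : ℕ) (p : E2) :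
    (G a b c)^[n] ((Gi a b c)^[n] p) = p :=
  (Function.LeftInverse.iterate (fun q => G_Gi hb q) n) p

theorem G_injective {a b c : ℝ} (hb : b ≠ 0) : Function.Injective (G a b c) :=
  Function.LeftInverse.injective (fun q => Gi_G hb q)

theorem continuous_G (a b c : ℝ) : Continuous (G a b c) := by
  unfold G
  fun_prop

theorem continuous_Gi (a b c : ℝ) : Continuous (Gi a b c) := by
  unfold Gi
  fun_prop

theorem continuous_G_iter (a b c : ℝ) (n : ℕ) : Continuous ((G a b c)^[n]) :=
  (continuous_G a b c).iterate n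

theorem continuous_Gi_iter (a b c : ℝ) (n : ℕ) : Continuous ((Gi a b c)^[n]) :=
  (continuous_Gi a b c).iterate n

theorem continuous_co (a b c : ℝ) (n : ℕ) : Continuous fun p : E2 => co a b c p n := by
  induction n with
  | zero => exact continuous_const
  | succ n ih =>
    have h1 : Continuous fun p : E2 => der a b ((G a b c)^[n] p) := by
      have h2 : Continuous fun q : E2 => der a b q := by
        unfold der
        fun_prop
      exact h2.comp (continuous_G_iter a b c n)
    exact continuous_mm.comp (h1.prodMk ih)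

theorem co_add (a b c : ℝ) (p : E2) (m n : ℕ) :
    co a b c p (m + n) = mm (co a b c ((G a b c)^[m] p) n) (co a b c p m) := by
  induction n with
  | zero => exact (one_mm _).symm
  | succ n ih =>
    change mm (der a b ((G a b c)^[m + n] p)) (co a b c p (m + n)) =
      mm (mm (der a b ((G a b c)^[n] ((G a b c)^[m] p))) (co a b c ((G a b c)^[m] p) n))
        (co a b c p m)
    rw [ih, mm_assoc, ← Function.iterate_add_apply, add_comm n m]

theorem co_one (a b c : ℝ) (p : E2) : co a b c p 1 = der a b p := by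
  change mm (der a b p) ((1, 0), (0, 1)) = der a b p
  exact mm_one _

theorem dt_co (a b c : ℝ) (p : E2) (n : ℕ) : dt (co a b c p n) = b ^ n := by
  induction n with
  | zero => simp [co, dt]
  | succ n ih =>
    change dt (mm (der a b ((G a b c)^[n] p)) (co a b c p n)) = b ^ (n + 1)
    rw [dt_mm, ih]
    simp only [dt, der]
    ring

theorem act_co_succ (a b c : ℝ) (p v : E2) (n : ℕ) :
    act (co a b c p (n + 1)) v = act (der a b ((G a b c)^[n] p)) (act (co a b c p n) v) :=
  act_mm _ _ _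

theorem G_swap {a b c : ℝ} (hb : b ≠ 0) (p : E2) :
    G (a / b) (1 / b) (c / b) p.swap = (Gi a b c p).swap := by
  have _ := hb
  unfold Gi G
  refine Prod.ext ?_ rfl
  change a / b * p.2 ^ 2 + c / b - 1 / b * p.1 = (a * p.2 ^ 2 + c - p.1) / b
  ring

theorem G_swap_iter {a b c : ℝ} (hb : b ≠ 0) (p : E2) (n : ℕ) :
    (G (a / b) (1 / b) (c / b))^[n] p.swap = ((Gi a b c)^[n] p).swap := by
  induction n with
  | zero => rfl
  | succ n ih => rw [Function.iterate_succ_apply', Function.iterate_succ_apply', ih, G_swap hb]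

/-- the cocycle of the exchanged map -/
private theorem Orb_co_swap {a b c : ℝ} (hb : b ≠ 0) (p : E2) (n : ℕ) :
    co (a / b) (1 / b) (c / b) p.swap n =
      (((b ^ n)⁻¹ * (co a b c ((Gi a b c)^[n] p) n).1.1,
          -((b ^ n)⁻¹ * (co a b c ((Gi a b c)^[n] p) n).2.1)),
        (-((b ^ n)⁻¹ * (co a b c ((Gi a b c)^[n] p) n).1.2),
          (b ^ n)⁻¹ * (co a b c ((Gi a b c)^[n] p) n).2.2)) := by
  induction n with
  | zero => simp [co]
  | succ n ih =>
    obtain ⟨q, hq⟩ : ∃ q, q = (Gi a b c)^[n] p := ⟨_, rfl⟩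
    have h1 : co (a / b) (1 / b) (c / b) p.swap (n + 1) =
        mm (der (a / b) (1 / b) q.swap) (co (a / b) (1 / b) (c / b) p.swap n) := by
      rw [hq, ← G_swap_iter hb]
      rfl
    have h2 : co a b c ((Gi a b c)^[n + 1] p) (n + 1) =
        mm (co a b c q n) (der a b (Gi a b c q)) := by
      rw [Function.iterate_succ_apply', ← hq, add_comm n 1, co_add, co_one,
        Function.iterate_one, G_Gi hb]
    rw [h1, h2, ih, ← hq]
    obtain ⟨⟨x, y⟩, ⟨z, w⟩⟩ := co a b c q n
    obtain ⟨q1, q2⟩ := q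
    have hbn : b ^ n ≠ 0 := pow_ne_zero n hb
    simp only [mm, der, Gi, Prod.swap, Prod.mk.injEq]
    refine ⟨⟨?_, ?_⟩, ?_, ?_⟩
    · rw [pow_succ]
      field_simp
    · rw [pow_succ]
      field_simp
      ring
    · rw [pow_succ]
      field_simp
      ring
    · rw [pow_succ]
      field_simp
      ring

theorem act_co_swap {a b c : ℝ} (hb : b ≠ 0) (p v : E2) (n : ℕ) :
    act (co (a / b) (1 / b) (c / b) p.swap n) v.swap =
      ((b ^ n)⁻¹ • act (adj (co a b c ((Gi a b c)^[n] p) n)) v).swap := by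
  rw [Orb_co_swap hb]
  refine Prod.ext ?_ ?_
  · simp only [act, adj, Prod.fst_swap, Prod.snd_swap, Prod.smul_snd, smul_eq_mul]
    ring
  · simp only [act, adj, Prod.fst_swap, Prod.snd_swap, Prod.smul_fst, smul_eq_mul]
    ring

theorem norm_co_swap {a b c : ℝ} (hb : b ≠ 0) (p : E2) (n : ℕ) :
    ‖co (a / b) (1 / b) (c / b) p.swap n‖ = ‖co a b c ((Gi a b c)^[n] p) n‖ / |b| ^ n := by
  rw [Orb_co_swap hb]
  obtain ⟨⟨x, y⟩, ⟨z, w⟩⟩ := co a b c ((Gi a b c)^[n] p) n
  have hbn : 0 < |b| ^ n := pow_pos (abs_pos.2 hb) n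
  simp only [Prod.norm_def, Real.norm_eq_abs, abs_neg, abs_mul, abs_inv, abs_pow]
  rw [← mul_max_of_nonneg _ _ (inv_nonneg.2 hbn.le), ← mul_max_of_nonneg _ _ (inv_nonneg.2 hbn.le),
    ← mul_max_of_nonneg _ _ (inv_nonneg.2 hbn.le), max_max_max_comm, inv_mul_eq_div]

/-- exact expansion: the map is quadratic -/
theorem G_add (a b c : ℝ) (p z : E2) :
    G a b c (p + z) = G a b c p + act (der a b p) z + (a * z.1 ^ 2, 0) := by
  refine Prod.ext ?_ ?_
  · simp only [G, act, der, Prod.fst_add, Prod.snd_add]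
    ring
  · simp only [G, act, der, Prod.fst_add, Prod.snd_add]
    ring

end Pool.Agent.HD
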