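import Pool.Agent.HD.Defs

set_option autoImplicit false

/-!
HD-Par. The branches of the stable set do not depend on the parametrisation.

The change of parameters `φ = γ⁻¹ ∘ η` is bounded on intervals on which it is continuous (otherwise a branch of
`γ` would be bounded); with Baire's theorem for the set where `φ` is not locally bounded, `φ` is continuous,
hence a monotone bijection.
-/

namespace Pool.Agent.HD

open Set Topology

private theorem lemA {φ : ℝ → ℝ} (h2 : ∀ k, ContinuousOn φ {t | |φ t| ≤ k})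
    (h4 : ∀ a b s0 : ℝ, ¬ ∀ s, s0 ≤ s → ∃ t ∈ Icc a b, φ t = s)
    (h5 : ∀ a b s0 : ℝ, ¬ ∀ s, s ≤ s0 → ∃ t ∈ Icc a b, φ t = s) {s : Set ℝ}
    (hs : s.OrdConnected) {a b : ℝ} (hsb : s ⊆ Icc a b)
    (hD : ∀ t ∈ s, ∃ k, {t' | |φ t'| ≤ k} ∈ 𝓝 t) : ∃ k, ∀ t ∈ s, |φ t| ≤ k := by
  rcases s.eq_empty_or_nonempty with rfl | ⟨c, hc⟩
  · exact ⟨0, fun t ht => absurd ht (notMem_empty t)⟩
  have hcont : ContinuousOn φ s := by
    intro t ht
    obtain ⟨k, hk⟩ := hD t ht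
    exact ((h2 k).continuousAt hk).continuousWithinAt
  have himg : (φ '' s).OrdConnected :=
    ((hs.isPreconnected).image φ hcont).ordConnected
  have habove : ∃ M, ∀ t ∈ s, φ t ≤ M := by
    by_contra hcon
    push Not at hcon
    apply h4 a b (φ c)
    intro r hr
    obtain ⟨t, ht, hrt⟩ := hcon r
    have h := himg.out (mem_image_of_mem φ hc) (mem_image_of_mem φ ht) ⟨hr, hrt.le⟩
    obtain ⟨t', ht', h'⟩ := h
    exact ⟨t', hsb ht', h'⟩
  have hbelow : ∃ M, ∀ t ∈ s, M ≤ φ t := by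
    by_contra hcon
    push Not at hcon
    apply h5 a b (φ c)
    intro r hr
    obtain ⟨t, ht, hrt⟩ := hcon r
    have h := himg.out (mem_image_of_mem φ ht) (mem_image_of_mem φ hc) ⟨hrt.le, hr⟩
    obtain ⟨t', ht', h'⟩ := h
    exact ⟨t', hsb ht', h'⟩
  obtain ⟨M1, hM1⟩ := habove
  obtain ⟨M2, hM2⟩ := hbelow
  refine ⟨max |M1| |M2|, fun t ht => abs_le_max_abs_abs (hM2 t ht) (hM1 t ht) |>.trans ?_⟩
  rw [max_comm]

private theorem right {φ : ℝ → ℝ} (h2 : ∀ k, ContinuousOn φ {t | |φ t| ≤ k})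
    (h3 : Function.Injective φ)
    (h4 : ∀ a b s0 : ℝ, ¬ ∀ s, s0 ≤ s → ∃ t ∈ Icc a b, φ t = s)
    (h5 : ∀ a b s0 : ℝ, ¬ ∀ s, s ≤ s0 → ∃ t ∈ Icc a b, φ t = s) {N : Set ℝ}
    (hN : IsClosed N) (hND : ∀ t, t ∉ N → ∃ k, {t' | |φ t'| ≤ k} ∈ 𝓝 t) {k u v t0 : ℝ}
    (hk : ∀ t ∈ N, u < t → t < v → |φ t| ≤ k) (ht0 : t0 ∈ N) (hu : u < t0) (hv : t0 < v) :
    ∃ w, t0 < w ∧ ∃ k', ∀ t ∈ Ioo t0 w, |φ t| ≤ k' := by
  by_cases h : ∃ t1 ∈ N, t0 < t1 ∧ t1 < v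
  · obtain ⟨t1, ht1, h01, h1v⟩ := h
    refine ⟨t1, h01, k, fun t ht => ?_⟩
    by_cases htN : t ∈ N
    · exact hk t htN (hu.trans ht.1) (ht.2.trans h1v)
    have hc1 : IsCompact (N ∩ Icc t0 t) := by
      rw [inter_comm]
      exact isCompact_Icc.inter_right hN
    have hc2 : IsCompact (N ∩ Icc t t1) := by
      rw [inter_comm]
      exact isCompact_Icc.inter_right hN
    have hn1 : (N ∩ Icc t0 t).Nonempty := ⟨t0, ht0, le_rfl, ht.1.le⟩
    have hn2 : (N ∩ Icc t t1).Nonempty := ⟨t1, ht1, ht.2.le, le_rfl⟩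
    have hα := hc1.sSup_mem hn1
    have hβ := hc2.sInf_mem hn2
    have hα' := fun x hx => le_csSup hc1.bddAbove (a := x) hx
    have hβ' := fun x hx => csInf_le hc2.bddBelow (a := x) hx
    generalize sSup (N ∩ Icc t0 t) = α at hα hα'
    generalize sInf (N ∩ Icc t t1) = β at hβ hβ'
    have hαt : α < t := lt_of_le_of_ne hα.2.2 fun h => htN (h ▸ hα.1)
    have htβ : t < β := lt_of_le_of_ne hβ.2.1 fun h => htN (h ▸ hβ.1)
    have hαk : |φ α| ≤ k := hk α hα.1 (hu.trans_le hα.2.1) ((hα.2.2.trans_lt ht.2).trans h1v)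
    have hβk : |φ β| ≤ k := hk β hβ.1 ((hu.trans ht.1).trans_le hβ.2.1) (hβ.2.2.trans_lt h1v)
    obtain ⟨k', hk'⟩ := lemA h2 h4 h5 (s := Ioo α β) ordConnected_Ioo Ioo_subset_Icc_self
      (fun x hx => hND x fun hxN => by
        rcases le_total x t with h | h
        · exact absurd (hα' x ⟨hxN, (hα.2.1.trans hx.1.le), h⟩) (not_le.2 hx.1)
        · exact absurd (hβ' x ⟨hxN, h, (hx.2.le.trans hβ.2.2)⟩) (not_le.2 hx.2))
    have hIcc : Icc α β ⊆ {x | |φ x| ≤ max k k'} := by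
      intro x hx
      rcases eq_or_lt_of_le hx.1 with h | h
      · rw [← h]
        exact hαk.trans (le_max_left _ _)
      · rcases eq_or_lt_of_le hx.2 with h' | h'
        · rw [h']
          exact hβk.trans (le_max_left _ _)
        · exact (hk' x ⟨h, h'⟩).trans (le_max_right _ _)
    have hcont : ContinuousOn φ (Icc α β) := (h2 _).mono hIcc
    have hαβ : α ≤ β := (hαt.trans htβ).le
    have hmα : α ∈ Icc α β := ⟨le_rfl, hαβ⟩
    have hmβ : β ∈ Icc α β := ⟨hαβ, le_rfl⟩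
    have hmt : t ∈ Icc α β := ⟨hαt.le, htβ.le⟩
    rw [abs_le] at hαk hβk ⊢
    rcases hcont.strictMonoOn_of_injOn_Icc' hαβ h3.injOn with hm | hm
    · have e1 := hm hmα hmt hαt
      have e2 := hm hmt hmβ htβ
      exact ⟨hαk.1.trans e1.le, e2.le.trans hβk.2⟩
    · have e1 := hm hmα hmt hαt
      have e2 := hm hmt hmβ htβ
      exact ⟨hβk.1.trans e2.le, e1.le.trans hαk.2⟩
  · push Not at h
    obtain ⟨k', hk'⟩ := lemA h2 h4 h5 (s := Ioo t0 v) ordConnected_Ioo Ioo_subset_Icc_self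
      (fun x hx => hND x fun hxN => absurd hx.2 (not_lt.2 (h x hxN hx.1)))
    exact ⟨v, hv, k', hk'⟩

private theorem left {φ : ℝ → ℝ} (h2 : ∀ k, ContinuousOn φ {t | |φ t| ≤ k})
    (h3 : Function.Injective φ)
    (h4 : ∀ a b s0 : ℝ, ¬ ∀ s, s0 ≤ s → ∃ t ∈ Icc a b, φ t = s)
    (h5 : ∀ a b s0 : ℝ, ¬ ∀ s, s ≤ s0 → ∃ t ∈ Icc a b, φ t = s) {N : Set ℝ}
    (hN : IsClosed N) (hND : ∀ t, t ∉ N → ∃ k, {t' | |φ t'| ≤ k} ∈ 𝓝 t) {k u v t0 : ℝ}
    (hk : ∀ t ∈ N, u < t → t < v → |φ t| ≤ k) (ht0 : t0 ∈ N) (hu : u < t0) (hv : t0 < v) :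
    ∃ w, w < t0 ∧ ∃ k', ∀ t ∈ Ioo w t0, |φ t| ≤ k' := by
  have g1 : ∀ k, ContinuousOn (fun t => φ (-t)) {t | |φ (-t)| ≤ k} := fun k =>
    (h2 k).comp continuous_neg.continuousOn fun t ht => ht
  have g2 : Function.Injective fun t => φ (-t) := fun x y hxy => neg_injective (h3 hxy)
  have g3 : ∀ a b s0 : ℝ, ¬ ∀ s, s0 ≤ s → ∃ t ∈ Icc a b, φ (-t) = s := by
    intro a b s0 hcon
    refine h4 (-b) (-a) s0 fun s hs => ?_
    obtain ⟨t, ht, h⟩ := hcon s hs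
    exact ⟨-t, ⟨by linarith [ht.2], by linarith [ht.1]⟩, h⟩
  have g4 : ∀ a b s0 : ℝ, ¬ ∀ s, s ≤ s0 → ∃ t ∈ Icc a b, φ (-t) = s := by
    intro a b s0 hcon
    refine h5 (-b) (-a) s0 fun s hs => ?_
    obtain ⟨t, ht, h⟩ := hcon s hs
    exact ⟨-t, ⟨by linarith [ht.2], by linarith [ht.1]⟩, h⟩
  have g5 : ∀ t, t ∉ Neg.neg ⁻¹' N → ∃ k, {t' | |φ (-t')| ≤ k} ∈ 𝓝 t := by
    intro t ht
    obtain ⟨k, hk⟩ := hND (-t) ht
    exact ⟨k, continuous_neg.continuousAt.preimage_mem_nhds hk⟩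
  have g6 : ∀ t ∈ Neg.neg ⁻¹' N, -v < t → t < -u → |φ (-t)| ≤ k := by
    intro t ht h1 h2'
    exact hk (-t) ht (by linarith) (by linarith)
  have g7 : -t0 ∈ Neg.neg ⁻¹' N := by
    rw [mem_preimage, neg_neg]
    exact ht0
  obtain ⟨w, hw, k', hk'⟩ := right g1 g2 g3 g4 (hN.preimage continuous_neg) g5 g6 g7
    (by linarith) (by linarith)
  refine ⟨-w, by linarith, k', fun t ht => ?_⟩
  have := hk' (-t) ⟨by linarith [ht.2], by linarith [ht.1]⟩
  rwa [neg_neg] at this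

private theorem cont {φ : ℝ → ℝ} (h1 : ∀ k, IsClosed {t | |φ t| ≤ k})
    (h2 : ∀ k, ContinuousOn φ {t | |φ t| ≤ k}) (h3 : Function.Injective φ)
    (h4 : ∀ a b s0 : ℝ, ¬ ∀ s, s0 ≤ s → ∃ t ∈ Icc a b, φ t = s)
    (h5 : ∀ a b s0 : ℝ, ¬ ∀ s, s ≤ s0 → ∃ t ∈ Icc a b, φ t = s) : Continuous φ := by
  set D : Set ℝ := {t | ∃ k, {t' | |φ t'| ≤ k} ∈ 𝓝 t} with hD
  have hDo : IsOpen D := by
    rw [isOpen_iff_mem_nhds]
    rintro t ⟨k, hk⟩
    have h := eventually_mem_nhds_iff.2 hk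
    exact Filter.mem_of_superset h fun x hx => ⟨k, hx⟩
  have hall : ∀ t, t ∈ D := by
    by_contra hcon
    push Not at hcon
    obtain ⟨t', ht'⟩ := hcon
    have hNc : IsClosed Dᶜ := hDo.isClosed_compl
    have : CompleteSpace (Dᶜ : Set ℝ) := hNc.completeSpace_coe
    have : Nonempty (Dᶜ : Set ℝ) := ⟨⟨t', ht'⟩⟩
    obtain ⟨n, ⟨x, hx⟩⟩ := nonempty_interior_of_iUnion_of_closed
      (f := fun n : ℕ => {x : (Dᶜ : Set ℝ) | |φ x| ≤ n})
      (fun n => (h1 n).preimage continuous_subtype_val) (by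
        ext x
        simp only [mem_iUnion, mem_ofPred_eq, mem_univ, iff_true]
        exact exists_nat_ge _)
    rw [mem_interior] at hx
    obtain ⟨V, hVn, hVo, hxV⟩ := hx
    obtain ⟨U, hUo, rfl⟩ := isOpen_induced_iff.1 hVo
    obtain ⟨u, v, ⟨hu, hv⟩, huv⟩ := mem_nhds_iff_exists_Ioo_subset.1 (hUo.mem_nhds hxV)
    have hk : ∀ t ∈ Dᶜ, u < t → t < v → |φ t| ≤ n := by
      intro t ht h6 h7
      exact hVn (show (⟨t, ht⟩ : (Dᶜ : Set ℝ)) ∈ _ from huv ⟨h6, h7⟩)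
    have hND : ∀ t, t ∉ Dᶜ → ∃ k, {t' | |φ t'| ≤ k} ∈ 𝓝 t := fun t ht => notMem_compl_iff.1 ht
    obtain ⟨w, hw, k1, hk1⟩ := right h2 h3 h4 h5 hNc hND hk x.2 hu hv
    obtain ⟨w', hw', k2, hk2⟩ := left h2 h3 h4 h5 hNc hND hk x.2 hu hv
    apply x.2
    refine ⟨max (n : ℝ) (max k1 k2), Filter.mem_of_superset (Ioo_mem_nhds hw' hw) fun t ht => ?_⟩
    rcases lt_trichotomy t x with h | h | h
    · exact (hk2 t ⟨ht.1, h⟩).trans ((le_max_right _ _).trans (le_max_right _ _))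
    · rw [h]
      exact (hk x x.2 hu hv).trans (le_max_left _ _)
    · exact (hk1 t ⟨h, ht.2⟩).trans ((le_max_left _ _).trans (le_max_right _ _))
  rw [continuous_iff_continuousAt]
  intro t
  obtain ⟨k, hk⟩ := hall t
  exact (h2 k).continuousAt hk

theorem par {γ η : ℝ → E2} (hγ : Continuous γ) (hγi : Function.Injective γ)
    (hη : Continuous η) (hηi : Function.Injective η) (h0 : γ 0 = η 0)
    (hr : Set.range γ = Set.range η) (hu1 : ¬ Bornology.IsBounded (γ '' Set.Ioi 0))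
    (hu2 : ¬ Bornology.IsBounded (γ '' Set.Iio 0)) :
    ¬ Bornology.IsBounded (η '' Set.Ioi 0) ∧ ¬ Bornology.IsBounded (η '' Set.Iio 0) := by
  have hex : ∀ t, ∃ s, γ s = η t := by
    intro t
    have h : η t ∈ range γ := by rw [hr]; exact mem_range_self t
    exact h
  choose φ hφ using hex
  have hφ0 : φ 0 = 0 := hγi (by rw [hφ, h0])
  have hsurj : ∀ s, ∃ t, φ t = s := by
    intro s
    have h : γ s ∈ range η := by rw [← hr]; exact mem_range_self s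
    obtain ⟨t, ht⟩ := h
    exact ⟨t, hγi (by rw [hφ, ht])⟩
  have hpre : ∀ (k : ℝ) (C : Set ℝ), φ ⁻¹' C ∩ {t | |φ t| ≤ k} = η ⁻¹' (γ '' (Icc (-k) k ∩ C)) := by
    intro k C
    ext t
    simp only [mem_inter_iff, mem_preimage, mem_ofPred_eq, mem_image, mem_Icc]
    constructor
    · rintro ⟨h1, h2⟩
      exact ⟨φ t, ⟨abs_le.1 h2, h1⟩, hφ t⟩
    · rintro ⟨s, ⟨h1, h2⟩, h3⟩
      have h4 : φ t = s := hγi (by rw [hφ, h3])
      rw [h4]
      exact ⟨h2, abs_le.2 h1⟩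
  have hclosed : ∀ (k : ℝ) (C : Set ℝ), IsClosed C →
      IsClosed (φ ⁻¹' C ∩ {t | |φ t| ≤ k}) := by
    intro k C hC
    rw [hpre]
    exact ((isCompact_Icc.inter_right hC).image hγ).isClosed.preimage hη
  have h1 : ∀ k, IsClosed {t | |φ t| ≤ k} := by
    intro k
    have h := hclosed k univ isClosed_univ
    rwa [preimage_univ, univ_inter] at h
  have h2 : ∀ k, ContinuousOn φ {t | |φ t| ≤ k} := by
    intro k
    rw [continuousOn_iff_isClosed]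
    intro C hC
    exact ⟨_, hclosed k C hC, by rw [inter_assoc, inter_self]⟩
  have h3 : Function.Injective φ := by
    intro x y hxy
    exact hηi (by rw [← hφ, ← hφ, hxy])
  have h4 : ∀ a b s0 : ℝ, ¬ ∀ s, s0 ≤ s → ∃ t ∈ Icc a b, φ t = s := by
    intro a b s0 hcon
    apply hu1
    have hb : Bornology.IsBounded (γ '' Icc 0 s0 ∪ η '' Icc a b) :=
      ((isCompact_Icc.image hγ).isBounded).union ((isCompact_Icc.image hη).isBounded)
    refine hb.subset ?_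
    rintro _ ⟨s, hs, rfl⟩
    rcases le_total s s0 with h | h
    · exact Or.inl ⟨s, ⟨(mem_Ioi.1 hs).le, h⟩, rfl⟩
    · obtain ⟨t, ht, hts⟩ := hcon s h
      exact Or.inr ⟨t, ht, by rw [← hφ, hts]⟩
  have h5 : ∀ a b s0 : ℝ, ¬ ∀ s, s ≤ s0 → ∃ t ∈ Icc a b, φ t = s := by
    intro a b s0 hcon
    apply hu2
    have hb : Bornology.IsBounded (γ '' Icc s0 0 ∪ η '' Icc a b) :=
      ((isCompact_Icc.image hγ).isBounded).union ((isCompact_Icc.image hη).isBounded)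
    refine hb.subset ?_
    rintro _ ⟨s, hs, rfl⟩
    rcases le_total s0 s with h | h
    · exact Or.inl ⟨s, ⟨h, (mem_Iio.1 hs).le⟩, rfl⟩
    · obtain ⟨t, ht, hts⟩ := hcon s h
      exact Or.inr ⟨t, ht, by rw [← hφ, hts]⟩
  have hcont := cont h1 h2 h3 h4 h5
  rcases hcont.strictMono_of_inj h3 with hm | hm
  · constructor
    · intro hb
      apply hu1
      refine hb.subset ?_
      rintro _ ⟨s, hs, rfl⟩
      obtain ⟨t, rfl⟩ := hsurj s
      refine ⟨t, ?_, (hφ t).symm⟩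
      rw [mem_Ioi] at hs ⊢
      rw [← hφ0] at hs
      exact hm.lt_iff_lt.1 hs
    · intro hb
      apply hu2
      refine hb.subset ?_
      rintro _ ⟨s, hs, rfl⟩
      obtain ⟨t, rfl⟩ := hsurj s
      refine ⟨t, ?_, (hφ t).symm⟩
      rw [mem_Iio] at hs ⊢
      rw [← hφ0] at hs
      exact hm.lt_iff_lt.1 hs
  · constructor
    · intro hb
      apply hu2
      refine hb.subset ?_
      rintro _ ⟨s, hs, rfl⟩
      obtain ⟨t, rfl⟩ := hsurj s
      refine ⟨t, ?_, (hφ t).symm⟩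
      rw [mem_Iio] at hs
      rw [mem_Ioi]
      rw [← hφ0] at hs
      exact hm.lt_iff_gt.1 hs
    · intro hb
      apply hu1
      refine hb.subset ?_
      rintro _ ⟨s, hs, rfl⟩
      obtain ⟨t, rfl⟩ := hsurj s
      refine ⟨t, ?_, (hφ t).symm⟩
      rw [mem_Ioi] at hs
      rw [mem_Iio]
      rw [← hφ0] at hs
      exact hm.lt_iff_gt.1 hs

end Pool.Agent.HD
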