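import Pool.Agent.HD.Bnd
import Pool.Agent.HD.Angle
import Pool.Agent.HD.GeoA
import Pool.Agent.HD.GeoB
import Pool.Agent.HD.Good
import Pool.Agent.HD.Null

set_option autoImplicit false

/-!
HD-Pig. Almost no point has a bounded branch.

A point with a bounded branch is, almost everywhere, regular in both directions with a natural constant and has its
branch in `Kb`; by compactness of the set of the pairs of unit vectors at a definite angle the set of these points is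
a finite union of sets to which `geoA` and `geoB` apply.
-/

namespace Pool.Agent.HD

open MeasureTheory

private def pigK (C : ℝ) : Set (E2 × E2) := {x | ‖x.1‖ = 1 ∧ ‖x.2‖ = 1 ∧ C⁻¹ ≤ |wd x.1 x.2|}

private theorem pigK_compact (C : ℝ) : IsCompact (pigK C) := by
  refine (isCompact_closedBall (0 : E2 × E2) 1).of_isClosed_subset ?_ ?_
  · have h1 : IsClosed {x : E2 × E2 | ‖x.1‖ = 1} :=
      isClosed_eq continuous_fst.norm continuous_const
    have h2 : IsClosed {x : E2 × E2 | ‖x.2‖ = 1} :=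
      isClosed_eq continuous_snd.norm continuous_const
    have h3 : IsClosed {x : E2 × E2 | C⁻¹ ≤ |wd x.1 x.2|} :=
      isClosed_le continuous_const continuous_wd.abs
    exact h1.inter (h2.inter h3)
  · rintro x ⟨h1, h2, -⟩
    rw [mem_closedBall_zero_iff, Prod.norm_def]
    exact max_le h1.le h2.le

private theorem norm_swap (U : E2) : ‖U.swap‖ = ‖U‖ := by
  rw [Prod.norm_def, Prod.norm_def, max_comm]
  rfl

/-- the points which are regular in both directions, with a branch in `Kb` -/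
private def pigQ (b c χ δ R C : ℝ) (N : Set (E2 × E2)) : Set E2 :=
  {p | ∃ V U : E2, Both b c χ δ R C p V U ∧ Br 1 b c (χ - Real.log |b|) (Kb b c R) p V ∧
    (V, U) ∈ N}

private theorem pigQ_null {b c χ δ C : ℝ} (hb0 : b ≠ 0) (hb1 : |b| < 1) (hδ : 0 < δ)
    (hχ : 100 * δ ≤ χ) (hC : 0 < C) {μ : Measure E2}
    [IsProbabilityMeasure μ] (hμ : Ergodic (G 1 b c) μ) (hna : ∀ p, μ {p} = 0) :
    μ (pigQ b c χ δ (|c| + 4) C Set.univ) = 0 := by
  have hmp := hμ.toMeasurePreserving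
  have hs : ∀ p, μ {q | ExpC (G 1 b c) p q} = 0 := null (continuous_G 1 b c) hmp hna
  have hu : ∀ p, μ {q | ExpC (Gi 1 b c) p q} = 0 :=
    null (continuous_Gi 1 b c) (mp_Gi hb0 hmp) hna
  have hw : ∀ x ∈ pigK C, wd x.1 x.2 ≠ 0 := by
    rintro x ⟨-, -, h⟩ h0
    rw [h0, abs_zero] at h
    have : 0 < C⁻¹ := inv_pos.mpr hC
    linarith
  have hg : ∀ x : E2 × E2, ∀ hx : x ∈ pigK C, ∃ η : ℝ, 0 < η ∧ ∃ r : ℝ, 0 < r ∧ ∀ p V U : E2,
      Both b c χ δ (|c| + 4) C p V U →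
      Br 1 b c (χ - Real.log |b|) (Kb b c (|c| + 4)) p V → ‖V - x.1‖ ≤ η → ‖U - x.2‖ ≤ η →
      ∃ g h : ℝ → ℝ, Gph b c (|c| + 4 + 1) x.1 x.2 r p g h :=
    fun x hx => geoA hb0 hb1 hδ hχ (hw x hx)
  choose η hη r hr hgr using hg
  obtain ⟨t, ht⟩ := (pigK_compact C).elim_nhds_subcover' (fun x hx => Metric.ball x (η x hx))
    (fun x hx => Metric.ball_mem_nhds x (hη x hx))
  have hsub : pigQ b c χ δ (|c| + 4) C Set.univ ⊆
      ⋃ x ∈ t, pigQ b c χ δ (|c| + 4) C (Metric.ball (x : E2 × E2) (η x x.2)) := by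
    rintro p ⟨V, U, h1, h2, -⟩
    have hVU : (V, U) ∈ pigK C := by
      refine ⟨h1.s.unit, ?_, h1.angle⟩
      have := h1.u.unit
      rwa [norm_swap] at this
    have h3 := ht hVU
    rw [Set.mem_iUnion₂] at h3 ⊢
    obtain ⟨x, hx, h4⟩ := h3
    exact ⟨x, hx, V, U, h1, h2, h4⟩
  refine measure_mono_null hsub ?_
  refine (measure_biUnion_null_iff (I := (t : Set (pigK C))) t.countable_toSet).2 ?_
  intro x _
  by_contra hQ
  refine geoB (R' := |c| + 4 + 1) hb0 hb1 hs hu (hw x x.2) (hr x x.2) hQ ?_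
  rintro p ⟨V, U, h1, h2, h3⟩
  have h4 : dist (V, U) (x : E2 × E2) < η x x.2 := h3
  rw [Prod.dist_eq, max_lt_iff, dist_eq_norm, dist_eq_norm] at h4
  exact hgr x x.2 p V U h1 h2 h4.1.le h4.2.le

theorem pig {b c χ : ℝ} (hb0 : b ≠ 0) (hb1 : |b| < 1) (hχ : 0 < χ) {μ : Measure E2}
    [IsProbabilityMeasure μ] (hμ : Ergodic (G 1 b c) μ) (hna : ∀ p, μ {p} = 0)
    (hgood : ∀ᵐ p ∂μ, ∃ V U : E2, ∀ δ : ℝ, 0 < δ → 100 * δ ≤ χ → ∃ C : ℝ,
      Reg 1 b c (χ - Real.log |b|) δ (|c| + 4) C p V ∧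
      Reg (1 / b) (1 / b) (c / b) χ δ (|c| + 4) C p.swap U.swap) :
    ∀ᵐ p ∂μ, ∀ (C : ℝ) (V : E2),
      Reg 1 b c (χ - Real.log |b|) (χ / 100) (|c| + 4) C p V → ∀ M : ℝ,
      ¬ Br 1 b c (χ - Real.log |b|) (Metric.closedBall 0 M) p V := by
  have hδ : 0 < χ / 100 := by positivity
  have hχ' : 100 * (χ / 100) ≤ χ := by linarith
  have hmp := hμ.toMeasurePreserving
  have h1 := bnd hb0 hb1 hδ hχ' hmp
  have h2 := angle (R := |c| + 4) hb0 hb1 hδ hχ' hmp
  have h3 : ∀ᵐ p ∂μ, ∀ n : ℕ,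
      p ∉ pigQ b c χ (χ / 100) (|c| + 4) ((n : ℝ) + 1) Set.univ := by
    rw [ae_all_iff]
    intro n
    have := pigQ_null (C := (n : ℝ) + 1) hb0 hb1 hδ hχ' (by positivity) hμ hna
    exact measure_eq_zero_iff_ae_notMem.mp this
  filter_upwards [hgood, h1, h2, h3] with p g1 g2 g3 g4
  intro C V hV M hM
  obtain ⟨V0, U, hg⟩ := g1
  obtain ⟨C0, -, hU⟩ := hg (χ / 100) hδ hχ'
  have hw : wd V U ≠ 0 := g3 (max C C0) V U (hV.mono (le_max_left _ _) le_rfl)
    (hU.mono (le_max_right _ _) le_rfl)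
  obtain ⟨n, hn⟩ := exists_nat_ge (max (max C C0) (|wd V U|⁻¹))
  have hn1 : C ≤ (n : ℝ) + 1 := by
    have := (le_max_left C C0).trans ((le_max_left _ _).trans hn)
    linarith
  have hn2 : C0 ≤ (n : ℝ) + 1 := by
    have := (le_max_right C C0).trans ((le_max_left _ _).trans hn)
    linarith
  have hn3 : |wd V U|⁻¹ ≤ (n : ℝ) + 1 := by
    have := (le_max_right (max C C0) (|wd V U|⁻¹)).trans hn
    linarith
  refine g4 n ⟨V, U, ⟨hV.mono hn1 le_rfl, hU.mono hn2 le_rfl, ?_⟩, g2 C V hV M hM,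
    Set.mem_univ _⟩
  have h5 : 0 < |wd V U| := abs_pos.mpr hw
  have h6 : (0 : ℝ) < (n : ℝ) + 1 := by positivity
  rwa [inv_le_comm₀ h6 h5]

end Pool.Agent.HD
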