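import Pool.Agent.HD.Uq

set_option autoImplicit false

/-!
HD-Volt. The Volterra estimate (variation of constants from infinity).
-/

namespace Pool.Agent.HD

variable {a b c ρ δ C : ℝ} {p : E2}

private lemma adj_mm' (M N : M2) : adj (mm M N) = mm (adj N) (adj M) := by
  simp only [adj, mm, Prod.mk.injEq]
  refine ⟨⟨?_, ?_⟩, ⟨?_, ?_⟩⟩ <;> ring

private lemma dt_der' (a b : ℝ) (q : E2) : dt (der a b q) = b := by
  simp [dt, der]

private lemma volt_step (hb : b ≠ 0) (n : ℕ) (D M : M2) (hD : dt D = b) (y g : E2) :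
    (b ^ (n + 1))⁻¹ • act (adj (mm D M)) (act D y + g) =
      (b ^ n)⁻¹ • act (adj M) y + (b ^ (n + 1))⁻¹ • act (adj (mm D M)) g := by
  rw [act_add, smul_add, adj_mm', act_mm, act_mm, act_adj_act, hD, act_smul, smul_smul]
  congr 2
  rw [pow_succ]
  field_simp

theorem volt (hb : b ≠ 0) (hδ : 0 < δ) (hρ : 100 * δ ≤ ρ) (hC : 0 ≤ C)
    (hup : Up a b c (ρ + Real.log |b|) δ C p) {N : ℕ} {y g : ℕ → E2}
    (hy : ∀ k ≥ N, y (k + 1) = act (der a b ((G a b c)^[k] p)) (y k) + g k) {Γ D : ℝ}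
    (hg : ∀ k ≥ N, ‖g k‖ ≤ Γ * Real.exp (-(2 * (ρ - 4 * δ)) * k))
    (hD : ∀ k ≥ N, ‖y k‖ ≤ D * Real.exp (-(ρ + 2 * δ) * k)) :
    ∀ k ≥ N, ‖y k‖ ≤ CV ρ δ C * Γ * Real.exp (-(2 * ρ - 9 * δ) * k) := by
  intro k hk
  set q : E2 := (G a b c)^[k] p with hq
  set Y : ℕ → E2 := fun n => (b ^ n)⁻¹ • act (adj (co a b c q n)) (y (k + n)) with hY
  set r : ℝ := Real.exp (-(ρ - 9 * δ)) with hr
  have hr0 : 0 < r := Real.exp_pos _
  have hr1 : r < 1 := by
    rw [hr, Real.exp_lt_one_iff]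
    linarith
  set K : ℝ := 2 * C * Γ * Real.exp (ρ + δ) * Real.exp (-(2 * ρ - 9 * δ) * k) with hK
  have hinc : ∀ n, Y (n + 1) = Y n +
      (b ^ (n + 1))⁻¹ • act (adj (co a b c q (n + 1))) (g (k + n)) := by
    intro n
    have h1 := hy (k + n) (by omega)
    have h2 : (G a b c)^[k + n] p = (G a b c)^[n] q := by
      rw [hq, ← Function.iterate_add_apply, add_comm]
    rw [h2] at h1
    have h3 := volt_step hb n (der a b ((G a b c)^[n] q)) (co a b c q n) (dt_der' _ _ _)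
      (y (k + n)) (g (k + n))
    rw [← h1] at h3
    exact h3
  have hincn : ∀ n, ‖(b ^ (n + 1))⁻¹ • act (adj (co a b c q (n + 1))) (g (k + n))‖ ≤
      K * r ^ n := by
    intro n
    refine (inv_bound' hb hup k (n + 1) (g (k + n))).trans ?_
    have h1 := hg (k + n) (by omega)
    have h2 : 0 ≤ 2 * C * Real.exp ((ρ + δ) * ((n + 1 : ℕ) : ℝ) + δ * k) := by positivity
    refine (mul_le_mul_of_nonneg_left h1 h2).trans (le_of_eq ?_)
    rw [hK, hr, ← Real.exp_nat_mul]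
    have h3 : Real.exp ((ρ + δ) * ((n + 1 : ℕ) : ℝ) + δ * k) *
        Real.exp (-(2 * (ρ - 4 * δ)) * ((k + n : ℕ) : ℝ)) =
        Real.exp (ρ + δ) * Real.exp (-(2 * ρ - 9 * δ) * k) * Real.exp (n * -(ρ - 9 * δ)) := by
      rw [← Real.exp_add, ← Real.exp_add, ← Real.exp_add]
      congr 1
      push_cast
      ring
    linear_combination (2 * C * Γ) * h3
  have hsum : ∀ n, ‖Y 0‖ ≤ ‖Y n‖ + K * ∑ i ∈ Finset.range n, r ^ i := by
    intro n
    induction n with
    | zero => simp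
    | succ n ih =>
      have h1 : Y n = Y (n + 1) -
          (b ^ (n + 1))⁻¹ • act (adj (co a b c q (n + 1))) (g (k + n)) := by
        rw [hinc n]; abel
      have h2 : ‖Y n‖ ≤ ‖Y (n + 1)‖ + K * r ^ n := by
        rw [h1]
        exact (norm_sub_le _ _).trans (by linarith [hincn n])
      rw [Finset.sum_range_succ, mul_add]
      linarith
  have hΓ : 0 ≤ Γ := by
    have h1 := (norm_nonneg _).trans (hg k hk)
    exact nonneg_of_mul_nonneg_left h1 (Real.exp_pos _)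
  have hK0 : 0 ≤ K := by positivity
  have hgeo : ∀ n, ∑ i ∈ Finset.range n, r ^ i ≤ (1 - r)⁻¹ := by
    intro n
    rw [← tsum_geometric_of_lt_one hr0.le hr1]
    exact (summable_geometric_of_lt_one hr0.le hr1).sum_le_tsum _ (fun i _ => by positivity)
  have hYn : ∀ n : ℕ, ‖Y n‖ ≤ 2 * C * D * Real.exp (-(ρ + δ) * k) * Real.exp (-δ) ^ n := by
    intro n
    refine (inv_bound' hb hup k n (y (k + n))).trans ?_
    have h1 := hD (k + n) (by omega)
    have h2 : 0 ≤ 2 * C * Real.exp ((ρ + δ) * (n : ℝ) + δ * k) := by positivity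
    refine (mul_le_mul_of_nonneg_left h1 h2).trans (le_of_eq ?_)
    rw [← Real.exp_nat_mul]
    have h3 : Real.exp ((ρ + δ) * (n : ℝ) + δ * k) *
        Real.exp (-(ρ + 2 * δ) * ((k + n : ℕ) : ℝ)) =
        Real.exp (-(ρ + δ) * k) * Real.exp (n * -δ) := by
      rw [← Real.exp_add, ← Real.exp_add]
      congr 1
      push_cast
      ring
    linear_combination (2 * C * D) * h3
  have hlim : Filter.Tendsto (fun n : ℕ => 2 * C * D * Real.exp (-(ρ + δ) * k) *
      Real.exp (-δ) ^ n + K * (1 - r)⁻¹) Filter.atTop (nhds (K * (1 - r)⁻¹)) := by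
    have h1 : Filter.Tendsto (fun n : ℕ => Real.exp (-δ) ^ n) Filter.atTop (nhds 0) :=
      tendsto_pow_atTop_nhds_zero_of_lt_one (Real.exp_pos _).le
        (Real.exp_lt_one_iff.2 (by linarith))
    have h2 := (h1.const_mul (2 * C * D * Real.exp (-(ρ + δ) * k))).add_const (K * (1 - r)⁻¹)
    simpa using h2
  have hfin : ‖Y 0‖ ≤ K * (1 - r)⁻¹ := by
    refine ge_of_tendsto' hlim (fun n => ?_)
    have h1 := hsum n
    have h2 := mul_le_mul_of_nonneg_left (hgeo n) hK0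
    have h3 := hYn n
    linarith
  have hY0 : Y 0 = y k := by
    simp only [hY, pow_zero, inv_one, one_smul, add_zero]
    have h1 : adj (co a b c q 0) = ((1, 0), (0, 1)) := by
      simp [co, adj]
    rw [h1, act_one]
  rw [hY0] at hfin
  refine hfin.trans (le_of_eq ?_)
  rw [CV, hK, ← hr]
  field_simp

end Pool.Agent.HD
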